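import Mathlib
import Pool.Agent.Lib.MP_551055_al.Trim.LS.PStmts
import Pool.Agent.Lib.MP_551055_al.Trim.LS.Stmts
import Pool.Agent.Lib.MP_551055_al.Trim.N4.Loc_17
import Pool.Agent.Lib.MP_551055_al.Trim.N4.Rules_17
import Pool.Agent.Lib.MP_551055_al.Trim.N4.Stmts
import Pool.Agent.Lib.MP_551055_al.Trim.RI.LiftNil
import Pool.Agent.Lib.MP_551055_al.Trim.RI.Stmts
import Pool.Agent.Lib.MP_551055_al.Trim.W17.Defs
import Pool.Agent.Lib.MP_551055_al.Trim.X.MP_e6f638_al.F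
import Pool.Agent.Lib.MP_551055_al.Trim.X.MP_e6f638_al.GDefs
import Pool.Agent.Lib.MP_551055_al.Trim.X.MP_e6f638_al.I1
import Pool.Agent.Lib.MP_551055_al.Trim.X.MP_e6f638_al.Stmts

/-!
# Label four: definitions and statements of the modules of the mixed case

All labels are half labels. `D : Dat G` are the data of the splitting at `u`; `l i = 2` is label
four. In the mixed case there is `a` with `l a = 2`, and all other labels are two or at least four.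
-/

set_option autoImplicit false

namespace Pool.Agent.Lib.MP_551055_al
end Pool.Agent.Lib.MP_551055_al

namespace Pool.Agent.Lib.MP_e6f638_al
end Pool.Agent.Lib.MP_e6f638_al

namespace Pool.Agent.Lib.MP_551055_al.LS
end Pool.Agent.Lib.MP_551055_al.LS

namespace Pool.Agent.Lib.MP_551055_al.RI
end Pool.Agent.Lib.MP_551055_al.RI

namespace Pool.Agent.Lib.MP_551055_al.N4
end Pool.Agent.Lib.MP_551055_al.N4

namespace Pool.Agent.Lib.MP_551055_al.N5

open Pool.Agent.Lib.MP_551055_al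

open Pool.Agent.Lib.MP_e6f638_al (Dat EA gen par rho del IsDatOf IsAxis)

open Pool.Agent.Lib.MP_551055_al.LS (TreeAct ZN)

open Pool.Agent.Lib.MP_551055_al.RI (BTree stabV LiftData)

open Pool.Agent.Lib.MP_551055_al.N4

open Multiplicative

section

variable {G : Type} [Group G] (D : Dat G)

/-- The subgroup generated by `B` and the `t i b (t j)⁻¹` with `l i = l j = 2`. -/
def MM : Subgroup G :=
  Subgroup.closure ((D.B : Set G) ∪
    {g | ∃ (i j : D.ι) (b : G), D.l i = 2 ∧ D.l j = 2 ∧ b ∈ D.B ∧ g = D.t i * b * (D.t j)⁻¹})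

/-- The conditions of the mixed case. -/
structure Mix (a : D.ι) : Prop where
  la : D.l a = 2
  four : ∀ i, D.l i = 2 ∨ 4 ≤ D.l i
  w : D.W
  wt : ∀ k, ∃ w : G →* Multiplicative ℤ, w (D.t k) = ofAdd 1 ∧ (∀ i, i ≠ k → w (D.t i) = 1) ∧
    ∀ b ∈ D.B, w b = 1
  rt : ∀ k, ∃ ρ : G →* G, ρ (D.t k) = 1 ∧ (∀ i, i ≠ k → ρ (D.t i) = D.t i) ∧ ∀ b ∈ D.B, ρ b = b
  mm : ∀ m ∈ MM D, D.t a * m * (D.t a)⁻¹ ∈ MM D → m ∈ D.B

/-- The facts on words. -/
structure WdM (a : D.ι) : Prop where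
  inj : Function.Injective D.phi
  range : ∀ e : D.E, D.phi e ∈ D.ofG.range → ∃ x : D.h.ker, e = D.inE x
  c1 : ∀ (i : D.ι) (r : ℕ) (g : G), 1 ≤ r → r < D.l i → xi D i ^ r * D.ofG g ∉ RE D
  cS : ∀ g : G, xi D a * D.ofG g * (xi D a)⁻¹ ∈ RE D → g ∈ MM D
  cT : ∀ (i j : D.ι) (r s : ℕ) (g : G), 2 ≤ r → r + 2 ≤ D.l i → 1 ≤ s → s < D.l j →
    xi D i ^ r * D.ofG g * (xi D j ^ s)⁻¹ ∈ RE D →
      i = j ∧ r = s ∧ g ∈ D.B ∧ Commute g (D.t i)

/-- `t a (t k)⁻¹`. -/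
def kk (a k : D.ι) : G := D.t a * (D.t k)⁻¹

/-- The intersection of `E` and its conjugate by `x`. -/
noncomputable def RRM (a : D.ι) : Subgroup D.Ah :=
  Subgroup.closure (D.ofG '' (MM D : Set G) ∪ (Set.range (fun i => xi D i ^ D.l i) ∪
    Set.range fun i => D.ofG (kk D a i) * xi D i ^ D.l i * (D.ofG (kk D a i))⁻¹))

/-- The conclusion of module S1. -/
def S1M (a : D.ι) : Prop := ∀ y ∈ RE D, D.x * y * D.x⁻¹ ∈ RE D → y ∈ RRM D a

/-- The local structure of the tile graphs (`TK`, `Ed` are in `N4/Loc_17.lean`). The vertices are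
of type M: `k e`, of type S: `k e (x a)`, or of type T: `k e (x i) ^ r`, `2 ≤ r ≤ l i - 2`. -/
structure LocM (a : D.ι) : Prop where
  /-- the edges at a vertex of type M -/
  mO : ∀ (k : D.Ah), ∀ e ∈ RE D, ∀ w, Ed D k (pt D (k * e)) w →
    ∃ g : G, D.h g = 1 ∧ w = pt D (k * e * D.ofG g * xi D a)
  mI : ∀ (k : D.Ah), ∀ e ∈ RE D, ∀ w, Ed D k w (pt D (k * e)) →
    ∃ g : G, D.h g = 1 ∧ w = pt D (k * e * D.ofG g * (D.u)⁻¹)
  /-- the edges at a vertex of type S -/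
  sO : ∀ (k : D.Ah), ∀ e ∈ RE D, ∀ w, Ed D k (pt D (k * e * xi D a)) w →
    ∃ m ∈ MM D, ∃ j, (j = a ∨ 4 ≤ D.l j) ∧ w = pt D (k * e * xi D a * D.ofG m * xi D j)
  sI : ∀ (k : D.Ah), ∀ e ∈ RE D, ∀ w, Ed D k w (pt D (k * e * xi D a)) →
    ∃ m ∈ MM D, ∃ j, (j = a ∨ 4 ≤ D.l j) ∧
      w = pt D (k * e * xi D a * D.ofG (m * kk D a j) * (D.u)⁻¹)
  /-- the edges at a vertex of type T -/
  tO : ∀ (k : D.Ah), ∀ e ∈ RE D, ∀ (i : D.ι) (r : ℕ), 2 ≤ r → r + 2 ≤ D.l i → ∀ w,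
    Ed D k (pt D (k * e * xi D i ^ r)) w → w = pt D (k * e * xi D i ^ (r + 1))
  tI : ∀ (k : D.Ah), ∀ e ∈ RE D, ∀ (i : D.ι) (r : ℕ), 2 ≤ r → r + 2 ≤ D.l i → ∀ w,
    Ed D k w (pt D (k * e * xi D i ^ r)) → w = pt D (k * e * xi D i ^ (r - 1))
  /-- all vertices -/
  vt : ∀ (k : D.Ah) (v w : AV D), (TK D k).Adj v w →
    (∃ e ∈ RE D, v = pt D (k * e)) ∨ (∃ e ∈ RE D, v = pt D (k * e * xi D a)) ∨
      ∃ e ∈ RE D, ∃ (i : D.ι) (r : ℕ), 2 ≤ r ∧ r + 2 ≤ D.l i ∧ v = pt D (k * e * xi D i ^ r)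
  /-- the last but one vertex of a tile is of type S -/
  last : ∀ (k : D.Ah), ∀ e ∈ RE D, ∀ i, ∃ e' ∈ RE D,
    pt D (k * e * xi D i ^ (D.l i - 1)) = pt D (k * e' * xi D a)
  /-- the second vertex of a tile is of type S -/
  first : ∀ (k : D.Ah), ∀ e ∈ RE D, ∀ i, ∃ e' ∈ RE D,
    pt D (k * e * xi D i) = pt D (k * e' * xi D a)
  /-- interior vertices are not of type M -/
  nm : ∀ (k : D.Ah), ∀ e ∈ RE D, ∀ (i : D.ι) (r : ℕ), 1 ≤ r → r < D.l i →
    ¬ Mn D k (pt D (k * e * xi D i ^ r))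
  /-- vertices of type T are not of type S -/
  ts : ∀ (k : D.Ah), ∀ e ∈ RE D, ∀ e' ∈ RE D, ∀ (i : D.ι) (r : ℕ), 2 ≤ r → r + 2 ≤ D.l i →
    pt D (k * e * xi D i ^ r) ≠ pt D (k * e' * xi D a)

end

/-- Module W5. Words. -/
def StW5 : Prop := ∀ (G : Type) [Group G] (D : Dat G) (a : D.ι), Mix D a → WdM D a

/-- Module L5. The local structure. -/
def StL5 : Prop := ∀ (G : Type) [Group G] (D : Dat G) (a : D.ι), Mix D a → WdM D a → LocM D a

/-- Module S1. -/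
def StS1M : Prop :=
  ∀ (G : Type) [Group G] (D : Dat G) (a : D.ι), Mix D a → WdM D a → LocM D a → S1M D a

/-- Module S2. -/
def StS2M : Prop :=
  ∀ (G : Type) [Group G] (D : Dat G) (a : D.ι), Mix D a → WdM D a → LocM D a → S2 D

section

variable {G : Type} [Group G] (D : Dat G) (hφ : D.IsPhi D.phi) (hinj : Function.Injective D.phi)

/-- A lift of `Om`: the group `L` with maps of `E` and elements over `T` and `x`. -/
structure LiftOm (L : Type) [Group L] (th : D.E →* L) (T' X' : L) (π : L →* D.Om hφ hinj) :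
    Prop where
  pth : ∀ e, π (th e) = D.oQ hφ hinj (D.phiQ hφ e)
  pT : π T' = D.T hφ hinj
  pX : π X' = D.oQ hφ hinj D.xQ
  tau : ∀ e, T' * th e * T'⁻¹ = th (D.tauE e)
  xc : ∀ e e' : D.E, D.x * D.phi e * D.x⁻¹ = D.phi e' → X' * th e * X'⁻¹ = th e'

end

/-- Module O5. The group `Omega` with a general lift and a general homomorphism `R`. -/
def StO5 : Prop :=
  ∀ (P : ∀ (G : Type) [Group G], Prop), Rules P → ∀ (G : Type) [Group G] (D : Dat G)
    (hφ : D.IsPhi D.phi) (hinj : Function.Injective D.phi) (L : Type) [Group L] (th : D.E →* L)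
    (T' X' : L) (π : L →* D.Om hφ hinj), LiftOm D hφ hinj L th T' X' π → P G → P L →
    ∀ (Q : Type) [Group Q] (R : D.Om hφ hinj →* Q), P Q →
      (∀ q ∈ D.hh.ker, ∀ e : D.E, e ≠ 1 → R (D.oQ hφ hinj (D.phiQ hφ e)) = 1 →
        q⁻¹ * D.phi e * q ∈ RE D → Sp D q) → P (D.Om hφ hinj)

/-- The extension of `G` by `w` with the labels four only (the pure case). -/
structure PureExt {G : Type} [Group G] (D : Dat G) (L : Type) [Group L] (j : G →* L) (w : L) :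
    Prop where
  comm : ∀ b ∈ D.B, Commute w (j b)
  rel : ∀ i, D.l i = 2 → Commute ((j (D.t i) * w) ^ 2) (j (D.t i))
  lift : ∀ (K : Type) [Group K] (f : G →* K) (w' : K), (∀ b ∈ D.B, Commute w' (f b)) →
    (∀ i, D.l i = 2 → Commute ((f (D.t i) * w') ^ 2) (f (D.t i))) →
      ∃ F : L →* K, F.comp j = f ∧ F w = w'

/-- Module LG5. The lift in the mixed case. -/
def StLG5 : Prop :=
  ∀ (P : ∀ (G : Type) [Group G], Prop), Rules P → ∀ (G : Type) [Group G] (D : Dat G) (a : D.ι),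
    Finite D.ι → Mix D a → WdM D a → S1M D a → ∀ (L : Type) [Group L] (j : G →* L) (w : L),
      P L → PureExt D L j w → ∀ (hφ : D.IsPhi D.phi) (hinj : Function.Injective D.phi),
        ∃ (L' : Type) (_ : Group L') (th : D.E →* L') (T' X' : L') (π : L' →* D.Om hφ hinj),
          P L' ∧ LiftOm D hφ hinj L' th T' X' π

/-- Module A5. The conditions of the mixed case for even Artin groups. -/
def StA5 : Prop :=
  ∀ (S : Type) [Finite S] (l : S → S → ℕ), (∀ s t, l s t = l t s) →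
    (∀ s t v : S, s ≠ t → s ≠ v → t ≠ v → ¬ (l s t = 2 ∧ l s v = 2 ∧ l t v = 1)) →
    ∀ u : S, (∀ s, s ≠ u → l u s ≠ 3) → ∀ D : Dat (EA (del l u)), IsDatOf l u D →
      ∀ a : D.ι, D.l a = 2 → Mix D a

/-- Module PE. The pure extension is an even Artin group: the labels at `u` which are at least
three are replaced by infinity. -/
def StPE : Prop :=
  ∀ (S : Type) [Finite S] (l : S → S → ℕ), (∀ s t, l s t = l t s) → ∀ u : S,
    ∀ D : Dat (EA (del l u)), IsDatOf l u D → ∀ l' : S → S → ℕ,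
      (∀ s t, s ≠ u → t ≠ u → l' s t = l s t) → (∀ s, l' u s = if 3 ≤ l u s then 0 else l u s) →
      (∀ s t, l' s t = l' t s) → ∃ j : EA (del l u) →* EA l', PureExt D (EA l') j (gen l' u)

end Pool.Agent.Lib.MP_551055_al.N5
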