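import Mathlib
import Pool.Agent.Lib.MP_551055_al.Trim.EA.LocW
import Pool.Agent.Lib.MP_551055_al.Trim.LS.Stmts
import Pool.Agent.Lib.MP_551055_al.Trim.N4.ArtThree_4
import Pool.Agent.Lib.MP_551055_al.Trim.N5.Stmts
import Pool.Agent.Lib.MP_551055_al.Trim.X.MP_e6f638_al.A
import Pool.Agent.Lib.MP_551055_al.Trim.X.MP_e6f638_al.F
import Pool.Agent.Lib.MP_551055_al.Trim.X.MP_e6f638_al.G2
import Pool.Agent.Lib.MP_551055_al.Trim.X.MP_e6f638_al.H
import Pool.Agent.Lib.MP_551055_al.Trim.X.MP_e6f638_al.I1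
import Pool.Agent.Lib.MP_551055_al.Trim.X.MP_e6f638_al.I2
import Pool.Agent.Lib.MP_551055_al.Trim.X.MP_e6f638_al.I3
import Pool.Agent.Lib.MP_551055_al.Trim.X.MP_e6f638_al.Stmts

/-!
# Module A5: the conditions of the mixed case for even Artin groups
-/

set_option autoImplicit false

namespace Pool.Agent.Lib.MP_551055_al
end Pool.Agent.Lib.MP_551055_al

namespace Pool.Agent.Lib.MP_e6f638_al
end Pool.Agent.Lib.MP_e6f638_al

namespace Pool.Agent.Lib.MP_551055_al.N4
end Pool.Agent.Lib.MP_551055_al.N4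

namespace Pool.Agent.Lib.MP_e6f638_al.I3
end Pool.Agent.Lib.MP_e6f638_al.I3

namespace Pool.Agent.Lib.MP_551055_al.N5

open Pool.Agent.Lib.MP_551055_al

open Pool.Agent.Lib.MP_e6f638_al (Dat EA gen par rho del IsDatOf IsAxis stI1 stI2 stH stG2 stF stI3 Letter wprod IsRed defects)

open Pool.Agent.Lib.MP_551055_al.N4

open Multiplicative

namespace A5

open Pool.Agent.Lib.MP_e6f638_al.I3

section

variable {G : Type} [Group G] (D : Dat G)

/-- The elements with a reduced word whose first sign is `ε` and whose last sign is `δ`. -/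
def NN (ε δ : ℤˣ) : Set G :=
  {g | ∃ b₀ ∈ D.B, ∃ L : List (D.ι × ℤˣ × G), g = b₀ * tw D L ∧
    (∀ p ∈ L, D.l p.1 = 2 ∧ p.2.2 ∈ D.B) ∧ L.IsChain (Alt D) ∧
    (∀ p ∈ L.head?, p.2.1 = ε) ∧ (∀ p ∈ L.getLast?, p.2.1 = δ) ∧ (L = [] → ε = -δ)}

theorem NN_B {ε δ : ℤˣ} {b g : G} (hb : b ∈ D.B) (hg : g ∈ NN D ε δ) : b * g ∈ NN D ε δ := by
  obtain ⟨b₀, h0, L, rfl, h1⟩ := hg
  exact ⟨b * b₀, mul_mem hb h0, L, by rw [mul_assoc], h1⟩

theorem NN_t {ε δ : ℤˣ} {i : D.ι} (hi : D.l i = 2) {g : G} (hg : g ∈ NN D ε δ) :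
    D.t i ^ ((-ε : ℤˣ) : ℤ) * g ∈ NN D (-ε) δ := by
  obtain ⟨b₀, h0, L, rfl, h1, h2, h3, h4, h5⟩ := hg
  cases L with
  | nil =>
    refine ⟨1, one_mem _, [(i, -ε, b₀)], by simp [tw], ?_, by simp, by simp, ?_, by simp⟩
    · intro p hp
      rw [List.mem_singleton] at hp
      subst hp
      exact ⟨hi, h0⟩
    · intro p hp
      simp only [List.getLast?_singleton, Option.mem_def, Option.some.injEq] at hp
      subst hp
      change -ε = δ
      rw [h5 rfl, neg_neg]
  | cons p L =>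
    have hp : p.2.1 = ε := h3 p (by simp)
    by_cases h : i = p.1 ∧ Commute b₀ (D.t i)
    · obtain ⟨rfl, hc⟩ := h
      refine ⟨b₀ * p.2.2, mul_mem h0 (h1 p (by simp)).2, L, ?_,
        fun q hq => h1 q (by simp [hq]), ?_, ?_, ?_, ?_⟩
      · rw [tw_cons, hp]
        have hc' : Commute b₀ (D.t p.1 ^ (ε : ℤ)) := hc.zpow_right _
        rw [Units.val_neg, zpow_neg]
        calc (D.t p.1 ^ (ε : ℤ))⁻¹ * (b₀ * (D.t p.1 ^ (ε : ℤ) * p.2.2 * tw D L))
            = (D.t p.1 ^ (ε : ℤ))⁻¹ * (b₀ * D.t p.1 ^ (ε : ℤ)) * p.2.2 * tw D L := by group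
          _ = _ := by rw [hc'.eq]; group
      · exact h2.tail
      · intro q hq
        cases L with
        | nil => simp at hq
        | cons r L =>
          simp only [List.head?_cons, Option.mem_def, Option.some.injEq] at hq
          subst hq
          rw [List.isChain_cons_cons] at h2
          rw [h2.1.1, hp]
      · intro q hq
        refine h4 q ?_
        cases L with
        | nil => simp at hq
        | cons r L => rwa [List.getLast?_cons_cons]
      · rintro rfl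
        have h6 := h4 p (by simp)
        rw [← hp, h6]
    · refine ⟨1, one_mem _, (i, -ε, b₀) :: p :: L, ?_, ?_, ?_, by simp, ?_, by simp⟩
      · rw [tw_cons D (i, -ε, b₀)]
        group
      · intro q hq
        rcases List.mem_cons.1 hq with rfl | hq
        · exact ⟨hi, h0⟩
        · exact h1 q hq
      · rw [List.isChain_cons_cons]
        refine ⟨⟨?_, fun h6 h7 => h ⟨h6, h7⟩⟩, h2⟩
        change p.2.1 = - -ε
        rw [neg_neg, hp]
      · intro q hq
        refine h4 q ?_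
        rwa [List.getLast?_cons_cons] at hq

theorem NN_gen {δ : ℤˣ} {i j : D.ι} (hi : D.l i = 2) (hj : D.l j = 2) {b : G} (hb : b ∈ D.B)
    {g : G} (hg : g ∈ NN D 1 δ) : D.t i * b * (D.t j)⁻¹ * g ∈ NN D 1 δ := by
  have h1 := NN_t D hj hg
  have h2 := NN_t D hi (NN_B D hb h1)
  rw [neg_neg] at h2
  have h3 : D.t i * b * (D.t j)⁻¹ * g =
      D.t i ^ ((1 : ℤˣ) : ℤ) * (b * (D.t j ^ ((-1 : ℤˣ) : ℤ) * g)) := by
    simp [mul_assoc]
  rw [h3]
  exact h2

theorem NN_MM {δ : ℤˣ} {m : G} (hm : m ∈ MM D) :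
    (∀ g ∈ NN D 1 δ, m * g ∈ NN D 1 δ) ∧ ∀ g ∈ NN D 1 δ, m⁻¹ * g ∈ NN D 1 δ := by
  unfold MM at hm
  induction hm using Subgroup.closure_induction with
  | mem x hx =>
    rcases hx with hx | ⟨i, j, b, hi, hj, hb, rfl⟩
    · exact ⟨fun g hg => NN_B D hx hg, fun g hg => NN_B D (inv_mem hx) hg⟩
    · refine ⟨fun g hg => NN_gen D hi hj hb hg, fun g hg => ?_⟩
      have h1 := NN_gen D hj hi (inv_mem hb) hg
      have h2 : (D.t i * b * (D.t j)⁻¹)⁻¹ = D.t j * b⁻¹ * (D.t i)⁻¹ := by group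
      rw [h2]
      exact h1
  | one => simp
  | mul x y _ _ hx hy =>
    refine ⟨fun g hg => ?_, fun g hg => ?_⟩
    · rw [mul_assoc]
      exact hx.1 _ (hy.1 g hg)
    · rw [mul_inv_rev, mul_assoc]
      exact hy.2 _ (hx.2 g hg)
  | inv x _ hx => exact ⟨hx.2, by rw [inv_inv]; exact hx.1⟩

theorem one_mem_NN (ε : ℤˣ) : (1 : G) ∈ NN D ε (-ε) :=
  ⟨1, one_mem _, [], by simp [tw], by simp, by simp, by simp, by simp, by simp⟩

theorem t_mem_NN {i : D.ι} (hi : D.l i = 2) (ε : ℤˣ) : D.t i ^ (ε : ℤ) ∈ NN D ε ε := by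
  have h1 := NN_t D hi (one_mem_NN D (-ε))
  rw [neg_neg, mul_one] at h1
  exact h1

/-- Reduced pairs of letters. -/
def Rd (a b : D.ι × ℤˣ × G) : Prop := a.1 = b.1 → a.2.1 = -b.2.1 → ¬ Commute a.2.2 (D.t a.1)

theorem defects_append (A B : List ℤˣ) : defects (A ++ B) ≤ defects A + defects B + 1 := by
  induction A with
  | nil => simp [defects]
  | cons a A ih =>
    cases A with
    | nil =>
      cases B with
      | nil => simp [defects]
      | cons b B =>
        simp only [List.cons_append, List.nil_append, defects]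
        split_ifs <;> omega
    | cons c A =>
      simp only [List.cons_append, defects] at ih ⊢
      omega

/-- The last coefficient may be changed. -/
theorem exists_last {L : List (D.ι × ℤˣ × G)} (hL : L ≠ []) {c : G} (hc : c ∈ D.B)
    (h1 : ∀ p ∈ L, D.l p.1 = 2 ∧ p.2.2 ∈ D.B) (h2 : L.IsChain (Alt D)) {δ : ℤˣ}
    (h3 : ∀ p ∈ L.getLast?, p.2.1 = δ) :
    ∃ M : List (D.ι × ℤˣ × G), M ≠ [] ∧ tw D M = tw D L * c ∧
      (∀ p ∈ M, D.l p.1 = 2 ∧ p.2.2 ∈ D.B) ∧ M.IsChain (Alt D) ∧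
      (∀ p ∈ M.getLast?, p.2.1 = δ) := by
  obtain ⟨L', p, rfl⟩ := List.eq_nil_or_concat' L |>.resolve_left hL
  refine ⟨L' ++ [(p.1, p.2.1, p.2.2 * c)], by simp, ?_, ?_, ?_, ?_⟩
  · rw [tw_append, tw_append]
    simp [tw, mul_assoc]
  · intro q hq
    rcases List.mem_append.1 hq with hq | hq
    · exact h1 q (by simp [hq])
    · rw [List.mem_singleton] at hq
      subst hq
      exact ⟨(h1 p (by simp)).1, mul_mem (h1 p (by simp)).2 hc⟩
  · rw [List.isChain_append] at h2 ⊢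
    refine ⟨h2.1, by simp, fun x hx y hy => ?_⟩
    have h4 := h2.2.2 x hx p (by simp)
    simp only [List.head?_cons, Option.mem_def, Option.some.injEq] at hy
    subst hy
    exact h4
  · intro q hq
    simp only [List.getLast?_append, List.getLast?_singleton, Option.some_or, Option.mem_def,
      Option.some.injEq] at hq
    subst hq
    exact h3 p (by simp)

theorem mm_core (star : ∀ L : List (D.ι × ℤˣ × G), L ≠ [] →
      (∀ p ∈ L, D.l p.1 = 2 ∧ p.2.2 ∈ D.B) → L.IsChain (Rd D) →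
      defects (L.map fun p => p.2.1) ≤ 1 → tw D L ∉ D.B) {a : D.ι} (ha : D.l a = 2) {m : G}
    (hm : m ∈ MM D) (hm' : D.t a * m * (D.t a)⁻¹ ∈ MM D) : m ∈ D.B := by
  have e1 : m⁻¹ ∈ NN D 1 (-1) := by
    have h1 := (NN_MM D hm).2 1 (one_mem_NN D 1)
    rwa [mul_one] at h1
  have e2 : m ∈ NN D (-1) 1 := by
    have h1 := (NN_MM D hm').1 _ (t_mem_NN D ha 1)
    have h2 := NN_t D ha h1
    have h3 : D.t a ^ ((-1 : ℤˣ) : ℤ) * (D.t a * m * (D.t a)⁻¹ * D.t a ^ ((1 : ℤˣ) : ℤ)) = m := by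
      simp
    rw [h3] at h2
    exact h2
  obtain ⟨b, hb, L, h1, h2, h3, h4, h5, _⟩ := e1
  obtain ⟨c, hc, M, k1, k2, k3, k4, k5, _⟩ := e2
  by_cases hL : L = []
  · subst hL
    rw [tw_nil, mul_one] at h1
    rw [← inv_inv m, h1]
    exact inv_mem hb
  by_cases hM : M = []
  · subst hM
    rw [tw_nil, mul_one] at k1
    rw [k1]
    exact hc
  exfalso
  obtain ⟨N, n1, n2, n3, n4, n5⟩ := exists_last D hL hc h2 h3 h5
  refine star (N ++ M) (by simp [n1]) ?_ ?_ ?_ ?_
  · intro p hp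
    rcases List.mem_append.1 hp with hp | hp
    · exact n3 p hp
    · exact k2 p hp
  · rw [List.isChain_append]
    refine ⟨n4.imp fun x y h h6 _ => h.2 h6, k3.imp fun x y h h6 _ => h.2 h6,
      fun x hx y hy _ h6 => ?_⟩
    rw [n5 x hx, k4 y hy] at h6
    exact absurd h6 (by decide)
  · rw [List.map_append]
    refine (defects_append _ _).trans ?_
    have h6 : ∀ K : List (D.ι × ℤˣ × G), K.IsChain (Alt D) →
        defects (K.map fun p => p.2.1) = 0 := by
      intro K hK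
      apply defects_alt
      rw [List.isChain_map]
      exact hK.imp fun a b hab => hab.1
    rw [h6 N n4, h6 M k3]
  · rw [tw_append, n2]
    have h6 : tw D L * c * tw D M = b⁻¹ := by
      have h7 : b * (tw D L * c * tw D M) = 1 := by
        rw [← inv_mul_cancel m, h1, k1]
        group
      exact eq_inv_of_mul_eq_one_right h7
    rw [h6]
    exact inv_mem hb

end

/-- Words all of whose letters have half label two, with at most one repeated sign. -/
theorem starL {S : Type} [Finite S] (l : S → S → ℕ) (hsymm : ∀ s t, l s t = l t s)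
    (u : S) (hno : Pool.Agent.Lib.MP_551055_al.EA.Loc1 l u) (D : Dat (EA (del l u)))
    (hD : IsDatOf l u D)
    (L : List (D.ι × ℤˣ × EA (del l u))) (hL0 : L ≠ [])
    (hL : ∀ p ∈ L, D.l p.1 = 2 ∧ p.2.2 ∈ D.B) (hch : L.IsChain (Rd D))
    (hdef : defects (L.map fun p => p.2.1) ≤ 1) : tw D L ∉ D.B := by
  classical
  choose s hs hls using hD.t
  have hsymm' : ∀ a b, del l u a b = del l u b a := fun a b => hsymm a b
  have hsinj : Function.Injective s := by
    intro a b hab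
    apply hD.inj
    rw [hs, hs, hab]
  let X : Set {x : S // x ≠ u} := {x | l u x = 1 ∨ l u x = 2}
  let lX : X → X → ℕ := fun a b => del l u a b
  obtain ⟨j, hj, hjinj⟩ := (stI1 _ (del l u) hsymm').2.2.2 X
  let N : Set X := {x | l u ((x : {x : S // x ≠ u}) : S) = 2}
  have hB : D.B = (par lX Nᶜ).map j := by
    rw [hD.B, par, par, MonoidHom.map_closure]
    congr 1
    ext y
    constructor
    · rintro ⟨c, hc, rfl⟩
      have hc' : l u c = 1 := hc
      refine ⟨gen lX ⟨c, Or.inl hc'⟩, ⟨⟨c, Or.inl hc'⟩, ?_, rfl⟩, hj _⟩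
      intro h2
      have h3 : l u (c : S) = 2 := h2
      omega
    · rintro ⟨_, ⟨x, hx, rfl⟩, rfl⟩
      refine ⟨x, ?_, (hj x).symm⟩
      rcases x.2 with h2 | h2
      · exact h2
      · exact absurd h2 hx
  have hβ : ∀ g : EA (del l u), g ∈ D.B → ∃ y ∈ par lX Nᶜ, j y = g := by
    intro g hg
    rw [hB] at hg
    exact Subgroup.mem_map.1 hg
  choose! β hβ1 hβ2 using hβ
  obtain ⟨p₀, hp₀⟩ := List.exists_mem_of_ne_nil L hL0
  have hx₀ : l u (s p₀.1) = 2 := (hls _).trans (hL p₀ hp₀).1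
  let F : D.ι × ℤˣ × EA (del l u) → Letter lX := fun p =>
    (if h : l u (s p.1) = 2 then ⟨s p.1, Or.inr h⟩ else ⟨s p₀.1, Or.inr hx₀⟩, p.2.1, β p.2.2)
  have hF : ∀ p, D.l p.1 = 2 → (((F p).1 : X) : {x : S // x ≠ u}) = s p.1 := by
    intro p hp
    have h2 : l u (s p.1) = 2 := (hls _).trans hp
    simp only [F, dif_pos h2]
  have hFN : ∀ p, D.l p.1 = 2 → (F p).1 ∈ N := by
    intro p hp
    change l u (((F p).1 : X) : {x : S // x ≠ u}) = 2
    rw [hF p hp]
    exact (hls _).trans hp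
  have hw : j (wprod lX (L.map F)) = tw D L := by
    unfold wprod tw
    rw [map_list_prod, List.map_map, List.map_map]
    congr 1
    refine List.map_congr_left fun p hp => ?_
    change j (gen lX (F p).1 ^ ((F p).2.1 : ℤ) * (F p).2.2) = D.t p.1 ^ (p.2.1 : ℤ) * p.2.2
    rw [map_mul, map_zpow, hj, hF p (hL p hp).1, ← hs]
    congr 1
    exact hβ2 _ (hL p hp).2
  have hnot := stH (stG2 stF) stI1 stI2 X lX (fun a b => hsymm _ _) N ?_ ?_ (L.map F) ?_
    ⟨?_, ?_⟩ ?_
  · intro hmem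
    rw [hB] at hmem
    obtain ⟨y, hy, hjy⟩ := Subgroup.mem_map.1 hmem
    rw [← hw] at hjy
    rw [hjinj hjy] at hy
    exact hnot hy
  · intro a ha b hb hab h2
    have ha' : l u ((a : {x : S // x ≠ u}) : S) = 2 := ha
    have hb' : l u ((b : {x : S // x ≠ u}) : S) = 2 := hb
    refine (hno a b a.1.2 b.1.2 ?_).1 ⟨ha', hb', h2⟩
    intro h3
    exact hab (Subtype.ext (Subtype.ext h3))
  · intro a ha c hc h2
    have ha' : l u ((a : {x : S // x ≠ u}) : S) = 2 := ha
    have hc' : l u ((c : {x : S // x ≠ u}) : S) = 1 := by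
      rcases c.2 with h3 | h3
      · exact h3
      · exact absurd h3 hc
    refine (hno a c a.1.2 c.1.2 ?_).2 ⟨by rw [hsymm]; exact ha', h2, hc'⟩
    intro h3
    apply hc
    have h4 : a = c := Subtype.ext (Subtype.ext h3)
    rw [← h4]
    exact ha
  · simpa using hL0
  · intro q hq
    obtain ⟨p, hp, rfl⟩ := List.mem_map.1 hq
    exact ⟨hFN p (hL p hp).1, hβ1 _ (hL p hp).2⟩
  · rw [List.isChain_map]
    refine hch.imp_of_mem_imp fun a b ha hb hab h2 h3 => ?_
    have h4 : a.1 = b.1 := by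
      apply hsinj
      rw [← hF a (hL a ha).1, ← hF b (hL b hb).1, h2]
    refine fun h5 => hab h4 h3 ?_
    have h6 := h5.map j
    have h7 : j (F a).2.2 = a.2.2 := hβ2 _ (hL a ha).2
    rw [h7, hj, hF a (hL a ha).1, ← hs] at h6
    exact h6
  · have h2 : ((L.map F).map fun p => p.2.1) = L.map fun p => p.2.1 := by
      rw [List.map_map]
      rfl
    rw [h2]
    exact hdef

/-- Words all of whose letters have half label two, with at most one repeated sign. -/
theorem star {S : Type} [Finite S] (l : S → S → ℕ) (hsymm : ∀ s t, l s t = l t s)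
    (hno : ∀ s t v : S, s ≠ t → s ≠ v → t ≠ v → ¬ (l s t = 2 ∧ l s v = 2 ∧ l t v = 1))
    (u : S) (D : Dat (EA (del l u))) (hD : IsDatOf l u D)
    (L : List (D.ι × ℤˣ × EA (del l u))) (hL0 : L ≠ [])
    (hL : ∀ p ∈ L, D.l p.1 = 2 ∧ p.2.2 ∈ D.B) (hch : L.IsChain (Rd D))
    (hdef : defects (L.map fun p => p.2.1) ≤ 1) : tw D L ∉ D.B :=
  starL l hsymm u (fun s t hs ht hst => ⟨hno u s t hs.symm ht.symm hst, hno s u t hs hst ht.symm⟩)
    D hD L hL0 hL hch hdef

end A5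

/-- Module A5 with a local hypothesis. -/
theorem stA5L {S : Type} [Finite S] (l : S → S → ℕ) (hsymm : ∀ s t, l s t = l t s) (u : S)
    (hno : Pool.Agent.Lib.MP_551055_al.EA.Loc1 l u) (h3 : ∀ s, s ≠ u → l u s ≠ 3)
    (D : Dat (EA (del l u))) (hD : IsDatOf l u D) (a : D.ι) (ha : D.l a = 2) : Mix D a := by
  refine ⟨ha, fun i => ?_, ?_, Art4.wt hsymm hD, Art4.rt hsymm hD, fun m hm hm' =>
    A5.mm_core D (A5.starL l hsymm u hno D hD) ha hm hm'⟩
  · obtain ⟨s, _, hs⟩ := hD.t i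
    have h1 := D.two_le i
    have h2 := h3 s s.2
    omega
  · exact Pool.Agent.Lib.MP_551055_al.EA.w_of_loc l hsymm u (Or.inl hno) D hD

theorem loc1_of {S : Type} {l : S → S → ℕ}
    (hno : ∀ s t v : S, s ≠ t → s ≠ v → t ≠ v → ¬ (l s t = 2 ∧ l s v = 2 ∧ l t v = 1)) (u : S) :
    Pool.Agent.Lib.MP_551055_al.EA.Loc1 l u := fun s t hs ht hst =>
  ⟨hno u s t hs.symm ht.symm hst, hno s u t hs hst ht.symm⟩

/-- Module A5. -/
theorem stA5 : StA5 := by
  intro S _ l hsymm hno u h3 D hD a ha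
  exact stA5L l hsymm u (loc1_of hno u) h3 D hD a ha

end Pool.Agent.Lib.MP_551055_al.N5
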