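import Mathlib
import Pool.Agent.Lib.MP_551055_al.Trim.LS.PStmts
import Pool.Agent.Lib.MP_551055_al.Trim.LS.Ray
import Pool.Agent.Lib.MP_551055_al.Trim.LS.Stmts
import Pool.Agent.Lib.MP_551055_al.Trim.MT.Defs
import Pool.Agent.Lib.MP_551055_al.Trim.N4.Rules_17
import Pool.Agent.Lib.MP_551055_al.Trim.N5.Stmts
import Pool.Agent.Lib.MP_551055_al.Trim.RI.LiftNil
import Pool.Agent.Lib.MP_551055_al.Trim.RI.Stmts
import Pool.Agent.Lib.MP_551055_al.Trim.X.MP_e6f638_al.I1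
import Pool.Agent.Lib.MP_551055_al.Trim.X.MP_e6f638_al.Stmts

/-!
# All labels four: definitions and statements of the modules

`D : Dat G` are the data of the splitting at `u`, all labels are four and `B` is trivial. `Γ` is
`⟨G, z i | z i commutes with t i⟩`, and the extension of `G` by `u` is an amalgam of `Γ` and a
subgroup `R` of `Ah` over the group `DD`, which has index two in `R`.
-/

set_option autoImplicit false

namespace Pool.Agent.Lib.MP_551055_al
end Pool.Agent.Lib.MP_551055_al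

namespace Pool.Agent.Lib.MP_e6f638_al
end Pool.Agent.Lib.MP_e6f638_al

namespace Pool.Agent.Lib.MP_551055_al.LS
end Pool.Agent.Lib.MP_551055_al.LS

namespace Pool.Agent.Lib.MP_551055_al.RI
end Pool.Agent.Lib.MP_551055_al.RI

namespace Pool.Agent.Lib.MP_551055_al.N4
end Pool.Agent.Lib.MP_551055_al.N4

namespace Pool.Agent.Lib.MP_551055_al.N5
end Pool.Agent.Lib.MP_551055_al.N5

namespace Pool.Agent.Lib.MP_551055_al.N5K

open Pool.Agent.Lib.MP_551055_al

open Pool.Agent.Lib.MP_e6f638_al (Dat EA gen par rho del IsDatOf IsAxis)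

open Pool.Agent.Lib.MP_551055_al.LS (TreeAct ZN)

open Pool.Agent.Lib.MP_551055_al.RI (BTree stabV LiftData)

open Pool.Agent.Lib.MP_551055_al.N4

open Pool.Agent.Lib.MP_551055_al.N5 (MM Mix)

open Multiplicative

section

variable {G : Type} [Group G] (D : Dat G)

/-- All labels are four, `B` is trivial. -/
structure Four (a : D.ι) : Prop where
  B : D.B = ⊥
  l : ∀ i, D.l i = 2
  w : D.W
  mm : ∀ m ∈ MM D, D.t a * m * (D.t a)⁻¹ ∈ MM D → m = 1

/-- The heights lemma. -/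
def HN : Prop :=
  ∀ (i j : D.ι) (n : ℤ), 2 ≤ |n| → ∀ m ∈ MM D, D.t i ^ n * m * (D.t j ^ n)⁻¹ ∈ MM D →
    i = j ∧ m = 1

/-- `Γ` is the extension of `G` by elements `z i` commuting with `t i`. -/
structure ZExt (Γ : Type) [Group Γ] (j : G →* Γ) (z : D.ι → Γ) : Prop where
  comm : ∀ i, Commute (z i) (j (D.t i))
  gen : Subgroup.closure (Set.range j ∪ Set.range z) = ⊤
  lift : ∀ (K : Type) [Group K] (f : G →* K) (z' : D.ι → K),
    (∀ i, Commute (z' i) (f (D.t i))) → ∃ F : Γ →* K, F.comp j = f ∧ ∀ i, F (z i) = z' i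

/-- The Bass-Serre tree of `Γ`, with base vertex `v₀`. -/
structure ZTree {Γ : Type} [Group Γ] (j : G →* Γ) (z : D.ι → Γ) (V : Type) [MulAction Γ V]
    (T : SimpleGraph V) (v₀ : V) : Prop where
  act : TreeAct Γ V T
  stab : ∀ g : Γ, g • v₀ = v₀ ↔ g ∈ j.range
  surj : ∀ v : V, ∃ g : Γ, v = g • v₀
  adj : ∀ w : V, T.Adj v₀ w ↔ ∃ (g : G) (i : D.ι) (ε : ℤˣ), w = (j g * z i ^ (ε : ℤ)) • v₀
  uniq : ∀ (g g' : G) (i i' : D.ι) (ε ε' : ℤˣ),
    (j g * z i ^ (ε : ℤ)) • v₀ = (j g' * z i' ^ (ε' : ℤ)) • v₀ →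
      i = i' ∧ ε = ε' ∧ g⁻¹ * g' ∈ Subgroup.zpowers (D.t i)

/-- The subgroup `DD` of `Γ`. -/
def DD {Γ : Type} [Group Γ] (j : G →* Γ) (z : D.ι → Γ) : Subgroup Γ :=
  Subgroup.closure (j '' (MM D : Set G) ∪ Set.range z)

/-- The subgroup generated by the `z i`. -/
def ZZ {Γ : Type} [Group Γ] (z : D.ι → Γ) : Subgroup Γ := Subgroup.closure (Set.range z)

end

/-- Module ZT. The tree of `Γ`. -/
def StZT : Prop :=
  ∀ (G : Type) [Group G] (D : Dat G) (Γ : Type) [Group Γ] (j : G →* Γ) (z : D.ι → Γ),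
    ZExt D Γ j z → ∃ (V : Type) (_ : MulAction Γ V) (T : SimpleGraph V) (v₀ : V),
      ZTree D j z V T v₀

/-- Module T2. The intersection of `DD` and its conjugate by `t a`. -/
def StT2 : Prop :=
  ∀ (G : Type) [Group G] (D : Dat G) (a : D.ι), Four D a →
    ∀ (Γ : Type) [Group Γ] (j : G →* Γ) (z : D.ι → Γ), ZExt D Γ j z →
      ∀ y ∈ DD D j z, j (D.t a) * y * (j (D.t a))⁻¹ ∈ DD D j z → y ∈ ZZ D z

/-- Module T1. Two fixed edges at one vertex. -/
def StT1 : Prop :=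
  ∀ (G : Type) [Group G] (D : Dat G) (a : D.ι), Four D a → HN D →
    ∀ (Γ : Type) [Group Γ] (j : G →* Γ) (z : D.ι → Γ), ZExt D Γ j z →
      ∀ ret : Γ →* G, ret.comp j = MonoidHom.id G → (∀ i, ret (z i) = D.t i ^ 2) →
        ∀ k y : Γ, y ∈ DD D j z → y ≠ 1 → ret y = 1 → k⁻¹ * y * k ∈ DD D j z →
          k ∈ DD D j z ∨
          (∃ δ ∈ DD D j z, ∃ δ' ∈ DD D j z, k = δ * (j (D.t a))⁻¹ * δ' ∧
            δ⁻¹ * y * δ ∈ ZZ D z) ∨
          ∃ δ ∈ DD D j z, ∃ δ' ∈ DD D j z, k = δ * j (D.t a) * δ' ∧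
            (j (D.t a))⁻¹ * δ⁻¹ * y * δ * j (D.t a) ∈ ZZ D z

/-! ## Reduced words in amalgams -/

section

variable {A : Type} [Group A]

/-- Reduced words: `Wd X C s e g`, the element `g` is a product of elements which are in turn
elements of `X true` and `X false` outside `C`, the first one is in `X s`, the last one is in
`X e`. -/
inductive Wd (X : Bool → Subgroup A) (C : Subgroup A) : Bool → Bool → A → Prop
  | one (s : Bool) (g : A) : g ∈ X s → g ∉ C → Wd X C s s g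
  | cons (s e : Bool) (g g' : A) : g ∈ X s → g ∉ C → Wd X C (!s) e g' → Wd X C s e (g * g')

/-- `A` is the amalgam of `X true` and `X false` over `C`. -/
structure Amal (X : Bool → Subgroup A) (C : Subgroup A) : Prop where
  le : ∀ s, C ≤ X s
  cases : ∀ g, g ∈ C ∨ ∃ s e, Wd X C s e g
  nt : ∀ s e g, Wd X C s e g → g ∉ C

/-- The consequences for reduced words. -/
structure AmalW (X : Bool → Subgroup A) (C : Subgroup A) : Prop where
  inv : ∀ s e g, Wd X C s e g → Wd X C e s g⁻¹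
  mul : ∀ s e e' g g', Wd X C s e g → Wd X C (!e) e' g' → Wd X C s e' (g * g')
  uniq : ∀ s e s' e' g, Wd X C s e g → Wd X C s' e' g → s = s' ∧ e = e'
  mulC : ∀ s e g, ∀ c ∈ C, Wd X C s e g → Wd X C s e (c * g) ∧ Wd X C s e (g * c)
  /-- right multiplication by an element of the last factor -/
  mulX : ∀ s e g, Wd X C s e g → s ≠ e → ∀ x ∈ X e, ∃ e', Wd X C s e' (g * x)
  /-- left multiplication by an element of the first factor -/
  Xmul : ∀ s e g, Wd X C s e g → s ≠ e → ∀ x ∈ X s, ∃ s', Wd X C s' e (x * g)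
  /-- the elements of the factors -/
  mem : ∀ s s' e g, g ∈ X s → Wd X C s' e g → s' = s ∧ e = s
  /-- an element of `C` which is conjugated into `C` is conjugated into `C` by the first letter -/
  pre : ∀ s e x g, x ∈ X s → x ∉ C → Wd X C (!s) e g → ∀ y ∈ C,
    (x * g)⁻¹ * y * (x * g) ∈ C → x⁻¹ * y * x ∈ C

end

/-- Module AW. Reduced words. -/
def StAW : Prop :=
  ∀ (A : Type) [Group A] (X : Bool → Subgroup A) (C : Subgroup A), Amal X C → AmalW X C

/-- Module AP. Pushouts and their trees. -/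
def StAP : Prop :=
  ∀ (H : Type) [Group H] (Gr : Bool → Type) [∀ s, Group (Gr s)] (φ : ∀ s, H →* Gr s),
    (∀ s, Function.Injective (φ s)) →
    Amal (fun s => (Monoid.PushoutI.of (φ := φ) s).range) (Monoid.PushoutI.base φ).range ∧
    (∀ s, Function.Injective (Monoid.PushoutI.of (φ := φ) s)) ∧
    ∃ t : BTree (Monoid.PushoutI φ),
      (∀ v : t.V, ∃ (s : Bool) (g : Monoid.PushoutI φ),
        ∀ x ∈ MulAction.stabilizer (Monoid.PushoutI φ) v,
          g⁻¹ * x * g ∈ (Monoid.PushoutI.of (φ := φ) s).range) ∧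
      ∀ u v : t.V, t.T.Adj u v → ∃ g : Monoid.PushoutI φ, ∀ x,
        x ∈ MulAction.stabilizer (Monoid.PushoutI φ) (u, v) ↔
          g⁻¹ * x * g ∈ (Monoid.PushoutI.base φ).range

/-! ## The amalgam -/

section

variable {G : Type} [Group G] (D : Dat G) (a : D.ι) {Γ : Type} [Group Γ] (j : G →* Γ)
  (z : D.ι → Γ) {A : Type} [Group A] (iΓ : Γ →* A)

/-- The group `DD` in `A`. -/
def CC : Subgroup A := (DD D j z).map iΓ

/-- The factors. -/
def XX (R : Subgroup A) : Bool → Subgroup A := fun s => if s then iΓ.range else R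

/-- The amalgam of `Γ` and `R` over `DD`. -/
structure Amg (R : Subgroup A) (x : A) : Prop where
  injΓ : Function.Injective iΓ
  amal : Amal (XX iΓ R) (CC D j z iΓ)
  /-- `R` embeds in `Ah` -/
  emb : ∃ ρ : R →* D.Ah, Function.Injective ρ
  xR : x ∈ R
  xC : x ∉ CC D j z iΓ
  two : ∀ r ∈ R, r ∈ CC D j z iΓ ∨ ∃ c ∈ CC D j z iΓ, r = c * x
  norm : ∀ r ∈ R, ∀ c ∈ CC D j z iΓ, r⁻¹ * c * r ∈ CC D j z iΓ
  sq : ∀ i, (iΓ (j (D.t i * (D.t a)⁻¹)) * x) ^ 2 = iΓ (z i)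
  fix : ∀ m ∈ MM D, ∀ g : G, x * iΓ (j m) * x⁻¹ = iΓ (j g) → m = 1
  ret : ∃ ret : A →* G, (ret.comp iΓ).comp j = MonoidHom.id G ∧
    (∀ i, ret (iΓ (z i)) = D.t i ^ 2) ∧ ret x = D.t a
  tree : ∃ t : BTree A,
    (∀ v : t.V, ∃ (s : Bool) (g : A), ∀ x ∈ MulAction.stabilizer A v,
      g⁻¹ * x * g ∈ XX iΓ R s) ∧
    ∀ u v : t.V, t.T.Adj u v → ∃ g : A, ∀ x, x ∈ MulAction.stabilizer A (u, v) ↔
      g⁻¹ * x * g ∈ CC D j z iΓ
  /-- the extension of `G` by `u` embeds in `A` -/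
  ext : ∀ (A' : Type) [Group A'] (i' : G →* A') (v' : A'), D.IsExt A' i' v' →
    ∃ F : A' →* A, Function.Injective F ∧ F.comp i' = iΓ.comp j ∧
      F v' = (iΓ (j (D.t a)))⁻¹ * x

end

/-- Module EX. Existence of the amalgam. -/
def StEX : Prop :=
  ∀ (G : Type) [Group G] (D : Dat G) (a : D.ι), Four D a →
    ∃ (Γ : Type) (_ : Group Γ) (j : G →* Γ) (z : D.ι → Γ), ZExt D Γ j z ∧
      ∃ (A : Type) (_ : Group A) (iΓ : Γ →* A) (R : Subgroup A) (x : A), Amg D a j z iΓ R x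

/-- Module GP. The group `Γ` is in the class. -/
def StGP : Prop :=
  ∀ (P : ∀ (G : Type) [Group G], Prop), Rules P → ∀ (G : Type) [Group G] (D : Dat G),
    Finite D.ι → ∀ (Γ : Type) [Group Γ] (j : G →* Γ) (z : D.ι → Γ), ZExt D Γ j z → P G → P Γ

/-- Module MP. The amalgam is in the class. -/
def StMP : Prop :=
  ∀ (P : ∀ (G : Type) [Group G], Prop), Rules P → ∀ (G : Type) [Group G] (D : Dat G) (a : D.ι),
    Four D a → HN D → ∀ (Γ : Type) [Group Γ] (j : G →* Γ) (z : D.ι → Γ), ZExt D Γ j z →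
      ∀ (A : Type) [Group A] (iΓ : Γ →* A) (R : Subgroup A) (x : A), Amg D a j z iΓ R x →
        P G → P Γ → P A

/-- Module H0. The heights lemma in the amalgam, `s = (t a)⁻¹ x`. -/
def StH0 : Prop :=
  ∀ (G : Type) [Group G] (D : Dat G) (a : D.ι), Four D a →
    ∀ (Γ : Type) [Group Γ] (j : G →* Γ) (z : D.ι → Γ), ZExt D Γ j z →
      ∀ (A : Type) [Group A] (iΓ : Γ →* A) (R : Subgroup A) (x : A), Amg D a j z iΓ R x →
        ∀ M' : Subgroup A, M' = Subgroup.closure ((fun g => iΓ (j g)) '' (MM D : Set G) ∪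
            {iΓ (j (D.t a)) * x⁻¹ * iΓ (j (D.t a))}) →
          ∀ (n : ℕ), 2 ≤ n → ∀ m ∈ M',
            (((iΓ (j (D.t a)))⁻¹ * x) ^ n * m * (((iΓ (j (D.t a)))⁻¹ * x) ^ n)⁻¹ ∈ M' → m = 1) ∧
            ((iΓ (j (D.t a)))⁻¹ * x) ^ n * m * (iΓ (j (D.t a)) ^ n)⁻¹ ∉ M'

/-- Module HH. The heights lemma for even Artin groups with all labels four. -/
def StHH : Prop :=
  ∀ (S : Type) [Finite S] (l : S → S → ℕ), (∀ s t, l s t = l t s) →
    (∀ s t : S, s ≠ t → l s t = 2) → ∀ (u : S) (D : Dat (EA (del l u))), IsDatOf l u D → HN D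

/-- Module A4. The conditions for even Artin groups with all labels four. -/
def StA4 : Prop :=
  ∀ (S : Type) [Finite S] (l : S → S → ℕ), (∀ s t, l s t = l t s) →
    (∀ s t : S, s ≠ t → l s t = 2) → ∀ (u : S) (D : Dat (EA (del l u))), IsDatOf l u D →
      Finite D.ι ∧ ∀ a : D.ι, Four D a

/-- The result: all labels four. -/
def StK4 : Prop :=
  ∀ (P : ∀ (G : Type) [Group G], Prop), Rules P → ∀ (S : Type) [Finite S] (l : S → S → ℕ),
    (∀ s t, l s t = l t s) → (∀ s t : S, s ≠ t → l s t = 2) →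
      ∀ u v : S, u ≠ v → P (EA (del l u)) → P (EA l)

end Pool.Agent.Lib.MP_551055_al.N5K
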