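import Mathlib
import Pool.Agent.Lib.MP_551055_al.Trim.N4.ArtThree_4
import Pool.Agent.Lib.MP_551055_al.Trim.N5.A5_54
import Pool.Agent.Lib.MP_551055_al.Trim.N5.Stmts
import Pool.Agent.Lib.MP_551055_al.Trim.N5.StmtsK28
import Pool.Agent.Lib.MP_551055_al.Trim.X.MP_e6f638_al.I1
import Pool.Agent.Lib.MP_551055_al.Trim.X.MP_e6f638_al.Stmts

/-!
# Module A4: the conditions for even Artin groups with all labels four
-/

set_option autoImplicit false

namespace Pool.Agent.Lib.MP_551055_al
end Pool.Agent.Lib.MP_551055_al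

namespace Pool.Agent.Lib.MP_e6f638_al
end Pool.Agent.Lib.MP_e6f638_al

namespace Pool.Agent.Lib.MP_551055_al.N4
end Pool.Agent.Lib.MP_551055_al.N4

namespace Pool.Agent.Lib.MP_551055_al.N5
end Pool.Agent.Lib.MP_551055_al.N5

namespace Pool.Agent.Lib.MP_551055_al.N5K

open Pool.Agent.Lib.MP_551055_al

open Pool.Agent.Lib.MP_e6f638_al (Dat EA gen par rho del IsDatOf IsAxis)

open Pool.Agent.Lib.MP_551055_al.N4

open Pool.Agent.Lib.MP_551055_al.N5 (MM Mix stA5)

/-- Module A4. -/
theorem stA4 : StA4 := by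
  intro S _ l hl h2 u D hD
  refine ⟨Art4.finite_ι hD, fun a => ?_⟩
  have hB : D.B = ⊥ := by
    rw [hD.B, par]
    have h1 : {c : {x : S // x ≠ u} | l u c = 1} = ∅ := by
      refine Set.eq_empty_of_forall_notMem fun c hc => ?_
      have h3 : l u c = 1 := hc
      have h4 := h2 u c c.2.symm
      omega
    rw [h1, Set.image_empty, Subgroup.closure_empty]
  have hlab : ∀ i, D.l i = 2 := by
    intro i
    obtain ⟨s, _, hs⟩ := hD.t i
    rw [← hs]
    exact h2 u s s.2.symm
  have hM := stA5 S l hl (fun s t v _ _ h h' => by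
    have h3 := h2 t v h
    omega) u (fun s hs => by
    have h3 := h2 u s hs.symm
    omega) D hD a (hlab a)
  refine ⟨hB, hlab, hM.w, fun m hm hm' => ?_⟩
  have h3 := hM.mm m hm hm'
  rw [hB] at h3
  exact Subgroup.mem_bot.1 h3

end Pool.Agent.Lib.MP_551055_al.N5K
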