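import Mathlib

/-!
# Reduced words in amalgams

A subgroup `C` of a group `A` and subgroups `P i` with the normal form property: a reduced word
which is not empty has its product outside `C`.
-/

set_option autoImplicit false

namespace Pool.Agent.Lib.MP_551055_al.N5.AM

open Monoid

variable {ι A : Type} [Group A]

/-- reduced words -/
def Red (C : Subgroup A) (P : ι → Subgroup A) (L : List (ι × A)) : Prop :=
  L.IsChain (fun a b => a.1 ≠ b.1) ∧ ∀ x ∈ L, x.2 ∈ P x.1 ∧ x.2 ∉ C

/-- the product of a word -/
def pr (L : List (ι × A)) : A := (L.map Prod.snd).prod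

theorem pr_nil : pr ([] : List (ι × A)) = 1 := rfl

theorem pr_cons (x : ι × A) (L : List (ι × A)) : pr (x :: L) = x.2 * pr L := by
  simp [pr]

/-- The normal form property. -/
structure Amal (C : Subgroup A) (P : ι → Subgroup A) : Prop where
  le : ∀ i, C ≤ P i
  nf : ∀ L : List (ι × A), Red C P L → pr L ∈ C → L = []

variable {C : Subgroup A} {P : ι → Subgroup A}

theorem Red.cons {x : ι × A} {L : List (ι × A)} (h : Red C P L) (hx : x.2 ∈ P x.1 ∧ x.2 ∉ C)
    (hL : ∀ y ∈ L.head?, x.1 ≠ y.1) : Red C P (x :: L) :=
  ⟨List.isChain_cons.2 ⟨fun y hy => hL y hy, h.1⟩, fun y hy => by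
    rcases List.mem_cons.1 hy with rfl | hy
    · exact hx
    · exact h.2 y hy⟩

section Pushout

variable {G : ι → Type} {H : Type} [∀ i, Group (G i)] [Group H] (φ : ∀ i, H →* G i)

/-- The normal form property of the amalgamated product. -/
theorem amal_pushout (hφ : ∀ i, Function.Injective (φ i)) :
    Amal (PushoutI.base φ).range (fun i => (PushoutI.of (φ := φ) i).range) := by
  refine ⟨fun i => ?_, fun L hL hp => ?_⟩
  · rintro _ ⟨h, rfl⟩
    exact ⟨φ i h, PushoutI.of_apply_eq_base φ i h⟩
  · -- choose preimages of the letters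
    have hex : ∀ x : ι × PushoutI φ, ∃ g : G x.1, x ∈ L → PushoutI.of x.1 g = x.2 := by
      intro x
      by_cases hx : x ∈ L
      · obtain ⟨g, hg⟩ := (hL.2 x hx).1
        exact ⟨g, fun _ => hg⟩
      · exact ⟨1, fun h => absurd h hx⟩
    choose f hf using hex
    let w : List (Σ i, G i) := L.map fun x => ⟨x.1, f x⟩
    have hw : ∀ x ∈ L, f x ∉ (φ x.1).range := by
      rintro x hx ⟨h, hh⟩
      apply (hL.2 x hx).2
      rw [← hf x hx, ← hh, PushoutI.of_apply_eq_base]
      exact ⟨h, rfl⟩
    let W : CoprodI.Word G := ⟨w, by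
      intro l hl
      simp only [w, List.mem_map] at hl
      obtain ⟨x, hx, rfl⟩ := hl
      intro h1
      exact hw x hx ⟨1, by rw [map_one]; exact h1.symm⟩, by
      simp only [w]
      rw [List.isChain_map]
      exact hL.1⟩
    have hred : PushoutI.Reduced φ W := by
      intro l hl
      simp only [W, w, List.mem_map] at hl
      obtain ⟨x, hx, rfl⟩ := hl
      exact hw x hx
    have hprod : PushoutI.ofCoprodI W.prod = (pr L : PushoutI φ) := by
      simp only [W, w, CoprodI.Word.prod, List.map_map, map_list_prod, pr]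
      congr 1
      apply List.map_congr_left
      intro x hx
      simp only [Function.comp_apply, PushoutI.ofCoprodI_of]
      exact hf x hx
    have := PushoutI.Reduced.eq_empty_of_mem_range hφ hred (by rw [hprod]; exact hp)
    have h2 : W.toList = [] := by rw [this]; rfl
    simpa [W, w] using h2

end Pushout

end Pool.Agent.Lib.MP_551055_al.N5.AM
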