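import Mathlib
import Pool.Agent.Lib.MP_551055_al.Trim.AT70.Push
import Pool.Agent.Lib.MP_551055_al.Trim.AT70.Tree
import Pool.Agent.Lib.MP_551055_al.Trim.LS.Pos
import Pool.Agent.Lib.MP_551055_al.Trim.LS.Stmts
import Pool.Agent.Lib.MP_551055_al.Trim.MT.K1
import Pool.Agent.Lib.MP_551055_al.Trim.N5.AMb_95
import Pool.Agent.Lib.MP_551055_al.Trim.N5.StmtsK28
import Pool.Agent.Lib.MP_551055_al.Trim.RI.Stmts

/-!
# All labels four, module AP: pushouts and their trees
-/

set_option autoImplicit false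

namespace Pool.Agent.Lib.MP_551055_al
end Pool.Agent.Lib.MP_551055_al

namespace Pool.Agent.Lib.MP_551055_al.LS
end Pool.Agent.Lib.MP_551055_al.LS

namespace Pool.Agent.Lib.MP_551055_al.RI
end Pool.Agent.Lib.MP_551055_al.RI

namespace Pool.Agent.Lib.MP_551055_al.N5.AM
end Pool.Agent.Lib.MP_551055_al.N5.AM

namespace Pool.Agent.Lib.MP_551055_al.N5K.AP

open Pool.Agent.Lib.MP_551055_al

open Pool.Agent.Lib.MP_551055_al.LS (TreeAct)

open Pool.Agent.Lib.MP_551055_al.RI (BTree)

open Pool.Agent.Lib.MP_551055_al.N5.AM (Red pr pr_cons pr_nil)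

open Monoid Monoid.PushoutI

section words

variable {A : Type} [Group A] {X : Bool → Subgroup A} {C : Subgroup A}

/-- The list of the letters of a reduced word. -/
theorem wd_list {s e : Bool} {g : A} (h : Wd X C s e g) :
    ∃ (x : A) (L : List (Bool × A)), Red C X ((s, x) :: L) ∧ pr ((s, x) :: L) = g := by
  induction h with
  | one s g h1 h2 =>
    refine ⟨g, [], ⟨List.isChain_singleton _, ?_⟩, by rw [pr_cons, pr_nil, mul_one]⟩
    intro x hx
    rw [List.mem_singleton] at hx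
    subst hx
    exact ⟨h1, h2⟩
  | cons s e g g' h1 h2 _ ih =>
    obtain ⟨x, L, hL, hp⟩ := ih
    refine ⟨g, (!s, x) :: L, hL.cons ⟨h1, h2⟩ ?_, by rw [pr_cons, hp]⟩
    intro y hy
    rw [List.head?_cons, Option.mem_def, Option.some.injEq] at hy
    subst hy
    exact (Bool.not_ne_self s).symm

/-- Multiplication of a reduced word by an element of `C`. -/
theorem wd_C (hle : ∀ s, C ≤ X s) {s e : Bool} {g : A} (h : Wd X C s e g) {c : A} (hc : c ∈ C) :
    Wd X C s e (c * g) := by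
  have key : ∀ (s : Bool) (g : A), g ∈ X s → g ∉ C → c * g ∈ X s ∧ c * g ∉ C :=
    fun s g h1 h2 => ⟨mul_mem (hle s hc) h1, fun h3 => h2 (by
      have h4 := mul_mem (inv_mem hc) h3
      rwa [inv_mul_cancel_left] at h4)⟩
  cases h with
  | one s g h1 h2 => exact Wd.one _ _ (key _ _ h1 h2).1 (key _ _ h1 h2).2
  | cons s e g g' h1 h2 h3 =>
    rw [← mul_assoc]
    exact Wd.cons _ _ _ _ (key _ _ h1 h2).1 (key _ _ h1 h2).2 h3

/-- Multiplication by an element of a factor. -/
theorem step (hle : ∀ s, C ≤ X s) (s : Bool) (x : A) (hx : x ∈ X s) (y : A)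
    (hy : y ∈ C ∨ ∃ s e, Wd X C s e y) : x * y ∈ C ∨ ∃ s e, Wd X C s e (x * y) := by
  by_cases hxC : x ∈ C
  · rcases hy with hy | ⟨s', e, hy⟩
    · exact Or.inl (mul_mem hxC hy)
    · exact Or.inr ⟨s', e, wd_C hle hy hxC⟩
  have hone : ∀ y ∈ X s, x * y ∈ C ∨ ∃ s e, Wd X C s e (x * y) := by
    intro y hy
    by_cases h : x * y ∈ C
    · exact Or.inl h
    · exact Or.inr ⟨s, s, Wd.one _ _ (mul_mem hx hy) h⟩
  rcases hy with hy | ⟨s', e, hy⟩
  · exact hone y (hle s hy)
  · by_cases hs : s' = s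
    · subst hs
      cases hy with
      | one s g h1 h2 => exact hone _ h1
      | cons s e g g' h1 h2 h3 =>
        rw [← mul_assoc]
        by_cases h : x * g ∈ C
        · exact Or.inr ⟨_, _, wd_C hle h3 h⟩
        · exact Or.inr ⟨_, _, Wd.cons _ _ _ _ (mul_mem hx h1) h h3⟩
    · have hs' : s' = !s := by
        cases s <;> cases s' <;> simp_all
      subst hs'
      exact Or.inr ⟨s, e, Wd.cons _ _ _ _ hx hxC hy⟩

theorem wd_mul (hle : ∀ s, C ≤ X s) {s e : Bool} {g : A} (h : Wd X C s e g) (y : A)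
    (hy : y ∈ C ∨ ∃ s e, Wd X C s e y) : g * y ∈ C ∨ ∃ s e, Wd X C s e (g * y) := by
  induction h with
  | one s g h1 h2 => exact step hle s g h1 y hy
  | cons s e g g' h1 h2 _ ih =>
    rw [mul_assoc]
    exact step hle s g h1 _ ih

theorem ok_mul (hle : ∀ s, C ≤ X s) (x y : A) (hx : x ∈ C ∨ ∃ s e, Wd X C s e x)
    (hy : y ∈ C ∨ ∃ s e, Wd X C s e y) : x * y ∈ C ∨ ∃ s e, Wd X C s e (x * y) := by
  rcases hx with hx | ⟨s, e, hx⟩
  · exact step hle true x (hle true hx) y hy
  · exact wd_mul hle hx y hy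

end words

section push

variable {H : Type} [Group H] {Gr : Bool → Type} [∀ s, Group (Gr s)] (φ : ∀ s, H →* Gr s)

theorem amal (hφ : ∀ s, Function.Injective (φ s)) :
    Amal (fun s => (of (φ := φ) s).range) (base φ).range := by
  have hle : ∀ s, (base φ).range ≤ (of (φ := φ) s).range := AT70.base_range_le φ
  refine ⟨hle, fun g => ?_, fun s e g h hg => ?_⟩
  · induction g using PushoutI.induction_on with
    | of s x =>
      by_cases h : of (φ := φ) s x ∈ (base φ).range
      · exact Or.inl h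
      · exact Or.inr ⟨s, s, Wd.one _ _ ⟨x, rfl⟩ h⟩
    | base h => exact Or.inl ⟨h, rfl⟩
    | mul x y hx hy => exact ok_mul hle x y hx hy
  · obtain ⟨x, L, hL, hp⟩ := wd_list h
    have h1 := (N5.AM.amal_pushout φ hφ).nf _ hL (by rw [hp]; exact hg)
    exact List.cons_ne_nil _ _ h1

/-- The tree of the pushout. -/
noncomputable def tree : BTree (PushoutI φ) where
  V := AT70.Vert (base φ).range fun s => (of (φ := φ) s).range
  act := inferInstance
  T := AT70.pushGraph φ
  tree :=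
    { tree := AT70.pushGraph_isTree φ
      adj := fun γ u v h => AT70.adj_smul γ u v h
      inv := fun γ u v h => AT70.no_inversion γ u v h }

end push

theorem stAP : StAP := by
  intro H _ Gr _ φ hφ
  refine ⟨amal φ hφ, fun s => of_injective hφ s, tree φ, fun v => ?_, fun u v h => ?_⟩
  · rcases AT70.stab_vertex v with ⟨g, hg⟩ | ⟨s, g, hg⟩
    · exact ⟨true, g, fun x hx => AT70.base_range_le φ true ((hg x).1 hx)⟩
    · exact ⟨s, g, fun x hx => (hg x).1 hx⟩
  · obtain ⟨g, hg⟩ := AT70.stab_edge (AT70.base_range_le φ) h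
    refine ⟨g, fun x => ?_⟩
    rw [← hg x, MulAction.mem_stabilizer_iff]
    exact Prod.ext_iff

end Pool.Agent.Lib.MP_551055_al.N5K.AP
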