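import Mathlib
import Pool.Agent.Lib.MP_551055_al.Trim.MT.K1
import Pool.Agent.Lib.MP_551055_al.Trim.N5.StmtsK28

/-!
# Module AW: reduced words in amalgams
-/

set_option autoImplicit false

namespace Pool.Agent.Lib.MP_551055_al.N5K

namespace AW

variable {A : Type} [Group A] {X : Bool → Subgroup A} {C : Subgroup A}

theorem mul {s e e' : Bool} {g g' : A} (h : Wd X C s e g) (h' : Wd X C (!e) e' g') :
    Wd X C s e' (g * g') := by
  induction h with
  | one s g h1 h2 => exact Wd.cons s e' g g' h1 h2 h'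
  | cons s e g g₁ h1 h2 h3 ih =>
    rw [mul_assoc]
    exact Wd.cons s e' g (g₁ * g') h1 h2 (ih h')

theorem mul' {s e f e' : Bool} {g g' : A} (h : Wd X C s e g) (h' : Wd X C f e' g')
    (hf : f = !e) : Wd X C s e' (g * g') := mul h (hf ▸ h')

theorem inv {s e : Bool} {g : A} (h : Wd X C s e g) : Wd X C e s g⁻¹ := by
  induction h with
  | one s g h1 h2 =>
    exact Wd.one s g⁻¹ (inv_mem h1) (fun hh => h2 (by simpa using inv_mem hh))
  | cons s e g g₁ h1 h2 h3 ih =>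
    rw [mul_inv_rev]
    exact mul' ih (Wd.one s g⁻¹ (inv_mem h1) (fun hh => h2 (by simpa using inv_mem hh))) (by simp)

/-- the last letter -/
theorem last {s e : Bool} {g : A} (h : Wd X C s e g) : (s = e ∧ g ∈ X s ∧ g ∉ C) ∨
    ∃ g' y, Wd X C s (!e) g' ∧ y ∈ X e ∧ y ∉ C ∧ g = g' * y := by
  induction h with
  | one s g h1 h2 => exact Or.inl ⟨rfl, h1, h2⟩
  | cons s e g g₁ h1 h2 h3 ih =>
    refine Or.inr ?_
    rcases ih with ⟨h4, h5, h6⟩ | ⟨g', y, h4, h5, h6, rfl⟩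
    · refine ⟨g, g₁, ?_, h4 ▸ h5, h6, rfl⟩
      have : (!e) = s := by rw [← h4]; simp
      rw [this]
      exact Wd.one s g h1 h2
    · exact ⟨g * g', y, Wd.cons s _ g g' h1 h2 h4, h5, h6, by rw [mul_assoc]⟩

variable (hA : Amal X C)

include hA

theorem mulC {s e : Bool} {g c : A} (hc : c ∈ C) (h : Wd X C s e g) :
    Wd X C s e (c * g) ∧ Wd X C s e (g * c) := by
  have key : ∀ g₀ : A, g₀ ∉ C → c * g₀ ∉ C ∧ g₀ * c ∉ C := fun g₀ h₀ =>
    ⟨fun hh => h₀ (by simpa using mul_mem (inv_mem hc) hh),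
      fun hh => h₀ (by simpa using mul_mem hh (inv_mem hc))⟩
  induction h with
  | one s g h1 h2 =>
    exact ⟨Wd.one s _ (mul_mem (hA.le s hc) h1) (key g h2).1,
      Wd.one s _ (mul_mem h1 (hA.le s hc)) (key g h2).2⟩
  | cons s e g g₁ h1 h2 h3 ih =>
    refine ⟨?_, ?_⟩
    · rw [← mul_assoc]
      exact Wd.cons s e _ g₁ (mul_mem (hA.le s hc) h1) (key g h2).1 h3
    · rw [mul_assoc]
      exact Wd.cons s e g _ h1 h2 ih.2

theorem uniq {s e s' e' : Bool} {g : A} (h : Wd X C s e g) (h' : Wd X C s' e' g) :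
    s = s' ∧ e = e' := by
  constructor
  · by_contra hne
    have h1 : s' = !s := by cases s <;> cases s' <;> simp_all
    have h2 := mul' (inv h) h' h1
    rw [inv_mul_cancel] at h2
    exact hA.nt _ _ _ h2 (one_mem _)
  · by_contra hne
    have h1 : e' = !e := by cases e <;> cases e' <;> simp_all
    have h2 := mul' h (inv h') h1
    rw [mul_inv_cancel] at h2
    exact hA.nt _ _ _ h2 (one_mem _)

theorem mulX {s e : Bool} {g : A} (h : Wd X C s e g) (hne : s ≠ e) {x : A} (hx : x ∈ X e) :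
    ∃ e', Wd X C s e' (g * x) := by
  rcases last h with ⟨h1, -, -⟩ | ⟨g', y, h1, h2, h3, rfl⟩
  · exact absurd h1 hne
  · by_cases hyx : y * x ∈ C
    · refine ⟨!e, ?_⟩
      rw [mul_assoc]
      exact (mulC hA hyx h1).2
    · refine ⟨e, ?_⟩
      rw [mul_assoc]
      exact mul' h1 (Wd.one e _ (mul_mem h2 hx) hyx) (by simp)

theorem mem {s s' e : Bool} {g : A} (hg : g ∈ X s) (h : Wd X C s' e g) : s' = s ∧ e = s := by
  by_cases hC : g ∈ C
  · exact absurd hC (hA.nt _ _ _ h)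
  · exact uniq hA h (Wd.one s g hg hC)

theorem pre {s e : Bool} {x g : A} (hx : x ∈ X s) (h : Wd X C (!s) e g) {y : A}
    (hy : y ∈ C) (hc : (x * g)⁻¹ * y * (x * g) ∈ C) : x⁻¹ * y * x ∈ C := by
  by_contra hne
  have h1 : Wd X C s s (x⁻¹ * y * x) :=
    Wd.one s _ (mul_mem (mul_mem (inv_mem hx) (hA.le s hy)) hx) hne
  have h2 := mul' (mul' (inv h) h1 (by simp)) h rfl
  refine hA.nt _ _ _ h2 ?_
  have : g⁻¹ * (x⁻¹ * y * x) * g = (x * g)⁻¹ * y * (x * g) := by group
  rw [this]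
  exact hc

end AW

/-- Module AW. -/
theorem stAW : StAW := fun _ _ _ _ hA =>
  { inv := fun _ _ _ h => AW.inv h
    mul := fun _ _ _ _ _ h h' => AW.mul h h'
    uniq := fun _ _ _ _ _ h h' => AW.uniq hA h h'
    mulC := fun _ _ _ _ hc h => AW.mulC hA hc h
    mulX := fun _ _ _ h hne _ hx => AW.mulX hA h hne hx
    Xmul := fun s e g h hne x hx => by
      obtain ⟨e', h1⟩ := AW.mulX hA (AW.inv h) hne.symm (inv_mem hx)
      refine ⟨e', ?_⟩
      have := AW.inv h1
      simpa using this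
    mem := fun _ _ _ _ hg h => AW.mem hA hg h
    pre := fun _ _ _ _ hx _ h _ hy hc => AW.pre hA hx h hy hc }

end Pool.Agent.Lib.MP_551055_al.N5K
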