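import Mathlib
import Pool.Agent.Lib.MP_551055_al.Trim.LS.Ray
import Pool.Agent.Lib.MP_551055_al.Trim.LS.Stmts
import Pool.Agent.Lib.MP_551055_al.Trim.MT.Defs
import Pool.Agent.Lib.MP_551055_al.Trim.N4.Loc_17
import Pool.Agent.Lib.MP_551055_al.Trim.N4.Stmts
import Pool.Agent.Lib.MP_551055_al.Trim.N5.Stmts
import Pool.Agent.Lib.MP_551055_al.Trim.X.MP_e6f638_al.F
import Pool.Agent.Lib.MP_551055_al.Trim.X.MP_e6f638_al.Stmts

/-!
# Module L5: the local structure of the tile graphs in the mixed case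
-/

set_option autoImplicit false

namespace Pool.Agent.Lib.MP_551055_al
end Pool.Agent.Lib.MP_551055_al

namespace Pool.Agent.Lib.MP_e6f638_al
end Pool.Agent.Lib.MP_e6f638_al

namespace Pool.Agent.Lib.MP_551055_al.N4
end Pool.Agent.Lib.MP_551055_al.N4

namespace Pool.Agent.Lib.MP_551055_al.N5.L54
end Pool.Agent.Lib.MP_551055_al.N5.L54

namespace Pool.Agent.Lib.MP_551055_al.N5

open Pool.Agent.Lib.MP_551055_al

open Pool.Agent.Lib.MP_e6f638_al (Dat)

open Pool.Agent.Lib.MP_551055_al.N4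

namespace L54

variable {G : Type} [Group G] {D : Dat G} {a : D.ι}

theorem mm_B {b : G} (hb : b ∈ D.B) : b ∈ MM D := Subgroup.subset_closure (Or.inl hb)

theorem mm_t {i j : D.ι} {b : G} (hi : D.l i = 2) (hj : D.l j = 2) (hb : b ∈ D.B) :
    D.t i * b * (D.t j)⁻¹ ∈ MM D := Subgroup.subset_closure (Or.inr ⟨i, j, b, hi, hj, hb, rfl⟩)

theorem mm_tt {i j : D.ι} (hi : D.l i = 2) (hj : D.l j = 2) : D.t i * (D.t j)⁻¹ ∈ MM D := by
  have := mm_t hi hj (one_mem D.B)
  rwa [mul_one] at this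

/-- `MM` is in the kernel of `h`. -/
theorem mm_h {m : G} (hm : m ∈ MM D) : D.h m = 1 := by
  have h1 : MM D ≤ D.h.ker := by
    rw [MM, Subgroup.closure_le]
    rintro g (hg | ⟨i, j, b, _, _, hb, rfl⟩)
    · exact D.h_B g hg
    · show D.h _ = 1
      rw [map_mul, map_mul, map_inv, D.h_t, D.h_t, D.h_B b hb, mul_one, mul_inv_cancel]
  exact h1 hm

theorem xi_of (a j : D.ι) : xi D j = D.ofG (D.t j * (D.t a)⁻¹) * xi D a := by
  rw [xi, xi, map_mul, map_inv]
  group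

theorem xi_inv (a j : D.ι) : (xi D j)⁻¹ = (xi D a)⁻¹ * D.ofG (kk D a j) := by
  rw [xi, xi, kk, map_mul, map_inv]
  group

theorem xi_inv_u (j : D.ι) : (xi D j)⁻¹ = D.u⁻¹ * D.ofG (D.t j)⁻¹ := by
  rw [xi, map_inv]
  group

theorem tt_h (i j : D.ι) : D.h (D.t i * (D.t j)⁻¹) = 1 := by
  rw [map_mul, map_inv, D.h_t, D.h_t, mul_inv_cancel]

theorem tt_mem (i j : D.ι) : D.ofG (D.t i * (D.t j)⁻¹) ∈ RE D := ofG_mem_RE D (tt_h i j)

theorem kk_mem (i j : D.ι) : D.ofG (kk D i j) ∈ RE D := tt_mem i j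

theorem z_two {a : D.ι} (ha : D.l a = 2) : xi D a * xi D a ∈ RE D := by
  have := zi_mem_RE D a
  rwa [ha, pow_two] at this

theorem last_inv {j : D.ι} {r : ℕ} (h : r + 1 = D.l j) :
    (xi D j ^ r)⁻¹ = xi D j * (xi D j ^ D.l j)⁻¹ := by
  rw [← h, pow_succ]
  group

/-- Equality of two vertices of tiles. -/
theorem cmp (k : D.Ah) {p q : D.Ah} {e e' : D.Ah} (he : e ∈ RE D) (he' : e' ∈ RE D)
    (h : pt D (k * e * p) = pt D (k * e' * q)) :
    ∃ g : G, e' * q = e * p * D.ofG g ∧ p * D.ofG g * q⁻¹ ∈ RE D := by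
  obtain ⟨g, hg⟩ := (pt_eq D).1 h
  have h1 : e' * q = e * p * D.ofG g := by
    apply mul_left_cancel (a := k)
    rw [← mul_assoc, hg]
    simp only [mul_assoc]
  refine ⟨g, h1, ?_⟩
  have h2 : p * D.ofG g * q⁻¹ = e⁻¹ * e' := by
    have h3 : p * D.ofG g = e⁻¹ * (e' * q) := by
      rw [h1]
      group
    rw [h3]
    group
  rw [h2]
  exact mul_mem (inv_mem he) he'

/-- The transport of an equality. -/
theorem trG {k e e' p q : D.Ah} {g : G} (h : e' * q = e * p * D.ofG g) (c : D.Ah) :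
    k * e' * q * c = k * e * p * D.ofG g * c := by
  have h1 : k * e' * q = k * (e' * q) := mul_assoc _ _ _
  rw [h1, h]
  simp only [mul_assoc]

variable (hM : Mix D a) (hW : WdM D a)

include hW in
/-- Interior vertices are not main vertices. -/
theorem not_mn (k : D.Ah) {e : D.Ah} (he : e ∈ RE D) {i : D.ι} {r : ℕ} (h1 : 1 ≤ r)
    (h2 : r < D.l i) : ¬ Mn D k (pt D (k * e * xi D i ^ r)) := by
  rintro ⟨e', he', h3⟩
  rw [← mul_one (k * e')] at h3
  obtain ⟨g, _, hg⟩ := cmp k he he' h3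
  rw [inv_one, mul_one] at hg
  exact hW.c1 i r g h1 h2 hg

include hM hW in
/-- The tiles through a vertex of type S. -/
theorem s_cmp (k : D.Ah) {e e' : D.Ah} (he : e ∈ RE D) (he' : e' ∈ RE D) {j : D.ι} {r : ℕ}
    (hr : r ≤ D.l j) (h : pt D (k * e * xi D a) = pt D (k * e' * xi D j ^ r)) :
    ∃ g : G, e' * xi D j ^ r = e * xi D a * D.ofG g ∧
      ((r = 1 ∧ g ∈ MM D) ∨ (r + 1 = D.l j ∧ 4 ≤ D.l j ∧ g * (kk D a j)⁻¹ ∈ MM D)) := by
  have h0 : 1 ≤ r := by
    by_contra hn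
    have h1 : r = 0 := by omega
    rw [h1, pow_zero, mul_one, ← pow_one (xi D a)] at h
    exact not_mn hW k he le_rfl (by rw [hM.la]; omega) ⟨e', he', h⟩
  have h0' : r < D.l j := by
    by_contra hn
    have h1 : r = D.l j := by omega
    rw [h1, ← pow_one (xi D a), mul_assoc k e'] at h
    exact not_mn hW k he le_rfl (by rw [hM.la]; omega)
      ⟨e' * xi D j ^ D.l j, mul_mem he' (zi_mem_RE D j), h⟩
  obtain ⟨g, h1, h2⟩ := cmp k he he' h
  refine ⟨g, h1, ?_⟩
  by_cases hr1 : r = 1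
  · left
    refine ⟨hr1, hW.cS g ?_⟩
    rw [hr1, pow_one, xi_inv a j, ← mul_assoc] at h2
    have h3 := mul_mem h2 (inv_mem (kk_mem a j))
    rwa [mul_inv_cancel_right] at h3
  right
  by_cases hr2 : r + 1 = D.l j
  · have hj : 4 ≤ D.l j := by
      rcases hM.four j with h3 | h3
      · omega
      · exact h3
    refine ⟨hr2, hj, hW.cS _ ?_⟩
    rw [last_inv hr2, ← mul_assoc] at h2
    have h3 := mul_mem h2 (zi_mem_RE D j)
    rw [inv_mul_cancel_right, xi_of a j] at h3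
    have h4 := mul_mem h3 (inv_mem (z_two hM.la))
    have h5 : xi D a * D.ofG (g * (kk D a j)⁻¹) * (xi D a)⁻¹ = xi D a * D.ofG g *
        (D.ofG (D.t j * (D.t a)⁻¹) * xi D a) * (xi D a * xi D a)⁻¹ := by
      rw [kk, mul_inv_rev, inv_inv, map_mul]
      group
    rw [h5]
    exact h4
  · exfalso
    have h3 : xi D j ^ r * D.ofG g⁻¹ * (xi D a ^ 1)⁻¹ ∈ RE D := by
      have h4 := inv_mem h2
      have h5 : xi D j ^ r * D.ofG g⁻¹ * (xi D a ^ 1)⁻¹ =
          (xi D a * D.ofG g * (xi D j ^ r)⁻¹)⁻¹ := by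
        rw [pow_one, map_inv]
        group
      rw [h5]
      exact h4
    have h4 := hW.cT j a r 1 g⁻¹ (by omega) (by omega) le_rfl (by rw [hM.la]; omega) h3
    omega

include hW in
/-- The tiles through a vertex of type T. -/
theorem t_cmp (k : D.Ah) {e e' : D.Ah} (he : e ∈ RE D) (he' : e' ∈ RE D) {i j : D.ι} {r s : ℕ}
    (hr : 2 ≤ r) (hr' : r + 2 ≤ D.l i) (hs : s ≤ D.l j)
    (h : pt D (k * e * xi D i ^ r) = pt D (k * e' * xi D j ^ s)) :
    i = j ∧ r = s ∧ ∃ g : G, e' * xi D j ^ s = e * xi D i ^ r * D.ofG g ∧ g ∈ D.B ∧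
      Commute g (D.t i) := by
  have h0 : 1 ≤ s := by
    by_contra hn
    have h1 : s = 0 := by omega
    rw [h1, pow_zero, mul_one] at h
    exact not_mn hW k he (by omega) (by omega) ⟨e', he', h⟩
  have h0' : s < D.l j := by
    by_contra hn
    have h1 : s = D.l j := by omega
    rw [h1, mul_assoc k e'] at h
    exact not_mn hW k he (by omega) (by omega)
      ⟨e' * xi D j ^ D.l j, mul_mem he' (zi_mem_RE D j), h⟩
  obtain ⟨g, h1, h2⟩ := cmp k he he' h
  obtain ⟨h3, h4, h5, h6⟩ := hW.cT i j r s g hr hr' h0 h0' h2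
  exact ⟨h3, h4, g, h1, h5, h6⟩

theorem comm_xi {g : G} {i : D.ι} (hg : g ∈ D.B) (hc : Commute g (D.t i)) :
    Commute (D.ofG g) (xi D i) := (hc.map D.ofG).mul_right (D.commute_u hg)

include hM in
theorem last_S (k : D.Ah) {e : D.Ah} (he : e ∈ RE D) (i : D.ι) {r : ℕ} (hr : r + 1 = D.l i) :
    ∃ e' ∈ RE D, pt D (k * e * xi D i ^ r) = pt D (k * e' * xi D a) := by
  refine ⟨e * xi D i ^ D.l i * (xi D a * xi D a)⁻¹,
    mul_mem (mul_mem he (zi_mem_RE D i)) (inv_mem (z_two hM.la)), ?_⟩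
  have h1 : k * (e * xi D i ^ D.l i * (xi D a * xi D a)⁻¹) * xi D a =
      k * e * xi D i ^ D.l i * (xi D a)⁻¹ := by group
  have h2 : k * e * xi D i ^ r = k * e * xi D i ^ D.l i * (xi D a)⁻¹ * D.ofG (kk D a i) := by
    rw [mul_assoc _ (xi D a)⁻¹, ← xi_inv, ← hr, pow_succ]
    group
  rw [h1, h2, pt_mul_ofG]

theorem first_S (k : D.Ah) {e : D.Ah} (he : e ∈ RE D) (i : D.ι) :
    ∃ e' ∈ RE D, pt D (k * e * xi D i) = pt D (k * e' * xi D a) := by
  refine ⟨e * D.ofG (D.t i * (D.t a)⁻¹), mul_mem he (tt_mem i a), ?_⟩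
  rw [xi_of a i]
  simp only [mul_assoc]

include hM in
/-- All the vertices of tiles. -/
theorem vt_aux (k : D.Ah) {e : D.Ah} (he : e ∈ RE D) (i : D.ι) {r : ℕ} (hr : r ≤ D.l i)
    {v : AV D} (hv : v = pt D (k * e * xi D i ^ r)) :
    (∃ e ∈ RE D, v = pt D (k * e)) ∨ (∃ e ∈ RE D, v = pt D (k * e * xi D a)) ∨
      ∃ e ∈ RE D, ∃ (i : D.ι) (r : ℕ), 2 ≤ r ∧ r + 2 ≤ D.l i ∧ v = pt D (k * e * xi D i ^ r) := by
  by_cases h0 : r = 0
  · left
    exact ⟨e, he, by rw [hv, h0, pow_zero, mul_one]⟩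
  by_cases h1 : r = D.l i
  · left
    exact ⟨e * xi D i ^ D.l i, mul_mem he (zi_mem_RE D i), by rw [hv, h1, mul_assoc k e]⟩
  right
  by_cases h2 : r = 1
  · left
    obtain ⟨e', he', h3⟩ := first_S (a := a) k he i
    exact ⟨e', he', by rw [hv, h2, pow_one, h3]⟩
  by_cases h3 : r + 1 = D.l i
  · left
    obtain ⟨e', he', h4⟩ := last_S hM k he i h3
    exact ⟨e', he', by rw [hv, h4]⟩
  · right
    exact ⟨e, he, i, r, by omega, by omega, hv⟩

end L54

open L54 in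
/-- Module L5. -/
theorem stL5 : StL5 := by
  intro G _ D a hM hW
  have hla := hM.la
  refine ⟨?_, ?_, ?_, ?_, ?_, ?_, ?_, ?_, ?_, ?_, ?_⟩
  · -- outgoing edges at a main vertex
    rintro k e he w ⟨e', he', j, r, hr, h1, rfl⟩
    have h0 : r = 0 := by
      by_contra hn
      exact not_mn hW k he' (by omega) hr ⟨e, he, h1.symm⟩
    subst h0
    rw [← mul_one (k * e)] at h1
    obtain ⟨g, h2, h3⟩ := cmp k he he' h1
    rw [pow_zero, mul_one, mul_one] at h2
    rw [pow_zero, inv_one, one_mul, mul_one, ofG_mem_RE_iff] at h3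
    refine ⟨g * (D.t j * (D.t a)⁻¹), ?_, ?_⟩
    · rw [map_mul, h3, tt_h, one_mul]
    · rw [h2, zero_add, pow_one, xi_of a j]
      simp only [mul_assoc, map_mul]
  · -- incoming edges at a main vertex
    rintro k e he w ⟨e', he', j, r, hr, rfl, h1⟩
    have h0 : r + 1 = D.l j := by
      by_contra hn
      exact not_mn hW k he' (r := r + 1) (by omega) (by omega) ⟨e, he, h1.symm⟩
    rw [← mul_one (k * e)] at h1
    obtain ⟨g, h2, h3⟩ := cmp k he he' h1
    rw [mul_one] at h2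
    refine ⟨g, ?_, ?_⟩
    · have h4 := mul_mem h3 (zi_mem_RE D j)
      rw [h0, one_mul, inv_mul_cancel_right, ofG_mem_RE_iff] at h4
      exact h4
    · have h4 : k * e' * xi D j ^ r = k * e * D.ofG g * D.u⁻¹ * D.ofG (D.t j)⁻¹ := by
        have h5 : k * e' * xi D j ^ r = k * (e' * xi D j ^ (r + 1)) * (xi D j)⁻¹ := by
          rw [pow_succ]
          group
        rw [h5, h2, xi_inv_u]
        simp only [mul_assoc]
      rw [h4, pt_mul_ofG]
  · -- outgoing edges at a vertex of type S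
    rintro k e he w ⟨e', he', j, r, hr, h1, rfl⟩
    obtain ⟨g, h2, h3⟩ := s_cmp hM hW k he he' hr.le h1
    have h4 : k * e' * xi D j ^ (r + 1) = k * e * xi D a * D.ofG g * xi D j := by
      rw [pow_succ, ← mul_assoc, trG h2]
    rcases h3 with ⟨_, h3⟩ | ⟨h3, h5, h6⟩
    · rcases hM.four j with h5 | h5
      · refine ⟨g * (D.t j * (D.t a)⁻¹), mul_mem h3 (mm_tt h5 hla), a, Or.inl rfl, ?_⟩
        rw [h4, xi_of a j]
        simp only [mul_assoc, map_mul]
      · exact ⟨g, h3, j, Or.inr h5, by rw [h4]⟩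
    · refine ⟨g * (kk D a j)⁻¹, h6, a, Or.inl rfl, ?_⟩
      rw [h4, xi_of a j, kk, mul_inv_rev, inv_inv]
      simp only [mul_assoc, map_mul]
  · -- incoming edges at a vertex of type S
    rintro k e he w ⟨e', he', j, r, hr, rfl, h1⟩
    obtain ⟨g, h2, h3⟩ := s_cmp hM hW k he he' (by omega) h1
    have h4 : k * e' * xi D j ^ r = k * e * xi D a * D.ofG g * D.u⁻¹ * D.ofG (D.t j)⁻¹ := by
      have h5 : k * e' * xi D j ^ r = k * e' * xi D j ^ (r + 1) * (xi D j)⁻¹ := by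
        rw [pow_succ]
        group
      rw [h5, trG h2, xi_inv_u]
      simp only [mul_assoc]
    rcases h3 with ⟨_, h3⟩ | ⟨h3, h5, h6⟩
    · refine ⟨g, h3, a, Or.inl rfl, ?_⟩
      rw [h4, pt_mul_ofG, kk, mul_inv_cancel, mul_one]
    · refine ⟨g * (kk D a j)⁻¹, h6, j, Or.inr h5, ?_⟩
      rw [h4, pt_mul_ofG, inv_mul_cancel_right]
  · -- outgoing edges at a vertex of type T
    rintro k e he i r hr hr' w ⟨e', he', j, s, hs, h1, rfl⟩
    obtain ⟨rfl, rfl, g, h2, h3, h4⟩ := t_cmp hW k he he' hr hr' hs.le h1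
    have h5 : k * e' * xi D i ^ (r + 1) = k * e * xi D i ^ (r + 1) * D.ofG g := by
      rw [pow_succ, ← mul_assoc, trG h2, mul_assoc _ (D.ofG g), (comm_xi h3 h4).eq]
      simp only [mul_assoc]
    rw [h5, pt_mul_ofG]
  · -- incoming edges at a vertex of type T
    rintro k e he i r hr hr' w ⟨e', he', j, s, hs, rfl, h1⟩
    obtain ⟨rfl, rfl, g, h2, h3, h4⟩ := t_cmp hW k he he' hr hr' (by omega) h1
    have h5 : k * e' * xi D i ^ s = k * e * xi D i ^ (s + 1 - 1) * D.ofG g := by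
      have h6 : k * e' * xi D i ^ s = k * e' * xi D i ^ (s + 1) * (xi D i)⁻¹ := by
        rw [pow_succ]
        group
      rw [h6, trG h2, mul_assoc _ (D.ofG g), (comm_xi h3 h4).inv_right.eq, Nat.add_sub_cancel,
        pow_succ]
      group
    rw [h5, pt_mul_ofG]
  · -- all vertices
    rintro k v w (⟨e, he, i, r, hr, h1, h2⟩ | ⟨e, he, i, r, hr, h1, h2⟩)
    · exact vt_aux hM k he i hr.le h1
    · exact vt_aux hM k he i (r := r + 1) (by omega) h2
  · -- last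
    intro k e he i
    exact last_S hM k he i (by have := D.two_le i; omega)
  · -- first
    intro k e he i
    exact first_S k he i
  · -- interior vertices
    intro k e he i r h1 h2
    exact not_mn hW k he h1 h2
  · -- T is not S
    intro k e he e' he' i r hr hr' h
    rw [← pow_one (xi D a)] at h
    obtain ⟨_, h1, _⟩ := t_cmp hW k he he' hr hr' (by rw [hla]; omega) h
    omega

end Pool.Agent.Lib.MP_551055_al.N5
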