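import Mathlib
import Pool.Agent.Lib.MP_551055_al.Trim.LS.Ind
import Pool.Agent.Lib.MP_551055_al.Trim.LS.PStmts
import Pool.Agent.Lib.MP_551055_al.Trim.LS.Stmts
import Pool.Agent.Lib.MP_551055_al.Trim.LS.TreeB
import Pool.Agent.Lib.MP_551055_al.Trim.MT.FNa
import Pool.Agent.Lib.MP_551055_al.Trim.MT.Flow2
import Pool.Agent.Lib.MP_551055_al.Trim.N4.O_17
import Pool.Agent.Lib.MP_551055_al.Trim.N4.Rules_17
import Pool.Agent.Lib.MP_551055_al.Trim.N4.Stmts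
import Pool.Agent.Lib.MP_551055_al.Trim.N5.Stmts
import Pool.Agent.Lib.MP_551055_al.Trim.RI.HNN
import Pool.Agent.Lib.MP_551055_al.Trim.RI.HNN2
import Pool.Agent.Lib.MP_551055_al.Trim.RI.HNN3
import Pool.Agent.Lib.MP_551055_al.Trim.RI.LiftNil
import Pool.Agent.Lib.MP_551055_al.Trim.RI.Stmts
import Pool.Agent.Lib.MP_551055_al.Trim.W17.Defs
import Pool.Agent.Lib.MP_551055_al.Trim.W17.KGam
import Pool.Agent.Lib.MP_551055_al.Trim.W17.KSep
import Pool.Agent.Lib.MP_551055_al.Trim.X.MP_e6f638_al.F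
import Pool.Agent.Lib.MP_551055_al.Trim.X.MP_e6f638_al.GDefs
import Pool.Agent.Lib.MP_551055_al.Trim.X.MP_e6f638_al.I1
import Pool.Agent.Lib.MP_551055_al.Trim.X.MP_e6f638_al.Stmts

/-!
# Module O5: the group `Omega` with a general lift
-/

set_option autoImplicit false

namespace Pool.Agent.Lib.MP_551055_al
end Pool.Agent.Lib.MP_551055_al

namespace Pool.Agent.Lib.MP_e6f638_al
end Pool.Agent.Lib.MP_e6f638_al

namespace Pool.Agent.Lib.MP_551055_al.LS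
end Pool.Agent.Lib.MP_551055_al.LS

namespace Pool.Agent.Lib.MP_551055_al.RI
end Pool.Agent.Lib.MP_551055_al.RI

namespace Pool.Agent.Lib.MP_551055_al.N4
end Pool.Agent.Lib.MP_551055_al.N4

namespace Pool.Agent.Lib.MP_551055_al.N5

open Pool.Agent.Lib.MP_551055_al

open Pool.Agent.Lib.MP_e6f638_al (Dat EA gen par rho del IsDatOf IsAxis)

open Pool.Agent.Lib.MP_551055_al.LS (TreeAct ZN)

open Pool.Agent.Lib.MP_551055_al.RI (BTree stabV LiftData hV hT hB hT_treeAct mem_stab_hV)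

open Pool.Agent.Lib.MP_551055_al.N4

open Multiplicative

section

variable {G : Type} [Group G] (D : Dat G) (hφ : D.IsPhi D.phi) (hinj : Function.Injective D.phi)

variable {Q : Type} [Group Q] (R : D.Om hφ hinj →* Q)

variable {L : Type} [Group L] (th : D.E →* L) (T' X' : L) (π : L →* D.Om hφ hinj)

/-- Case (A). -/
def PAg (g : D.Om hφ hinj) : Prop :=
  ∀ y ∈ OE D hφ hinj, g⁻¹ * y * g ∈ OE D hφ hinj → R y = 1 → y = 1

/-- Case (B). -/
def PBg (g : D.Om hφ hinj) : Prop :=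
  ∃ gh : L, π gh = g ∧ ∀ e : D.E,
    g⁻¹ * D.oQ hφ hinj (D.phiQ hφ e) * g ∈ OE D hφ hinj →
      gh⁻¹ * th e * gh ∈ th.range

variable (hL : LiftOm D hφ hinj L th T' X' π)

include hL

theorem pBg_E (e : D.E) : PBg D hφ hinj th π (D.oQ hφ hinj (D.phiQ hφ e)) :=
  ⟨th e, hL.pth e, fun e' _ => ⟨e⁻¹ * e' * e, by simp⟩⟩

theorem pBg_T (ε : ℤˣ) : PBg D hφ hinj th π (D.T hφ hinj ^ (ε : ℤ)) := by
  refine ⟨T' ^ (ε : ℤ), by rw [map_zpow, hL.pT], fun e' _ => ?_⟩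
  rcases Int.units_eq_one_or ε with rfl | rfl
  · refine ⟨D.tauE' e', ?_⟩
    have h5 := hL.tau (D.tauE' e')
    have h6 : D.tauE (D.tauE' e') = e' := DFunLike.congr_fun D.tau_tau' e'
    rw [h6] at h5
    rw [← h5, Units.val_one, zpow_one]
    group
  · refine ⟨D.tauE e', ?_⟩
    rw [← hL.tau e', Units.val_neg, Units.val_one, zpow_neg, zpow_one, inv_inv]

/-- Products in case (B), if the conjugates are in `E` in the middle. -/
theorem pBg_mul {g g' : D.Om hφ hinj} (hg : PBg D hφ hinj th π g) (hg' : PBg D hφ hinj th π g')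
    (h : ∀ y ∈ OE D hφ hinj, (g * g')⁻¹ * y * (g * g') ∈ OE D hφ hinj →
      g⁻¹ * y * g ∈ OE D hφ hinj) : PBg D hφ hinj th π (g * g') := by
  have hπ := hL.pth
  obtain ⟨a, ha, ha'⟩ := hg
  obtain ⟨b, hb, hb'⟩ := hg'
  refine ⟨a * b, by rw [map_mul, ha, hb], fun e he => ?_⟩
  have h5 := h _ ⟨e, rfl⟩ he
  obtain ⟨e₁, he₁⟩ := ha' e h5
  have h6 : D.oQ hφ hinj (D.phiQ hφ e₁) = g⁻¹ * D.oQ hφ hinj (D.phiQ hφ e) * g := by
    rw [← hπ, he₁, map_mul, map_mul, map_inv, ha, hπ]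
  have h7 : g'⁻¹ * D.oQ hφ hinj (D.phiQ hφ e₁) * g' ∈ OE D hφ hinj := by
    rw [h6]
    have h8 : g'⁻¹ * (g⁻¹ * D.oQ hφ hinj (D.phiQ hφ e) * g) * g' =
        (g * g')⁻¹ * D.oQ hφ hinj (D.phiQ hφ e) * (g * g') := by group
    rw [h8]
    exact he
  have h8 := hb' e₁ h7
  rw [he₁] at h8
  have h9 : (a * b)⁻¹ * th e * (a * b) = b⁻¹ * (a⁻¹ * th e * a) * b := by group
  rw [h9]
  exact h8

theorem pBg_x : PBg D hφ hinj th π (D.oQ hφ hinj D.xQ) := by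
  refine ⟨X', hL.pX, fun e he => ?_⟩
  rw [← map_inv, ← map_mul, ← map_mul, mem_OE] at he
  obtain ⟨f, hf⟩ := he
  change D.phi f = D.x⁻¹ * D.phi e * D.x at hf
  have h5 : D.x * D.phi f * D.x⁻¹ = D.phi e := by rw [hf]; group
  refine ⟨f, ?_⟩
  rw [← hL.xc f e h5]
  group

theorem pBg_x' : PBg D hφ hinj th π (D.oQ hφ hinj D.xQ⁻¹) := by
  refine ⟨X'⁻¹, by rw [map_inv, hL.pX, map_inv], fun e he => ?_⟩
  rw [← map_inv, ← map_mul, ← map_mul, mem_OE, inv_inv] at he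
  obtain ⟨f, hf⟩ := he
  change D.phi f = D.x * D.phi e * D.x⁻¹ at hf
  refine ⟨f, ?_⟩
  rw [inv_inv, hL.xc e f hf.symm]

/-- The elements of `Q`. -/
theorem pg_Q (hS : ∀ q ∈ D.hh.ker, ∀ e : D.E, e ≠ 1 → R (D.oQ hφ hinj (D.phiQ hφ e)) = 1 →
    q⁻¹ * D.phi e * q ∈ RE D → Sp D q) (q : D.hh.ker) :
    PAg D hφ hinj R (D.oQ hφ hinj q) ∨ PBg D hφ hinj th π (D.oQ hφ hinj q) := by
  by_cases hA : PAg D hφ hinj R (D.oQ hφ hinj q)
  · exact Or.inl hA
  right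
  unfold PAg at hA
  push Not at hA
  obtain ⟨y, ⟨e, rfl⟩, hy1, hy2, hy3⟩ := hA
  rw [MonoidHom.comp_apply] at hy1 hy2 hy3
  have h5 : Sp D q := by
    refine hS q q.2 e ?_ hy2 ?_
    · intro h6
      apply hy3
      rw [h6, map_one, map_one]
    · rw [← map_inv, ← map_mul, ← map_mul, mem_OE] at hy1
      exact hy1
  have hmain : ∀ (e₁ e₂ : D.E) (q' : D.hh.ker), PBg D hφ hinj th π (D.oQ hφ hinj q') →
      PBg D hφ hinj th π (D.oQ hφ hinj (D.phiQ hφ e₁) * (D.oQ hφ hinj q' *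
        D.oQ hφ hinj (D.phiQ hφ e₂))) := by
    intro e₁ e₂ q' hq'
    refine pBg_mul D hφ hinj th T' X' π hL (pBg_E D hφ hinj th T' X' π hL e₁)
      (pBg_mul D hφ hinj th T' X' π hL hq' (pBg_E D hφ hinj th T' X' π hL e₂) ?_) ?_
    · intro y _ hy
      have h6 : (D.oQ hφ hinj q' * D.oQ hφ hinj (D.phiQ hφ e₂))⁻¹ * y *
          (D.oQ hφ hinj q' * D.oQ hφ hinj (D.phiQ hφ e₂)) =
          (D.oQ hφ hinj (D.phiQ hφ e₂))⁻¹ * ((D.oQ hφ hinj q')⁻¹ * y * D.oQ hφ hinj q') *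
            D.oQ hφ hinj (D.phiQ hφ e₂) := by group
      rw [h6] at hy
      exact (OE_conj D hφ hinj ⟨e₂, rfl⟩).1 hy
    · intro y hy _
      exact (OE_conj D hφ hinj ⟨e₁, rfl⟩).2 hy
  rcases h5 with h5 | ⟨_, ⟨e₁, rfl⟩, _, ⟨e₂, rfl⟩, h5 | h5⟩
  · obtain ⟨e₀, he₀⟩ := h5
    have h6 : q = D.phiQ hφ e₀ := Subtype.ext he₀.symm
    rw [h6]
    exact pBg_E D hφ hinj th T' X' π hL e₀
  · have h6 : q = D.phiQ hφ e₁ * (D.xQ * D.phiQ hφ e₂) := by
      apply Subtype.ext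
      rw [h5, mul_assoc]
      rfl
    rw [h6, map_mul, map_mul]
    exact hmain e₁ e₂ _ (pBg_x D hφ hinj th T' X' π hL)
  · have h6 : q = D.phiQ hφ e₁ * (D.xQ⁻¹ * D.phiQ hφ e₂) := by
      apply Subtype.ext
      rw [h5, mul_assoc]
      rfl
    rw [h6, map_mul, map_mul]
    exact hmain e₁ e₂ _ (pBg_x' D hφ hinj th T' X' π hL)

/-- All elements of `Omega`. -/
theorem pg_all (hQ : ∀ q, PAg D hφ hinj R (D.oQ hφ hinj q) ∨
    PBg D hφ hinj th π (D.oQ hφ hinj q)) :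
    ∀ (n : ℕ) (g : D.Om hφ hinj),
      (hT (D.phiQ hφ).range (D.phiQ hφ).range (D.tauQ hφ hinj)).dist
        (vO D hφ hinj 1) (vO D hφ hinj g) = n →
      PAg D hφ hinj R g ∨ PBg D hφ hinj th π g := by
  have hact := hT_treeAct (D.phiQ hφ).range (D.phiQ hφ).range (D.tauQ hφ hinj)
  intro n
  induction n with
  | zero =>
    intro g hg
    have h5 := (hact.tree.connected.dist_eq_zero_iff).1 hg
    rw [QuotientGroup.eq, inv_one, one_mul] at h5
    obtain ⟨q, rfl⟩ := h5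
    exact hQ q
  | succ n ih =>
    intro g hg
    obtain ⟨w, hw, hw', hfix⟩ := exists_first hact hg
    obtain ⟨h, ε, h5, rfl⟩ := hw
    rw [QuotientGroup.eq, inv_one, one_mul] at h5
    obtain ⟨q, rfl⟩ := h5
    have hg' := ih ((D.oQ hφ hinj q * D.T hφ hinj ^ (ε : ℤ))⁻¹ * g) (by
      rw [← hw']
      have h6 := LS.dist_smul_smul hact (D.oQ hφ hinj q * D.T hφ hinj ^ (ε : ℤ))
        (vO D hφ hinj 1) (vO D hφ hinj ((D.oQ hφ hinj q * D.T hφ hinj ^ (ε : ℤ))⁻¹ * g))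
      rw [smul_vO, smul_vO, mul_one, mul_inv_cancel_left] at h6
      exact h6.symm)
    have hmid : ∀ y ∈ OE D hφ hinj, g⁻¹ * y * g ∈ OE D hφ hinj →
        (D.oQ hφ hinj q)⁻¹ * y * D.oQ hφ hinj q ∈ OE D hφ hinj := by
      rintro _ ⟨e, rfl⟩ ⟨e', he'⟩
      rw [MonoidHom.comp_apply] at he' ⊢
      have h6 : D.oQ hφ hinj (D.phiQ hφ e) • vO D hφ hinj 1 = vO D hφ hinj 1 := by
        rw [mem_stab_hV, inv_one, one_mul, mul_one]
        exact ⟨_, rfl⟩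
      have h7 : D.oQ hφ hinj (D.phiQ hφ e) • vO D hφ hinj g = vO D hφ hinj g := by
        rw [mem_stab_hV]
        exact ⟨_, he'⟩
      have h8 := hfix _ h6 h7
      rw [mem_stab_hV] at h8
      have h9 : (D.oQ hφ hinj q * D.T hφ hinj ^ (ε : ℤ))⁻¹ * D.oQ hφ hinj (D.phiQ hφ e) *
          (D.oQ hφ hinj q * D.T hφ hinj ^ (ε : ℤ)) = (D.T hφ hinj ^ (ε : ℤ))⁻¹ *
          D.oQ hφ hinj (q⁻¹ * D.phiQ hφ e * q) * D.T hφ hinj ^ (ε : ℤ) := by
        rw [map_mul, map_mul, map_inv]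
        group
      rw [h9] at h8
      have h10 := britton ε _ h8
      obtain ⟨e₁, he₁⟩ := h10
      refine ⟨e₁, ?_⟩
      rw [MonoidHom.comp_apply, he₁, map_mul, map_mul, map_inv]
    have hsplit : g = D.oQ hφ hinj q * (D.T hφ hinj ^ (ε : ℤ) *
        ((D.oQ hφ hinj q * D.T hφ hinj ^ (ε : ℤ))⁻¹ * g)) := by group
    rcases hQ q with hq | hq
    · left
      exact fun y hy hy' hρ => hq y hy (hmid y hy hy') hρ
    rcases hg' with hg' | hg'
    · left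
      intro y hy hy' hρ
      have h6 := OE_T D hφ hinj ε (hmid y hy hy')
      have h7 := hg' _ h6 (by
        have h8 : ((D.oQ hφ hinj q * D.T hφ hinj ^ (ε : ℤ))⁻¹ * g)⁻¹ *
            ((D.T hφ hinj ^ (ε : ℤ))⁻¹ * ((D.oQ hφ hinj q)⁻¹ * y * D.oQ hφ hinj q) *
              D.T hφ hinj ^ (ε : ℤ)) *
            ((D.oQ hφ hinj q * D.T hφ hinj ^ (ε : ℤ))⁻¹ * g) = g⁻¹ * y * g := by group
        rw [h8]
        exact hy') (by
        simp only [map_mul, hρ, map_inv]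
        group)
      have h8 : y = D.oQ hφ hinj q * (D.T hφ hinj ^ (ε : ℤ) *
          ((D.T hφ hinj ^ (ε : ℤ))⁻¹ * ((D.oQ hφ hinj q)⁻¹ * y * D.oQ hφ hinj q) *
              D.T hφ hinj ^ (ε : ℤ)) * (D.T hφ hinj ^ (ε : ℤ))⁻¹) * (D.oQ hφ hinj q)⁻¹ := by group
      rw [h8, h7]
      group
    · right
      rw [hsplit]
      refine pBg_mul D hφ hinj th T' X' π hL hq (pBg_mul D hφ hinj th T' X' π hL (pBg_T D hφ hinj th T' X' π hL ε) hg' ?_) ?_
      · exact fun y hy _ => OE_T D hφ hinj ε hy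
      · intro y hy hy'
        rw [← hsplit] at hy'
        exact hmid y hy hy'

end

/-- Module O5. -/
theorem stO5 : StO5 := by
  intro P hP G _ D hφ hinj L _ th T' X' π hL hG hPL Q _ R hPQ hS
  have hπ := hL.pth
  have hAh : P D.Ah := hP.cent G D.B hG
  have hQ : P D.hh.ker :=
    hP.lift _ _ D.hh.ker.subtype (lift_of_injective _ (Subgroup.subtype_injective _)) hAh
  have hOE : P (OE D hφ hinj) := by
    have h5 : Function.Injective ((D.oQ hφ hinj).comp (D.phiQ hφ)) := by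
      intro a b hab
      exact D.phiQ_inj hφ hinj (oQ_inj D hφ hinj hab)
    refine hP.lift _ _ ((D.phiQ hφ).comp (MonoidHom.ofInjective h5).symm.toMonoidHom)
      (lift_of_injective _ ?_) hQ
    exact (D.phiQ_inj hφ hinj).comp (MonoidHom.ofInjective h5).symm.injective
  have hp := fun g => pg_all D hφ hinj R th T' X' π hL
    (fun q => pg_Q D hφ hinj R th T' X' π hL hS q) _ g rfl
  refine hP.edge (D.Om hφ hinj) ⟨_, inferInstance, _,
    hT_treeAct (D.phiQ hφ).range (D.phiQ hφ).range (D.tauQ hφ hinj)⟩ (fun v => ?_)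
    (fun u v huv g => ?_)
  · obtain ⟨i, hi⟩ := RI.exists_stab_hV v
    exact hP.lift _ _ i (lift_of_injective _ hi) hQ
  · obtain ⟨k, ε, rfl, rfl⟩ := huv
    have hD : ∀ x, x ∈ MulAction.stabilizer (D.Om hφ hinj) (vO D hφ hinj k,
        vO D hφ hinj (k * HNNExtension.t ^ (ε : ℤ))) ↔ k⁻¹ * x * k ∈ OE D hφ hinj := by
      intro x
      rw [MulAction.mem_stabilizer_iff, Prod.smul_mk, Prod.mk.injEq, mem_stab_hV, mem_stab_hV]
      constructor
      · rintro ⟨⟨q, hq⟩, h6⟩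
        have h7 : (k * HNNExtension.t ^ (ε : ℤ))⁻¹ * x * (k * HNNExtension.t ^ (ε : ℤ)) =
            (D.T hφ hinj ^ (ε : ℤ))⁻¹ * D.oQ hφ hinj q * D.T hφ hinj ^ (ε : ℤ) := by
          have h8 : D.oQ hφ hinj q = k⁻¹ * x * k := hq
          rw [h8]
          group
        rw [h7] at h6
        obtain ⟨e, rfl⟩ := britton ε _ h6
        exact ⟨e, hq⟩
      · intro h5
        have h6 := OE_T D hφ hinj ε h5
        refine ⟨?_, ?_⟩
        · obtain ⟨e, he⟩ := h5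
          exact ⟨_, he⟩
        · obtain ⟨e, he⟩ := h6
          refine ⟨_, he.trans ?_⟩
          group
    have hg : g = k * (k⁻¹ * g * k) * k⁻¹ := by group
    rcases hp (k⁻¹ * g * k) with h5 | ⟨gh, h5, h6⟩
    · refine ⟨RI.LH (OE D hφ hinj) (k⁻¹ * g * k), inferInstance, _, _, HNNExtension.t,
        liftData_conj (D₀ := OE D hφ hinj) (RI.liftData_hnn (OE D hφ hinj) (k⁻¹ * g * k)) k hD hg,
        ?_⟩
      refine hP.hnn _ _ _ _ Q (R.comp (RI.lf (OE D hφ hinj) (k⁻¹ * g * k))) hOE hPQ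
        fun x hx h6 => ?_
      rw [MonoidHom.comp_apply, RI.lf_of] at h6
      rw [RI.mem_lA] at hx
      have h7 := h5 _ hx (by
        have h8 : (k⁻¹ * g * k)⁻¹ * (k⁻¹ * g * k * (x : D.Om hφ hinj) * (k⁻¹ * g * k)⁻¹) *
          (k⁻¹ * g * k) = x := by group
        rw [h8]
        exact x.2) (by
        simp only [map_mul, map_inv] at h6 ⊢
        rw [h6]
        group)
      apply Subtype.ext
      have h8 : (x : D.Om hφ hinj) = (k⁻¹ * g * k)⁻¹ *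
          (k⁻¹ * g * k * (x : D.Om hφ hinj) * (k⁻¹ * g * k)⁻¹) * (k⁻¹ * g * k) := by group
      rw [h8, h7, mul_one, inv_mul_cancel]
      rfl
    · refine ⟨L, inferInstance, _, th.range, gh,
        liftData_conj (D₀ := OE D hφ hinj) (g₀ := k⁻¹ * g * k) (f := π) ?_ k hD hg, hPL⟩
      refine ⟨?_, ?_, ?_, h5, ?_⟩
      · rintro _ ⟨e, rfl⟩
        rw [hπ]
        exact ⟨e, rfl⟩
      · rintro _ ⟨e, rfl⟩
        exact ⟨_, ⟨e, rfl⟩, hπ e⟩
      · rintro _ ⟨e, rfl⟩ h7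
        rw [hπ] at h7
        have h8 : D.phiQ hφ e = 1 := oQ_inj D hφ hinj (by rw [h7, map_one])
        have h9 : e = 1 := D.phiQ_inj hφ hinj (by rw [h8, map_one])
        rw [h9, map_one]
      · rintro _ ⟨e, rfl⟩ h7
        rw [hπ] at h7
        exact h6 e h7

end Pool.Agent.Lib.MP_551055_al.N5
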