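import Mathlib
import Pool.Agent.Lib.MP_551055_al.Trim.MT.K1
import Pool.Agent.Lib.MP_551055_al.Trim.N5.Stmts
import Pool.Agent.Lib.MP_551055_al.Trim.X.MP_e6f638_al.I1
import Pool.Agent.Lib.MP_551055_al.Trim.X.MP_e6f638_al.I2
import Pool.Agent.Lib.MP_551055_al.Trim.X.MP_e6f638_al.Stmts

/-!
# Module PE: the pure extension is an even Artin group
-/

set_option autoImplicit false

namespace Pool.Agent.Lib.MP_551055_al
end Pool.Agent.Lib.MP_551055_al

namespace Pool.Agent.Lib.MP_e6f638_al
end Pool.Agent.Lib.MP_e6f638_al

namespace Pool.Agent.Lib.MP_551055_al.N5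

open Pool.Agent.Lib.MP_551055_al

open Pool.Agent.Lib.MP_e6f638_al (Dat EA gen par rho del IsDatOf IsAxis liftEA liftEA_gen hom_ext_EA gen_rel gen_injective gen_mem_par mul_pow_comm_mul pow_eq_of_comm)

open Multiplicative

theorem stPE : StPE := by
  intro S _ l hl u D hD l' h1 h2 h3
  let j : EA (del l u) →* EA l' := liftEA (del l u) (fun s => gen l' (s : S)) (fun s t => by
    have h := gen_rel l' (s : S) (t : S)
    rw [h1 _ _ s.2 t.2] at h
    exact h)
  have hj : ∀ s : {x : S // x ≠ u}, j (gen (del l u) s) = gen l' (s : S) :=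
    fun s => liftEA_gen _ _ _ _
  refine ⟨j, ?_, ?_, ?_⟩
  · intro b hb
    rw [hD.B] at hb
    induction hb using Subgroup.closure_induction with
    | mem x hx =>
      obtain ⟨s, hs, rfl⟩ := hx
      have h := gen_rel l' u (s : S)
      have hs' : l u s = 1 := hs
      rw [h2, hs', if_neg (by omega), pow_one, pow_one] at h
      rw [hj]
      exact h
    | one => rw [map_one]; exact Commute.one_right _
    | mul x y _ _ hx hy => rw [map_mul]; exact hx.mul_right hy
    | inv x _ hx => rw [map_inv]; exact hx.inv_right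
  · intro i hi
    obtain ⟨s, hs, hs'⟩ := hD.t i
    rw [hs, hj]
    have h := gen_rel l' u (s : S)
    rw [h2, hs', hi, if_neg (by omega)] at h
    change (gen l' (s : S) * gen l' u) ^ 2 * gen l' (s : S) =
      gen l' (s : S) * (gen l' (s : S) * gen l' u) ^ 2
    rw [mul_pow_comm_mul, h]
  · intro K _ f w h4 h5
    classical
    have key : ∀ t : {x : S // x ≠ u},
        (w * f (gen _ t)) ^ l' u t = (f (gen _ t) * w) ^ l' u t := by
      intro t
      rw [h2]
      by_cases h6 : 3 ≤ l u t
      · rw [if_pos h6, pow_zero, pow_zero]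
      rw [if_neg h6]
      rcases Nat.lt_or_ge (l u t) 2 with h | h
      · have h3 : l u t = 0 ∨ l u t = 1 := by omega
        rcases h3 with h3 | h3
        · rw [h3, pow_zero, pow_zero]
        · rw [h3, pow_one, pow_one]
          refine h4 _ ?_
          rw [hD.B]
          exact gen_mem_par (del l u) (X := {c | l u c = 1}) h3
      · have h7 : l u t = 2 := by omega
        obtain ⟨i, hi⟩ := hD.surj t h
        obtain ⟨s, hs, hs'⟩ := hD.t i
        have h8 : s = t := gen_injective _ (hs.symm.trans hi)
        have h9 : D.l i = 2 := by rw [← hs', h8, h7]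
        rw [h7]
        have h10 := h5 i h9
        rw [hi] at h10
        exact pow_eq_of_comm h10
    refine ⟨liftEA l' (fun s => if h : s ≠ u then f (gen _ ⟨s, h⟩) else w) ?_, ?_, ?_⟩
    · intro s t
      by_cases hs : s = u
      · by_cases ht : t = u
        · simp [hs, ht]
        · subst hs
          simp only [ne_eq, not_true_eq_false, not_false_eq_true, dif_neg, ht, dif_pos]
          exact key ⟨t, ht⟩
      · by_cases ht : t = u
        · subst ht
          simp only [ne_eq, not_true_eq_false, not_false_eq_true, dif_neg, hs, dif_pos]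
          rw [h3 s t]
          exact (key ⟨s, hs⟩).symm
        · simp only [ne_eq, hs, not_false_eq_true, dif_pos, ht]
          rw [← map_mul, ← map_mul, ← map_pow, ← map_pow, h1 s t hs ht]
          exact congrArg f (gen_rel (del l u) ⟨s, hs⟩ ⟨t, ht⟩)
    · refine hom_ext_EA _ fun s => ?_
      rw [MonoidHom.comp_apply, hj, liftEA_gen, dif_pos s.2]
    · rw [liftEA_gen, dif_neg (by simp)]

end Pool.Agent.Lib.MP_551055_al.N5
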