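import Mathlib
import Pool.Agent.Lib.MP_551055_al.Trim.LS.PStmts
import Pool.Agent.Lib.MP_551055_al.Trim.LS.Ray
import Pool.Agent.Lib.MP_551055_al.Trim.LS.Stmts
import Pool.Agent.Lib.MP_551055_al.Trim.LS.TreeB
import Pool.Agent.Lib.MP_551055_al.Trim.MT.Defs
import Pool.Agent.Lib.MP_551055_al.Trim.MT.K1
import Pool.Agent.Lib.MP_551055_al.Trim.N4.Loc_17
import Pool.Agent.Lib.MP_551055_al.Trim.N4.S1_4
import Pool.Agent.Lib.MP_551055_al.Trim.N4.Stmts
import Pool.Agent.Lib.MP_551055_al.Trim.N5.L5_4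
import Pool.Agent.Lib.MP_551055_al.Trim.N5.Stmts
import Pool.Agent.Lib.MP_551055_al.Trim.RI.HNN
import Pool.Agent.Lib.MP_551055_al.Trim.X.MP_e6f638_al.F
import Pool.Agent.Lib.MP_551055_al.Trim.X.MP_e6f638_al.Stmts

/-!
# Module S1M: the intersection of `E` and its conjugate by `x` in the mixed case
-/

set_option autoImplicit false

namespace Pool.Agent.Lib.MP_551055_al
end Pool.Agent.Lib.MP_551055_al

namespace Pool.Agent.Lib.MP_e6f638_al
end Pool.Agent.Lib.MP_e6f638_al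

namespace Pool.Agent.Lib.MP_551055_al.N4
end Pool.Agent.Lib.MP_551055_al.N4

namespace Pool.Agent.Lib.MP_551055_al.N4.S14
end Pool.Agent.Lib.MP_551055_al.N4.S14

namespace Pool.Agent.Lib.MP_551055_al.N5.L54
end Pool.Agent.Lib.MP_551055_al.N5.L54

namespace Pool.Agent.Lib.MP_551055_al.N5.S15
end Pool.Agent.Lib.MP_551055_al.N5.S15

namespace Pool.Agent.Lib.MP_551055_al.N5

open Pool.Agent.Lib.MP_551055_al

open Pool.Agent.Lib.MP_e6f638_al (Dat)

open Pool.Agent.Lib.MP_551055_al.N4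

open Pool.Agent.Lib.MP_551055_al.N4.S14 (next_vtx dist_le_one x_eq e_mem')

namespace S15

open L54

/-- A geodesic in two subgraphs of a tree which is forced to follow a path. -/
theorem follow {V : Type} {T H₁ H₂ : SimpleGraph V} (hT : T.IsTree) (h₁ : H₁ ≤ T) (h₂ : H₂ ≤ T)
    (hn : ∀ a b : V, a ≠ b → ∃ w, T.Adj a w ∧ T.dist a b = T.dist w b + 1) {b : V} (p : ℕ → V)
    (N : ℕ) (hf : ∀ s, 1 ≤ s → s < N → p s ≠ b ∧ ∀ w, H₁.Adj (p s) w → H₂.Adj (p s) w →
      w = p (s + 1) ∨ w = p (s - 1)) (hr₁ : H₁.Reachable (p 1) b) (hr₂ : H₂.Reachable (p 1) b)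
    (hd : T.dist (p 0) b = T.dist (p 1) b + 1) (s : ℕ) (hs : 1 ≤ s) (hs' : s ≤ N) :
    H₁.Reachable (p s) b ∧ H₂.Reachable (p s) b ∧ T.dist (p (s - 1)) b = T.dist (p s) b + 1 ∧
      T.dist (p s) b + s = T.dist (p 0) b := by
  induction s, hs using Nat.le_induction with
  | base => exact ⟨hr₁, hr₂, hd, hd.symm⟩
  | succ s hs ih =>
    obtain ⟨i1, i2, i3, i4⟩ := ih (by omega)
    obtain ⟨h3, h4⟩ := hf s hs (by omega)
    obtain ⟨w, hw, hwd⟩ := hn _ _ h3
    obtain ⟨a1, r1⟩ := step_mem hT h₁ i1 hw hwd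
    obtain ⟨a2, r2⟩ := step_mem hT h₂ i2 hw hwd
    rcases h4 w a1 a2 with rfl | rfl
    · exact ⟨r1, r2, hwd, by omega⟩
    · omega

variable {G : Type} [Group G] {D : Dat G} {a : D.ι}

variable (D a) in
/-- The elements which preserve the pair of tile graphs. -/
def NN (y : D.Ah) : Prop :=
  (y ∈ RE D ∧ xi D a * y * (xi D a)⁻¹ ∈ RE D) ∨ (xi D a * y ∈ RE D ∧ y * (xi D a)⁻¹ ∈ RE D)

theorem nn_div {r y : D.Ah} (h1 : xi D a * r ∈ RE D) (h2 : r * (xi D a)⁻¹ ∈ RE D)
    (hy : NN D a y) : NN D a (r⁻¹ * y) := by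
  rcases hy with ⟨h3, h4⟩ | ⟨h3, h4⟩
  · right
    refine ⟨?_, ?_⟩
    · have := mul_mem (inv_mem h2) h3
      rw [mul_inv_rev, inv_inv] at this
      simpa only [mul_assoc] using this
    · have := mul_mem (inv_mem h1) h4
      have h5 : r⁻¹ * y * (xi D a)⁻¹ = (xi D a * r)⁻¹ * (xi D a * y * (xi D a)⁻¹) := by group
      rwa [h5]
  · left
    refine ⟨?_, ?_⟩
    · have := mul_mem (inv_mem h1) h3
      have h5 : r⁻¹ * y = (xi D a * r)⁻¹ * (xi D a * y) := by group
      rwa [h5]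
    · have := mul_mem (inv_mem h2) h4
      have h5 : xi D a * (r⁻¹ * y) * (xi D a)⁻¹ = (r * (xi D a)⁻¹)⁻¹ * (y * (xi D a)⁻¹) := by group
      rwa [h5]

theorem r_M {m : G} (hm : m ∈ MM D) : D.ofG m ∈ RRM D a :=
  Subgroup.subset_closure (Or.inl ⟨m, hm, rfl⟩)

theorem r_z (i : D.ι) : xi D i ^ D.l i ∈ RRM D a :=
  Subgroup.subset_closure (Or.inr (Or.inl ⟨i, rfl⟩))

theorem r_kz (i : D.ι) :
    D.ofG (kk D a i) * xi D i ^ D.l i * (D.ofG (kk D a i))⁻¹ ∈ RRM D a :=
  Subgroup.subset_closure (Or.inr (Or.inr ⟨i, rfl⟩))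

theorem r_zz (ha : D.l a = 2) : xi D a * xi D a ∈ RRM D a := by
  have := r_z (a := a) a
  rwa [ha, pow_two] at this

theorem conj_z (i : D.ι) : xi D a * xi D i ^ D.l i * (xi D a)⁻¹ =
    D.ofG (kk D a i) * xi D i ^ D.l i * (D.ofG (kk D a i))⁻¹ := by
  have h1 : xi D a = D.ofG (kk D a i) * xi D i := xi_of i a
  rw [h1]
  have h2 : xi D i * xi D i ^ D.l i = xi D i ^ D.l i * xi D i := by
    rw [← pow_succ', ← pow_succ]
  calc D.ofG (kk D a i) * xi D i * xi D i ^ D.l i * (D.ofG (kk D a i) * xi D i)⁻¹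
      = D.ofG (kk D a i) * (xi D i * xi D i ^ D.l i) * (xi D i)⁻¹ * (D.ofG (kk D a i))⁻¹ := by
        group
    _ = _ := by rw [h2]; group

/-- `x a` normalises `RRM`. -/
theorem conj_mem (ha : D.l a = 2) {e : D.Ah} (he : e ∈ RRM D a) :
    xi D a * e * (xi D a)⁻¹ ∈ RRM D a := by
  have hzz := r_zz ha
  have hM : ∀ m ∈ MM D, xi D a * D.ofG m * (xi D a)⁻¹ ∈ RRM D a := by
    intro m hm
    induction hm using Subgroup.closure_induction with
    | mem m hm =>
      rcases hm with hb | ⟨i, j, b, hi, hj, hb, rfl⟩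
      · have h1 : xi D a * D.ofG m * (xi D a)⁻¹ = D.ofG (D.t a * m * (D.t a)⁻¹) := by
          rw [xi, mul_assoc (D.ofG (D.t a)), D.u_comm hb, map_mul, map_mul, map_inv]
          group
        rw [h1]
        exact r_M (mm_t ha ha hb)
      · have key : ∀ i, D.l i = 2 → xi D a * D.ofG (D.t i) * D.u =
            D.ofG (kk D a i) * xi D i ^ D.l i := by
          intro i hi
          have h1 : xi D a = D.ofG (kk D a i) * xi D i := xi_of i a
          rw [h1, hi, pow_two]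
          have h2 : xi D i = D.ofG (D.t i) * D.u := rfl
          rw [h2]
          simp only [mul_assoc]
        have h1 : xi D a * D.ofG (D.t i * b * (D.t j)⁻¹) * (xi D a)⁻¹ =
            (xi D a * D.ofG (D.t i) * D.u) * D.ofG b * (xi D a * D.ofG (D.t j) * D.u)⁻¹ := by
          have h2 : xi D a * D.ofG (D.t i) * D.u * D.ofG b = xi D a * D.ofG (D.t i) *
              (D.ofG b * D.u) := by
            rw [← D.u_comm hb]
            simp only [mul_assoc]
          rw [h2, map_mul, map_mul, map_inv]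
          group
        rw [h1, key i hi, key j hj]
        refine mul_mem (mul_mem (mul_mem (r_M (mm_tt ha hi)) (r_z i)) (r_M (mm_B hb))) (inv_mem ?_)
        exact mul_mem (r_M (mm_tt ha hj)) (r_z j)
    | one => rw [map_one, mul_one, mul_inv_cancel]; exact one_mem _
    | mul x y _ _ hx hy =>
      have := mul_mem hx hy
      have h1 : xi D a * D.ofG (x * y) * (xi D a)⁻¹ =
          xi D a * D.ofG x * (xi D a)⁻¹ * (xi D a * D.ofG y * (xi D a)⁻¹) := by
        rw [map_mul]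
        group
      rwa [h1]
    | inv x _ hx =>
      have := inv_mem hx
      have h1 : xi D a * D.ofG x⁻¹ * (xi D a)⁻¹ = (xi D a * D.ofG x * (xi D a)⁻¹)⁻¹ := by
        rw [map_inv]
        group
      rwa [h1]
  induction he using Subgroup.closure_induction with
  | mem e he =>
    rcases he with ⟨m, hm, rfl⟩ | ⟨i, rfl⟩ | ⟨i, rfl⟩
    · exact hM m hm
    · show xi D a * xi D i ^ D.l i * (xi D a)⁻¹ ∈ _
      rw [conj_z]
      exact r_kz i
    · show xi D a * (D.ofG (kk D a i) * xi D i ^ D.l i * (D.ofG (kk D a i))⁻¹) * (xi D a)⁻¹ ∈ _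
      rw [← conj_z]
      have h1 : xi D a * (xi D a * xi D i ^ D.l i * (xi D a)⁻¹) * (xi D a)⁻¹ =
          (xi D a * xi D a) * xi D i ^ D.l i * (xi D a * xi D a)⁻¹ := by group
      rw [h1]
      exact mul_mem (mul_mem hzz (r_z i)) (inv_mem hzz)
  | one => rw [mul_one, mul_inv_cancel]; exact one_mem _
  | mul x y _ _ hx hy =>
    have := mul_mem hx hy
    have h1 : xi D a * (x * y) * (xi D a)⁻¹ =
        xi D a * x * (xi D a)⁻¹ * (xi D a * y * (xi D a)⁻¹) := by group
    rwa [h1]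
  | inv x _ hx =>
    have := inv_mem hx
    have h1 : xi D a * x⁻¹ * (xi D a)⁻¹ = (xi D a * x * (xi D a)⁻¹)⁻¹ := by group
    rwa [h1]

/-- `RRM` is in `RE`. -/
theorem r_le {e : D.Ah} (he : e ∈ RRM D a) : e ∈ RE D := by
  have h1 : RRM D a ≤ RE D := by
    rw [RRM, Subgroup.closure_le]
    rintro _ (⟨m, hm, rfl⟩ | ⟨i, rfl⟩ | ⟨i, rfl⟩)
    · exact ofG_mem_RE D (mm_h hm)
    · exact zi_mem_RE D i
    · exact mul_mem (mul_mem (kk_mem a i) (zi_mem_RE D i)) (inv_mem (kk_mem a i))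
  exact h1 he

/-- The elements of `RRM x a`. -/
theorem r_second (ha : D.l a = 2) {r : D.Ah} (hr : r * (xi D a)⁻¹ ∈ RRM D a) :
    xi D a * r ∈ RE D ∧ r * (xi D a)⁻¹ ∈ RE D := by
  refine ⟨?_, r_le hr⟩
  have h1 : xi D a * r = xi D a * (r * (xi D a)⁻¹) * (xi D a)⁻¹ * (xi D a * xi D a) := by group
  rw [h1]
  exact mul_mem (r_le (conj_mem ha hr)) (z_two ha)

variable (D a) in
/-- Vertices of type M or S. -/
def MS (k : D.Ah) (v : AV D) : Prop :=
  (∃ e ∈ RE D, v = pt D (k * e)) ∨ ∃ e ∈ RE D, v = pt D (k * e * xi D a)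

theorem ms_reach {k : D.Ah} {v w : AV D} (hv : MS D a k v) (hw : MS D a k w) :
    (TK D k).Reachable v w := by
  have key : ∀ v, MS D a k v → ∃ e ∈ RE D, (TK D k).Reachable (pt D (k * e)) v := by
    rintro v (⟨e, he, rfl⟩ | ⟨e, he, rfl⟩)
    · exact ⟨e, he, SimpleGraph.Reachable.refl _⟩
    · refine ⟨e, he, ?_⟩
      have := tile_reach D k he a 1 (by have := D.two_le a; omega)
      rwa [pow_one] at this
  obtain ⟨e, he, h1⟩ := key v hv
  obtain ⟨e', he', h2⟩ := key w hw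
  exact h1.symm.trans ((tk_reach D k he he').trans h2)

theorem ms_one {y : D.Ah} (hy : NN D a y) : MS D a 1 (pt D y) := by
  rcases hy with ⟨h1, _⟩ | ⟨_, h1⟩
  · exact Or.inl ⟨y, h1, by rw [one_mul]⟩
  · exact Or.inr ⟨_, h1, by rw [one_mul, inv_mul_cancel_right]⟩

theorem ms_two {y : D.Ah} (hy : NN D a y) : MS D a (xi D a)⁻¹ (pt D y) := by
  rcases hy with ⟨_, h1⟩ | ⟨h1, _⟩
  · refine Or.inr ⟨_, h1, ?_⟩
    congr 1
    group
  · refine Or.inl ⟨_, h1, ?_⟩
    congr 1
    group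

variable (hL : LocM D a)

include hL in
theorem ne_ms {k e : D.Ah} (he : e ∈ RE D) {i : D.ι} {r : ℕ} (hr : 2 ≤ r) (hr' : r + 2 ≤ D.l i)
    {v : AV D} (hv : MS D a k v) : pt D (k * e * xi D i ^ r) ≠ v := by
  rintro rfl
  rcases hv with hv | ⟨e', he', hv⟩
  · exact hL.nm k e he i r (by omega) (by omega) hv
  · exact hL.ts k e he e' he' i r hr hr' hv

end S15

open L54 S15 in
/-- Module S1M. -/
theorem stS1M : StS1M := by
  intro G _ D a hM hW hL
  have ha := hM.la
  -- the claim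
  suffices h : ∀ (n : ℕ) (y : D.Ah), NN D a y → (AT D).dist (pt D 1) (pt D y) = n →
      y ∈ RRM D a ∨ y * (xi D a)⁻¹ ∈ RRM D a by
    intro y hy hxy
    have h1 : xi D a * y * (xi D a)⁻¹ ∈ RE D := by
      have h2 : xi D a * y * (xi D a)⁻¹ = (D.ofG (D.t₀ * (D.t a)⁻¹))⁻¹ *
          (D.x * y * D.x⁻¹) * D.ofG (D.t₀ * (D.t a)⁻¹) := by
        rw [x_eq a]
        group
      rw [h2]
      exact mul_mem (mul_mem (inv_mem (e_mem' a)) hxy) (e_mem' a)
    rcases h _ y (Or.inl ⟨hy, h1⟩) rfl with h2 | h2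
    · exact h2
    · exfalso
      have h3 := mul_mem (inv_mem (r_le h2)) hy
      rw [mul_inv_rev, inv_inv, inv_mul_cancel_right] at h3
      refine hW.c1 a 1 1 le_rfl (by omega) ?_
      rwa [pow_one, map_one, mul_one]
  intro n
  induction n using Nat.strong_induction_on with
  | h n ih =>
  intro y hy hn
  -- the closing step
  have close : ∀ r : D.Ah, r * (xi D a)⁻¹ ∈ RRM D a → (AT D).dist (pt D r) (pt D y) < n →
      y ∈ RRM D a ∨ y * (xi D a)⁻¹ ∈ RRM D a := by
    intro r hr hlt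
    obtain ⟨h1, h2⟩ := r_second ha hr
    have h3 := ih _ hlt (r⁻¹ * y) (nn_div h1 h2 hy) (by
      rw [← LS.dist_smul_smul (at_act D) r, smul_pt, smul_pt, mul_one, mul_inv_cancel_left])
    rcases h3 with h3 | h3
    · right
      have h4 := mul_mem hr (conj_mem ha h3)
      have h5 : y * (xi D a)⁻¹ = r * (xi D a)⁻¹ * (xi D a * (r⁻¹ * y) * (xi D a)⁻¹) := by group
      rwa [h5]
    · left
      have h4 := mul_mem (mul_mem hr (conj_mem ha h3)) (r_zz ha)
      have h5 : y = r * (xi D a)⁻¹ * (xi D a * (r⁻¹ * y * (xi D a)⁻¹) * (xi D a)⁻¹) *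
          (xi D a * xi D a) := by group
      rwa [← h5] at h4
  by_cases h0 : pt D 1 = pt D y
  · -- `y` is in `G`
    obtain ⟨g, hg⟩ := (pt_eq D).1 h0
    rw [one_mul] at hg
    subst hg
    left
    rcases hy with ⟨_, h1⟩ | ⟨h1, _⟩
    · exact r_M (hW.cS g h1)
    · exfalso
      refine hW.c1 a 1 g le_rfl (by omega) ?_
      rwa [pow_one]
  obtain ⟨w, hw, hwd⟩ := N4.S14.next_vtx h0
  have hm1 : MS D a 1 (pt D 1) := Or.inl ⟨1, one_mem _, by rw [one_mul]⟩
  have hp1 : pt D 1 = pt D ((xi D a)⁻¹ * 1 * xi D a) := by rw [mul_one, inv_mul_cancel]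
  have hm2 : MS D a (xi D a)⁻¹ (pt D 1) := Or.inr ⟨1, one_mem _, hp1⟩
  obtain ⟨ha1, hr1⟩ := step_mem (at_act D).tree (tk_le D 1) (ms_reach hm1 (ms_one hy)) hw hwd
  obtain ⟨ha2, hr2⟩ := step_mem (at_act D).tree (tk_le D _) (ms_reach hm2 (ms_two hy)) hw hwd
  have hfin : ∀ (p : ℕ → AV D) (j : D.ι), 4 ≤ D.l j → p 0 = pt D 1 → p 1 = w →
      (∀ s, 1 ≤ s → s < D.l j - 1 → p s ≠ pt D y ∧ ∀ w, (TK D 1).Adj (p s) w →
        (TK D (xi D a)⁻¹).Adj (p s) w → w = p (s + 1) ∨ w = p (s - 1)) →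
      (AT D).dist (p (D.l j - 1)) (pt D y) < n := by
    intro p j hj hp0 hp1 hf
    have h1 := follow (at_act D).tree (tk_le D 1) (tk_le D (xi D a)⁻¹)
      (fun _ _ h => N4.S14.next_vtx h) p (D.l j - 1) hf (by rwa [hp1]) (by rwa [hp1])
      (by rw [hp0, hp1, hwd]) (D.l j - 1) (by omega) le_rfl
    rw [hp0, hn] at h1
    omega
  rcases ha2 with h | h
  · -- outgoing
    rw [hp1] at h
    obtain ⟨m, hm, j, hj, h1⟩ := hL.sO _ 1 (one_mem _) w h
    have h2 : w = pt D (D.ofG m * xi D j) := by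
      rw [h1, mul_one, inv_mul_cancel, one_mul]
    by_cases hja : j = a
    · subst hja
      refine close _ ?_ (by rw [← h2]; omega)
      rw [mul_inv_cancel_right]
      exact r_M hm
    have hj4 : 4 ≤ D.l j := by
      rcases hj with hj | hj
      · exact absurd hj hja
      · exact hj
    have hme : D.ofG m ∈ RE D := ofG_mem_RE D (mm_h hm)
    -- the tile in the second graph
    have he₂ : xi D a * D.ofG m * (xi D j)⁻¹ ∈ RE D := by
      rw [xi_inv a j, ← mul_assoc]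
      exact mul_mem (r_le (conj_mem ha (r_M hm))) (kk_mem a j)
    have hk : ∀ s, (xi D a)⁻¹ * (xi D a * D.ofG m * (xi D j)⁻¹) * xi D j ^ (s + 1) =
        D.ofG m * xi D j ^ s := fun s => by
      rw [pow_succ']
      group
    have hk1 : ∀ s, 1 * D.ofG m * xi D j ^ s = D.ofG m * xi D j ^ s := fun s => by rw [one_mul]
    have h3 := hfin (fun s => pt D (D.ofG m * xi D j ^ s)) j hj4 (by
      show pt D (D.ofG m * xi D j ^ 0) = pt D 1
      rw [pow_zero, mul_one, ← one_mul (D.ofG m), pt_mul_ofG]) (by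
      show pt D (D.ofG m * xi D j ^ 1) = w
      rw [h2, pow_one]) (by
      intro s hs hs'
      show pt D (D.ofG m * xi D j ^ s) ≠ pt D y ∧ ∀ w, (TK D 1).Adj (pt D (D.ofG m * xi D j ^ s)) w →
        (TK D (xi D a)⁻¹).Adj (pt D (D.ofG m * xi D j ^ s)) w →
          w = pt D (D.ofG m * xi D j ^ (s + 1)) ∨ w = pt D (D.ofG m * xi D j ^ (s - 1))
      by_cases hs1 : s = 1
      · subst hs1
        refine ⟨?_, ?_⟩
        · rw [← hk]
          exact ne_ms hL he₂ (by omega) (by omega) (ms_two hy)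
        · intro w' _ h4
          rw [← hk] at h4
          rcases h4 with h4 | h4
          · left
            rw [← hk]
            exact hL.tO _ _ he₂ j (1 + 1) (by omega) (by omega) _ h4
          · right
            rw [← hk]
            exact hL.tI _ _ he₂ j (1 + 1) (by omega) (by omega) _ h4
      · refine ⟨?_, ?_⟩
        · rw [← hk1]
          exact ne_ms hL hme (by omega) (by omega) (ms_one hy)
        · intro w' h4 _
          rw [← hk1] at h4
          rcases h4 with h4 | h4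
          · left
            rw [← hk1]
            exact hL.tO _ _ hme j s (by omega) (by omega) _ h4
          · right
            rw [← hk1]
            exact hL.tI _ _ hme j s (by omega) (by omega) _ h4)
    have h4 : D.ofG m * xi D j ^ (D.l j - 1) =
        D.ofG m * xi D j ^ D.l j * (xi D a)⁻¹ * D.ofG (kk D a j) := by
      obtain ⟨l', hl'⟩ : ∃ l', D.l j = l' + 1 := ⟨D.l j - 1, by omega⟩
      rw [mul_assoc _ (xi D a)⁻¹, ← xi_inv, hl', Nat.add_sub_cancel, pow_succ]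
      group
    refine close (D.ofG m * xi D j ^ D.l j * (xi D a)⁻¹) ?_ ?_
    · have h5 : D.ofG m * xi D j ^ D.l j * (xi D a)⁻¹ * (xi D a)⁻¹ =
          D.ofG m * xi D j ^ D.l j * (xi D a * xi D a)⁻¹ := by group
      rw [h5]
      exact mul_mem (mul_mem (r_M hm) (r_z j)) (inv_mem (r_zz ha))
    · have h5 : (AT D).dist (pt D (D.ofG m * xi D j ^ (D.l j - 1))) (pt D y) < n := h3
      rwa [h4, pt_mul_ofG] at h5
  · -- incoming
    rw [hp1] at h
    obtain ⟨m, hm, j, hj, h1⟩ := hL.sI _ 1 (one_mem _) w h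
    have h2 : w = pt D (D.ofG (m * kk D a j) * (xi D j)⁻¹) := by
      rw [h1, mul_one, inv_mul_cancel, one_mul, xi_inv_u, ← mul_assoc, pt_mul_ofG]
    by_cases hja : j = a
    · subst hja
      refine close _ ?_ (by rw [← h2]; omega)
      have h5 : D.ofG (m * kk D j j) * (xi D j)⁻¹ * (xi D j)⁻¹ =
          D.ofG m * (xi D j * xi D j)⁻¹ := by
        rw [kk, mul_inv_cancel, mul_one]
        group
      rw [h5]
      exact mul_mem (r_M hm) (inv_mem (r_zz ha))
    have hj4 : 4 ≤ D.l j := by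
      rcases hj with hj | hj
      · exact absurd hj hja
      · exact hj
    have hme : D.ofG (m * kk D a j) * (xi D j ^ D.l j)⁻¹ ∈ RE D := by
      rw [map_mul]
      exact mul_mem (mul_mem (ofG_mem_RE D (mm_h hm)) (kk_mem a j)) (inv_mem (zi_mem_RE D j))
    have hk1 : ∀ r s, r + s = D.l j → 1 * (D.ofG (m * kk D a j) * (xi D j ^ D.l j)⁻¹) *
        xi D j ^ r = D.ofG (m * kk D a j) * (xi D j ^ s)⁻¹ := fun r s hrs => by
      rw [← hrs, pow_add]
      group
    -- the tile in the second graph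
    have he₂ : xi D a * D.ofG (m * kk D a j) * xi D j * (xi D j ^ D.l j)⁻¹ ∈ RE D := by
      refine mul_mem ?_ (inv_mem (zi_mem_RE D j))
      have h5 : xi D a * D.ofG (m * kk D a j) * xi D j = xi D a * D.ofG m * (xi D a)⁻¹ *
          (xi D a * xi D a) := by
        rw [xi_of a j, kk, map_mul, map_mul, map_mul, map_inv, map_inv]
        group
      rw [h5]
      exact mul_mem (r_le (conj_mem ha (r_M hm))) (z_two ha)
    have hk : ∀ r s, r + s + 1 = D.l j → (xi D a)⁻¹ *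
        (xi D a * D.ofG (m * kk D a j) * xi D j * (xi D j ^ D.l j)⁻¹) * xi D j ^ r =
        D.ofG (m * kk D a j) * (xi D j ^ s)⁻¹ := fun r s hrs => by
      rw [← hrs, pow_succ', pow_add]
      group
    have h3 := hfin (fun s => pt D (D.ofG (m * kk D a j) * (xi D j ^ s)⁻¹)) j hj4 (by
      show pt D (D.ofG (m * kk D a j) * (xi D j ^ 0)⁻¹) = pt D 1
      rw [pow_zero, inv_one, mul_one, ← one_mul (D.ofG (m * kk D a j)), pt_mul_ofG]) (by
      show pt D (D.ofG (m * kk D a j) * (xi D j ^ 1)⁻¹) = w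
      rw [h2, pow_one]) (by
      intro s hs hs'
      show pt D (D.ofG (m * kk D a j) * (xi D j ^ s)⁻¹) ≠ pt D y ∧
        ∀ w, (TK D 1).Adj (pt D (D.ofG (m * kk D a j) * (xi D j ^ s)⁻¹)) w →
        (TK D (xi D a)⁻¹).Adj (pt D (D.ofG (m * kk D a j) * (xi D j ^ s)⁻¹)) w →
          w = pt D (D.ofG (m * kk D a j) * (xi D j ^ (s + 1))⁻¹) ∨
            w = pt D (D.ofG (m * kk D a j) * (xi D j ^ (s - 1))⁻¹)
      by_cases hs1 : s = 1
      · subst hs1
        refine ⟨?_, ?_⟩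
        · rw [← hk (D.l j - 2) 1 (by omega)]
          exact ne_ms hL he₂ (by omega) (by omega) (ms_two hy)
        · intro w' _ h4
          rw [← hk (D.l j - 2) 1 (by omega)] at h4
          rcases h4 with h4 | h4
          · right
            rw [← hk (D.l j - 2 + 1) (1 - 1) (by omega)]
            exact hL.tO _ _ he₂ j (D.l j - 2) (by omega) (by omega) _ h4
          · left
            rw [← hk (D.l j - 2 - 1) (1 + 1) (by omega)]
            exact hL.tI _ _ he₂ j (D.l j - 2) (by omega) (by omega) _ h4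
      · refine ⟨?_, ?_⟩
        · rw [← hk1 (D.l j - s) s (by omega)]
          exact ne_ms hL hme (by omega) (by omega) (ms_one hy)
        · intro w' h4 _
          rw [← hk1 (D.l j - s) s (by omega)] at h4
          rcases h4 with h4 | h4
          · right
            rw [← hk1 (D.l j - s + 1) (s - 1) (by omega)]
            exact hL.tO _ _ hme j (D.l j - s) (by omega) (by omega) _ h4
          · left
            rw [← hk1 (D.l j - s - 1) (s + 1) (by omega)]
            exact hL.tI _ _ hme j (D.l j - s) (by omega) (by omega) _ h4)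
    refine close (D.ofG (m * kk D a j) * (xi D j ^ (D.l j - 1))⁻¹) ?_ h3
    obtain ⟨l', hl'⟩ : ∃ l', D.l j = l' + 1 := ⟨D.l j - 1, by omega⟩
    have h5 : D.ofG (m * kk D a j) * (xi D j ^ (D.l j - 1))⁻¹ * (xi D a)⁻¹ =
        D.ofG m * (D.ofG (kk D a j) * xi D j ^ D.l j * (D.ofG (kk D a j))⁻¹)⁻¹ := by
      have h6 : (xi D a)⁻¹ = (xi D j)⁻¹ * (D.ofG (kk D a j))⁻¹ := by
        rw [← mul_inv_rev]
        congr 1
        exact xi_of j a
      rw [h6, hl', Nat.add_sub_cancel, pow_succ', map_mul]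
      group
    rw [h5]
    exact mul_mem (r_M hm) (inv_mem (r_kz j))

end Pool.Agent.Lib.MP_551055_al.N5
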