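import Mathlib
import Pool.Agent.Lib.MP_551055_al.Trim.LS.PStmts
import Pool.Agent.Lib.MP_551055_al.Trim.LS.Ray
import Pool.Agent.Lib.MP_551055_al.Trim.LS.Stmts
import Pool.Agent.Lib.MP_551055_al.Trim.MT.Defs
import Pool.Agent.Lib.MP_551055_al.Trim.MT.Flow2
import Pool.Agent.Lib.MP_551055_al.Trim.N4.Line_4
import Pool.Agent.Lib.MP_551055_al.Trim.N4.Loc_17
import Pool.Agent.Lib.MP_551055_al.Trim.N4.S2_17
import Pool.Agent.Lib.MP_551055_al.Trim.N4.Stmts
import Pool.Agent.Lib.MP_551055_al.Trim.N5.Base_17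
import Pool.Agent.Lib.MP_551055_al.Trim.N5.Stmts
import Pool.Agent.Lib.MP_551055_al.Trim.RI.HNN
import Pool.Agent.Lib.MP_551055_al.Trim.X.MP_e6f638_al.B1
import Pool.Agent.Lib.MP_551055_al.Trim.X.MP_e6f638_al.F
import Pool.Agent.Lib.MP_551055_al.Trim.X.MP_e6f638_al.Stmts

/-!
# Module S2M: two tilings of an axis in the mixed case
-/

set_option autoImplicit false

namespace Pool.Agent.Lib.MP_551055_al
end Pool.Agent.Lib.MP_551055_al

namespace Pool.Agent.Lib.MP_e6f638_al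
end Pool.Agent.Lib.MP_e6f638_al

namespace Pool.Agent.Lib.MP_551055_al.N4
end Pool.Agent.Lib.MP_551055_al.N4

namespace Pool.Agent.Lib.MP_551055_al.N5

open Pool.Agent.Lib.MP_551055_al

open Pool.Agent.Lib.MP_e6f638_al (Dat IsAxis)

open Pool.Agent.Lib.MP_551055_al.N4

open Multiplicative

section

variable {G : Type} [Group G] {D : Dat G} {a : D.ι}

/-! ### Coincidences -/

/-- No coincidences of main vertices. -/
structure NC (D : Dat G) (a : D.ι) (k k' : D.Ah) : Prop where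
  mm : ∀ e ∈ RE D, ∀ e' ∈ RE D, pt D (k * e) ≠ pt D (k' * e')
  ms : ∀ e ∈ RE D, ∀ e' ∈ RE D, pt D (k * e) ≠ pt D (k' * e' * xi D a)
  sm : ∀ e ∈ RE D, ∀ e' ∈ RE D, pt D (k * e * xi D a) ≠ pt D (k' * e')

theorem nc_of {q : D.Ah} (hq : D.hh q = 1) (hS : ¬ Sp D q) : NC D a 1 q := by
  have hx : xi D a = (D.ofG (D.t₀ * (D.t a)⁻¹))⁻¹ * D.x := by
    rw [x_xi a, inv_mul_cancel_left]
  refine ⟨?_, ?_, ?_⟩
  · intro e he e' he' h
    rw [one_mul] at h
    exact hS (Or.inl (sp_eq hq he he' h))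
  · intro m hm m' hm' h
    rw [one_mul] at h
    obtain ⟨g, hg⟩ := (pt_eq D).1 h
    have h1 : D.h g = 1 := by
      have h2 := congrArg D.hh hg
      rw [map_mul, map_mul, map_mul, hq, hh_RE D hm', hh_xi, hh_RE D hm, hh_ofG] at h2
      simpa using h2.symm
    apply hS
    right
    refine ⟨m * D.ofG g, mul_mem hm (ofG_mem_RE D h1), D.ofG (D.t₀ * (D.t a)⁻¹) * m'⁻¹,
      mul_mem (tt0_RE a) (inv_mem hm'), Or.inr ?_⟩
    have h3 : q = m * D.ofG g * (xi D a)⁻¹ * m'⁻¹ := by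
      rw [← hg]
      group
    rw [h3, hx]
    group
  · intro m hm m' hm' h
    rw [one_mul] at h
    obtain ⟨g, hg⟩ := (pt_eq D).1 h
    have h1 : D.h g = 1 := by
      have h2 := congrArg D.hh hg
      rw [map_mul, map_mul, map_mul, hq, hh_RE D hm', hh_xi, hh_RE D hm, hh_ofG] at h2
      simpa using h2.symm
    apply hS
    right
    refine ⟨m * (D.ofG (D.t₀ * (D.t a)⁻¹))⁻¹, mul_mem hm (inv_mem (tt0_RE a)),
      D.ofG g * m'⁻¹, mul_mem (ofG_mem_RE D h1) (inv_mem hm'), Or.inl ?_⟩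
    have h3 : q = m * xi D a * D.ofG g * m'⁻¹ := by
      rw [← hg]
      group
    rw [h3, hx]
    group

theorem xi_comm {b : G} (hb : b ∈ D.B) {j : D.ι} (hc : Commute b (D.t j)) :
    Commute (D.ofG b) (xi D j) := (hc.map D.ofG).mul_right (D.commute_u hb)

theorem pt_xi_u (Q : D.Ah) (j : D.ι) : pt D (Q * xi D j * D.u⁻¹) = pt D Q := by
  rw [xi, ← mul_assoc, mul_inv_cancel_right, pt_mul_ofG]

theorem pt_mul_u {A : D.Ah} {b : G} (hb : b ∈ D.B) :
    pt D (A * D.ofG b * D.u⁻¹) = pt D (A * D.u⁻¹) := by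
  rw [mul_assoc, ← u_inv_B hb, ← mul_assoc, pt_mul_ofG]

/-! ### Vertices of type T -/

/-- The element `A` gives a vertex of type T. -/
def TV (D : Dat G) (k A : D.Ah) (i : D.ι) : Prop :=
  ∃ e ∈ RE D, ∃ r : ℕ, 2 ≤ r ∧ r + 2 ≤ D.l i ∧ A = k * e * xi D i ^ r

theorem tv_out (hL : LocM D a) {k A : D.Ah} {i : D.ι} (h : TV D k A i) {w : AV D}
    (hw : Ed D k (pt D A) w) : w = pt D (A * xi D i) := by
  obtain ⟨e, he, r, h1, h2, rfl⟩ := h
  rw [hL.tO k e he i r h1 h2 w hw, pow_succ, ← mul_assoc]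

theorem tv_in (hL : LocM D a) {k A : D.Ah} {i : D.ι} (h : TV D k A i) {w : AV D}
    (hw : Ed D k w (pt D A)) : w = pt D (A * D.u⁻¹) := by
  obtain ⟨e, he, r, h1, h2, rfl⟩ := h
  rw [hL.tI k e he i r h1 h2 w hw, ← in_vertex _ i]
  obtain ⟨s, rfl⟩ : ∃ s, r = s + 1 := ⟨r - 1, by omega⟩
  rw [Nat.add_sub_cancel, pow_succ, ← mul_assoc, mul_inv_cancel_right]

theorem adjT (hL : LocM D a) {k A : D.Ah} {i : D.ι} (h : TV D k A i) {w : AV D}
    (hw : (TK D k).Adj (pt D A) w) : w = pt D (A * xi D i) ∨ w = pt D (A * D.u⁻¹) := by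
  rcases hw with hw | hw
  · exact Or.inl (tv_out hL h hw)
  · exact Or.inr (tv_in hL h hw)

theorem two (hM : Mix D a) {A A' : D.Ah} {i j : D.ι} (h0 : pt D A = pt D A')
    (h1 : pt D (A * xi D i) = pt D (A' * xi D j)) (h2 : pt D (A * D.u⁻¹) = pt D (A' * D.u⁻¹)) :
    i = j ∧ ∃ b ∈ D.B, Commute b (D.t i) ∧ A' = A * D.ofG b := by
  obtain ⟨g, rfl⟩ := (pt_eq D).1 h0
  have h3 : pt D (A * D.ofG 1 * D.u⁻¹) = pt D (A * D.ofG g * D.u⁻¹) := by
    rwa [map_one, mul_one]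
  obtain ⟨b, hb, h4⟩ := in_name h3
  rw [one_mul] at h4
  subst h4
  have h5 : pt D (A * D.ofG 1 * xi D i) = pt D (A * D.ofG g * xi D j) := by
    rwa [map_one, mul_one]
  obtain ⟨b', hb', h6⟩ := out_name h5
  rw [one_mul] at h6
  have h7 : D.t i * b' * (D.t j)⁻¹ ∈ D.B := by
    rw [← h6, mul_inv_cancel_right]
    exact hb
  obtain ⟨rfl, hc⟩ := two_pos hM hb' h7
  have h8 : g = b' := by
    apply mul_right_cancel (b := D.t i)
    rw [h6, hc.eq]
  exact ⟨rfl, g, hb, by rw [h8]; exact hc, rfl⟩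

/-! ### Vertices of type S -/

/-- The element `P` gives a vertex of type S. -/
def SV (D : Dat G) (a : D.ι) (k P : D.Ah) : Prop := ∃ e ∈ RE D, P = k * e * xi D a

theorem sv_out (hL : LocM D a) {k P : D.Ah} (h : SV D a k P) {w : AV D}
    (hw : Ed D k (pt D P) w) :
    ∃ m ∈ MM D, ∃ j, (j = a ∨ 4 ≤ D.l j) ∧ w = pt D (P * D.ofG m * xi D j) := by
  obtain ⟨e, he, rfl⟩ := h
  exact hL.sO k e he w hw

theorem sv_in (hL : LocM D a) {k P : D.Ah} (h : SV D a k P) {w : AV D}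
    (hw : Ed D k w (pt D P)) :
    ∃ m ∈ MM D, ∃ j, (j = a ∨ 4 ≤ D.l j) ∧ w = pt D (P * D.ofG (m * kk D a j) * (D.u)⁻¹) := by
  obtain ⟨e, he, rfl⟩ := h
  exact hL.sI k e he w hw

theorem sv_tv_out (hM : Mix D a) {k P : D.Ah} (h : SV D a k P) {m : G} (hm : m ∈ MM D)
    {j : D.ι} (hj : 4 ≤ D.l j) : TV D k (P * D.ofG m * xi D j) j := by
  obtain ⟨e, he, rfl⟩ := h
  refine ⟨e * (xi D a * D.ofG m * (xi D a)⁻¹) * D.ofG (kk D a j),
    mul_mem (mul_mem he (xMM hM.la hm)) (kk_RE a j), 2, le_refl _, by omega, ?_⟩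
  rw [← xx]
  group

theorem sv_tv_in (hM : Mix D a) {k P : D.Ah} (h : SV D a k P) {m : G} (hm : m ∈ MM D)
    {j : D.ι} (hj : 4 ≤ D.l j) : TV D k (P * D.ofG (m * kk D a j) * (xi D j)⁻¹) j := by
  obtain ⟨e, he, rfl⟩ := h
  refine ⟨e * (xi D a * D.ofG m * xi D a) * (xi D j ^ D.l j)⁻¹,
    mul_mem (mul_mem he (xMMx hM.la hm)) (inv_mem (zi_mem_RE D j)), D.l j - 2, by omega,
    by omega, ?_⟩
  obtain ⟨s, hs⟩ : ∃ s, D.l j = s + 2 := ⟨D.l j - 2, by omega⟩
  rw [hs, Nat.add_sub_cancel, map_mul, ← xx, pow_add]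
  group

/-- A vertex of type S for both subgraphs. -/
structure SSv (D : Dat G) (a : D.ι) (k k' P : D.Ah) (g : G) : Prop where
  l : SV D a k P
  r : SV D a k' (P * D.ofG g)

theorem mul_ofG_inv (P : D.Ah) (g : G) : P * D.ofG g * D.ofG g⁻¹ = P := by
  rw [map_inv, mul_inv_cancel_right]

theorem SSv.symm {k k' P : D.Ah} {g : G} (h : SSv D a k k' P g) :
    SSv D a k' k (P * D.ofG g) g⁻¹ := ⟨h.r, by rw [mul_ofG_inv]; exact h.l⟩

theorem SSv.nm (hM : Mix D a) {k k' P : D.Ah} {g : G} (hn : NC D a k k')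
    (h : SSv D a k k' P g) : g ∉ MM D := by
  intro hg
  obtain ⟨e, he, h1⟩ := h.l
  obtain ⟨e', he', h2⟩ := h.r
  apply hn.mm (e * (xi D a * D.ofG g * (xi D a)⁻¹)) (mul_mem he (xMM hM.la hg)) e' he'
  congr 1
  have h3 : k' * e' = P * D.ofG g * (xi D a)⁻¹ := by
    rw [h2]
    group
  rw [h3, h1]
  group

/-- Outgoing edges of type (a, c). -/
def OT (D : Dat G) (a : D.ι) (P : D.Ah) (g : G) (w : AV D) (c : D.ι) : Prop :=
  4 ≤ D.l c ∧ ∃ m ∈ MM D, ∃ m' ∈ MM D, ∃ b ∈ D.B, g = m * D.t a * b * (D.t c)⁻¹ * m'⁻¹ ∧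
    w = pt D (P * D.ofG (g * m') * xi D c)

/-- Incoming edges of type (a, c). -/
def IT (D : Dat G) (a : D.ι) (P : D.Ah) (g : G) (w : AV D) (c : D.ι) : Prop :=
  4 ≤ D.l c ∧ ∃ m ∈ MM D, ∃ m' ∈ MM D, ∃ b ∈ D.B, g = m * b * (kk D a c)⁻¹ * m'⁻¹ ∧
    w = pt D (P * D.ofG (g * m' * kk D a c) * D.u⁻¹)

theorem tbt (hM : Mix D a) {b : G} (hb : b ∈ D.B) : D.t a * b * (D.t a)⁻¹ ∈ MM D :=
  tt_mem hM.la hM.la hb

theorem ssO (hM : Mix D a) (hL : LocM D a) {k k' P : D.Ah} (hn : NC D a k k') {g : G}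
    (hs : SSv D a k k' P g) {w w' : AV D} (h1 : Ed D k (pt D P) w) (h2 : Ed D k' (pt D P) w)
    (h3 : w' ≠ pt D P) (h4 : (TK D k).Adj w w') (h5 : (TK D k').Adj w w') :
    ∃ c, OT D a P g w c ∨ OT D a (P * D.ofG g) g⁻¹ w c := by
  have hng := hs.nm hM hn
  obtain ⟨m, hm, j, hj, h6⟩ := sv_out hL hs.l h1
  have h2' : Ed D k' (pt D (P * D.ofG g)) w := by rwa [pt_mul_ofG]
  obtain ⟨m', hm', j', hj', h7⟩ := sv_out hL hs.r h2'
  rw [mul_assoc P, ← map_mul] at h7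
  obtain ⟨b, hb, h9⟩ := out_name (h6.symm.trans h7)
  have h10 : g = m * D.t j * b * (D.t j')⁻¹ * m'⁻¹ := by
    rw [← h9]
    group
  by_cases hj4 : 4 ≤ D.l j
  · by_cases hj4' : 4 ≤ D.l j'
    · exfalso
      have tA := sv_tv_out hM hs.l hm hj4
      have tA' := sv_tv_out hM hs.r hm' hj4'
      rw [mul_assoc P, ← map_mul] at tA'
      have h4' := h4
      have h5' := h5
      rw [h6] at h4'
      rw [h7] at h5'
      have c1 : w' = pt D (P * D.ofG m * xi D j * xi D j) := by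
        rcases adjT hL tA h4' with h | h
        · exact h
        · rw [pt_xi_u, pt_mul_ofG] at h
          exact absurd h h3
      have c2 : w' = pt D (P * D.ofG (g * m') * xi D j' * xi D j') := by
        rcases adjT hL tA' h5' with h | h
        · exact h
        · rw [pt_xi_u, pt_mul_ofG] at h
          exact absurd h h3
      obtain ⟨rfl, β, hβ, hc, h8⟩ := two hM (h6.symm.trans h7) (c1.symm.trans c2) (by
        rw [pt_xi_u, pt_xi_u, pt_mul_ofG, pt_mul_ofG])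
      apply hng
      rw [mul_assoc _ (xi D j), ← (xi_comm hβ hc).eq, ← mul_assoc] at h8
      have h11 := mul_right_cancel h8
      rw [mul_assoc, ← map_mul] at h11
      have h12 := ofG_inj (mul_left_cancel h11)
      have h13 : g = m * β * m'⁻¹ := by
        rw [← h12, mul_inv_cancel_right]
      rw [h13]
      exact mul_mem (mul_mem hm (B_le hβ)) (inv_mem hm')
    · have hja : j' = a := by
        rcases hj' with h | h
        · exact h
        · exact absurd h hj4'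
      subst hja
      refine ⟨j, Or.inr ⟨hj4, m', hm', m, hm, b⁻¹, inv_mem hb, ?_, ?_⟩⟩
      · rw [h10]
        group
      · rw [h6, mul_assoc P (D.ofG g), ← map_mul, mul_inv_cancel_left]
  · have hja : j = a := by
      rcases hj with h | h
      · exact h
      · exact absurd h hj4
    subst hja
    by_cases hj4' : 4 ≤ D.l j'
    · exact ⟨j', Or.inl ⟨hj4', m, hm, m', hm', b, hb, h10, h7⟩⟩
    · have hja : j' = j := by
        rcases hj' with h | h
        · exact h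
        · exact absurd h hj4'
      subst hja
      exfalso
      apply hng
      have h11 : g = m * (D.t j' * b * (D.t j')⁻¹) * m'⁻¹ := by
        rw [h10]
        group
      rw [h11]
      exact mul_mem (mul_mem hm (tbt hM hb)) (inv_mem hm')

theorem ssI (hM : Mix D a) (hL : LocM D a) {k k' P : D.Ah} (hn : NC D a k k') {g : G}
    (hs : SSv D a k k' P g) {w w' : AV D} (h1 : Ed D k w (pt D P)) (h2 : Ed D k' w (pt D P))
    (h3 : w' ≠ pt D P) (h4 : (TK D k).Adj w w') (h5 : (TK D k').Adj w w') :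
    ∃ c, IT D a P g w c ∨ IT D a (P * D.ofG g) g⁻¹ w c := by
  have hng := hs.nm hM hn
  obtain ⟨m, hm, j, hj, h6⟩ := sv_in hL hs.l h1
  have h2' : Ed D k' w (pt D (P * D.ofG g)) := by rwa [pt_mul_ofG]
  obtain ⟨m', hm', j', hj', h7⟩ := sv_in hL hs.r h2'
  rw [mul_assoc P (D.ofG g), ← map_mul, ← mul_assoc g] at h7
  obtain ⟨b, hb, h9⟩ := in_name (h6.symm.trans h7)
  have h10 : g = m * kk D a j * b * (kk D a j')⁻¹ * m'⁻¹ := by
    rw [← h9]
    group
  by_cases hj4 : 4 ≤ D.l j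
  · by_cases hj4' : 4 ≤ D.l j'
    · exfalso
      have tA := sv_tv_in hM hs.l hm hj4
      have tA' := sv_tv_in hM hs.r hm' hj4'
      rw [mul_assoc P (D.ofG g), ← map_mul, ← mul_assoc g] at tA'
      have h4' := h4
      have h5' := h5
      rw [h6, ← in_vertex _ j] at h4'
      rw [h7, ← in_vertex _ j'] at h5'
      have c1 : w' = pt D (P * D.ofG (m * kk D a j) * (xi D j)⁻¹ * D.u⁻¹) := by
        rcases adjT hL tA h4' with h | h
        · rw [inv_mul_cancel_right, pt_mul_ofG] at h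
          exact absurd h h3
        · exact h
      have c2 : w' = pt D (P * D.ofG (g * m' * kk D a j') * (xi D j')⁻¹ * D.u⁻¹) := by
        rcases adjT hL tA' h5' with h | h
        · rw [inv_mul_cancel_right, pt_mul_ofG] at h
          exact absurd h h3
        · exact h
      have h6' := h6
      have h7' := h7
      rw [← in_vertex _ j] at h6'
      rw [← in_vertex _ j'] at h7'
      obtain ⟨rfl, β, hβ, hc, h8⟩ := two hM (h6'.symm.trans h7') (by
        rw [inv_mul_cancel_right, inv_mul_cancel_right, pt_mul_ofG, pt_mul_ofG])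
        (c1.symm.trans c2)
      apply hng
      have h11 : D.ofG (g * m' * kk D a j) = D.ofG (m * kk D a j) * D.ofG β := by
        have h12 : (xi D j)⁻¹ * D.ofG β = D.ofG β * (xi D j)⁻¹ :=
          ((xi_comm hβ hc).inv_right.eq).symm
        rw [mul_assoc _ (xi D j)⁻¹, h12, ← mul_assoc] at h8
        have h13 := mul_right_cancel h8
        rw [mul_assoc P (D.ofG (m * kk D a j))] at h13
        exact mul_left_cancel h13
      rw [← map_mul] at h11
      have h12 := ofG_inj h11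
      have h13 : g = m * (D.t a * β * (D.t a)⁻¹) * m'⁻¹ := by
        have h14 : g = m * kk D a j * β * (kk D a j)⁻¹ * m'⁻¹ := by
          rw [← h12]
          group
        have h15 : (D.t j)⁻¹ * β = β * (D.t j)⁻¹ := (hc.inv_right.eq).symm
        rw [h14, kk]
        calc m * (D.t a * (D.t j)⁻¹) * β * (D.t a * (D.t j)⁻¹)⁻¹ * m'⁻¹
            = m * D.t a * ((D.t j)⁻¹ * β) * D.t j * (D.t a)⁻¹ * m'⁻¹ := by group
          _ = _ := by
            rw [h15]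
            group
      rw [h13]
      exact mul_mem (mul_mem hm (tbt hM hβ)) (inv_mem hm')
    · have hja : j' = a := by
        rcases hj' with h | h
        · exact h
        · exact absurd h hj4'
      subst hja
      refine ⟨j, Or.inr ⟨hj4, m', hm', m, hm, b⁻¹, inv_mem hb, ?_, ?_⟩⟩
      · rw [h10, kk_self]
        group
      · rw [h6, mul_assoc P (D.ofG g), ← map_mul]
        congr 4
        group
  · have hja : j = a := by
      rcases hj with h | h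
      · exact h
      · exact absurd h hj4
    subst hja
    by_cases hj4' : 4 ≤ D.l j'
    · refine ⟨j', Or.inl ⟨hj4', m, hm, m', hm', b, hb, ?_, h7⟩⟩
      rw [h10, kk_self, mul_one]
    · have hja : j' = j := by
        rcases hj' with h | h
        · exact h
        · exact absurd h hj4'
      subst hja
      exfalso
      apply hng
      rw [h10, kk_self, mul_one, inv_one, mul_one]
      exact mul_mem (mul_mem hm (B_le hb)) (inv_mem hm')

/-! ### Weights -/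

theorem OT.wt {P : D.Ah} {g : G} {w : AV D} {c : D.ι} (h : OT D a P g w c) (hM : Mix D a)
    {W : G →* Multiplicative ℤ} {d : D.ι} (hd : 4 ≤ D.l d) (w2 : ∀ i, i ≠ d → W (D.t i) = 1)
    (w3 : ∀ b ∈ D.B, W b = 1) (w4 : ∀ m ∈ MM D, W m = 1) : W g = (W (D.t c))⁻¹ := by
  obtain ⟨_, m, hm, m', hm', b, hb, h1, _⟩ := h
  have ha : W (D.t a) = 1 := w2 a (fun h => ne_a hM hd h.symm)
  rw [h1]
  simp only [map_mul, map_inv, w4 m hm, w4 m' hm', w3 b hb, ha, one_mul, mul_one, inv_one]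

theorem IT.wt {P : D.Ah} {g : G} {w : AV D} {c : D.ι} (h : IT D a P g w c) (hM : Mix D a)
    {W : G →* Multiplicative ℤ} {d : D.ι} (hd : 4 ≤ D.l d) (w2 : ∀ i, i ≠ d → W (D.t i) = 1)
    (w3 : ∀ b ∈ D.B, W b = 1) (w4 : ∀ m ∈ MM D, W m = 1) : W g = W (D.t c) := by
  obtain ⟨_, m, hm, m', hm', b, hb, h1, _⟩ := h
  have ha : W (D.t a) = 1 := w2 a (fun h => ne_a hM hd h.symm)
  rw [h1]
  simp only [kk, map_mul, map_inv, mul_inv_rev, inv_inv, w4 m hm, w4 m' hm', w3 b hb, ha,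
    one_mul, mul_one, inv_one]

theorem ofAdd_ne : (ofAdd (1 : ℤ)) ≠ 1 := by decide

theorem ofAdd_inv_ne : (ofAdd (1 : ℤ))⁻¹ ≠ 1 := by decide

theorem ofAdd_inv_ne' : (ofAdd (1 : ℤ))⁻¹ ≠ ofAdd 1 := by decide

/-- Comparison of weights: if `W g = (W (t c))⁻¹` for all weights then the index of `g` is `c`. -/
theorem oo_index (hM : Mix D a) {P P' : D.Ah} {g : G} {w w' : AV D} {c c' : D.ι}
    (h : OT D a P g w c) (h' : OT D a P' g w' c') : c = c' := by
  by_contra hne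
  obtain ⟨W, w1, w2, w3, w4⟩ := wt_mm hM h.1
  have e1 := h.wt hM h.1 w2 w3 w4
  have e2 := h'.wt hM h.1 w2 w3 w4
  rw [e1, w1, w2 c' (fun h => hne h.symm), inv_one] at e2
  exact ofAdd_inv_ne e2

theorem ii_index (hM : Mix D a) {P P' : D.Ah} {g : G} {w w' : AV D} {c c' : D.ι}
    (h : IT D a P g w c) (h' : IT D a P' g w' c') : c = c' := by
  by_contra hne
  obtain ⟨W, w1, w2, w3, w4⟩ := wt_mm hM h.1
  have e1 := h.wt hM h.1 w2 w3 w4
  have e2 := h'.wt hM h.1 w2 w3 w4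
  rw [e1, w1, w2 c' (fun h => hne h.symm)] at e2
  exact ofAdd_ne e2

theorem oi_index (hM : Mix D a) {P P' : D.Ah} {g : G} {w w' : AV D} {c c' : D.ι}
    (h : OT D a P g w c) (h' : IT D a P' g⁻¹ w' c') : c = c' := by
  by_contra hne
  obtain ⟨W, w1, w2, w3, w4⟩ := wt_mm hM h.1
  have e1 := h.wt hM h.1 w2 w3 w4
  have e2 := h'.wt hM h.1 w2 w3 w4
  rw [map_inv, e1, inv_inv, w1, w2 c' (fun h => hne h.symm)] at e2
  exact ofAdd_ne e2

theorem oo_excl (hM : Mix D a) {P P' : D.Ah} {g : G} {w w' : AV D} {c c' : D.ι}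
    (h : OT D a P g w c) (h' : OT D a P' g⁻¹ w' c') : False := by
  obtain ⟨W, w1, w2, w3, w4⟩ := wt_mm hM h.1
  have e1 := h.wt hM h.1 w2 w3 w4
  have e2 := h'.wt hM h.1 w2 w3 w4
  rw [map_inv, e1, inv_inv, w1] at e2
  by_cases hc : c' = c
  · rw [hc, w1] at e2
    exact ofAdd_inv_ne' e2.symm
  · rw [w2 c' hc, inv_one] at e2
    exact ofAdd_ne e2

theorem ii_excl (hM : Mix D a) {P P' : D.Ah} {g : G} {w w' : AV D} {c c' : D.ι}
    (h : IT D a P g w c) (h' : IT D a P' g⁻¹ w' c') : False := by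
  obtain ⟨W, w1, w2, w3, w4⟩ := wt_mm hM h.1
  have e1 := h.wt hM h.1 w2 w3 w4
  have e2 := h'.wt hM h.1 w2 w3 w4
  rw [map_inv, e1, w1] at e2
  by_cases hc : c' = c
  · rw [hc, w1] at e2
    exact ofAdd_inv_ne' e2
  · rw [w2 c' hc] at e2
    exact ofAdd_inv_ne e2

theorem oi_excl (hM : Mix D a) {P P' : D.Ah} {g : G} {w w' : AV D} {c c' : D.ι}
    (h : OT D a P g w c) (h' : IT D a P' g w' c') : False := by
  obtain ⟨W, w1, w2, w3, w4⟩ := wt_mm hM h.1
  have e1 := h.wt hM h.1 w2 w3 w4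
  have e2 := h'.wt hM h.1 w2 w3 w4
  rw [e1, w1] at e2
  by_cases hc : c' = c
  · rw [hc, w1] at e2
    exact ofAdd_inv_ne' e2
  · rw [w2 c' hc] at e2
    exact ofAdd_inv_ne e2

/-! ### Two edges at a vertex of type (S, S) -/

theorem oo_eq (hM : Mix D a) {P : D.Ah} {g : G} {w w' : AV D} {c c' : D.ι}
    (h : OT D a P g w c) (h' : OT D a P g w' c') : w = w' := by
  obtain rfl := oo_index hM h h'
  obtain ⟨hc, m₁, hm₁, m₁', hm₁', b₁, hb₁, e1, rfl⟩ := h
  obtain ⟨_, m₂, hm₂, m₂', hm₂', b₂, hb₂, e2, rfl⟩ := h'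
  have h1 : D.t a * ((D.t c)⁻¹ * (m₂'⁻¹ * m₁') * D.t c) * (D.t a)⁻¹ ∈ MM D := by
    have h2 : (D.t c)⁻¹ * (m₂'⁻¹ * m₁') * D.t c =
        b₂⁻¹ * (D.t a)⁻¹ * m₂⁻¹ * m₁ * D.t a * b₁ := by
      have h3 : (D.t c)⁻¹ * m₂'⁻¹ = b₂⁻¹ * (D.t a)⁻¹ * m₂⁻¹ * g := by
        rw [e2]
        group
      have h4 : m₁' * D.t c = g⁻¹ * m₁ * D.t a * b₁ := by
        rw [e1]
        group
      calc (D.t c)⁻¹ * (m₂'⁻¹ * m₁') * D.t c = ((D.t c)⁻¹ * m₂'⁻¹) * (m₁' * D.t c) := by group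
        _ = _ := by
          rw [h3, h4]
          group
    have h5 : D.t a * ((D.t c)⁻¹ * (m₂'⁻¹ * m₁') * D.t c) * (D.t a)⁻¹ =
        (D.t a * b₂⁻¹ * (D.t a)⁻¹) * m₂⁻¹ * m₁ * (D.t a * b₁ * (D.t a)⁻¹) := by
      rw [h2]
      group
    rw [h5]
    exact mul_mem (mul_mem (mul_mem (tbt hM (inv_mem hb₂)) (inv_mem hm₂)) hm₁) (tbt hM hb₁)
  obtain ⟨hμ, hcm⟩ := g4 hM hc (mul_mem (inv_mem hm₂') hm₁') h1
  have h2 : D.ofG (g * m₁') * xi D c = D.ofG (g * m₂') * xi D c * D.ofG (m₂'⁻¹ * m₁') := by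
    rw [mul_assoc _ (xi D c), ← (xi_comm hμ hcm).eq, ← mul_assoc, ← map_mul]
    congr 2
    group
  rw [mul_assoc P, h2, ← mul_assoc, pt_mul_ofG, ← mul_assoc]

theorem ii_eq (hM : Mix D a) {P : D.Ah} {g : G} {w w' : AV D} {c c' : D.ι}
    (h : IT D a P g w c) (h' : IT D a P g w' c') : w = w' := by
  obtain rfl := ii_index hM h h'
  obtain ⟨hc, m₁, hm₁, m₁', hm₁', b₁, hb₁, e1, rfl⟩ := h
  obtain ⟨_, m₂, hm₂, m₂', hm₂', b₂, hb₂, e2, rfl⟩ := h'
  have hk : kk D a c = D.t a * (D.t c)⁻¹ := rfl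
  have h0 : (kk D a c)⁻¹ * (m₂'⁻¹ * m₁') * kk D a c = (m₂ * b₂)⁻¹ * (m₁ * b₁) := by
    have h3 : (kk D a c)⁻¹ * m₂'⁻¹ = (m₂ * b₂)⁻¹ * g := by
      rw [e2]
      group
    have h4 : m₁' * kk D a c = g⁻¹ * (m₁ * b₁) := by
      rw [e1]
      group
    calc (kk D a c)⁻¹ * (m₂'⁻¹ * m₁') * kk D a c =
        ((kk D a c)⁻¹ * m₂'⁻¹) * (m₁' * kk D a c) := by group
      _ = _ := by
        rw [h3, h4]
        group
  obtain ⟨ν, hν⟩ : ∃ ν, ν = (m₂ * b₂)⁻¹ * (m₁ * b₁) := ⟨_, rfl⟩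
  have hνM : ν ∈ MM D := by
    rw [hν]
    exact mul_mem (inv_mem (mul_mem hm₂ (B_le hb₂))) (mul_mem hm₁ (B_le hb₁))
  rw [← hν] at h0
  have h1 : m₂'⁻¹ * m₁' = D.t a * ((D.t c)⁻¹ * ν * D.t c) * (D.t a)⁻¹ := by
    rw [← h0, hk]
    group
  obtain ⟨hνB, hcm⟩ := g4 hM hc hνM (by
    rw [← h1]
    exact mul_mem (inv_mem hm₂') hm₁')
  have h2 : m₁' * kk D a c = m₂' * kk D a c * ν := by
    rw [← h0]
    group
  rw [mul_assoc g m₁', h2, ← mul_assoc g, ← mul_assoc g, map_mul, ← mul_assoc P, pt_mul_u hνB]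

/-- The conclusion for two opposite edges at a vertex of type (S, S). -/
theorem oi_al (hM : Mix D a) (hL : LocM D a) {k k' P : D.Ah} {g : G}
    (hs : SSv D a k k' P g) {w v : AV D} {c c' : D.ι}
    (h : OT D a P g w c) (h' : IT D a (P * D.ofG g) g⁻¹ v c') :
    ∃ A : D.Ah, pt D P = pt D A ∧ w = pt D (A * xi D c) ∧ v = pt D (A * (xi D c)⁻¹) ∧
      (∀ w', (TK D k').Adj w w' → w' ≠ pt D P → w' = pt D (A * xi D c * xi D c)) ∧
      (∀ v', (TK D k).Adj v v' → v' ≠ pt D P → v' = pt D (A * (xi D c)⁻¹ * (xi D c)⁻¹)) := by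
  obtain rfl := oi_index hM h h'
  obtain ⟨hc, m, hm, m', hm', b, hb, e1, rfl⟩ := h
  obtain ⟨_, n, hn, n', hn', b', hb', e2, rfl⟩ := h'
  have hk : kk D a c = D.t a * (D.t c)⁻¹ := rfl
  obtain ⟨μ, hμ⟩ : ∃ μ, μ = b'⁻¹ * n⁻¹ * m' := ⟨_, rfl⟩
  have hμM : μ ∈ MM D := by
    rw [hμ]
    exact mul_mem (mul_mem (B_le (inv_mem hb')) (inv_mem hn)) hm'
  have e3 : g * m' = n' * kk D a c * μ := by
    have h1 : g = n' * kk D a c * b'⁻¹ * n⁻¹ := by
      have h2 := congrArg (fun x => x⁻¹) e2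
      simp only [inv_inv] at h2
      rw [h2]
      group
    rw [h1, hμ]
    group
  have e4 : g * m' = m * D.t a * b * (D.t c)⁻¹ := by
    rw [e1]
    group
  obtain ⟨hμB, hcm⟩ := g4 hM hc hμM (by
    have h1 : D.t a * ((D.t c)⁻¹ * μ * D.t c) * (D.t a)⁻¹ =
        n'⁻¹ * m * (D.t a * b * (D.t a)⁻¹) := by
      have h2 : D.t a * (D.t c)⁻¹ * μ = n'⁻¹ * (m * D.t a * b * (D.t c)⁻¹) := by
        rw [← e4, e3, hk]
        group
      calc D.t a * ((D.t c)⁻¹ * μ * D.t c) * (D.t a)⁻¹ =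
          (D.t a * (D.t c)⁻¹ * μ) * D.t c * (D.t a)⁻¹ := by group
        _ = _ := by
          rw [h2]
          group
    rw [h1]
    exact mul_mem (mul_mem (inv_mem hn') hm) (tbt hM hb))
  have e5 : g * (g⁻¹ * n' * kk D a c) = g * m' * μ⁻¹ := by
    rw [e3]
    group
  have e6 : P * D.ofG g * D.ofG (g⁻¹ * n' * kk D a c) =
      P * D.ofG (g * m') * D.ofG μ⁻¹ := by
    rw [mul_assoc, ← map_mul, e5, map_mul D.ofG (g * m'), ← mul_assoc]
  have hμi : μ⁻¹ ∈ D.B := inv_mem hμB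
  have hci : Commute μ⁻¹ (D.t c) := hcm.inv_left
  refine ⟨P * D.ofG (g * m'), (pt_mul_ofG D _ _).symm, rfl, ?_, ?_, ?_⟩
  · rw [e6, pt_mul_u hμi, in_vertex]
  · intro w' h1 h2
    have tA := sv_tv_out hM hs.r hm' hc
    rw [mul_assoc P, ← map_mul] at tA
    rcases adjT hL tA h1 with h | h
    · exact h
    · rw [pt_xi_u, pt_mul_ofG] at h
      exact absurd h h2
  · intro v' h1 h2
    have tA := sv_tv_in hM hs.l hn' hc
    have e7 : P * D.ofG (n' * kk D a c) = P * D.ofG (g * m') * D.ofG μ⁻¹ := by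
      rw [← e6, mul_assoc P, ← map_mul]
      congr 2
      group
    rw [e7] at tA
    have e8 : P * D.ofG (g * m') * D.ofG μ⁻¹ * (xi D c)⁻¹ =
        P * D.ofG (g * m') * (xi D c)⁻¹ * D.ofG μ⁻¹ := by
      rw [mul_assoc _ (D.ofG μ⁻¹), (xi_comm hμi hci).inv_right.eq, ← mul_assoc]
    rw [e6, ← in_vertex _ c] at h1
    rcases adjT hL tA h1 with h | h
    · rw [inv_mul_cancel_right, pt_mul_ofG, pt_mul_ofG] at h
      exact absurd h h2
    · rw [h, e8, pt_mul_u hμi, in_vertex]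

/-! ### Common lines -/

theorem ss_of {k k' : D.Ah} (hn : NC D a k k') {v : AV D}
    (h : (∃ e ∈ RE D, v = pt D (k * e)) ∨ ∃ e ∈ RE D, v = pt D (k * e * xi D a))
    (h' : (∃ e ∈ RE D, v = pt D (k' * e)) ∨ ∃ e ∈ RE D, v = pt D (k' * e * xi D a)) :
    ∃ P g, v = pt D P ∧ SSv D a k k' P g := by
  rcases h with ⟨e, he, h1⟩ | ⟨e, he, h1⟩
  · rcases h' with ⟨e', he', h2⟩ | ⟨e', he', h2⟩
    · exact absurd (h1.symm.trans h2) (hn.mm e he e' he')
    · exact absurd (h1.symm.trans h2) (hn.ms e he e' he')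
  · rcases h' with ⟨e', he', h2⟩ | ⟨e', he', h2⟩
    · exact absurd (h1.symm.trans h2) (hn.sm e he e' he')
    · obtain ⟨g, hg⟩ := (pt_eq D).1 (h1.symm.trans h2)
      exact ⟨k * e * xi D a, g, h1, ⟨e, he, rfl⟩, ⟨e', he', hg.symm⟩⟩

/-- The vertex `v` is of type T for `k`. -/
def TT (D : Dat G) (k : D.Ah) (v : AV D) : Prop := ∃ A i, v = pt D A ∧ TV D k A i

theorem tri (hL : LocM D a) {k k' : D.Ah} (hn : NC D a k k') {v w : AV D}
    (h : (TK D k).Adj v w) (h' : (TK D k').Adj v w) :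
    TT D k v ∨ TT D k' v ∨ ∃ P g, v = pt D P ∧ SSv D a k k' P g := by
  rcases hL.vt k v w h with h1 | h1 | ⟨e, he, i, r, hr, hr', h1⟩
  · rcases hL.vt k' v w h' with h2 | h2 | ⟨e, he, i, r, hr, hr', h2⟩
    · exact Or.inr (Or.inr (ss_of hn (Or.inl h1) (Or.inl h2)))
    · exact Or.inr (Or.inr (ss_of hn (Or.inl h1) (Or.inr h2)))
    · exact Or.inr (Or.inl ⟨_, i, h2, e, he, r, hr, hr', rfl⟩)
  · rcases hL.vt k' v w h' with h2 | h2 | ⟨e, he, i, r, hr, hr', h2⟩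
    · exact Or.inr (Or.inr (ss_of hn (Or.inr h1) (Or.inl h2)))
    · exact Or.inr (Or.inr (ss_of hn (Or.inr h1) (Or.inr h2)))
    · exact Or.inr (Or.inl ⟨_, i, h2, e, he, r, hr, hr', rfl⟩)
  · exact Or.inl ⟨_, i, h1, e, he, r, hr, hr', rfl⟩

/-- No outgoing corners. -/
theorem no_out (hM : Mix D a) (hL : LocM D a) {k k' : D.Ah} (hn : NC D a k k')
    {v₀ v₁ v₂ v₃ v₄ : AV D} (h1 : Ed D k v₂ v₁) (h2 : Ed D k v₂ v₃) (h1' : Ed D k' v₂ v₁)
    (h2' : Ed D k' v₂ v₃) (h3 : (TK D k).Adj v₁ v₀) (h3' : (TK D k').Adj v₁ v₀)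
    (h4 : (TK D k).Adj v₃ v₄) (h4' : (TK D k').Adj v₃ v₄) (n0 : v₀ ≠ v₂) (n4 : v₄ ≠ v₂)
    (hne : v₁ ≠ v₃) : False := by
  rcases tri hL hn (Or.inl h1) (Or.inl h1') with ⟨A, i, rfl, h⟩ | ⟨A, i, rfl, h⟩ | ⟨P, g, rfl, h⟩
  · exact hne ((tv_out hL h h1).trans (tv_out hL h h2).symm)
  · exact hne ((tv_out hL h h1').trans (tv_out hL h h2').symm)
  · obtain ⟨c, e1⟩ := ssO hM hL hn h h1 h1' n0 h3 h3'
    obtain ⟨c', e2⟩ := ssO hM hL hn h h2 h2' n4 h4 h4'
    rcases e1 with e1 | e1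
    · rcases e2 with e2 | e2
      · exact hne (oo_eq hM e1 e2)
      · exact oo_excl hM e1 e2
    · rcases e2 with e2 | e2
      · exact oo_excl hM e2 e1
      · exact hne (oo_eq hM e1 e2)

/-- No incoming corners. -/
theorem no_in (hM : Mix D a) (hL : LocM D a) {k k' : D.Ah} (hn : NC D a k k')
    {v₀ v₁ v₂ v₃ v₄ : AV D} (h1 : Ed D k v₁ v₂) (h2 : Ed D k v₃ v₂) (h1' : Ed D k' v₁ v₂)
    (h2' : Ed D k' v₃ v₂) (h3 : (TK D k).Adj v₁ v₀) (h3' : (TK D k').Adj v₁ v₀)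
    (h4 : (TK D k).Adj v₃ v₄) (h4' : (TK D k').Adj v₃ v₄) (n0 : v₀ ≠ v₂) (n4 : v₄ ≠ v₂)
    (hne : v₁ ≠ v₃) : False := by
  rcases tri hL hn (Or.inr h1) (Or.inr h1') with ⟨A, i, rfl, h⟩ | ⟨A, i, rfl, h⟩ | ⟨P, g, rfl, h⟩
  · exact hne ((tv_in hL h h1).trans (tv_in hL h h2).symm)
  · exact hne ((tv_in hL h h1').trans (tv_in hL h h2').symm)
  · obtain ⟨c, e1⟩ := ssI hM hL hn h h1 h1' n0 h3 h3'
    obtain ⟨c', e2⟩ := ssI hM hL hn h h2 h2' n4 h4 h4'
    rcases e1 with e1 | e1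
    · rcases e2 with e2 | e2
      · exact hne (ii_eq hM e1 e2)
      · exact ii_excl hM e1 e2
    · rcases e2 with e2 | e2
      · exact ii_excl hM e2 e1
      · exact hne (ii_eq hM e1 e2)

/-- Five vertices around a vertex of type (S, S). -/
theorem ss_five (hM : Mix D a) (hL : LocM D a) {k k' : D.Ah} (hn : NC D a k k')
    {v₀ v₁ v₂ v₃ v₄ : AV D} (hs : ∃ P g, v₂ = pt D P ∧ SSv D a k k' P g)
    (h1 : Ed D k v₁ v₂) (h2 : Ed D k v₂ v₃) (h1' : Ed D k' v₁ v₂)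
    (h2' : Ed D k' v₂ v₃) (h3 : (TK D k).Adj v₁ v₀) (h3' : (TK D k').Adj v₁ v₀)
    (h4 : (TK D k).Adj v₃ v₄) (h4' : (TK D k').Adj v₃ v₄) (n0 : v₀ ≠ v₂) (n4 : v₄ ≠ v₂) :
    ∃ A c, v₀ = pt D (A * (xi D c)⁻¹ * (xi D c)⁻¹) ∧ v₁ = pt D (A * (xi D c)⁻¹) ∧
      v₂ = pt D A ∧ v₃ = pt D (A * xi D c) ∧ v₄ = pt D (A * xi D c * xi D c) := by
  obtain ⟨P, g, rfl, h⟩ := hs
  obtain ⟨c', e1⟩ := ssI hM hL hn h h1 h1' n0 h3 h3'
  obtain ⟨c, e2⟩ := ssO hM hL hn h h2 h2' n4 h4 h4'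
  rcases e2 with e2 | e2
  · rcases e1 with e1 | e1
    · exact (oi_excl hM e2 e1).elim
    · obtain ⟨A, a0, a1, a2, a3, a4⟩ := oi_al hM hL h e2 e1
      exact ⟨A, c, a4 _ h3 n0, a2, a0, a1, a3 _ h4' n4⟩
  · rcases e1 with e1 | e1
    · have e3 : IT D a (P * D.ofG g * D.ofG g⁻¹) g⁻¹⁻¹ v₁ c' := by
        rw [mul_ofG_inv, inv_inv]
        exact e1
      obtain ⟨A, a0, a1, a2, a3, a4⟩ := oi_al hM hL h.symm e2 e3
      rw [pt_mul_ofG] at a0 a3 a4
      exact ⟨A, c, a4 _ h3' n0, a2, a0, a1, a3 _ h4 n4⟩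
    · exact (oi_excl hM e2 e1).elim

/-- Two consecutive vertices of type T for the same subgraph. -/
theorem tt_same (hL : LocM D a) {k : D.Ah} {v₀ v₁ v₂ v₃ : AV D} (h0 : Ed D k v₀ v₁)
    (h1 : Ed D k v₁ v₂) (h2 : Ed D k v₂ v₃) (t1 : TT D k v₁) (t2 : TT D k v₂) :
    ∃ p j, v₀ = pt D p ∧ v₁ = pt D (p * xi D j) ∧ v₂ = pt D (p * xi D j ^ 2) ∧
      v₃ = pt D (p * xi D j ^ 3) := by
  obtain ⟨A, i, rfl, e, he, r, hr, hr', rfl⟩ := t1
  have tA : TV D k (k * e * xi D i ^ r) i := ⟨e, he, r, hr, hr', rfl⟩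
  have c0 := tv_in hL tA h0
  have c2 := tv_out hL tA h1
  have hr3 : r + 3 ≤ D.l i := by
    by_contra hcon
    obtain ⟨A₂, i₂, e3, e₂, he₂, r₂, hr₂, hr₂', e4⟩ := t2
    obtain ⟨e', he', e5⟩ := hL.last k e he i
    have h6 : D.l i - 1 = r + 1 := by omega
    rw [h6, pow_succ, ← mul_assoc] at e5
    apply hL.ts k e₂ he₂ e' he' i₂ r₂ hr₂ hr₂'
    rw [← e5, ← c2, e3, e4]
  have tA₂ : TV D k (k * e * xi D i ^ r * xi D i) i :=
    ⟨e, he, r + 1, by omega, by omega, by rw [pow_succ, ← mul_assoc]⟩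
  rw [c2] at h2
  have c3 := tv_out hL tA₂ h2
  refine ⟨k * e * xi D i ^ r * (xi D i)⁻¹, i, ?_, ?_, ?_, ?_⟩
  · rw [c0, in_vertex]
  · rw [inv_mul_cancel_right]
  · rw [pow_two, ← mul_assoc, inv_mul_cancel_right, c2]
  · rw [pow_succ, pow_two, ← mul_assoc, ← mul_assoc, inv_mul_cancel_right, c3]

/-- A vertex of type T for `k` only, followed by a vertex of type T for `k'` only. -/
theorem tt_mixed (hM : Mix D a) (hL : LocM D a) {k k' : D.Ah} {v₀ v₁ v₂ v₃ : AV D}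
    (h0 : Ed D k v₀ v₁) (h1 : Ed D k v₁ v₂) (h0' : Ed D k' v₀ v₁)
    (h1' : Ed D k' v₁ v₂) (h2' : Ed D k' v₂ v₃) (t1 : TT D k v₁) (t2 : TT D k' v₂)
    (n1 : ¬ TT D k' v₁) :
    ∃ p j, v₀ = pt D p ∧ v₁ = pt D (p * xi D j) ∧ v₂ = pt D (p * xi D j ^ 2) ∧
      v₃ = pt D (p * xi D j ^ 3) := by
  obtain ⟨A, i, rfl, tA⟩ := t1
  obtain ⟨A₂, j, rfl, tA₂⟩ := t2
  have hli : 4 ≤ D.l i := by
    obtain ⟨_, _, r, hr, hr', _⟩ := tA
    omega
  have hlj : 4 ≤ D.l j := by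
    obtain ⟨_, _, r, hr, hr', _⟩ := tA₂
    omega
  have c0 := tv_in hL tA h0
  have c2 := tv_out hL tA h1
  have c1 := tv_in hL tA₂ h1'
  have c3 := tv_out hL tA₂ h2'
  -- `A₂ = k' e' (x j)^2`
  obtain ⟨e', he', s, hs, hs', e4⟩ := tA₂
  have hs2 : s = 2 := by
    by_contra hcon
    apply n1
    refine ⟨A₂ * (xi D j)⁻¹, j, ?_, e', he', s - 1, by omega, by omega, ?_⟩
    · rw [c1, in_vertex]
    · rw [e4]
      obtain ⟨s', rfl⟩ : ∃ s', s = s' + 1 := ⟨s - 1, by omega⟩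
      rw [Nat.add_sub_cancel, pow_succ, ← mul_assoc, mul_inv_cancel_right]
  subst hs2
  obtain ⟨A', hA'⟩ : ∃ A', A' = k' * e' * xi D j := ⟨_, rfl⟩
  have e5 : A₂ = A' * xi D j := by
    rw [e4, hA', pow_two, ← mul_assoc]
  have hSV : SV D a k' A' := by
    refine ⟨e' * D.ofG (kk D j a), mul_mem he' (kk_RE j a), ?_⟩
    rw [hA', xi_eq j a]
    simp only [mul_assoc]
  rw [e5, pt_xi_u] at c1
  -- the element `δ`
  obtain ⟨δ, hδ⟩ := (pt_eq D).1 c1
  have h0'' : Ed D k' v₀ (pt D A') := by rwa [← c1]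
  obtain ⟨m, hm, c, hc, e6⟩ := sv_in hL hSV h0''
  have e7 : pt D (A * D.ofG 1 * D.u⁻¹) = pt D (A * D.ofG (δ * (m * kk D a c)) * D.u⁻¹) := by
    rw [map_one, mul_one, ← c0, e6, hδ, mul_assoc A, ← map_mul]
  obtain ⟨b, hb, e8⟩ := in_name e7
  rw [one_mul] at e8
  have e9 : pt D (A * D.ofG 1 * xi D i) = pt D (A * D.ofG δ * xi D j) := by
    rw [map_one, mul_one, ← c2, e5, hδ]
  obtain ⟨b', hb', e10⟩ := out_name e9
  rw [one_mul] at e10
  have d1 : δ = D.t i * b' * (D.t j)⁻¹ := by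
    rw [← e10, mul_inv_cancel_right]
  have d2 : δ = b * (kk D a c)⁻¹ * m⁻¹ := by
    rw [← e8]
    group
  have hij : i = j := by
    by_contra hne
    obtain ⟨W, w1, w2, w3, w4⟩ := wt_mm hM hlj
    have f1 : W δ = (ofAdd 1)⁻¹ := by
      rw [d1, map_mul, map_mul, map_inv, w1, w3 b' hb', w2 i hne, one_mul, one_mul]
    have f2 : W δ = W (D.t c) := by
      rw [d2, kk]
      simp only [map_mul, map_inv, w3 b hb, w4 m hm, w2 a (fun h => ne_a hM hlj h.symm), one_mul,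
        inv_one, mul_one, inv_inv]
    rw [f1] at f2
    by_cases hcj : c = j
    · rw [hcj, w1] at f2
      exact ofAdd_inv_ne' f2
    · rw [w2 c hcj] at f2
      exact ofAdd_inv_ne f2
  subst hij
  have hca : c = a := by
    rcases hc with hc | hc
    · exact hc
    · exfalso
      obtain ⟨W, w1, w2, w3, w4⟩ := wt_mm hM hc
      have f1 : W δ = 1 := by
        rw [d1, map_mul, map_mul, map_inv, w3 b' hb', mul_one, mul_inv_cancel]
      have f2 : W δ = ofAdd 1 := by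
        rw [d2, kk]
        simp only [map_mul, map_inv, w3 b hb, w4 m hm, w2 a (fun h => ne_a hM hc h.symm), one_mul,
          inv_one, mul_one, inv_inv, w1]
      rw [f1] at f2
      exact ofAdd_ne f2.symm
  subst hca
  rw [kk_self, inv_one, mul_one] at d2
  have hδM : D.t i * b' * (D.t i)⁻¹ ∈ MM D := by
    rw [← d1, d2]
    exact mul_mem (B_le hb) (inv_mem hm)
  obtain ⟨_, hcom⟩ := g2 hM hb' (Or.inl hli) hδM
  have d3 : δ = b' := by
    rw [d1, ← hcom.eq, mul_inv_cancel_right]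
  refine ⟨A * (xi D i)⁻¹, i, ?_, ?_, ?_, ?_⟩
  · rw [c0, in_vertex]
  · rw [inv_mul_cancel_right]
  · rw [pow_two, ← mul_assoc, inv_mul_cancel_right, c2]
  · rw [pow_succ, pow_two, ← mul_assoc, ← mul_assoc, inv_mul_cancel_right, c3, e5, hδ, d3]
    have h8 : Commute (D.ofG b') (xi D i * xi D i) :=
      (xi_comm hb' hcom).mul_right (xi_comm hb' hcom)
    rw [mul_assoc _ (xi D i) (xi D i), mul_assoc A, h8.eq, ← mul_assoc, pt_mul_ofG, ← mul_assoc]

/-- The comparison of two consecutive quadruples. -/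
theorem quad (hM : Mix D a) {p p' : D.Ah} {j j' : D.ι} (h0 : pt D (p * xi D j) = pt D p')
    (h1 : pt D (p * xi D j ^ 2) = pt D (p' * xi D j'))
    (h2 : pt D (p * xi D j ^ 3) = pt D (p' * xi D j' ^ 2)) :
    j = j' ∧ ∃ b ∈ D.B, Commute b (D.t j) ∧ p' = p * xi D j * D.ofG b := by
  obtain ⟨g, rfl⟩ := (pt_eq D).1 h0
  rw [pow_two, ← mul_assoc] at h1
  obtain ⟨β, hβ, h4⟩ := xi_name h1
  have h5 : p * xi D j * D.ofG g * xi D j' = p * xi D j * xi D j * D.ofG β := by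
    rw [mul_assoc _ (xi D j) (D.ofG β), xi_B j hβ, ← h4, map_mul]
    unfold xi
    simp only [mul_assoc]
  rw [pow_two, ← mul_assoc (p * xi D j * D.ofG g), h5] at h2
  have h6 : pt D (p * xi D j * xi D j * xi D j) =
      pt D (p * xi D j * xi D j * D.ofG β * xi D j') := by
    rw [← h2]
    congr 1
    rw [pow_succ, pow_two]
    simp only [mul_assoc]
  obtain ⟨β', hβ', h7⟩ := xi_name h6
  have h8 : (D.t j)⁻¹ * β * D.t j' ∈ D.B := by
    rw [mul_assoc, h7, inv_mul_cancel_left]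
    exact hβ'
  obtain ⟨rfl, hc⟩ := two_neg hM hβ h8
  have h9 : g = β := by
    apply mul_right_cancel (b := D.t j)
    rw [h4, hc.eq]
  subst h9
  exact ⟨rfl, g, hβ, hc, rfl⟩

/-- A line of straight quadruples is not an axis of an element of the kernel of `ret`. -/
theorem no_line (hM : Mix D a) {γ : ℤ → AV D}
    (hquad : ∀ i, ∃ (p : D.Ah) (j : D.ι), γ i = pt D p ∧ γ (i + 1) = pt D (p * xi D j) ∧
      γ (i + 2) = pt D (p * xi D j ^ 2) ∧ γ (i + 3) = pt D (p * xi D j ^ 3))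
    {y : D.Ah} {n : ℤ} (hn : 0 < n)
    (hy : ∀ i, y • γ i = γ (i + n)) (hr : ret D y = 1) : False := by
  choose p j hp0 hp1 hp2 hp3 using hquad
  have hstep : ∀ i, j i = j (i + 1) ∧ ∃ b ∈ D.B, Commute b (D.t (j i)) ∧
      p (i + 1) = p i * xi D (j i) * D.ofG b := by
    intro i
    refine quad hM ?_ ?_ ?_
    · rw [← hp1, hp0]
    · rw [← hp2, ← hp1]
      congr 1
      ring
    · rw [← hp3, ← hp2]
      congr 1
      ring
  have hind : ∀ m : ℕ, j (m : ℤ) = j 0 ∧ ∃ b ∈ D.B, Commute b (D.t (j 0)) ∧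
      p (m : ℤ) = p 0 * xi D (j 0) ^ m * D.ofG b := by
    intro m
    induction m with
    | zero => exact ⟨rfl, 1, one_mem _, Commute.one_left _, by simp⟩
    | succ m ih =>
      obtain ⟨h4, b, hb, hc, h5⟩ := ih
      obtain ⟨h6, b', hb', hc', h7⟩ := hstep (m : ℤ)
      rw [h4] at hc' h7
      refine ⟨by push_cast; rw [← h6, h4], b * b', mul_mem hb hb', hc.mul_left hc', ?_⟩
      push_cast
      have h8 : Commute (D.ofG b) (xi D (j 0)) := xi_comm hb hc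
      rw [h7, h5, mul_assoc _ (D.ofG b), h8.eq, pow_succ, map_mul]
      simp only [mul_assoc]
  have hγ : ∀ m : ℕ, γ (m : ℤ) = pt D (p 0 * xi D (j 0) ^ m) := by
    intro m
    obtain ⟨_, b, _, _, h5⟩ := hind m
    rw [hp0, h5, pt_mul_ofG]
  obtain ⟨N, hN⟩ : ∃ N : ℕ, n = N := ⟨n.toNat, by omega⟩
  have hN0 : N ≠ 0 := by
    rintro rfl
    omega
  have h4 := hy 0
  rw [zero_add, hN, hγ N, hp0, smul_pt] at h4
  obtain ⟨g, hg⟩ := (pt_eq D).1 h4.symm
  have h5 := hy 1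
  have h6 := hγ (N + 1)
  have h7 := hγ 1
  push_cast at h6 h7
  rw [hN, show (1 : ℤ) + N = N + 1 by ring, h6, h7, smul_pt, pow_one, ← mul_assoc, hg,
    pow_succ, ← mul_assoc] at h5
  obtain ⟨b, hb, h8⟩ := xi_name h5.symm
  have h9 : D.h g = 1 := by
    have h10 := congrArg D.h h8
    rw [map_mul, map_mul, D.h_B b hb, D.h_t, mul_one] at h10
    exact mul_right_cancel (by rw [one_mul]; exact h10)
  have h10 := congrArg (ret D) hg
  rw [map_mul, map_mul, map_mul, hr, one_mul, map_pow, ret_xi, ret_ofG, mul_assoc] at h10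
  have h11 : D.t (j 0) ^ N * g = 1 := by
    apply mul_left_cancel (a := ret D (p 0))
    rw [← h10, mul_one]
  have h12 := congrArg (fun x => toAdd (D.h x)) h11
  simp only [map_mul, map_pow, D.h_t, h9, mul_one, map_one, toAdd_pow, toAdd_ofAdd,
    toAdd_one] at h12
  apply hN0
  have h13 : (N : ℤ) = 0 := by simpa using h12
  exact_mod_cast h13

/-- Directed axes. -/
theorem fwdM (hM : Mix D a) (hL : LocM D a) {k k' : D.Ah} (hn : NC D a k k') {γ : ℤ → AV D}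
    (hne : ∀ i, γ i ≠ γ (i + 2)) (h1 : ∀ i, Ed D k (γ i) (γ (i + 1)))
    (h2 : ∀ i, Ed D k' (γ i) (γ (i + 1))) {y : D.Ah} {n : ℤ} (hn' : 0 < n)
    (hy : ∀ i, y • γ i = γ (i + n)) (hr : ret D y = 1) : False := by
  refine no_line hM (fun i => ?_) hn' hy hr
  have f : ∀ (k : D.Ah), (∀ i, Ed D k (γ i) (γ (i + 1))) →
      Ed D k (γ (i - 1)) (γ i) ∧ Ed D k (γ i) (γ (i + 1)) ∧ Ed D k (γ (i + 1)) (γ (i + 2)) ∧
        Ed D k (γ (i + 2)) (γ (i + 3)) ∧ Ed D k (γ (i + 3)) (γ (i + 4)) := by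
    intro k hk
    refine ⟨?_, hk i, ?_, ?_, ?_⟩
    · have h := hk (i - 1)
      rwa [show i - 1 + 1 = i by ring] at h
    · have h := hk (i + 1)
      rwa [show i + 1 + 1 = i + 2 by ring] at h
    · have h := hk (i + 2)
      rwa [show i + 2 + 1 = i + 3 by ring] at h
    · have h := hk (i + 3)
      rwa [show i + 3 + 1 = i + 4 by ring] at h
  obtain ⟨a0, a1, a2, a3, a4⟩ := f k h1
  obtain ⟨b0, b1, b2, b3, b4⟩ := f k' h2
  have n1 : γ (i - 1) ≠ γ (i + 1) := by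
    have h := hne (i - 1)
    rwa [show i - 1 + 2 = i + 1 by ring] at h
  have n2 : γ i ≠ γ (i + 2) := hne i
  have n3 : γ (i + 1) ≠ γ (i + 3) := by
    have h := hne (i + 1)
    rwa [show i + 1 + 2 = i + 3 by ring] at h
  have n4 : γ (i + 2) ≠ γ (i + 4) := by
    have h := hne (i + 2)
    rwa [show i + 2 + 2 = i + 4 by ring] at h
  by_cases s1 : ∃ P g, γ (i + 1) = pt D P ∧ SSv D a k k' P g
  · obtain ⟨A, c, _, e1, e2, e3, e4⟩ := ss_five hM hL hn s1 a1 a2 b1 b2 (Or.inr a0) (Or.inr b0)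
      (Or.inl a3) (Or.inl b3) n1 n3.symm
    refine ⟨A * (xi D c)⁻¹, c, e1, ?_, ?_, ?_⟩
    · rw [inv_mul_cancel_right, e2]
    · rw [pow_two, ← mul_assoc, inv_mul_cancel_right, e3]
    · rw [pow_succ, pow_two, ← mul_assoc, ← mul_assoc, inv_mul_cancel_right, e4]
  by_cases s2 : ∃ P g, γ (i + 2) = pt D P ∧ SSv D a k k' P g
  · obtain ⟨A, c, e0, e1, e2, e3, _⟩ := ss_five hM hL hn s2 a2 a3 b2 b3 (Or.inr a1) (Or.inr b1)
      (Or.inl a4) (Or.inl b4) n2 n4.symm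
    refine ⟨A * (xi D c)⁻¹ * (xi D c)⁻¹, c, e0, ?_, ?_, ?_⟩
    · rw [inv_mul_cancel_right, e1]
    · rw [pow_two, ← mul_assoc, inv_mul_cancel_right, inv_mul_cancel_right, e2]
    · rw [pow_succ, pow_two, ← mul_assoc, ← mul_assoc, inv_mul_cancel_right,
        inv_mul_cancel_right, e3]
  have t1 : TT D k (γ (i + 1)) ∨ TT D k' (γ (i + 1)) := by
    rcases tri hL hn (Or.inl a2) (Or.inl b2) with h | h | h
    · exact Or.inl h
    · exact Or.inr h
    · exact absurd h s1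
  have t2 : TT D k (γ (i + 2)) ∨ TT D k' (γ (i + 2)) := by
    rcases tri hL hn (Or.inl a3) (Or.inl b3) with h | h | h
    · exact Or.inl h
    · exact Or.inr h
    · exact absurd h s2
  by_cases u1 : TT D k (γ (i + 1))
  · by_cases u2 : TT D k (γ (i + 2))
    · exact tt_same hL a1 a2 a3 u1 u2
    · have u2' : TT D k' (γ (i + 2)) := t2.resolve_left u2
      by_cases u1' : TT D k' (γ (i + 1))
      · exact tt_same hL b1 b2 b3 u1' u2'
      · exact tt_mixed hM hL a1 a2 b1 b2 b3 u1 u2' u1'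
  · have u1' : TT D k' (γ (i + 1)) := t1.resolve_left u1
    by_cases u2' : TT D k' (γ (i + 2))
    · exact tt_same hL b1 b2 b3 u1' u2'
    · have u2 : TT D k (γ (i + 2)) := t2.resolve_right u2'
      exact tt_mixed hM hL b1 b2 a1 a2 a3 u1' u2 u1

end

/-- Module S2. -/
theorem stS2M : StS2M := by
  intro G _ D a hM hW hL q hq y hyE hy1 hr hyq
  rw [MonoidHom.mem_ker] at hq
  by_contra hS
  have hn0 : NC D a 1 q := nc_of hq hS
  have hact := at_act D
  obtain ⟨γ, n, hn, hd, hy⟩ := Pool.Agent.Lib.MP_e6f638_al.stB1 D.Ah (AV D) (AT D)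
    ⟨hact.tree, hact.adj, hact.inv⟩ y (by
      intro v hv
      obtain ⟨p, rfl⟩ := exists_pt D v
      rw [smul_pt] at hv
      obtain ⟨g, hg⟩ := (pt_eq D).1 hv.symm
      have h1 := congrArg (ret D) hg
      rw [map_mul, map_mul, hr, one_mul, ret_ofG] at h1
      have h2 : g = 1 := by
        apply mul_left_cancel (a := ret D p)
        rw [← h1, mul_one]
      rw [h2, map_one, mul_one] at hg
      exact hy1 (mul_right_cancel (by rw [one_mul]; exact hg)))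
  have hline : ∀ k : D.Ah, k⁻¹ * y * k ∈ RE D → ∀ i, (TK D k).Adj (γ i) (γ (i + 1)) := by
    intro k hk
    refine stLine D.Ah (AV D) (AT D) (TK D k) hact (tk_le D k) y γ n ⟨hn, hd, hy⟩
      (fun v w => tk_smul D k hk v w) (pt D (k * 1)) ?_
    have h1 := tk_reach D k (one_mem (RE D)) hk
    have h2 : y • pt D (k * 1) = pt D (k * (k⁻¹ * y * k)) := by
      rw [smul_pt, mul_one]
      congr 1
      group
    rw [h2]
    exact h1
  have hL1 := hline 1 (by simpa using hyE)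
  have hLq := hline q hyq
  have hne : ∀ i, γ i ≠ γ (i + 2) := by
    intro i h
    have h1 := hd i (i + 2)
    rw [← h, SimpleGraph.dist_self] at h1
    have h2 : |i - (i + 2)| = 2 := by
      rw [show i - (i + 2) = -2 by ring]
      rfl
    rw [h2] at h1
    norm_num at h1
  have hdir : ∀ i, Dir D (γ i) (γ (i + 1)) ∨ Dir D (γ (i + 1)) (γ i) := fun i =>
    (at_adj D _ _).1 (tk_le D 1 (hL1 i))
  have hcor : ∀ i, ¬ ((Dir D (γ i) (γ (i + 1)) ∧ Dir D (γ (i + 2)) (γ (i + 1))) ∨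
      (Dir D (γ (i + 1)) (γ i) ∧ Dir D (γ (i + 1)) (γ (i + 2)))) := by
    intro i hc
    have f : ∀ k : D.Ah, (∀ i, (TK D k).Adj (γ i) (γ (i + 1))) →
        (TK D k).Adj (γ i) (γ (i - 1)) ∧ (TK D k).Adj (γ i) (γ (i + 1)) ∧
        (TK D k).Adj (γ (i + 1)) (γ (i + 2)) ∧ (TK D k).Adj (γ (i + 2)) (γ (i + 3)) := by
      intro k hk
      refine ⟨?_, hk i, ?_, ?_⟩
      · have h := hk (i - 1)
        rw [show i - 1 + 1 = i by ring] at h
        exact h.symm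
      · have h := hk (i + 1)
        rwa [show i + 1 + 1 = i + 2 by ring] at h
      · have h := hk (i + 2)
        rwa [show i + 2 + 1 = i + 3 by ring] at h
    obtain ⟨a0, a1, a2, a3⟩ := f 1 hL1
    obtain ⟨b0, b1, b2, b3⟩ := f q hLq
    have n1 : γ (i - 1) ≠ γ (i + 1) := by
      have h := hne (i - 1)
      rwa [show i - 1 + 2 = i + 1 by ring] at h
    have n3 : γ (i + 1) ≠ γ (i + 3) := by
      have h := hne (i + 1)
      rwa [show i + 1 + 2 = i + 3 by ring] at h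
    rcases hc with ⟨c1, c2⟩ | ⟨c1, c2⟩
    · exact no_in hM hL hn0 (tk_ed a1 c1) (tk_ed a2.symm c2) (tk_ed b1 c1) (tk_ed b2.symm c2)
        a0 b0 a3 b3 n1 n3.symm (hne i)
    · exact no_out hM hL hn0 (tk_ed a1.symm c1) (tk_ed a2 c2) (tk_ed b1.symm c1) (tk_ed b2 c2)
        a0 b0 a3 b3 n1 n3.symm (hne i)
  have hsame : ∀ i, Dir D (γ i) (γ (i + 1)) ↔ Dir D (γ (i + 1)) (γ (i + 2)) := by
    intro i
    have h4 := hdir (i + 1)
    rw [show i + 1 + 1 = i + 2 by ring] at h4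
    constructor
    · intro h1
      rcases h4 with h4 | h4
      · exact h4
      · exact absurd (Or.inl ⟨h1, h4⟩) (hcor i)
    · intro h1
      rcases hdir i with h5 | h5
      · exact h5
      · exact absurd (Or.inr ⟨h5, h1⟩) (hcor i)
  by_cases h0 : Dir D (γ 0) (γ (0 + 1))
  · have hall : ∀ i : ℤ, Dir D (γ i) (γ (i + 1)) := by
      intro i
      induction i using Int.induction_on with
      | zero => exact h0
      | succ i ih =>
        have h1 := (hsame i).1 ih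
        rwa [show (i : ℤ) + 2 = i + 1 + 1 by ring] at h1
      | pred i ih =>
        have h1 := hsame (-(i : ℤ) - 1)
        rw [show -(i : ℤ) - 1 + 1 = -i by ring, show -(i : ℤ) - 1 + 2 = -i + 1 by ring] at h1
        have h2 := h1.2 ih
        have h4 : γ (-(i : ℤ)) = γ (-(i : ℤ) - 1 + 1) := by
          congr 1
          ring
        rw [h4] at h2
        exact h2
    exact fwdM hM hL hn0 hne (fun i => tk_ed (hL1 i) (hall i)) (fun i => tk_ed (hLq i) (hall i))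
      hn hy hr
  · have hall : ∀ i : ℤ, ¬ Dir D (γ i) (γ (i + 1)) := by
      intro i
      induction i using Int.induction_on with
      | zero => exact h0
      | succ i ih =>
        intro h2
        apply ih
        rw [hsame]
        rwa [show (i : ℤ) + 2 = i + 1 + 1 by ring]
      | pred i ih =>
        intro h2
        apply ih
        have h1 := hsame (-(i : ℤ) - 1)
        rw [show -(i : ℤ) - 1 + 1 = -i by ring, show -(i : ℤ) - 1 + 2 = -i + 1 by ring] at h1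
        rw [show -(i : ℤ) - 1 + 1 = -i by ring] at h2
        exact h1.1 h2
    have hback : ∀ i : ℤ, Dir D (γ (-i)) (γ (-(i + 1))) := by
      intro i
      have h1 := hdir (-(i + 1))
      have h2 := hall (-(i + 1))
      rw [show -(i + 1) + 1 = -i by ring] at h1 h2
      rcases h1 with h1 | h1
      · exact absurd h1 h2
      · exact h1
    refine fwdM hM hL hn0 (γ := fun i => γ (-i)) (y := y⁻¹) (n := n) (fun i => ?_) (fun i => ?_)
      (fun i => ?_) hn (fun i => ?_) (by rw [map_inv, hr, inv_one])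
    · have h := hne (-(i + 2))
      rw [show -(i + 2) + 2 = -i by ring] at h
      exact h.symm
    · have h1 := hL1 (-(i + 1))
      rw [show -(i + 1) + 1 = -i by ring] at h1
      exact tk_ed h1.symm (hback i)
    · have h1 := hLq (-(i + 1))
      rw [show -(i + 1) + 1 = -i by ring] at h1
      exact tk_ed h1.symm (hback i)
    · rw [inv_smul_eq_iff, hy]
      congr 1
      ring

end Pool.Agent.Lib.MP_551055_al.N5
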