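import Mathlib
import Pool.Agent.Lib.MP_551055_al.Trim.LS.Ray
import Pool.Agent.Lib.MP_551055_al.Trim.LS.Stmts
import Pool.Agent.Lib.MP_551055_al.Trim.MT.Defs
import Pool.Agent.Lib.MP_551055_al.Trim.N4.Loc_17
import Pool.Agent.Lib.MP_551055_al.Trim.N4.S2_17
import Pool.Agent.Lib.MP_551055_al.Trim.N4.Stmts
import Pool.Agent.Lib.MP_551055_al.Trim.N5.Stmts
import Pool.Agent.Lib.MP_551055_al.Trim.T4.GlDim
import Pool.Agent.Lib.MP_551055_al.Trim.T4.Mods
import Pool.Agent.Lib.MP_551055_al.Trim.X.MP_e6f638_al.I1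
import Pool.Agent.Lib.MP_551055_al.Trim.X.MP_e6f638_al.Stmts

/-!
# The mixed case: basic lemmas
-/

set_option autoImplicit false

namespace Pool.Agent.Lib.MP_551055_al
end Pool.Agent.Lib.MP_551055_al

namespace Pool.Agent.Lib.MP_e6f638_al
end Pool.Agent.Lib.MP_e6f638_al

namespace Pool.Agent.Lib.MP_551055_al.N4
end Pool.Agent.Lib.MP_551055_al.N4

namespace Pool.Agent.Lib.MP_551055_al.N5

open Pool.Agent.Lib.MP_551055_al

open Pool.Agent.Lib.MP_e6f638_al (Dat EA gen par rho del IsDatOf IsAxis)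

open Pool.Agent.Lib.MP_551055_al.N4

open Multiplicative

section

variable {G : Type} [Group G] {D : Dat G}

/-! ### The group `MM` -/

theorem B_le {b : G} (hb : b ∈ D.B) : b ∈ MM D := Subgroup.subset_closure (Or.inl hb)

theorem tt_mem {i j : D.ι} {b : G} (hi : D.l i = 2) (hj : D.l j = 2) (hb : b ∈ D.B) :
    D.t i * b * (D.t j)⁻¹ ∈ MM D := Subgroup.subset_closure (Or.inr ⟨i, j, b, hi, hj, hb, rfl⟩)

theorem kk_self (a : D.ι) : kk D a a = 1 := mul_inv_cancel _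

theorem kk_mem {i j : D.ι} (hi : D.l i = 2) (hj : D.l j = 2) : kk D i j ∈ MM D := by
  have h := tt_mem hi hj (one_mem D.B)
  rwa [mul_one] at h

/-- A homomorphism which agrees with another one on `B` and on the `t i` with label two agrees
on `MM`. -/
theorem mm_hom {K : Type} [Group K] {f g : G →* K} (hB : ∀ b ∈ D.B, f b = g b)
    (ht : ∀ i, D.l i = 2 → f (D.t i) = g (D.t i)) {m : G} (hm : m ∈ MM D) : f m = g m := by
  have h1 : MM D ≤ f.eqLocus g := by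
    rw [MM, Subgroup.closure_le]
    rintro x (hx | ⟨i, j, b, hi, hj, hb, rfl⟩)
    · exact hB x hx
    · change f _ = g _
      simp only [map_mul, map_inv, hB b hb, ht i hi, ht j hj]
  exact h1 hm

theorem mm_h {m : G} (hm : m ∈ MM D) : D.h m = 1 := by
  have h1 : MM D ≤ D.h.ker := by
    rw [MM, Subgroup.closure_le]
    rintro x (hx | ⟨i, j, b, hi, hj, hb, rfl⟩)
    · exact D.h_B x hx
    · rw [SetLike.mem_coe, MonoidHom.mem_ker, map_mul, map_mul, map_inv, D.h_t, D.h_t, D.h_B b hb,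
        mul_one, mul_inv_cancel]
  exact h1 hm

theorem kk_h (a k : D.ι) : D.h (kk D a k) = 1 := by
  rw [kk, map_mul, map_inv, D.h_t, D.h_t, mul_inv_cancel]

variable {a : D.ι} (hM : Mix D a)

include hM in
theorem ne_a {k : D.ι} (hk : 4 ≤ D.l k) : k ≠ a := by
  rintro rfl
  have := hM.la
  omega

include hM in
/-- (F2) -/
theorem two_t {i j : D.ι} (ε : ℤˣ) {b : G} (hb : b ∈ D.B)
    (h : D.t i ^ (ε : ℤ) * b * D.t j ^ ((-ε : ℤˣ) : ℤ) ∈ D.B) : i = j ∧ Commute b (D.t i) := by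
  by_contra hn
  refine hM.w i j ε b _ hb (fun h1 h2 => hn ⟨h1, h2⟩)
    (Dat.Chain.base j (-ε) trivial) ?_
  exact h

include hM in
theorem two_pos {i j : D.ι} {b : G} (hb : b ∈ D.B) (h : D.t i * b * (D.t j)⁻¹ ∈ D.B) :
    i = j ∧ Commute b (D.t i) := by
  refine two_t hM 1 hb ?_
  rwa [units_one_zpow, units_neg_one_zpow]

include hM in
theorem two_neg {i j : D.ι} {b : G} (hb : b ∈ D.B) (h : (D.t i)⁻¹ * b * D.t j ∈ D.B) :
    i = j ∧ Commute b (D.t i) := by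
  refine two_t hM (-1) hb ?_
  have hnn : ((- -1 : ℤˣ) : ℤ) = 1 := by simp
  rwa [units_neg_one_zpow, hnn, zpow_one]

include hM in
/-- Weights which vanish on `MM`. -/
theorem wt_mm {k : D.ι} (hk : 4 ≤ D.l k) : ∃ w : G →* Multiplicative ℤ, w (D.t k) = ofAdd 1 ∧
    (∀ i, i ≠ k → w (D.t i) = 1) ∧ (∀ b ∈ D.B, w b = 1) ∧ ∀ m ∈ MM D, w m = 1 := by
  obtain ⟨w, h1, h2, h3⟩ := hM.wt k
  refine ⟨w, h1, h2, h3, fun m hm => ?_⟩
  refine mm_hom (f := w) (g := 1) (fun b hb => h3 b hb) (fun i hi => h2 i ?_) hm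
  rintro rfl
  omega

include hM in
/-- Retractions which are the identity on `MM`. -/
theorem rt_mm {k : D.ι} (hk : 4 ≤ D.l k) : ∃ ρ : G →* G, ρ (D.t k) = 1 ∧
    (∀ i, i ≠ k → ρ (D.t i) = D.t i) ∧ (∀ b ∈ D.B, ρ b = b) ∧ ∀ m ∈ MM D, ρ m = m := by
  obtain ⟨ρ, h1, h2, h3⟩ := hM.rt k
  refine ⟨ρ, h1, h2, h3, fun m hm => ?_⟩
  refine mm_hom (f := ρ) (g := MonoidHom.id G) (fun b hb => h3 b hb) (fun i hi => h2 i ?_) hm
  rintro rfl
  omega

include hM in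
/-- (G2) -/
theorem g2 {i j : D.ι} {b : G} (hb : b ∈ D.B) (hij : 4 ≤ D.l i ∨ 4 ≤ D.l j)
    (h : D.t i * b * (D.t j)⁻¹ ∈ MM D) : i = j ∧ Commute b (D.t i) := by
  have h1 : i = j := by
    by_contra hne
    rcases hij with hk | hk
    · obtain ⟨w, w1, w2, w3, w4⟩ := wt_mm hM hk
      have h2 := w4 _ h
      rw [map_mul, map_mul, map_inv, w1, w3 b hb, w2 j (fun h => hne h.symm), mul_one, inv_one,
        mul_one] at h2
      exact absurd (congrArg toAdd h2) (by simp)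
    · obtain ⟨w, w1, w2, w3, w4⟩ := wt_mm hM hk
      have h2 := w4 _ h
      rw [map_mul, map_mul, map_inv, w1, w3 b hb, w2 i hne, mul_one, one_mul] at h2
      exact absurd (congrArg toAdd h2) (by simp)
  subst h1
  refine ⟨rfl, ?_⟩
  have hk : 4 ≤ D.l i := hij.elim id id
  obtain ⟨ρ, r1, r2, r3, r4⟩ := rt_mm hM hk
  have h2 := r4 _ h
  rw [map_mul, map_mul, map_inv, r1, r3 b hb, one_mul, inv_one, mul_one] at h2
  exact eq_mul_inv_iff_mul_eq.1 h2

include hM in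
/-- (G4) -/
theorem g4 {k : D.ι} (hk : 4 ≤ D.l k) {μ : G} (hμ : μ ∈ MM D)
    (h : D.t a * ((D.t k)⁻¹ * μ * D.t k) * (D.t a)⁻¹ ∈ MM D) :
    μ ∈ D.B ∧ Commute μ (D.t k) := by
  obtain ⟨ρ, r1, r2, r3, r4⟩ := rt_mm hM hk
  have h1 := r4 _ h
  have hak : a ≠ k := fun h => ne_a hM hk h.symm
  simp only [map_mul, map_inv, r1, r2 a hak, r4 μ hμ, inv_one, one_mul, mul_one] at h1
  have h2 : μ = (D.t k)⁻¹ * μ * D.t k := mul_left_cancel (mul_right_cancel h1)
  refine ⟨hM.mm μ hμ ?_, ?_⟩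
  · rw [← h2] at h
    exact h
  · have h3 : D.t k * μ = μ * D.t k := by
      have h4 : D.t k * μ = D.t k * ((D.t k)⁻¹ * μ * D.t k) := by rw [← h2]
      rw [h4]
      group
    exact h3.symm

/-! ### Identities in `Ah` -/

/-- `x i b (x j)⁻¹ = t i b (t j)⁻¹`. -/
theorem xbx (i j : D.ι) {b : G} (hb : b ∈ D.B) :
    xi D i * D.ofG b * (xi D j)⁻¹ = D.ofG (D.t i * b * (D.t j)⁻¹) := by
  rw [xi_B i hb, xi]
  simp only [map_mul, map_inv]
  group

theorem xx (i j : D.ι) : xi D i * (xi D j)⁻¹ = D.ofG (kk D i j) := by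
  have h := xbx i j (one_mem D.B)
  rwa [map_one, mul_one, mul_one] at h

/-- `x i = k i j (x j)`. -/
theorem xi_eq (i j : D.ι) : xi D i = D.ofG (kk D i j) * xi D j := by
  rw [← xx, inv_mul_cancel_right]

theorem kk_RE (i j : D.ι) : D.ofG (kk D i j) ∈ RE D := ofG_mem_RE D (kk_h i j)

theorem xsq_mem {i : D.ι} (hi : D.l i = 2) : xi D i ^ 2 ∈ RE D := by
  have h := zi_mem_RE D i
  rwa [hi] at h

/-- `x i x j` for labels four. -/
theorem xmul_mem {i j : D.ι} (hj : D.l j = 2) : xi D i * xi D j ∈ RE D := by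
  rw [xi_eq i j, mul_assoc, ← pow_two]
  exact mul_mem (kk_RE i j) (xsq_mem hj)

/-- `x a M (x a)⁻¹` is contained in `E`. -/
theorem xMM {c : D.ι} (hc : D.l c = 2) {m : G} (hm : m ∈ MM D) :
    xi D c * D.ofG m * (xi D c)⁻¹ ∈ RE D := by
  have h1 : MM D ≤ (RE D).comap ((MulAut.conj (xi D c)).toMonoidHom.comp D.ofG) := by
    rw [MM, Subgroup.closure_le]
    rintro x (hx | ⟨i, j, b, hi, hj, hb, rfl⟩)
    · change xi D c * D.ofG x * (xi D c)⁻¹ ∈ RE D
      rw [xbx c c hx]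
      refine ofG_mem_RE D ?_
      rw [map_mul, map_mul, map_inv, D.h_B x hx, mul_one, mul_inv_cancel]
    · change xi D c * D.ofG (D.t i * b * (D.t j)⁻¹) * (xi D c)⁻¹ ∈ RE D
      have h2 : xi D c * D.ofG (D.t i * b * (D.t j)⁻¹) * (xi D c)⁻¹ =
          (xi D c * xi D i) * D.ofG b * (xi D c * xi D j)⁻¹ := by
        rw [← xbx i j hb]
        group
      rw [h2]
      exact mul_mem (mul_mem (xmul_mem hi) (ofG_mem_RE D (D.h_B b hb)))
        (inv_mem (xmul_mem hj))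
  exact h1 hm

/-- `x a m x a` is in `E`. -/
theorem xMMx {c : D.ι} (hc : D.l c = 2) {m : G} (hm : m ∈ MM D) :
    xi D c * D.ofG m * xi D c ∈ RE D := by
  have h1 : xi D c * D.ofG m * xi D c = xi D c * D.ofG m * (xi D c)⁻¹ * xi D c ^ 2 := by
    rw [pow_two]
    group
  rw [h1]
  exact mul_mem (xMM hc hm) (xsq_mem hc)

theorem x_xi (i : D.ι) : D.x = D.ofG (D.t₀ * (D.t i)⁻¹) * xi D i := by
  rw [Dat.x, xi, map_mul, map_inv]
  group

theorem tt0_RE (i : D.ι) : D.ofG (D.t₀ * (D.t i)⁻¹) ∈ RE D := by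
  refine ofG_mem_RE D ?_
  rw [map_mul, map_inv, D.h_t₀, D.h_t, mul_inv_cancel]

end

end Pool.Agent.Lib.MP_551055_al.N5
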