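import Mathlib
import Pool.Agent.Lib.MP_551055_al.Trim.LS.Ray
import Pool.Agent.Lib.MP_551055_al.Trim.LS.Stmts
import Pool.Agent.Lib.MP_551055_al.Trim.MT.Defs
import Pool.Agent.Lib.MP_551055_al.Trim.MT.K1
import Pool.Agent.Lib.MP_551055_al.Trim.N4.Stmts
import Pool.Agent.Lib.MP_551055_al.Trim.N4.W_95
import Pool.Agent.Lib.MP_551055_al.Trim.N5.Base_17
import Pool.Agent.Lib.MP_551055_al.Trim.N5.Stmts
import Pool.Agent.Lib.MP_551055_al.Trim.T4.GlDim
import Pool.Agent.Lib.MP_551055_al.Trim.X.MP_e6f638_al.F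
import Pool.Agent.Lib.MP_551055_al.Trim.X.MP_e6f638_al.Stmts

/-!
# The mixed case, module W5: words
-/

set_option autoImplicit false

namespace Pool.Agent.Lib.MP_551055_al
end Pool.Agent.Lib.MP_551055_al

namespace Pool.Agent.Lib.MP_e6f638_al
end Pool.Agent.Lib.MP_e6f638_al

namespace Pool.Agent.Lib.MP_e6f638_al.Dat
end Pool.Agent.Lib.MP_e6f638_al.Dat

namespace Pool.Agent.Lib.MP_551055_al.N4
end Pool.Agent.Lib.MP_551055_al.N4

namespace Pool.Agent.Lib.MP_551055_al.N5

open Pool.Agent.Lib.MP_551055_al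

open Pool.Agent.Lib.MP_e6f638_al (Dat)

open Pool.Agent.Lib.MP_e6f638_al.Dat (hd tl)

open Pool.Agent.Lib.MP_551055_al.N4

open Multiplicative

namespace W5

variable {G : Type} [Group G] (D : Dat G) (a : D.ι)

/-- the element in front: `1` or `t a` -/
def pre (e : ℤˣ) : G := if e = 1 then 1 else D.t a

theorem pre_one : pre D a 1 = 1 := if_pos rfl

theorem pre_neg : pre D a (-1) = D.t a := if_neg (by decide)

/-- `N(e, s)`: `M`, `M t a`, `(t a)⁻¹ M t a`, `(t a)⁻¹ M` -/
def NN (e s : ℤˣ) (κ : G) : Prop := pre D a e * κ * (pre D a s)⁻¹ ∈ MM D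

theorem NN_pp {κ : G} : NN D a 1 1 κ ↔ κ ∈ MM D := by
  unfold NN
  rw [pre_one, inv_one, mul_one, one_mul]

theorem NN_pm {κ : G} : NN D a 1 (-1) κ ↔ κ * (D.t a)⁻¹ ∈ MM D := by
  unfold NN
  rw [pre_one, pre_neg, one_mul]

theorem NN_self (e : ℤˣ) : NN D a e e 1 := by
  unfold NN
  rw [mul_one, mul_inv_cancel]
  exact one_mem _

variable {D a}

/-- a block with label four in front -/
theorem NN_step (hla : D.l a = 2) {i : D.ι} (hi : D.l i = 2) {c κ : G} (hc : c ∈ D.B)
    {e s : ℤˣ} (h : NN D a (-e) s κ) : NN D a e s (D.t i ^ (e : ℤ) * c * κ) := by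
  unfold NN at *
  rcases Int.units_eq_one_or e with rfl | rfl
  · rw [pre_neg] at h
    rw [pre_one, one_mul]
    have h1 : D.t i ^ ((1 : ℤˣ) : ℤ) * c * κ * (pre D a s)⁻¹ =
        (D.t i * c * (D.t a)⁻¹) * (D.t a * κ * (pre D a s)⁻¹) := by
      rw [Units.val_one, zpow_one]
      group
    rw [h1]
    exact mul_mem (tt_mem hi hla hc) h
  · rw [neg_neg, pre_one, one_mul] at h
    rw [pre_neg]
    have h1 : D.t a * (D.t i ^ (((-1 : ℤˣ)) : ℤ) * c * κ) * (pre D a s)⁻¹ =
        kk D a i * (c * (κ * (pre D a s)⁻¹)) := by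
      rw [kk, Units.val_neg, Units.val_one, zpow_neg, zpow_one]
      group
    rw [h1]
    exact mul_mem (kk_mem hla hi) (mul_mem (B_le hc) h)

variable (D a)

/-- the list of the word of an element of `E` outside `K` -/
def lst (κ : G) (j : D.ι) (e s : ℤˣ) (y' : G) (M' : List (ℤˣ × G)) : List (ℤˣ × G) :=
  (e, κ * D.t j ^ (s : ℤ)) ::
    (List.replicate (D.l j - 3) (s, D.t j ^ (s : ℤ)) ++ (s, y') :: M')

/-- Elements with a word as above. -/
def GoodM (i : D.ι) (e : ℤˣ) (y : D.Ah) : Prop :=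
  ∃ (κ : G) (j : D.ι) (s : ℤˣ) (y' : G) (M' : List (ℤˣ × G)), NN D a e s κ ∧
    D.HRed (lst D κ j e s y' M') ∧ y = D.ofG (hd e (D.t i)) * D.hprod (lst D κ j e s y' M') ∧
    D.Chain (fun _ => True) i e (κ * D.t j ^ (s : ℤ)) s ∧ (4 ≤ D.l j → M' ≠ []) ∧
    (4 ≤ D.l i → j = i ∧ κ = 1 ∧ s = e)

variable {D a}

theorem goodM_block (hM : Mix D a) (i : D.ι) (ε : ℤˣ) (c : G) (M : List (ℤˣ × G))
    (h : D.HRed ((ε, tl ε (D.t i) * c) :: M)) :
    GoodM D a i ε (((D.ofG (D.t i) * D.u) ^ D.l i) ^ (ε : ℤ) * (D.ofG c * D.hprod M)) := by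
  rcases hM.four i with hi | hi
  · -- label four
    refine ⟨1, i, ε, tl ε (D.t i) * c, M, NN_self D a ε, ?_, ?_, ?_, fun h4 => ?_, fun h4 => ?_⟩
    · unfold lst
      rw [hi, one_mul]
      exact List.isChain_cons_cons.2 ⟨fun _ => rfl, h⟩
    · have h1 := D.hprod_replicate ε (D.t i ^ (ε : ℤ)) 1 ((ε, tl ε (D.t i) * c) :: M)
      unfold lst
      rw [hi, one_mul]
      simp only [Nat.reduceSub, List.replicate_zero, List.nil_append]
      rw [List.replicate_one, List.singleton_append] at h1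
      rw [h1, show (2 : ℕ) = 1 + 1 from rfl, D.block_eq, D.hprod_cons, map_mul D.ofG (tl _ _)]
      simp only [mul_assoc]
    · rw [one_mul]; exact .base i ε trivial
    · omega
    · omega
  · obtain ⟨n, hn⟩ : ∃ n, D.l i = n + 4 := ⟨D.l i - 4, by omega⟩
    refine ⟨1, i, ε, D.t i ^ (ε : ℤ), (ε, tl ε (D.t i) * c) :: M, NN_self D a ε, ?_, ?_, ?_,
      fun _ => by simp, fun _ => ⟨rfl, rfl, rfl⟩⟩
    · unfold lst
      rw [hn, one_mul, show n + 4 - 3 = n + 1 by omega]
      have h2 : D.HRed ((ε, D.t i ^ (ε : ℤ)) :: (ε, tl ε (D.t i) * c) :: M) :=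
        List.isChain_cons_cons.2 ⟨fun _ => rfl, h⟩
      have h3 := D.hred_replicate ε (D.t i ^ (ε : ℤ)) (n + 2) _ _ h2
      rwa [List.replicate_succ, List.cons_append] at h3
    · have h1 := D.hprod_replicate ε (D.t i ^ (ε : ℤ)) (n + 2)
        ((ε, D.t i ^ (ε : ℤ)) :: (ε, tl ε (D.t i) * c) :: M)
      unfold lst
      rw [hn, one_mul, show n + 4 - 3 = n + 1 by omega]
      rw [List.replicate_succ, List.cons_append] at h1
      rw [h1, show n + 4 = (n + 3) + 1 from rfl, D.block_eq, D.hprod_cons, D.hprod_cons,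
        map_mul D.ofG (tl _ _), pow_succ _ (n + 2)]
      simp only [mul_assoc]
    · rw [one_mul]; exact .base i ε trivial

theorem goodM_cons (hM : Mix D a) (i j : D.ι) (ε ε' : ℤˣ) (g : D.h.ker) (y : D.Ah)
    (hy : GoodM D a j ε' y)
    (hr : i = j → ε = -ε' → ¬ ((g : G) ∈ D.B ∧ Commute (g : G) (D.t i))) :
    GoodM D a i ε (((D.ofG (D.t i) * D.u) ^ D.l i) ^ (ε : ℤ) * (D.ofG g * y)) := by
  obtain ⟨κ, k, σ, y', M', hκ, h1, rfl, h3, h4, -⟩ := hy
  set L : List (ℤˣ × G) := List.replicate (D.l k - 3) (σ, D.t k ^ (σ : ℤ)) ++ (σ, y') :: M'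
    with hL
  have hLne : ∃ q L', L = (σ, q) :: L' := by
    rcases hk : D.l k - 3 with _ | m
    · exact ⟨y', M', by rw [hL, hk]; rfl⟩
    · exact ⟨D.t k ^ (σ : ℤ), _, by rw [hL, hk, List.replicate_succ, List.cons_append]⟩
  obtain ⟨q, L', hLq⟩ := hLne
  have hlst : lst D κ k ε' σ y' M' = (ε', κ * D.t k ^ (σ : ℤ)) :: L := rfl
  rw [hlst] at h1
  rw [hlst]
  obtain ⟨r, hrdef⟩ : ∃ r : G, r = κ * D.t k ^ (σ : ℤ) := ⟨_, rfl⟩
  obtain ⟨c, hc⟩ : ∃ c : G, c = tl ε (D.t i) * (g * hd ε' (D.t j)) := ⟨_, rfl⟩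
  rw [← hrdef] at h1 h3 ⊢
  by_cases hcan : ε = -ε' ∧ c ∈ D.B
  · obtain ⟨he, hcB⟩ := hcan
    obtain rfl : ε' = -ε := by rw [he, neg_neg]
    obtain ⟨n, hn⟩ : ∃ n, D.l i = n + 2 := ⟨D.l i - 2, by have := D.two_le i; omega⟩
    have hnc : i = j → ¬ Commute c (D.t i) := by
      rintro rfl hcc
      refine hr rfl (by simp) ?_
      rcases Int.units_eq_one_or ε with rfl | rfl
      · have : c = g := by simp [hc, tl, hd]
        rw [← this]
        exact ⟨hcB, hcc⟩
      · have h5 : c = (D.t i)⁻¹ * (g * D.t i) := by simp [hc, tl, hd]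
        have h6 : (g : G) = c := by
          have h7 : D.t i * c = g * D.t i := by rw [h5]; group
          rw [← hcc.eq] at h7
          exact (mul_right_cancel h7).symm
        rw [h6]
        exact ⟨hcB, hcc⟩
    have hred1 : D.HRed ((ε, D.t i ^ (ε : ℤ) * c * r) :: L) := by
      rw [hLq] at h1 ⊢
      refine List.isChain_cons_cons.2 ⟨?_, (List.isChain_cons.1 h1).2⟩
      intro hmem
      by_contra hne
      have hσ : σ = -ε := MP_e6f638_al.eq_neg_of_ne' hne
      rw [hσ] at h3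
      exact hM.w i j ε c r hcB hnc h3 hmem
    have hprod : ((D.ofG (D.t i) * D.u) ^ D.l i) ^ (ε : ℤ) *
        (D.ofG g * (D.ofG (hd (-ε) (D.t j)) * D.hprod ((-ε, r) :: L))) =
        D.ofG (hd ε (D.t i)) * D.hprod (List.replicate n (ε, D.t i ^ (ε : ℤ)) ++
          (ε, D.t i ^ (ε : ℤ) * c * r) :: L) := by
      rw [hn, show n + 2 = (n + 1) + 1 from rfl, D.block_eq, D.hprod_replicate, D.hprod_cons,
        D.hprod_cons ε]
      have h5 : D.ofG (tl ε (D.t i)) * (D.ofG g * (D.ofG (hd (-ε) (D.t j)) *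
          (D.u ^ ((-ε : ℤˣ) : ℤ) * D.ofG r * D.hprod L))) =
          D.ofG c * (D.u ^ ((-ε : ℤˣ) : ℤ) * (D.ofG r * D.hprod L)) := by
        rw [hc, map_mul, map_mul]
        simp only [mul_assoc]
      have h6 : D.u ^ (ε : ℤ) * D.ofG c = D.ofG c * D.u ^ (ε : ℤ) :=
        ((D.commute_u hcB).zpow_right _).symm.eq
      rw [mul_assoc _ (D.ofG (tl ε (D.t i))), h5, pow_succ]
      have h7 : D.u ^ (ε : ℤ) * (D.ofG c * (D.u ^ ((-ε : ℤˣ) : ℤ) *
          (D.ofG r * D.hprod L))) =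
          D.ofG c * (D.ofG r * D.hprod L) := by
        rw [← mul_assoc, h6, mul_assoc, D.zpow_neg_units_mul]
      simp only [mul_assoc] at h7 ⊢
      rw [h7]
      simp only [map_mul, mul_assoc]
    rw [hprod]
    have hstep : D.l i = 2 → D.Chain (fun _ => True) i ε (D.t i ^ (ε : ℤ) * c * r) σ := fun h2 =>
      .step i j ε c r σ h2 hcB hnc h3
    have hassoc : D.t i ^ (ε : ℤ) * c * κ * D.t k ^ (σ : ℤ) = D.t i ^ (ε : ℤ) * c * r := by
      rw [hrdef]; simp only [mul_assoc]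
    rcases hM.four i with hi | hi
    · obtain rfl : n = 0 := by omega
      rw [List.replicate_zero, List.nil_append]
      refine ⟨D.t i ^ (ε : ℤ) * c * κ, k, σ, y', M', NN_step hM.la hi hcB hκ, ?_, ?_, ?_, h4,
        fun h5 => by omega⟩
      · unfold lst; rw [hassoc]; exact hred1
      · unfold lst; rw [hassoc]
      · rw [hassoc]; exact hstep hi
    · obtain ⟨m, rfl⟩ : ∃ m, n = m + 2 := ⟨n - 2, by omega⟩
      refine ⟨1, i, ε, D.t i ^ (ε : ℤ) * c * r, L, NN_self D a ε, ?_, ?_, ?_, fun _ => ?_,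
        fun _ => ⟨rfl, rfl, rfl⟩⟩
      · unfold lst
        rw [one_mul, hn, show m + 2 + 2 - 3 = m + 1 by omega]
        have h5 := D.hred_replicate ε (D.t i ^ (ε : ℤ)) (m + 2) _ _ hred1
        rwa [List.replicate_succ, List.cons_append] at h5
      · unfold lst
        rw [one_mul, hn, show m + 2 + 2 - 3 = m + 1 by omega, List.replicate_succ (n := m + 1),
          List.cons_append]
      · rw [one_mul]; exact .base i ε trivial
      · rw [hLq]; simp
  · have h5 : D.HRed ((ε, tl ε (D.t i) * (g * hd ε' (D.t j))) :: (ε', r) :: L) := by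
      refine List.isChain_cons_cons.2 ⟨?_, h1⟩
      intro hmem
      by_contra hne
      refine hcan ⟨?_, by rw [hc]; exact hmem⟩
      have hne' : ε' = -ε := MP_e6f638_al.eq_neg_of_ne' hne
      rw [hne', neg_neg]
    have := goodM_block hM i ε (g * hd ε' (D.t j)) _ h5
    rw [map_mul] at this
    simpa only [mul_assoc] using this

theorem goodM_eprod (hM : Mix D a) (L : List (D.ι × ℤˣ × D.h.ker)) (hL : D.ERed L) :
    ∀ p ∈ L.head?, GoodM D a p.1 p.2.1 (D.phi (D.eprod L)) := by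
  induction L with
  | nil => simp
  | cons p L ih =>
    intro q hq
    obtain rfl : p = q := by simpa using hq
    have h1 : D.phi (D.eprod (p :: L)) = ((D.ofG (D.t p.1) * D.u) ^ D.l p.1) ^ (p.2.1 : ℤ) *
        (D.ofG p.2.2 * D.phi (D.eprod L)) := by
      simp only [Dat.eprod, List.map_cons, List.prod_cons, map_mul, map_zpow, D.isPhi_phi.1,
        D.isPhi_phi.2, mul_assoc]
    rw [h1]
    rcases L with _ | ⟨q, L⟩
    · have h2 := goodM_block hM p.1 p.2.1 (p.2.2 : G) [] (List.isChain_singleton _)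
      simpa [Dat.eprod, Dat.hprod] using h2
    · have h3 := ih (List.isChain_cons.1 hL).2 q (by simp)
      exact goodM_cons hM p.1 q.1 p.2.1 q.2.1 p.2.2 _ h3 (List.isChain_cons_cons.1 hL).1

/-- The elements of `E`. -/
theorem RE_cases (hM : Mix D a) {y : D.Ah} (hy : y ∈ RE D) :
    (∃ g : D.h.ker, y = D.ofG g) ∨
      ∃ (g κ : G) (j : D.ι) (e s : ℤˣ) (y' : G) (M' : List (ℤˣ × G)), NN D a e s κ ∧
        D.HRed (lst D κ j e s y' M') ∧ y = D.ofG g * D.hprod (lst D κ j e s y' M') ∧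
        (4 ≤ D.l j → M' ≠ []) := by
  obtain ⟨e, rfl⟩ := hy
  obtain ⟨g, L, hL, rfl⟩ := D.hasRed e
  rcases L with _ | ⟨p, L⟩
  · left
    exact ⟨g, by simp [Dat.eprod, D.isPhi_phi.1]⟩
  · right
    obtain ⟨κ, j, s, y', M', h1, h2, h3, -, h5, -⟩ := goodM_eprod hM _ hL p (by simp)
    refine ⟨g * hd p.2.1 (D.t p.1), κ, j, p.2.1, s, y', M', h1, h2, ?_, h5⟩
    rw [map_mul, D.isPhi_phi.1, h3, map_mul, mul_assoc]

theorem lst_sgn (κ : G) (j : D.ι) (e s : ℤˣ) (y' : G) (M' : List (ℤˣ × G)) :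
    (lst D κ j e s y' M').map Prod.fst =
      e :: (List.replicate (D.l j - 3 + 1) s ++ M'.map Prod.fst) := by
  unfold lst
  rw [List.map_cons, List.map_append, List.map_replicate, List.map_cons, List.replicate_succ']
  simp

/-- Words starting with `x i ^ (n + 2)`. -/
theorem key (hM : Mix D a) (i : D.ι) (hi : 4 ≤ D.l i) (n : ℕ) (g : G) (L : List (ℤˣ × G))
    (hred : D.HRed (List.replicate (n + 1) (1, D.t i) ++ (1, g) :: L))
    (hmem : D.ofG (D.t i) * D.hprod (List.replicate (n + 1) (1, D.t i) ++ (1, g) :: L) ∈ RE D) :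
    ∃ S : List ℤˣ, S ≠ [] ∧
      List.replicate (n + 2) 1 ++ L.map Prod.fst = List.replicate (D.l i - 1) 1 ++ S := by
  have hsig : (List.replicate (n + 1) ((1 : ℤˣ), D.t i) ++ (1, g) :: L).map Prod.fst =
      List.replicate (n + 2) 1 ++ L.map Prod.fst := by
    rw [List.map_append, List.map_replicate, List.map_cons, List.replicate_succ' (n := n + 1)]
    simp
  rcases RE_cases hM hmem with ⟨k, hk⟩ | ⟨g', κ, j, e, s, y', M', hκ, hN, he, hM'⟩
  · exfalso
    have h0 : D.HRed [] := List.isChain_nil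
    have h1 := (W95.uniq D hred h0 (g' := (k : G)) (by rw [hk]; simp [Dat.hprod])).1
    simp at h1
  · obtain ⟨h1, h2⟩ := W95.uniq D hred hN he
    have h3 := h2 (by simp)
    rw [hsig, lst_sgn] at h1
    have he1 : e = 1 ∧ s = 1 := by
      rw [List.replicate_succ, List.replicate_succ, List.cons_append, List.cons_append,
        List.replicate_succ, List.cons_append, List.cons.injEq, List.cons.injEq] at h1
      exact ⟨h1.1.symm, h1.2.1.symm⟩
    obtain ⟨rfl, rfl⟩ := he1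
    rw [NN_pp] at hκ
    have hji : j = i := by
      rw [List.replicate_succ, List.cons_append] at he
      have hlst : lst D κ j 1 1 y' M' = (1, κ * D.t j ^ ((1 : ℤˣ) : ℤ)) ::
        (List.replicate (D.l j - 3) (1, D.t j ^ ((1 : ℤˣ) : ℤ)) ++ (1, y') :: M') := rfl
      rw [hlst] at he hN
      rw [List.replicate_succ, List.cons_append] at hred
      have h4 := W95.peel D h3 he
      have h5 := (W95.uniq D (List.isChain_cons.1 hred).2 (List.isChain_cons.1 hN).2 h4).2
        (by simp)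
      by_contra hne
      obtain ⟨w, w1, w2, w3, w4⟩ := wt_mm hM hi
      have h6 := w3 _ h5
      have h7 := w3 _ h3
      rw [Units.val_one, zpow_one, map_mul w (D.t i)⁻¹, map_mul w ((D.t i)⁻¹ * g'), h7,
        map_mul w κ, map_inv, w1, w4 _ hκ, w2 j hne, one_mul, mul_one, mul_one] at h6
      exact absurd (congrArg toAdd h6) (by simp)
    subst hji
    refine ⟨M'.map Prod.fst, by simpa using hM' hi, ?_⟩
    rw [h1, show D.l j - 1 = (D.l j - 3 + 1) + 1 by omega, List.replicate_succ (n := D.l j - 3 + 1),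
      List.cons_append]

theorem not_G (hM : Mix D a) {g : G} {L : List (ℤˣ × G)} (hred : D.HRed L)
    (hmem : D.ofG g * D.hprod L ∈ RE D) (hL : L ≠ []) :
    ∃ (g' κ : G) (j : D.ι) (e s : ℤˣ) (y' : G) (M' : List (ℤˣ × G)), NN D a e s κ ∧
        D.HRed (lst D κ j e s y' M') ∧ D.ofG g * D.hprod L = D.ofG g' * D.hprod (lst D κ j e s y' M') ∧
        (4 ≤ D.l j → M' ≠ []) ∧ L.map Prod.fst = (lst D κ j e s y' M').map Prod.fst ∧
        g⁻¹ * g' ∈ D.B := by
  rcases RE_cases hM hmem with ⟨k, hk⟩ | ⟨g', κ, j, e, s, y', M', hκ, hN, he, hM'⟩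
  · exfalso
    have h0 : D.HRed [] := List.isChain_nil
    have h1 := (W95.uniq D hred h0 (g' := (k : G)) (by rw [hk]; simp [Dat.hprod])).1
    rw [List.map_nil, List.map_eq_nil_iff] at h1
    exact hL h1
  · obtain ⟨h1, h2⟩ := W95.uniq D hred hN he
    exact ⟨g', κ, j, e, s, y', M', hκ, hN, he, hM', h1, h2 hL⟩

theorem c1 (hM : Mix D a) (i : D.ι) (r : ℕ) (g : G) (h1 : 1 ≤ r) (hr : r < D.l i) :
    xi D i ^ r * D.ofG g ∉ RE D := by
  intro h
  obtain ⟨n, rfl⟩ : ∃ k, r = k + 1 := ⟨r - 1, by omega⟩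
  have h2 := W95.xpow_word D i n g []
  have h3 : D.hprod ([] : List (ℤˣ × G)) = 1 := by simp [Dat.hprod]
  rw [h3, mul_one] at h2
  rw [h2] at h
  have hred := W95.hred_one D i n g
  rcases n with _ | n
  · obtain ⟨g', κ, j, e, s, y', M', hκ, hN, he, hM', hsig, hg⟩ := not_G hM hred h (by simp)
    have hlen := congrArg List.length hsig
    rw [lst_sgn] at hlen
    simp at hlen
  · have hi : 4 ≤ D.l i := by
      rcases hM.four i with h4 | h4 <;> omega
    obtain ⟨S, hS, hs⟩ := key hM i hi n g [] hred h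
    have hlen := congrArg List.length hs
    have hS' : 1 ≤ S.length := List.length_pos_iff.2 hS
    simp only [List.map_nil, List.append_nil, List.length_replicate, List.length_append] at hlen
    omega

theorem cS (hM : Mix D a) (g : G) (h : xi D a * D.ofG g * (xi D a)⁻¹ ∈ RE D) : g ∈ MM D := by
  by_cases hg : g ∈ D.B
  · exact B_le hg
  have hw : xi D a * D.ofG g * (xi D a)⁻¹ =
      D.ofG (D.t a) * D.hprod [(1, g), (-1, (D.t a)⁻¹)] := by
    unfold xi
    simp [Dat.hprod, mul_assoc]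
  rw [hw] at h
  have hred : D.HRed [((1 : ℤˣ), g), (-1, (D.t a)⁻¹)] :=
    List.isChain_cons_cons.2 ⟨fun hh => absurd hh hg, List.isChain_singleton _⟩
  obtain ⟨g', κ, j, e, s, y', M', hκ, hN, he, hM', hsig, hg'⟩ := not_G hM hred h (by simp)
  rw [lst_sgn] at hsig
  have hlen := congrArg List.length hsig
  simp only [List.map_cons, List.map_nil, List.length_cons, List.length_nil, List.length_append,
    List.length_replicate, List.length_map] at hlen
  have hM0 : M' = [] := List.length_eq_zero_iff.1 (by omega)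
  have hlj : D.l j = 2 := by
    rcases hM.four j with h4 | h4
    · exact h4
    · exact absurd hM0 (hM' h4)
  subst hM0
  rw [hlj] at hsig
  simp only [List.map_cons, List.map_nil, Nat.reduceSub, zero_add, List.replicate_one,
    List.append_nil, List.cons.injEq, and_true] at hsig
  obtain ⟨rfl, rfl⟩ : e = 1 ∧ s = -1 := ⟨hsig.1.symm, hsig.2.symm⟩
  rw [NN_pm] at hκ
  have hlst : lst D κ j 1 (-1) y' [] = (1, κ * D.t j ^ ((-1 : ℤˣ) : ℤ)) :: [(-1, y')] := by
    unfold lst
    rw [hlj]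
    rfl
  rw [hlst] at he hN
  have h4 := W95.peel D hg' he
  have h5 := (W95.uniq D (List.isChain_cons.1 hred).2 (List.isChain_cons.1 hN).2 h4).2 (by simp)
  have h6 : g = ((D.t a)⁻¹ * g') * (κ * (D.t a)⁻¹) * (kk D a j) *
      (g⁻¹ * ((D.t a)⁻¹ * g' * (κ * D.t j ^ ((-1 : ℤˣ) : ℤ))))⁻¹ := by
    rw [kk, Units.val_neg, Units.val_one, zpow_neg, zpow_one]
    group
  rw [h6]
  exact mul_mem (mul_mem (mul_mem (B_le hg') hκ) (kk_mem hM.la hlj)) (inv_mem (B_le h5))

theorem cTa (hM : Mix D a) (i j : D.ι) (hi : 4 ≤ D.l i) (r s : ℕ) (g : G) (h1 : 2 ≤ r)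
    (hr : r + 2 ≤ D.l i) (h2 : 1 ≤ s) (hg : g ∉ D.B)
    (h : xi D i ^ r * D.ofG g * (xi D j ^ s)⁻¹ ∈ RE D) : False := by
  obtain ⟨n, rfl⟩ : ∃ k, r = k + 2 := ⟨r - 2, by omega⟩
  obtain ⟨m, rfl⟩ : ∃ k, s = k + 1 := ⟨s - 1, by omega⟩
  rw [mul_assoc, W95.xinv_word, W95.xpow_word] at h
  have hred : D.HRed (List.replicate (n + 1) (1, D.t i) ++
      (1, g) :: List.replicate (m + 1) (-1, (D.t j)⁻¹)) := by
    refine D.hred_replicate 1 _ _ _ _ ?_
    rw [List.replicate_succ]
    refine List.isChain_cons_cons.2 ⟨fun hh => absurd hh hg, ?_⟩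
    have := D.hred_replicate (-1) (D.t j)⁻¹ m (D.t j)⁻¹ [] (List.isChain_singleton _)
    have e : List.replicate m ((-1 : ℤˣ), (D.t j)⁻¹) ++ [(-1, (D.t j)⁻¹)] =
        (-1, (D.t j)⁻¹) :: List.replicate m (-1, (D.t j)⁻¹) := by
      rw [← List.replicate_succ', List.replicate_succ]
    rwa [e] at this
  obtain ⟨S, hS, hs⟩ := key hM i hi n g _ hred h
  rw [List.map_replicate] at hs
  have hk := W95.rep_le (n := n + 1) hs
  omega

theorem cT (hM : Mix D a) (i j : D.ι) (r s : ℕ) (g : G) (h1 : 2 ≤ r) (hr : r + 2 ≤ D.l i)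
    (h2 : 1 ≤ s) (hs : s < D.l j) (h : xi D i ^ r * D.ofG g * (xi D j ^ s)⁻¹ ∈ RE D) :
    i = j ∧ r = s ∧ g ∈ D.B ∧ Commute g (D.t i) := by
  have hi : 4 ≤ D.l i := by omega
  by_cases hg : g ∈ D.B
  swap
  · exact (cTa hM i j hi r s g h1 hr h2 hg h).elim
  obtain ⟨n, rfl⟩ : ∃ k, r = k + 2 := ⟨r - 2, by omega⟩
  obtain ⟨m, rfl⟩ : ∃ k, s = k + 1 := ⟨s - 1, by omega⟩
  have hw : xi D i ^ (n + 2) * D.ofG g * (xi D j ^ (m + 1))⁻¹ =
      xi D i ^ (n + 1) * D.ofG (D.t i * g * (D.t j)⁻¹) * (xi D j ^ m)⁻¹ := by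
    rw [← xbx i j hg, pow_succ _ (n + 1), pow_succ _ m, mul_inv_rev]
    simp only [mul_assoc]
  rw [hw] at h
  rcases m with _ | m
  · exfalso
    rw [pow_zero, inv_one, mul_one] at h
    exact c1 hM i (n + 1) _ (by omega) (by omega) h
  by_cases hg' : D.t i * g * (D.t j)⁻¹ ∈ D.B
  · obtain ⟨rfl, hc⟩ := two_pos hM hg hg'
    have h4 : D.t i * g * (D.t i)⁻¹ = g := by
      rw [← hc.eq, mul_assoc, mul_inv_cancel, mul_one]
    rw [h4] at h
    have h5 : ∀ k : ℕ, D.ofG g * xi D i ^ k = xi D i ^ k * D.ofG g := fun k =>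
      (D.commute_tu hg hc k).eq
    refine ⟨rfl, ?_, hg, hc⟩
    rcases lt_trichotomy n m with hlt | heq | hgt
    · exfalso
      obtain ⟨d, rfl⟩ : ∃ d, m = n + d := ⟨m - n, by omega⟩
      have h6 := inv_mem h
      have h7 : (xi D i ^ (n + 1) * D.ofG g * (xi D i ^ (n + d + 1))⁻¹)⁻¹ =
          xi D i ^ d * D.ofG g⁻¹ := by
        rw [mul_inv_rev, mul_inv_rev, inv_inv, map_inv]
        have h8 : (D.ofG g)⁻¹ * (xi D i ^ (n + 1))⁻¹ = (xi D i ^ (n + 1))⁻¹ * (D.ofG g)⁻¹ := by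
          rw [← mul_inv_rev, ← mul_inv_rev, h5]
        rw [h8, show n + d + 1 = d + (n + 1) by omega, pow_add]
        group
      rw [h7] at h6
      exact c1 hM i d _ (by omega) (by omega) h6
    · omega
    · exfalso
      obtain ⟨d, rfl⟩ : ∃ d, n = m + d := ⟨n - m, by omega⟩
      have h7 : xi D i ^ (m + d + 1) * D.ofG g * (xi D i ^ (m + 1))⁻¹ =
          xi D i ^ d * D.ofG g := by
        rw [mul_assoc]
        have h8 : D.ofG g * (xi D i ^ (m + 1))⁻¹ = (xi D i ^ (m + 1))⁻¹ * D.ofG g := by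
          rw [mul_inv_eq_iff_eq_mul, mul_assoc, h5, ← mul_assoc, inv_mul_cancel, one_mul]
        rw [h8, show m + d + 1 = d + (m + 1) by omega, pow_add]
        group
      rw [h7] at h
      exact c1 hM i d _ (by omega) (by omega) h
  · exfalso
    rcases n with _ | n
    · -- two positive signs are missing
      rw [zero_add, mul_assoc, W95.xinv_word, W95.xpow_word, List.replicate_zero,
        List.nil_append] at h
      set g' : G := D.t i * g * (D.t j)⁻¹ with hg'def
      have hred : D.HRed (((1 : ℤˣ), g') :: List.replicate (m + 1) (-1, (D.t j)⁻¹)) := by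
        rw [List.replicate_succ]
        refine List.isChain_cons_cons.2 ⟨fun hh => absurd hh hg', ?_⟩
        have := D.hred_replicate (-1) (D.t j)⁻¹ m (D.t j)⁻¹ [] (List.isChain_singleton _)
        have e : List.replicate m ((-1 : ℤˣ), (D.t j)⁻¹) ++ [(-1, (D.t j)⁻¹)] =
            (-1, (D.t j)⁻¹) :: List.replicate m (-1, (D.t j)⁻¹) := by
          rw [← List.replicate_succ', List.replicate_succ]
        rwa [e] at this
      obtain ⟨G', κ, j', e, s, y', M', hκ, hN, he, hM', hsig, hG'⟩ := not_G hM hred h (by simp)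
      rw [lst_sgn, List.map_cons, List.map_replicate, List.replicate_succ, List.replicate_succ,
        List.cons_append, List.cons.injEq, List.cons.injEq] at hsig
      obtain ⟨rfl, rfl⟩ : e = 1 ∧ s = -1 := ⟨hsig.1.symm, hsig.2.1.symm⟩
      rw [NN_pm] at hκ
      have hlst : lst D κ j' 1 (-1) y' M' = (1, κ * D.t j' ^ ((-1 : ℤˣ) : ℤ)) ::
        (List.replicate (D.l j' - 3) (-1, D.t j' ^ ((-1 : ℤˣ) : ℤ)) ++ (-1, y') :: M') := rfl
      rw [hlst] at he hN
      have h4 := W95.peel D hG' he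
      have h5 := (W95.uniq D (List.isChain_cons.1 hred).2 (List.isChain_cons.1 hN).2 h4).2
        (by simp)
      rw [Units.val_neg, Units.val_one, zpow_neg, zpow_one] at h5
      -- weights
      have hai : a ≠ i := fun hh => by
        have := hM.la
        rw [hh] at this
        omega
      have hwt : ∀ (k : D.ι), 4 ≤ D.l k → ∀ w : G →* Multiplicative ℤ,
          (∀ b ∈ D.B, w b = 1) → (∀ m ∈ MM D, w m = 1) → w (D.t a) = 1 →
          w (D.t i) * (w (D.t j))⁻¹ = (w (D.t j'))⁻¹ := by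
        intro k hk w w3 w4 wa
        have h6 := w3 _ h5
        have h7 := w4 _ hκ
        rw [map_mul, map_inv, wa, inv_one, mul_one] at h7
        have h8 := w3 _ hG'
        rw [map_mul w g'⁻¹, map_mul w ((D.t i)⁻¹ * G'), h8, map_mul w κ, h7, map_inv, map_inv,
          one_mul, one_mul, hg'def, map_mul w (D.t i * g), map_mul w (D.t i), map_inv,
          w3 _ hg, mul_one] at h6
        rw [inv_mul_eq_one] at h6
        exact h6
      obtain ⟨w, w1, w2, w3, w4⟩ := wt_mm hM hi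
      have h9 := hwt i hi w w3 w4 (w2 a hai)
      have hij : i = j ∧ j' ≠ i := by
        by_cases hji : j = i
        · subst hji
          refine ⟨rfl, fun hh => ?_⟩
          subst hh
          rw [w1, mul_inv_cancel] at h9
          exact absurd (congrArg toAdd h9) (by simp)
        · exfalso
          rw [w1, w2 j hji, inv_one, mul_one] at h9
          by_cases hj' : j' = i
          · rw [hj', w1] at h9
            exact absurd (congrArg toAdd h9) (by simp)
          · rw [w2 j' hj', inv_one] at h9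
            exact absurd (congrArg toAdd h9) (by simp)
      obtain ⟨rfl, hj'i⟩ := hij
      rcases hM.four j' with hj2 | hj4
      · have h10 : g' ∈ MM D := by
          have h11 : g' = ((D.t i)⁻¹ * G') * (κ * (D.t a)⁻¹) * (kk D a j') *
              (g'⁻¹ * ((D.t i)⁻¹ * G' * (κ * (D.t j')⁻¹)))⁻¹ := by
            rw [kk]
            group
          rw [h11]
          exact mul_mem (mul_mem (mul_mem (B_le hG') hκ) (kk_mem hM.la hj2)) (inv_mem (B_le h5))
        obtain ⟨-, hc⟩ := g2 hM hg (Or.inl hi) h10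
        apply hg'
        rw [hg'def, ← hc.eq, mul_assoc, mul_inv_cancel, mul_one]
        exact hg
      · have haj : a ≠ j' := fun hh => by
          have := hM.la
          rw [hh] at this
          omega
        obtain ⟨w', w1', w2', w3', w4'⟩ := wt_mm hM hj4
        have h12 := hwt j' hj4 w' w3' w4' (w2' a haj)
        rw [w2' i (fun hh => hj'i hh.symm), w1', inv_one, mul_one] at h12
        exact absurd (congrArg toAdd h12) (by simp)
    · exact cTa hM i j hi (n + 2) (m + 1) _ (by omega) (by omega) (by omega) hg' h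

theorem not_range {g g' κ : G} {j : D.ι} {e s : ℤˣ} {y' : G} {M' : List (ℤˣ × G)}
    (hN : D.HRed (lst D κ j e s y' M')) :
    D.ofG g * D.hprod (lst D κ j e s y' M') ≠ D.ofG g' := by
  intro h
  have h0 : D.HRed [] := List.isChain_nil
  have h1 := (W95.uniq D hN h0 (g := g) (g' := g') (by rw [h]; simp [Dat.hprod])).1
  simp [lst] at h1

end W5

/-- Module W5. -/
theorem stW5 : StW5 := by
  intro G _ D a hM
  have hinj : Function.Injective D.phi := by
    rw [injective_iff_map_eq_one]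
    intro e he
    obtain ⟨g, L, hL, rfl⟩ := D.hasRed e
    rcases L with _ | ⟨p, L⟩
    · simp only [Dat.eprod, List.map_nil, List.prod_nil, mul_one, D.isPhi_phi.1] at he ⊢
      have h1 : (g : G) = 1 := HNNExtension.of_injective (φ := MulEquiv.refl D.B)
        (by rw [map_one]; exact he)
      have h2 : g = 1 := Subtype.ext h1
      rw [h2, map_one]
    · exfalso
      obtain ⟨κ, j, s, y', M', -, h2, h3, -⟩ := W5.goodM_eprod hM _ hL p (by simp)
      rw [map_mul, D.isPhi_phi.1, h3, ← mul_assoc, ← map_mul] at he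
      exact W5.not_range h2 (g' := 1) (by rw [he, map_one])
  refine ⟨hinj, ?_, fun i r g h1 h2 => W5.c1 hM i r g h1 h2, fun g h => W5.cS hM g h,
    fun i j r s g h1 h2 h3 h4 h5 => W5.cT hM i j r s g h1 h2 h3 h4 h5⟩
  rintro e ⟨g, hg⟩
  obtain ⟨k, L, hL, rfl⟩ := D.hasRed e
  rcases L with _ | ⟨p, L⟩
  · exact ⟨k, by simp [Dat.eprod]⟩
  · exfalso
    obtain ⟨κ, j, s, y', M', -, h2, h3, -⟩ := W5.goodM_eprod hM _ hL p (by simp)
    rw [map_mul, D.isPhi_phi.1, h3, ← mul_assoc, ← map_mul] at hg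
    exact W5.not_range h2 hg.symm

end Pool.Agent.Lib.MP_551055_al.N5
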