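import Mathlib
import Pool.Agent.Lib.MP_551055_al.Trim.EA.LocW
import Pool.Agent.Lib.MP_551055_al.Trim.LS.PStmts
import Pool.Agent.Lib.MP_551055_al.Trim.LS.Stmts
import Pool.Agent.Lib.MP_551055_al.Trim.N4.ArtThree_4
import Pool.Agent.Lib.MP_551055_al.Trim.N4.O_17
import Pool.Agent.Lib.MP_551055_al.Trim.N4.Rules_17
import Pool.Agent.Lib.MP_551055_al.Trim.N4.Stmts
import Pool.Agent.Lib.MP_551055_al.Trim.N5.A5_54
import Pool.Agent.Lib.MP_551055_al.Trim.N5.L5_4
import Pool.Agent.Lib.MP_551055_al.Trim.N5.LG5_54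
import Pool.Agent.Lib.MP_551055_al.Trim.N5.O5_54
import Pool.Agent.Lib.MP_551055_al.Trim.N5.PE_38
import Pool.Agent.Lib.MP_551055_al.Trim.N5.S1M_4
import Pool.Agent.Lib.MP_551055_al.Trim.N5.S2M_17
import Pool.Agent.Lib.MP_551055_al.Trim.N5.Stmts
import Pool.Agent.Lib.MP_551055_al.Trim.N5.W5_95
import Pool.Agent.Lib.MP_551055_al.Trim.RI.Stmts
import Pool.Agent.Lib.MP_551055_al.Trim.W17.Peel
import Pool.Agent.Lib.MP_551055_al.Trim.X.MP_e6f638_al.F
import Pool.Agent.Lib.MP_551055_al.Trim.X.MP_e6f638_al.GDefs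
import Pool.Agent.Lib.MP_551055_al.Trim.X.MP_e6f638_al.I1
import Pool.Agent.Lib.MP_551055_al.Trim.X.MP_e6f638_al.I2
import Pool.Agent.Lib.MP_551055_al.Trim.X.MP_e6f638_al.Stmts

/-!
# The mixed case: removal of a generator, and the induction
-/

set_option autoImplicit false

namespace Pool.Agent.Lib.MP_551055_al
end Pool.Agent.Lib.MP_551055_al

namespace Pool.Agent.Lib.MP_e6f638_al
end Pool.Agent.Lib.MP_e6f638_al

namespace Pool.Agent.Lib.MP_551055_al.LS
end Pool.Agent.Lib.MP_551055_al.LS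

namespace Pool.Agent.Lib.MP_551055_al.RI
end Pool.Agent.Lib.MP_551055_al.RI

namespace Pool.Agent.Lib.MP_551055_al.N4
end Pool.Agent.Lib.MP_551055_al.N4

namespace Pool.Agent.Lib.MP_551055_al.N5

open Pool.Agent.Lib.MP_551055_al

open Pool.Agent.Lib.MP_e6f638_al (Dat EA gen par rho del IsDatOf IsAxis retr incl liftEA liftEA_gen hom_ext_EA gen_rel gen_injective closure_gen)

open Pool.Agent.Lib.MP_551055_al.LS (TreeAct ZN)

open Pool.Agent.Lib.MP_551055_al.RI

open Pool.Agent.Lib.MP_551055_al.N4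

open Multiplicative

/-- The mixed rule: the vertex `u` has a label four and no label six, and it is in no triple with
labels `4, 4, 2`. -/
theorem mixedL {P : ∀ (G : Type) [Group G], Prop} (hP : Rules P) (S : Type) [Finite S]
    (l : S → S → ℕ) (hl : ∀ s t, l s t = l t s) (u : S)
    (hno : Pool.Agent.Lib.MP_551055_al.EA.Loc1 l u)
    (h3 : ∀ s, s ≠ u → l u s ≠ 3) (a : S) (ha : a ≠ u) (hla : l u a = 2)
    (hG : P (EA (del l u))) (l' : S → S → ℕ) (h1 : ∀ s t, s ≠ u → t ≠ u → l' s t = l s t)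
    (h2 : ∀ s, l' u s = if 3 ≤ l u s then 0 else l u s) (hl' : ∀ s t, l' s t = l' t s)
    (hL : P (EA l')) : P (EA l) := by
  obtain ⟨D, hD, i, hi1, hi2, hExt⟩ := Pool.Agent.Lib.MP_e6f638_al.stI2 S l hl u
    ⟨⟨a, ha⟩, by change l u a ≠ 1; omega⟩
  obtain ⟨k, hk⟩ := hD.surj ⟨a, ha⟩ (by change 2 ≤ l u a; omega)
  have hlk : D.l k = 2 := by
    obtain ⟨s, hs, hls⟩ := hD.t k
    have h4 : s = ⟨a, ha⟩ := gen_injective _ (hs.symm.trans hk)
    rw [← hls, h4]
    exact hla
  have hM : Mix D k := stA5L l hl u hno h3 D hD k hlk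
  have hW := stW5 _ D k hM
  have hLoc := stL5 _ D k hM hW
  have hS1 := stS1M _ D k hM hW hLoc
  have hS2 := stS2M _ D k hM hW hLoc
  have hfin := Art4.finite_ι hD
  obtain ⟨j, hj⟩ := stPE S l hl u D hD l' h1 h2 hl'
  obtain ⟨L', _, th, T', X', π, hPL', hLift⟩ := stLG5 P hP _ D k hfin hM hW hS1 (EA l') j
    (gen l' u) hL hj D.isPhi_phi hW.inj
  have hOm := stO5 P hP _ D D.isPhi_phi hW.inj L' th T' X' π hLift hG hPL' (EA (del l u))
    (rhoO D D.isPhi_phi hW.inj) hG (fun q hq e he h5 h6 => by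
      refine hS2 q hq (D.phi e) ⟨e, rfl⟩ (fun h7 => he (hW.inj (by rw [h7, map_one]))) ?_ h6
      rw [rhoO_oQ] at h5
      exact h5)
  obtain ⟨ψ, _, _, hψ⟩ := D.exists_psi D.isPhi_phi hW.inj hExt
  exact hP.lift _ _ ψ (lift_of_injective ψ hψ) hOm

/-- All labels are four. -/
def StKm : Prop :=
  ∀ (P : ∀ (G : Type) [Group G], Prop), Rules P → ∀ (S : Type) [Finite S] (l : S → S → ℕ),
    (∀ s t, l s t = l t s) → (∀ s t, s ≠ t → l s t = 2) → ∀ u : S, P (EA (del l u)) → P (EA l)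

/-- The labels at `u` which are at least three are replaced by infinity. -/
noncomputable def cutL {S : Type} (l : S → S → ℕ) (u : S) : S → S → ℕ :=
  open Classical in fun s t =>
    if s = u then (if 3 ≤ l u t then 0 else l u t)
    else if t = u then (if 3 ≤ l u s then 0 else l u s) else l s t

section

variable {S : Type} (l : S → S → ℕ) (u : S)

theorem cutL_ne {s t : S} (hs : s ≠ u) (ht : t ≠ u) : cutL l u s t = l s t := by
  rw [cutL, if_neg hs, if_neg ht]

theorem cutL_u (s : S) : cutL l u u s = if 3 ≤ l u s then 0 else l u s := by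
  rw [cutL, if_pos rfl]

theorem cutL_symm (hl : ∀ s t, l s t = l t s) (s t : S) : cutL l u s t = cutL l u t s := by
  by_cases hs : s = u
  · by_cases ht : t = u
    · rw [hs, ht]
    · rw [cutL, cutL, if_pos hs, if_neg ht, if_pos hs]
  · by_cases ht : t = u
    · rw [cutL, cutL, if_neg hs, if_pos ht, if_pos ht]
    · rw [cutL_ne l u hs ht, cutL_ne l u ht hs, hl]

theorem cutL_cases (hl : ∀ s t, l s t = l t s) (s t : S) :
    cutL l u s t = 0 ∨ cutL l u s t = l s t := by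
  by_cases hs : s = u
  · subst hs
    rw [cutL_u]
    split_ifs <;> simp
  · by_cases ht : t = u
    · subst ht
      rw [cutL_symm l t hl, cutL_u, hl s t]
      split_ifs <;> simp
    · exact Or.inr (cutL_ne l u hs ht)

end

end Pool.Agent.Lib.MP_551055_al.N5
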