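import Mathlib
import Pool.Agent.Lib.MP_551055_al.Trim.LS.BassProj
import Pool.Agent.Lib.MP_551055_al.Trim.LS.Ray
import Pool.Agent.Lib.MP_551055_al.Trim.LS.Stmts
import Pool.Agent.Lib.MP_551055_al.Trim.LS.TreeB
import Pool.Agent.Lib.MP_551055_al.Trim.MT.Defs
import Pool.Agent.Lib.MP_551055_al.Trim.N4.Stmts
import Pool.Agent.Lib.MP_551055_al.Trim.N5.Base_17
import Pool.Agent.Lib.MP_551055_al.Trim.N5.Stmts
import Pool.Agent.Lib.MP_551055_al.Trim.N5.StmtsK28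
import Pool.Agent.Lib.MP_551055_al.Trim.RI.Stmts
import Pool.Agent.Lib.MP_551055_al.Trim.X.MP_e6f638_al.GDefs
import Pool.Agent.Lib.MP_551055_al.Trim.X.MP_e6f638_al.Stmts

/-!
# All labels four: basic facts
-/

set_option autoImplicit false

namespace Pool.Agent.Lib.MP_551055_al
end Pool.Agent.Lib.MP_551055_al

namespace Pool.Agent.Lib.MP_e6f638_al
end Pool.Agent.Lib.MP_e6f638_al

namespace Pool.Agent.Lib.MP_551055_al.LS
end Pool.Agent.Lib.MP_551055_al.LS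

namespace Pool.Agent.Lib.MP_551055_al.N4
end Pool.Agent.Lib.MP_551055_al.N4

namespace Pool.Agent.Lib.MP_551055_al.N5
end Pool.Agent.Lib.MP_551055_al.N5

namespace Pool.Agent.Lib.MP_551055_al.N5K

open Pool.Agent.Lib.MP_551055_al

open Pool.Agent.Lib.MP_e6f638_al (Dat)

open Pool.Agent.Lib.MP_551055_al.LS (TreeAct)

open Pool.Agent.Lib.MP_551055_al.N4

open Pool.Agent.Lib.MP_551055_al.N5 (MM tt_mem mm_h)

open Multiplicative

section

variable {G : Type} [Group G] {D : Dat G} {Γ : Type} [Group Γ] {j : G →* Γ} {z : D.ι → Γ}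

/-! ### Homomorphisms of `Γ` -/

theorem ZExt.hom_ext (hZ : ZExt D Γ j z) {K : Type} [Group K] {F F' : Γ →* K}
    (h1 : ∀ g, F (j g) = F' (j g)) (h2 : ∀ i, F (z i) = F' (z i)) : F = F' := by
  refine MonoidHom.eq_of_eqOn_dense hZ.gen ?_
  rintro y (⟨g, rfl⟩ | ⟨i, rfl⟩)
  · exact h1 g
  · exact h2 i

theorem ZExt.exists_kap (hZ : ZExt D Γ j z) : ∃ κ : Γ →* G,
    (∀ g, κ (j g) = g) ∧ ∀ i, κ (z i) = 1 := by
  obtain ⟨F, h1, h2⟩ := hZ.lift G (MonoidHom.id G) (fun _ => 1) (fun i => Commute.one_left _)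
  exact ⟨F, fun g => DFunLike.congr_fun h1 g, h2⟩

/-- The retraction of `Γ` onto `G` which kills the `z i`. -/
noncomputable def ZExt.kap (hZ : ZExt D Γ j z) : Γ →* G := hZ.exists_kap.choose

theorem ZExt.kap_j (hZ : ZExt D Γ j z) (g : G) : hZ.kap (j g) = g :=
  hZ.exists_kap.choose_spec.1 g

theorem ZExt.kap_z (hZ : ZExt D Γ j z) (i : D.ι) : hZ.kap (z i) = 1 :=
  hZ.exists_kap.choose_spec.2 i

/-! ### The group `MM` -/

theorem h_zpow (i : D.ι) (n : ℤ) : D.h (D.t i ^ n) = ofAdd n := by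
  rw [map_zpow, D.h_t, ← ofAdd_zsmul, smul_eq_mul, mul_one]

theorem zpow_h {i : D.ι} {x : G} (hx : x ∈ Subgroup.zpowers (D.t i)) {n : ℤ}
    (h : D.h x = ofAdd n) : x = D.t i ^ n := by
  obtain ⟨k, rfl⟩ := Subgroup.mem_zpowers_iff.1 hx
  rw [h_zpow] at h
  rw [ofAdd.injective h]

theorem tt_mm (hl : ∀ i, D.l i = 2) (i i' : D.ι) : D.t i * (D.t i')⁻¹ ∈ MM D := by
  have h := tt_mem (hl i) (hl i') (one_mem D.B)
  rwa [mul_one] at h

/-- `t i m (t i')⁻¹` in `MM` for some `i`, `i'` only if `m = 1`. -/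
theorem Four.mmt {a : D.ι} (hF : Four D a) (i i' : D.ι) {m : G} (hm : m ∈ MM D)
    (h : D.t i * m * (D.t i')⁻¹ ∈ MM D) : m = 1 := by
  refine hF.mm m hm ?_
  have h1 := mul_mem (mul_mem (tt_mm hF.l a i) h) (tt_mm hF.l i' a)
  have h2 : D.t a * (D.t i)⁻¹ * (D.t i * m * (D.t i')⁻¹) * (D.t i' * (D.t a)⁻¹) =
      D.t a * m * (D.t a)⁻¹ := by group
  rwa [h2] at h1

/-! ### The groups `DD` and `ZZ` -/

theorem DD_m {m : G} (hm : m ∈ MM D) : j m ∈ DD D j z :=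
  Subgroup.subset_closure (Or.inl ⟨m, hm, rfl⟩)

theorem DD_z (i : D.ι) : z i ∈ DD D j z := Subgroup.subset_closure (Or.inr ⟨i, rfl⟩)

theorem ZZ_z (i : D.ι) : z i ∈ ZZ D z := Subgroup.subset_closure ⟨i, rfl⟩

theorem ZExt.kap_DD (hZ : ZExt D Γ j z) {y : Γ} (hy : y ∈ DD D j z) : hZ.kap y ∈ MM D := by
  have h : DD D j z ≤ (MM D).comap hZ.kap := by
    rw [DD, Subgroup.closure_le]
    rintro _ (⟨m, hm, rfl⟩ | ⟨i, rfl⟩)
    · rw [SetLike.mem_coe, Subgroup.mem_comap, hZ.kap_j]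
      exact hm
    · rw [SetLike.mem_coe, Subgroup.mem_comap, hZ.kap_z]
      exact one_mem _
  exact h hy

theorem ZExt.DD_j (hZ : ZExt D Γ j z) {g : G} : j g ∈ DD D j z ↔ g ∈ MM D := by
  refine ⟨fun h => ?_, DD_m⟩
  have h1 := hZ.kap_DD h
  rwa [hZ.kap_j] at h1

/-- `t i z i = z i t i`. -/
theorem ZExt.tz (hZ : ZExt D Γ j z) (i : D.ι) (n k : ℤ) :
    j (D.t i) ^ n * z i ^ k = z i ^ k * j (D.t i) ^ n :=
  ((hZ.comm i).symm.zpow_zpow n k).eq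

theorem ZExt.conj_z (hZ : ZExt D Γ j z) (a i : D.ι) (n : ℤ) :
    j (D.t a) * z i ^ n * (j (D.t a))⁻¹ =
      j (D.t a * (D.t i)⁻¹) * z i ^ n * (j (D.t a * (D.t i)⁻¹))⁻¹ := by
  have h1 := hZ.tz i (-1) n
  rw [zpow_neg_one] at h1
  rw [map_mul, map_inv, mul_inv_rev, inv_inv]
  calc j (D.t a) * z i ^ n * (j (D.t a))⁻¹
      = j (D.t a) * (z i ^ n * (j (D.t i))⁻¹) * (j (D.t i) * (j (D.t a))⁻¹) := by group
    _ = _ := by rw [← h1]; group

/-- The conjugate of `ZZ` by `t a` is contained in `DD`. -/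
theorem ZExt.conj_ZZ (hZ : ZExt D Γ j z) (hl : ∀ i, D.l i = 2) (a : D.ι) {y : Γ}
    (hy : y ∈ ZZ D z) : j (D.t a) * y * (j (D.t a))⁻¹ ∈ DD D j z := by
  have h : ZZ D z ≤ (DD D j z).comap (MulAut.conj (j (D.t a))).toMonoidHom := by
    rw [ZZ, Subgroup.closure_le]
    rintro _ ⟨i, rfl⟩
    change j (D.t a) * z i * (j (D.t a))⁻¹ ∈ DD D j z
    have h1 := hZ.conj_z a i 1
    rw [zpow_one] at h1
    rw [h1]
    have h2 : j (D.t a * (D.t i)⁻¹) ∈ DD D j z := DD_m (tt_mm hl a i)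
    exact mul_mem (mul_mem h2 (DD_z i)) (inv_mem h2)
  exact h hy

/-! ### The tree -/

variable {V : Type} [MulAction Γ V] {T : SimpleGraph V} {v₀ : V}

variable (D j z v₀) in
/-- The graph of `DD`: the translates of the edges from `v₀` to `z i v₀`. -/
def HD : SimpleGraph V where
  Adj v w := v ≠ w ∧ ∃ d ∈ DD D j z, ∃ i : D.ι, (v = d • v₀ ∧ w = (d * z i) • v₀) ∨
    (w = d • v₀ ∧ v = (d * z i) • v₀)
  symm := ⟨by
    rintro v w ⟨hne, d, hd, i, h | h⟩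
    · exact ⟨hne.symm, d, hd, i, Or.inr h⟩
    · exact ⟨hne.symm, d, hd, i, Or.inl h⟩⟩
  loopless := ⟨fun v h => h.1 rfl⟩

theorem ZTree.adj_z (hT : ZTree D j z V T v₀) (i : D.ι) : T.Adj v₀ (z i • v₀) := by
  rw [hT.adj]
  refine ⟨1, i, 1, ?_⟩
  rw [map_one, one_mul, Units.val_one, zpow_one]

theorem ZTree.j_v (hT : ZTree D j z V T v₀) (g : G) : j g • v₀ = v₀ :=
  (hT.stab _).2 ⟨g, rfl⟩

theorem ZTree.HD_le (hT : ZTree D j z V T v₀) : HD D j z v₀ ≤ T := by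
  rintro v w ⟨_, d, _, i, ⟨rfl, rfl⟩ | ⟨rfl, rfl⟩⟩
  · rw [mul_smul]
    exact hT.act.adj d _ _ (hT.adj_z i)
  · rw [mul_smul]
    exact (hT.act.adj d _ _ (hT.adj_z i)).symm

theorem HD_smul {d : Γ} (hd : d ∈ DD D j z) {v w : V} (h : (HD D j z v₀).Adj v w) :
    (HD D j z v₀).Adj (d • v) (d • w) := by
  obtain ⟨hne, d', hd', i, ⟨rfl, rfl⟩ | ⟨rfl, rfl⟩⟩ := h
  · refine ⟨fun h => hne (MulAction.injective d h), d * d', mul_mem hd hd', i, Or.inl ⟨?_, ?_⟩⟩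
    · rw [mul_smul]
    · rw [mul_assoc, mul_smul d]
  · refine ⟨fun h => hne (MulAction.injective d h), d * d', mul_mem hd hd', i, Or.inr ⟨?_, ?_⟩⟩
    · rw [mul_smul]
    · rw [mul_assoc, mul_smul d]

/-- Reachability is preserved by maps of graphs. -/
theorem reach_smul {H H' : SimpleGraph V} (g : Γ)
    (hg : ∀ v w, H.Adj v w → H'.Adj (g • v) (g • w)) {v w : V} (h : H.Reachable v w) :
    H'.Reachable (g • v) (g • w) := by
  obtain ⟨p⟩ := h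
  induction p with
  | nil => exact SimpleGraph.Reachable.refl _
  | cons h _ ih => exact (hg _ _ h).reachable.trans ih

theorem ZTree.HD_z (hT : ZTree D j z V T v₀) {d : Γ} (hd : d ∈ DD D j z) (i : D.ι) :
    (HD D j z v₀).Adj (d • v₀) ((d * z i) • v₀) := by
  refine ⟨fun h => ?_, d, hd, i, Or.inl ⟨rfl, rfl⟩⟩
  rw [mul_smul] at h
  exact (hT.adj_z i).ne (MulAction.injective d h)

theorem ZTree.HD_reach (hT : ZTree D j z V T v₀) {d : Γ} (hd : d ∈ DD D j z) :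
    (HD D j z v₀).Reachable v₀ (d • v₀) := by
  induction hd using Subgroup.closure_induction with
  | mem x hx =>
    rcases hx with ⟨m, _, rfl⟩ | ⟨i, rfl⟩
    · rw [hT.j_v]
    · have h := hT.HD_z (one_mem (DD D j z)) i
      rw [one_smul, one_mul] at h
      exact h.reachable
  | one => rw [one_smul]
  | mul x y hx _ h1 h2 =>
    rw [mul_smul]
    exact h1.trans (reach_smul x (fun v w h => HD_smul hx h) h2)
  | inv x hx h1 =>
    have h2 := reach_smul x⁻¹ (fun v w h => HD_smul (inv_mem hx) h) h1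
    rw [inv_smul_smul] at h2
    exact h2.symm

/-- The `HD` neighbours of the base vertex. -/
theorem ZTree.HD_nbr (hT : ZTree D j z V T v₀) (hZ : ZExt D Γ j z) {w : V}
    (h : (HD D j z v₀).Adj v₀ w) :
    ∃ m ∈ MM D, ∃ (i : D.ι) (ε : ℤˣ), w = (j m * z i ^ (ε : ℤ)) • v₀ := by
  obtain ⟨_, d, hd, i, ⟨h1, rfl⟩ | ⟨rfl, h1⟩⟩ := h
  · obtain ⟨m, rfl⟩ := (hT.stab d).1 h1.symm
    refine ⟨m, hZ.DD_j.1 hd, i, 1, ?_⟩
    rw [Units.val_one, zpow_one]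
  · obtain ⟨m, hm⟩ := (hT.stab _).1 h1.symm
    refine ⟨m, hZ.DD_j.1 ?_, i, -1, ?_⟩
    · rw [hm]
      exact mul_mem hd (DD_z i)
    · rw [hm, Units.val_neg, Units.val_one, zpow_neg_one, mul_inv_cancel_right]

/-- The next vertex of a geodesic. -/
theorem ZTree.next (hT : ZTree D j z V T v₀) {b c : V} (h : b ≠ c) :
    ∃ w, T.Adj b w ∧ T.dist b c = T.dist w c + 1 := by
  have hc := hT.act.tree.connected
  obtain ⟨n, hn⟩ : ∃ n, T.dist c b = n + 1 :=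
    ⟨T.dist c b - 1, by have := hc.pos_dist_of_ne h.symm; omega⟩
  obtain ⟨w, h1, h2⟩ := LS.tree_exists_pred hT.act.tree hn
  refine ⟨w, h1.symm, ?_⟩
  rw [SimpleGraph.dist_comm, hn, SimpleGraph.dist_comm, h2]

end

end Pool.Agent.Lib.MP_551055_al.N5K
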