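import Mathlib
import Pool.Agent.Lib.MP_551055_al.Trim.LS.Ray
import Pool.Agent.Lib.MP_551055_al.Trim.LS.Stmts
import Pool.Agent.Lib.MP_551055_al.Trim.MT.Defs
import Pool.Agent.Lib.MP_551055_al.Trim.N4.O_17
import Pool.Agent.Lib.MP_551055_al.Trim.N4.Stmts
import Pool.Agent.Lib.MP_551055_al.Trim.N5.AP_42
import Pool.Agent.Lib.MP_551055_al.Trim.N5.Base_17
import Pool.Agent.Lib.MP_551055_al.Trim.N5.Stmts
import Pool.Agent.Lib.MP_551055_al.Trim.N5.StmtsK28
import Pool.Agent.Lib.MP_551055_al.Trim.RI.HNN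
import Pool.Agent.Lib.MP_551055_al.Trim.RI.Stmts
import Pool.Agent.Lib.MP_551055_al.Trim.X.MP_e6f638_al.F
import Pool.Agent.Lib.MP_551055_al.Trim.X.MP_e6f638_al.GDefs
import Pool.Agent.Lib.MP_551055_al.Trim.X.MP_e6f638_al.Stmts

/-!
# All labels four, module EX: existence of the amalgam
-/

set_option autoImplicit false

namespace Pool.Agent.Lib.MP_551055_al
end Pool.Agent.Lib.MP_551055_al

namespace Pool.Agent.Lib.MP_e6f638_al
end Pool.Agent.Lib.MP_e6f638_al

namespace Pool.Agent.Lib.MP_551055_al.RI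
end Pool.Agent.Lib.MP_551055_al.RI

namespace Pool.Agent.Lib.MP_551055_al.N4
end Pool.Agent.Lib.MP_551055_al.N4

namespace Pool.Agent.Lib.MP_551055_al.N5
end Pool.Agent.Lib.MP_551055_al.N5

namespace Pool.Agent.Lib.MP_551055_al.N5K.EX

open Pool.Agent.Lib.MP_551055_al

open Pool.Agent.Lib.MP_e6f638_al (Dat)

open Pool.Agent.Lib.MP_551055_al.RI (BTree hB)

open Pool.Agent.Lib.MP_551055_al.N4

open Pool.Agent.Lib.MP_551055_al.N5 (MM kk mm_h kk_mem kk_h xx xi_eq kk_self mm_hom)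

open Multiplicative

/-! ## The group `Γ` -/

section gamma

variable {G : Type} [Group G] (D : Dat G)

/-- The relators. -/
def rels : Set (Monoid.Coprod G (FreeGroup D.ι)) :=
  {r | ∃ i : D.ι, r = Monoid.Coprod.inr (FreeGroup.of i) * Monoid.Coprod.inl (D.t i) *
      (Monoid.Coprod.inr (FreeGroup.of i))⁻¹ * (Monoid.Coprod.inl (D.t i))⁻¹}

/-- The group `Γ`. -/
abbrev Gam : Type := Monoid.Coprod G (FreeGroup D.ι) ⧸ Subgroup.normalClosure (rels D)

/-- `G` in `Γ`. -/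
def gj : G →* Gam D :=
  (QuotientGroup.mk' (Subgroup.normalClosure (rels D))).comp Monoid.Coprod.inl

/-- The letters `z i`. -/
def gz (i : D.ι) : Gam D :=
  QuotientGroup.mk' (Subgroup.normalClosure (rels D)) (Monoid.Coprod.inr (FreeGroup.of i))

theorem gam_ext : ZExt D (Gam D) (gj D) (gz D) where
  comm i := by
    have h1 : QuotientGroup.mk' (Subgroup.normalClosure (rels D))
        (Monoid.Coprod.inr (FreeGroup.of i) * Monoid.Coprod.inl (D.t i) *
        (Monoid.Coprod.inr (FreeGroup.of i))⁻¹ * (Monoid.Coprod.inl (D.t i))⁻¹) = 1 :=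
      (QuotientGroup.eq_one_iff _).2 (Subgroup.subset_normalClosure ⟨i, rfl⟩)
    simp only [map_mul, map_inv] at h1
    have h2 : gz D i * gj D (D.t i) * (gz D i)⁻¹ * (gj D (D.t i))⁻¹ = 1 := h1
    rw [mul_inv_eq_one, mul_inv_eq_iff_eq_mul] at h2
    exact h2
  gen := by
    rw [eq_top_iff]
    rintro y -
    obtain ⟨c, rfl⟩ := QuotientGroup.mk'_surjective (Subgroup.normalClosure (rels D)) y
    induction c using Monoid.Coprod.induction_on with
    | inl g => exact Subgroup.subset_closure (Or.inl ⟨g, rfl⟩)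
    | inr f =>
      have h1 : (⊤ : Subgroup (FreeGroup D.ι)) ≤ (Subgroup.closure (Set.range (gj D) ∪
          Set.range (gz D))).comap ((QuotientGroup.mk' (Subgroup.normalClosure (rels D))).comp
            Monoid.Coprod.inr) := by
        rw [← FreeGroup.closure_range_of, Subgroup.closure_le]
        rintro _ ⟨i, rfl⟩
        exact Subgroup.subset_closure (Or.inr ⟨i, rfl⟩)
      exact h1 (Subgroup.mem_top f)
    | mul x y hx hy =>
      rw [map_mul]
      exact mul_mem hx hy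
  lift K _ f z' hz := by
    refine ⟨QuotientGroup.lift (Subgroup.normalClosure (rels D))
      (Monoid.Coprod.lift f (FreeGroup.lift z')) ?_, ?_, ?_⟩
    · refine Subgroup.normalClosure_le_normal ?_
      rintro r ⟨i, rfl⟩
      simp only [SetLike.mem_coe, MonoidHom.mem_ker, map_mul, map_inv,
        Monoid.Coprod.lift_apply_inl, Monoid.Coprod.lift_apply_inr, FreeGroup.lift_apply_of]
      rw [(hz i).eq]
      group
    · ext g
      simp [gj]
    · intro i
      simp [gz]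

end gamma

/-! ## The maps of `DD` -/

section dd

variable {G : Type} [Group G] {D : Dat G} {a : D.ι} (hF : Four D a)
  {Γ : Type} [Group Γ] {j : G →* Γ} {z : D.ι → Γ} (hZ : ZExt D Γ j z)

include hF in
theorem B_eq {b : G} (hb : b ∈ D.B) : b = 1 := by
  rw [hF.B, Subgroup.mem_bot] at hb
  exact hb

include hF in
theorem phi_inj : Function.Injective D.phi := by
  obtain ⟨φ, h1, h2, _⟩ := Pool.Agent.Lib.MP_e6f638_al.stF G D hF.w
  have h3 : D.phi = φ := Dat.IsPhi.unique D.isPhi_phi h1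
  rw [h3]
  exact h2

include hF in
theorem hcomm (j : G →* Γ) (z : D.ι → Γ) :
    ∀ i, ∀ b ∈ D.B, Commute b (D.t i) → Commute (z i) (j b) := by
  intro i b hb _
  rw [B_eq hF hb, map_one]
  exact Commute.one_right _

include hZ in
theorem th_inj : Function.Injective (th D j z (hcomm hF j z)) := by
  obtain ⟨π, p1, p2⟩ := hZ.lift (D.Om D.isPhi_phi (phi_inj hF)) (D.psiG D.isPhi_phi (phi_inj hF))
    (fun i => D.oQ D.isPhi_phi (phi_inj hF) (D.phiQ D.isPhi_phi (D.z i))) (by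
      intro i
      have h5 := D.psi_rel D.isPhi_phi (phi_inj hF) i
      rw [D.psi_pow D.isPhi_phi (phi_inj hF)] at h5
      exact h5)
  have hπ := pi_th D D.isPhi_phi (phi_inj hF) j z (hcomm hF j z) π p1 p2
  intro e e' he
  have h1 := congrArg π he
  rw [hπ, hπ] at h1
  exact D.phiQ_inj D.isPhi_phi (phi_inj hF) (oQ_inj D D.isPhi_phi (phi_inj hF) h1)

theorem DD_le : DD D j z ≤ (th D j z (hcomm hF j z)).range := by
  rw [DD, Subgroup.closure_le]
  rintro _ (⟨m, hm, rfl⟩ | ⟨i, rfl⟩)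
  · exact ⟨D.inE ⟨m, mm_h hm⟩, th_inE D j z _ ⟨m, mm_h hm⟩⟩
  · exact ⟨D.z i, th_z D j z _ i⟩

theorem j_mem {m : G} (hm : m ∈ MM D) : j m ∈ DD D j z :=
  Subgroup.subset_closure (Or.inl ⟨m, hm, rfl⟩)

theorem z_mem (i : D.ι) : z i ∈ DD D j z := Subgroup.subset_closure (Or.inr ⟨i, rfl⟩)

/-- The map of `DD` to `Ah`. -/
noncomputable def thet : DD D j z →* D.Ah :=
  (D.phi.comp (MonoidHom.ofInjective (th_inj hF hZ)).symm.toMonoidHom).comp
    (Subgroup.inclusion (DD_le hF))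

theorem thet_eq {y : Γ} (hy : y ∈ DD D j z) {e : D.E} (he : th D j z (hcomm hF j z) e = y) :
    thet hF hZ ⟨y, hy⟩ = D.phi e := by
  subst he
  change D.phi ((MonoidHom.ofInjective (th_inj hF hZ)).symm ⟨th D j z (hcomm hF j z) e, _⟩) = _
  congr 1
  rw [MulEquiv.symm_apply_eq]
  rfl

theorem thet_j {m : G} (hm : m ∈ MM D) :
    thet hF hZ ⟨j m, j_mem hm⟩ = D.ofG m := by
  have h1 := thet_eq hF hZ (j_mem hm) (e := D.inE ⟨m, mm_h hm⟩)
    (th_inE D j z (hcomm hF j z) ⟨m, mm_h hm⟩)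
  rw [h1, D.isPhi_phi.1]

theorem thet_z (i : D.ι) :
    thet hF hZ ⟨z i, z_mem i⟩ = xi D i ^ 2 := by
  have h1 := thet_eq hF hZ (z_mem i) (e := D.z i) (th_z D j z (hcomm hF j z) i)
  rw [h1, D.isPhi_phi.2, hF.l]
  rfl

theorem thet_inj : Function.Injective (thet hF hZ) := by
  intro y y' h
  have h1 := phi_inj hF h
  have h2 := (MonoidHom.ofInjective (th_inj hF hZ)).symm.injective h1
  exact Subgroup.inclusion_injective _ h2

/-- Elements of `j G` in `DD`. -/
theorem thet_jg {g : G} (hg : j g ∈ DD D j z) : thet hF hZ ⟨j g, hg⟩ = D.ofG g := by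
  obtain ⟨hh, q1, q2⟩ := hZ.lift (Multiplicative ℤ) D.h (fun _ => 1) (fun _ => Commute.one_left _)
  have h1 : D.h g = 1 := by
    have h2 : DD D j z ≤ hh.ker := by
      rw [DD, Subgroup.closure_le]
      rintro _ (⟨m, hm, rfl⟩ | ⟨i, rfl⟩)
      · have h3 := DFunLike.congr_fun q1 m
        rw [MonoidHom.comp_apply] at h3
        rw [SetLike.mem_coe, MonoidHom.mem_ker, h3, mm_h hm]
      · exact q2 i
    have h3 := h2 hg
    have h4 := DFunLike.congr_fun q1 g
    rw [MonoidHom.comp_apply] at h4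
    rwa [MonoidHom.mem_ker, h4] at h3
  have h2 := thet_eq hF hZ hg (e := D.inE ⟨g, h1⟩) (th_inE D j z (hcomm hF j z) ⟨g, h1⟩)
  rw [h2, D.isPhi_phi.1]

/-- Homomorphisms which agree on `DD`. -/
theorem dd_hom {K : Type} [Group K] {f : Γ →* K} {f' : D.Ah →* K}
    (h1 : ∀ m ∈ MM D, f (j m) = f' (D.ofG m)) (h2 : ∀ i, f (z i) = f' (xi D i ^ 2))
    (y : DD D j z) : f y = f' (thet hF hZ y) := by
  obtain ⟨y, hy⟩ := y
  induction hy using Subgroup.closure_induction with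
  | mem y hy =>
    rcases hy with ⟨m, hm, rfl⟩ | ⟨i, rfl⟩
    · rw [thet_j hF hZ hm]
      exact h1 m hm
    · rw [thet_z hF hZ i]
      exact h2 i
  | one =>
    have h3 : (⟨1, one_mem _⟩ : DD D j z) = 1 := rfl
    rw [h3, map_one, map_one]
    exact map_one f
  | mul x y hx hy ihx ihy =>
    have h3 : (⟨x * y, mul_mem hx hy⟩ : DD D j z) = ⟨x, hx⟩ * ⟨y, hy⟩ := rfl
    change f (x * y) = _
    rw [h3, map_mul, map_mul, map_mul, ← ihx, ← ihy]
  | inv x hx ih =>
    have h3 : (⟨x⁻¹, inv_mem hx⟩ : DD D j z) = (⟨x, hx⟩ : DD D j z)⁻¹ := rfl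
    change f x⁻¹ = _
    rw [h3, map_inv, map_inv, map_inv, ← ih]

end dd

/-! ## The group `R` -/

section rr

variable {G : Type} [Group G] (D : Dat G) {a : D.ι} (hF : Four D a)

/-- The group `R`. -/
noncomputable def RX : Subgroup D.Ah := Subgroup.closure (Set.range (xi D))

/-- The group `DD` in `Ah`. -/
noncomputable def DR : Subgroup D.Ah :=
  Subgroup.closure (D.ofG '' (MM D : Set G) ∪ Set.range fun i => xi D i ^ 2)

variable {D}

include hF in
/-- The generators of `MM`. -/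
theorem mm_le {K : Type} [Group K] (f : G →* K) (S : Subgroup K)
    (h : ∀ i k, f (D.t i * (D.t k)⁻¹) ∈ S) {m : G} (hm : m ∈ MM D) : f m ∈ S := by
  have h1 : MM D ≤ S.comap f := by
    rw [MM, Subgroup.closure_le]
    rintro x (hx | ⟨i, k, b, _, _, hb, rfl⟩)
    · rw [SetLike.mem_coe, Subgroup.mem_comap, B_eq hF hx, map_one]
      exact one_mem _
    · rw [SetLike.mem_coe, Subgroup.mem_comap, B_eq hF hb, mul_one]
      exact h i k
  exact h1 hm

theorem DR_m {m : G} (hm : m ∈ MM D) : D.ofG m ∈ DR D :=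
  Subgroup.subset_closure (Or.inl ⟨m, hm, rfl⟩)

theorem DR_x (i : D.ι) : xi D i ^ 2 ∈ DR D := Subgroup.subset_closure (Or.inr ⟨i, rfl⟩)

include hF in
theorem DR_k (i k : D.ι) : D.ofG (kk D i k) ∈ DR D := DR_m (kk_mem (hF.l i) (hF.l k))

theorem xi_RX (i : D.ι) : xi D i ∈ RX D := Subgroup.subset_closure ⟨i, rfl⟩

include hF in
theorem DR_le : DR D ≤ RX D := by
  rw [DR, Subgroup.closure_le]
  rintro _ (⟨m, hm, rfl⟩ | ⟨i, rfl⟩)
  · refine mm_le hF D.ofG (RX D) (fun i k => ?_) hm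
    have h1 := xx (D := D) i k
    rw [kk] at h1
    rw [← h1]
    exact mul_mem (xi_RX i) (inv_mem (xi_RX k))
  · exact pow_mem (xi_RX i) 2

include hF in
theorem xx_mem (i k : D.ι) : xi D i * xi D k ∈ DR D := by
  rw [xi_eq i k, mul_assoc, ← pow_two]
  exact mul_mem (DR_k hF i k) (DR_x k)

include hF in
/-- Conjugation by `x i`. -/
theorem DR_conj (i : D.ι) {c : D.Ah} (hc : c ∈ DR D) : xi D i * c * (xi D i)⁻¹ ∈ DR D := by
  have h1 : DR D ≤ (DR D).comap (MulAut.conj (xi D i)).toMonoidHom := by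
    rw [DR, Subgroup.closure_le]
    rintro _ (⟨m, hm, rfl⟩ | ⟨k, rfl⟩)
    · refine mm_le hF ((MulAut.conj (xi D i)).toMonoidHom.comp D.ofG) (DR D)
        (fun i' k => ?_) hm
      have h2 := xx (D := D) i' k
      rw [kk] at h2
      change xi D i * D.ofG (D.t i' * (D.t k)⁻¹) * (xi D i)⁻¹ ∈ DR D
      rw [← h2]
      have h3 : xi D i * (xi D i' * (xi D k)⁻¹) * (xi D i)⁻¹ =
          (xi D i * xi D i') * (xi D i * xi D k)⁻¹ := by group
      rw [h3]
      exact mul_mem (xx_mem hF i i') (inv_mem (xx_mem hF i k))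
    · change xi D i * xi D k ^ 2 * (xi D i)⁻¹ ∈ DR D
      have h3 : xi D i * xi D k ^ 2 * (xi D i)⁻¹ =
          D.ofG (kk D i k) * xi D k ^ 2 * (D.ofG (kk D i k))⁻¹ := by
        rw [xi_eq i k]
        group
      rw [h3]
      exact mul_mem (mul_mem (DR_k hF i k) (DR_x k)) (inv_mem (DR_k hF i k))
  exact h1 hc

include hF in
theorem DR_conj' (i : D.ι) {c : D.Ah} (hc : c ∈ DR D) : (xi D i)⁻¹ * c * xi D i ∈ DR D := by
  have h1 : (xi D i)⁻¹ * c * xi D i =
      (xi D i ^ 2)⁻¹ * (xi D i * c * (xi D i)⁻¹) * xi D i ^ 2 := by group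
  rw [h1]
  exact mul_mem (mul_mem (inv_mem (DR_x i)) (DR_conj hF i hc)) (DR_x i)

include hF in
theorem RX_two {r : D.Ah} (hr : r ∈ RX D) : r ∈ DR D ∨ ∃ c ∈ DR D, r = c * xi D a := by
  have hm : ∀ {c c' : D.Ah}, c ∈ DR D → c' ∈ DR D → c * xi D a * c' = c * (xi D a * c' *
      (xi D a)⁻¹) * xi D a := by
    intro c c' _ _
    group
  induction hr using Subgroup.closure_induction with
  | mem y hy =>
    obtain ⟨i, rfl⟩ := hy
    exact Or.inr ⟨_, DR_k hF i a, xi_eq i a⟩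
  | one => exact Or.inl (one_mem _)
  | mul x y hx hy ihx ihy =>
    rcases ihx with ihx | ⟨c, hc, rfl⟩ <;> rcases ihy with ihy | ⟨c', hc', rfl⟩
    · exact Or.inl (mul_mem ihx ihy)
    · exact Or.inr ⟨x * c', mul_mem ihx hc', (mul_assoc x c' (xi D a)).symm⟩
    · exact Or.inr ⟨c * (xi D a * y * (xi D a)⁻¹), mul_mem hc (DR_conj hF a ihy), hm hc ihy⟩
    · refine Or.inl ?_
      have h3 : c * xi D a * (c' * xi D a) =
          c * (xi D a * c' * (xi D a)⁻¹) * xi D a ^ 2 := by group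
      rw [h3]
      exact mul_mem (mul_mem hc (DR_conj hF a hc')) (DR_x a)
  | inv x hx ih =>
    rcases ih with ih | ⟨c, hc, rfl⟩
    · exact Or.inl (inv_mem ih)
    · refine Or.inr ⟨(xi D a ^ 2)⁻¹ * (xi D a * c⁻¹ * (xi D a)⁻¹),
        mul_mem (inv_mem (DR_x a)) (DR_conj hF a (inv_mem hc)), ?_⟩
      group

/-- The parity. -/
noncomputable def par2 (D : Dat G) : D.Ah →* Multiplicative (ZMod 2) :=
  HNNExtension.lift 1 (ofAdd 1) (fun b => by simp)

theorem par2_xi (i : D.ι) : par2 D (xi D i) = ofAdd 1 := by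
  rw [xi, map_mul, par2, HNNExtension.lift_of, HNNExtension.lift_t, MonoidHom.one_apply, one_mul]

theorem xi_notMem (i : D.ι) : xi D i ∉ DR D := by
  intro h
  have h1 : DR D ≤ (par2 D).ker := by
    rw [DR, Subgroup.closure_le]
    rintro _ (⟨m, hm, rfl⟩ | ⟨k, rfl⟩)
    · rw [SetLike.mem_coe, MonoidHom.mem_ker, par2, HNNExtension.lift_of, MonoidHom.one_apply]
    · rw [SetLike.mem_coe, MonoidHom.mem_ker, map_pow, par2_xi]
      rfl
  have h2 := h1 h
  rw [MonoidHom.mem_ker, par2_xi] at h2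
  exact absurd (congrArg toAdd h2) (by decide)

end rr

/-! ## The amalgam -/

/-- Two groups. -/
def Gr (Γ R : Type) : Bool → Type
  | true => Γ
  | false => R

instance (Γ R : Type) [Group Γ] [Group R] : ∀ s, Group (Gr Γ R s)
  | true => inferInstanceAs (Group Γ)
  | false => inferInstanceAs (Group R)

/-- Two homomorphisms. -/
def ph {H Γ R : Type} [Group H] [Group Γ] [Group R] (f : H →* Γ) (g : H →* R) :
    ∀ s, H →* Gr Γ R s
  | true => f
  | false => g

/-- Two homomorphisms out of the factors. -/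
def lf {Γ R K : Type} [Group Γ] [Group R] [Group K] (f : Γ →* K) (g : R →* K) :
    ∀ s, Gr Γ R s →* K
  | true => f
  | false => g

section amg

variable {G : Type} [Group G] {D : Dat G} {a : D.ι} (hF : Four D a)
  {Γ : Type} [Group Γ] {j : G →* Γ} {z : D.ι → Γ} (hZ : ZExt D Γ j z)

include hF hZ in
theorem range_thet : (thet hF hZ).range = DR D := by
  apply le_antisymm
  · rintro _ ⟨⟨y, hy⟩, rfl⟩
    induction hy using Subgroup.closure_induction with
    | mem y hy =>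
      rcases hy with ⟨m, hm, rfl⟩ | ⟨i, rfl⟩
      · rw [thet_j hF hZ hm]
        exact DR_m hm
      · rw [thet_z hF hZ i]
        exact DR_x i
    | one =>
      have h3 : (⟨1, one_mem _⟩ : DD D j z) = 1 := rfl
      rw [h3, map_one]
      exact one_mem _
    | mul x y hx hy ihx ihy =>
      have h3 : (⟨x * y, mul_mem hx hy⟩ : DD D j z) = ⟨x, hx⟩ * ⟨y, hy⟩ := rfl
      rw [h3, map_mul]
      exact mul_mem ihx ihy
    | inv x hx ih =>
      have h3 : (⟨x⁻¹, inv_mem hx⟩ : DD D j z) = (⟨x, hx⟩ : DD D j z)⁻¹ := rfl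
      rw [h3, map_inv]
      exact inv_mem ih
  · rw [DR, Subgroup.closure_le]
    rintro _ (⟨m, hm, rfl⟩ | ⟨i, rfl⟩)
    · exact ⟨_, thet_j hF hZ hm⟩
    · exact ⟨_, thet_z hF hZ i⟩

/-- The map of `DD` to `R`. -/
noncomputable def thR : DD D j z →* RX D :=
  (thet hF hZ).codRestrict (RX D) (fun y => DR_le hF (by
    rw [← range_thet hF hZ]
    exact ⟨y, rfl⟩))

theorem thR_coe (y : DD D j z) : (thR hF hZ y : D.Ah) = thet hF hZ y := rfl

theorem thR_inj : Function.Injective (thR hF hZ) := by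
  intro y y' h
  exact thet_inj hF hZ (congrArg Subtype.val h)

/-- The homomorphisms of the pushout. -/
noncomputable abbrev fi : ∀ s, DD D j z →* Gr Γ (RX D) s := ph (DD D j z).subtype (thR hF hZ)

/-- The amalgam. -/
abbrev AA : Type := Monoid.PushoutI (fi hF hZ)

/-- `Γ` in the amalgam. -/
noncomputable def iG : Γ →* AA hF hZ := Monoid.PushoutI.of (φ := fi hF hZ) true

/-- `R` in the amalgam. -/
noncomputable def iR : RX D →* AA hF hZ := Monoid.PushoutI.of (φ := fi hF hZ) false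

theorem iG_iR (y : DD D j z) : iG hF hZ y = iR hF hZ (thR hF hZ y) :=
  (Monoid.PushoutI.of_apply_eq_base (fi hF hZ) true y).trans
    (Monoid.PushoutI.of_apply_eq_base (fi hF hZ) false y).symm

/-- Homomorphisms out of the amalgam. -/
theorem exists_lift {K : Type} [Group K] (f : Γ →* K) (g : D.Ah →* K)
    (h1 : ∀ m ∈ MM D, f (j m) = g (D.ofG m)) (h2 : ∀ i, f (z i) = g (xi D i ^ 2)) :
    ∃ F : AA hF hZ →* K, (∀ y, F (iG hF hZ y) = f y) ∧ ∀ r : RX D, F (iR hF hZ r) = g r := by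
  refine ⟨Monoid.PushoutI.lift (lf f (g.comp (RX D).subtype)) (f.comp (DD D j z).subtype) ?_,
    ?_, ?_⟩
  · rintro (_ | _)
    · ext y
      exact (dd_hom hF hZ h1 h2 y).symm
    · rfl
  · intro y
    exact Monoid.PushoutI.lift_of (φ := fi hF hZ) (lf f (g.comp (RX D).subtype)) _ _ (i := true) y
  · intro r
    exact Monoid.PushoutI.lift_of (φ := fi hF hZ) (lf f (g.comp (RX D).subtype)) _ _ (i := false) r

/-- `x`. -/
noncomputable def ax : AA hF hZ := iR hF hZ ⟨xi D a, xi_RX a⟩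

theorem iG_j {m : G} (hm : m ∈ MM D) :
    iG hF hZ (j m) = iR hF hZ ⟨D.ofG m, DR_le hF (DR_m hm)⟩ := by
  have h1 := iG_iR hF hZ ⟨j m, j_mem hm⟩
  rw [h1]
  congr 1
  exact Subtype.ext (thet_j hF hZ hm)

theorem iG_z (i : D.ι) : iG hF hZ (z i) = iR hF hZ ⟨xi D i, xi_RX i⟩ ^ 2 := by
  have h1 := iG_iR hF hZ ⟨z i, z_mem i⟩
  rw [h1, ← map_pow]
  congr 1
  exact Subtype.ext (thet_z hF hZ i)

theorem iG_tx (i : D.ι) :
    iG hF hZ (j (D.t i * (D.t a)⁻¹)) * ax hF hZ = iR hF hZ ⟨xi D i, xi_RX i⟩ := by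
  have h1 : D.t i * (D.t a)⁻¹ ∈ MM D := kk_mem (hF.l i) (hF.l a)
  rw [iG_j hF hZ h1, ax, ← map_mul]
  congr 1
  exact Subtype.ext (xi_eq i a).symm

theorem CC_eq : CC D j z (iG hF hZ) = (Monoid.PushoutI.base (fi hF hZ)).range := by
  ext y
  constructor
  · rintro ⟨d, hd, rfl⟩
    exact ⟨⟨d, hd⟩, (Monoid.PushoutI.of_apply_eq_base (fi hF hZ) true ⟨d, hd⟩).symm⟩
  · rintro ⟨d, rfl⟩
    exact ⟨d, d.2, Monoid.PushoutI.of_apply_eq_base (fi hF hZ) true d⟩

theorem XX_eq : XX (iG hF hZ) (iR hF hZ).range =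
    fun s => (Monoid.PushoutI.of (φ := fi hF hZ) s).range := by
  funext s
  cases s <;> rfl

theorem fi_inj (s : Bool) : Function.Injective (fi hF hZ s) := by
  cases s
  · exact thR_inj hF hZ
  · exact Subtype.val_injective

theorem iG_inj : Function.Injective (iG hF hZ) :=
  (AP.stAP _ _ (fi hF hZ) (fi_inj hF hZ)).2.1 true

theorem iR_inj : Function.Injective (iR hF hZ) :=
  (AP.stAP _ _ (fi hF hZ) (fi_inj hF hZ)).2.1 false

/-- Elements of `R` in `CC`. -/
theorem iR_CC (r : RX D) : iR hF hZ r ∈ CC D j z (iG hF hZ) ↔ (r : D.Ah) ∈ DR D := by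
  constructor
  · rintro ⟨d, hd, h⟩
    have h1 := iG_iR hF hZ ⟨d, hd⟩
    have h2 := iR_inj hF hZ (h1.symm.trans h)
    rw [← h2, ← range_thet hF hZ]
    exact ⟨_, rfl⟩
  · intro h
    rw [← range_thet hF hZ] at h
    obtain ⟨d, hd⟩ := h
    refine ⟨d, d.2, ?_⟩
    rw [iG_iR]
    congr 1
    exact Subtype.ext hd

include hF in
theorem conj_fix {m g : G} (h : xi D a * D.ofG m * (xi D a)⁻¹ = D.ofG g) : m = 1 := by
  refine B_eq hF (britton (φ := MulEquiv.refl D.B) (-1) m ?_)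
  refine ⟨(D.t a)⁻¹ * g * D.t a, ?_⟩
  change D.ofG ((D.t a)⁻¹ * g * D.t a) = (D.u ^ ((-1 : ℤˣ) : ℤ))⁻¹ * D.ofG m *
    D.u ^ ((-1 : ℤˣ) : ℤ)
  rw [map_mul, map_mul, map_inv, ← h, xi, Units.val_neg, Units.val_one, zpow_neg, zpow_one,
    inv_inv]
  group

theorem amg : Amg D a j z (iG hF hZ) (iR hF hZ).range (ax hF hZ) where
  injΓ := iG_inj hF hZ
  amal := by
    rw [XX_eq, CC_eq]
    exact (AP.stAP _ _ (fi hF hZ) (fi_inj hF hZ)).1
  emb := by
    refine ⟨(RX D).subtype.comp (MonoidHom.ofInjective (iR_inj hF hZ)).symm.toMonoidHom, ?_⟩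
    exact (Subtype.val_injective).comp (MonoidHom.ofInjective (iR_inj hF hZ)).symm.injective
  xR := ⟨_, rfl⟩
  xC := by
    rw [ax, iR_CC]
    exact xi_notMem a
  two := by
    rintro _ ⟨r, rfl⟩
    rcases RX_two hF r.2 with h | ⟨c, hc, h⟩
    · exact Or.inl ((iR_CC hF hZ r).2 h)
    · refine Or.inr ⟨iR hF hZ ⟨c, DR_le hF hc⟩, (iR_CC hF hZ _).2 hc, ?_⟩
      rw [ax, ← map_mul]
      congr 1
      exact Subtype.ext h
  norm := by
    rintro _ ⟨r, rfl⟩ c hc
    have hc' := hc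
    rw [CC_eq] at hc'
    obtain ⟨d, rfl⟩ := hc'
    have h1 : Monoid.PushoutI.base (fi hF hZ) d = iR hF hZ (thR hF hZ d) :=
      (Monoid.PushoutI.of_apply_eq_base (fi hF hZ) false d).symm
    rw [h1] at hc ⊢
    rw [iR_CC] at hc
    rw [← map_inv, ← map_mul, ← map_mul, iR_CC]
    change (r : D.Ah)⁻¹ * (thR hF hZ d : D.Ah) * r ∈ DR D
    rcases RX_two hF r.2 with h | ⟨c', hc', h⟩
    · exact mul_mem (mul_mem (inv_mem h) hc) h
    · rw [h]
      have h2 : (c' * xi D a)⁻¹ * (thR hF hZ d : D.Ah) * (c' * xi D a) =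
          (xi D a)⁻¹ * (c'⁻¹ * (thR hF hZ d : D.Ah) * c') * xi D a := by group
      rw [h2]
      exact DR_conj' hF a (mul_mem (mul_mem (inv_mem hc') hc) hc')
  sq i := by rw [iG_tx, iG_z]
  fix m hm g h := by
    have h1 : iG hF hZ (j g) = iR hF hZ ⟨xi D a * D.ofG m * (xi D a)⁻¹,
        DR_le hF (DR_conj hF a (DR_m hm))⟩ := by
      rw [← h, iG_j hF hZ hm, ax, ← map_inv, ← map_mul, ← map_mul]
      rfl
    have h2 : iG hF hZ (j g) ∈ CC D j z (iG hF hZ) := by
      rw [h1, iR_CC]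
      exact DR_conj hF a (DR_m hm)
    obtain ⟨d, hd, h3⟩ := h2
    have h4 : d = j g := iG_inj hF hZ h3
    subst h4
    have h5 := iG_iR hF hZ ⟨j g, hd⟩
    have h6 := iR_inj hF hZ (h5.symm.trans h1)
    have h7 := congrArg Subtype.val h6
    rw [thR_coe, thet_jg] at h7
    exact conj_fix hF h7.symm
  ret := by
    obtain ⟨f, f1, f2⟩ := hZ.lift G (MonoidHom.id G) (fun i => D.t i ^ 2)
      (fun i => (Commute.refl _).pow_left 2)
    have f1' : ∀ g, f (j g) = g := fun g => DFunLike.congr_fun f1 g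
    have hx : ∀ i, N4.ret D (xi D i) = D.t i := fun i => by
      rw [xi, map_mul, ret_of, ret_u, mul_one]
    obtain ⟨F, h1, h2⟩ := exists_lift hF hZ f (N4.ret D)
      (fun m _ => by rw [f1', ret_of]) (fun i => by rw [f2, map_pow, hx])
    refine ⟨F, ?_, fun i => by rw [h1, f2], ?_⟩
    · ext g
      rw [MonoidHom.comp_apply, MonoidHom.comp_apply, h1, f1', MonoidHom.id_apply]
    · rw [ax, h2, hx]
  tree := by
    obtain ⟨t, h1, h2⟩ := (AP.stAP _ _ (fi hF hZ) (fi_inj hF hZ)).2.2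
    refine ⟨t, ?_, ?_⟩
    · rw [XX_eq]
      exact h1
    · rw [CC_eq]
      exact h2
  ext := by
    intro A' _ i' v' hA
    have hk : ∀ k, iG hF hZ (j (D.t k)) * ((iG hF hZ (j (D.t a)))⁻¹ * ax hF hZ) =
        iR hF hZ ⟨xi D k, xi_RX k⟩ := by
      intro k
      rw [← iG_tx, map_mul, map_mul, map_inv, map_inv, mul_assoc]
    obtain ⟨F, h1, h2⟩ := hA.lift (AA hF hZ) ((iG hF hZ).comp j)
      ((iG hF hZ (j (D.t a)))⁻¹ * ax hF hZ) (by
        intro b hb
        rw [B_eq hF hb, map_one, one_mul, mul_one]) (by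
        intro k
        rw [MonoidHom.comp_apply, hk, hF.l, ← iG_z, ← map_mul, ← map_mul, (hZ.comm k).eq])
    refine ⟨F, ?_, h1, h2⟩
    obtain ⟨f, f1, f2⟩ := hZ.lift A' i' (fun i => (i' (D.t i) * v') ^ 2) (by
      intro i
      have h3 := hA.rel i
      rw [hF.l] at h3
      exact h3)
    have f1' : ∀ g, f (j g) = i' g := fun g => DFunLike.congr_fun f1 g
    have hx : ∀ i, D.toA hA (xi D i) = i' (D.t i) * v' := fun i => by
      rw [xi, map_mul, D.toA_of, D.toA_u]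
    obtain ⟨B, b1, b2⟩ := exists_lift hF hZ f (D.toA hA)
      (fun m _ => by rw [f1', D.toA_of]) (fun i => by rw [f2, map_pow, hx])
    have h3 : B.comp F = MonoidHom.id A' := by
      refine MonoidHom.eq_of_eqOn_dense hA.gen ?_
      rintro y (⟨g, rfl⟩ | rfl)
      · have h4 : F (i' g) = iG hF hZ (j g) := DFunLike.congr_fun h1 g
        rw [MonoidHom.comp_apply, h4, b1, f1', MonoidHom.id_apply]
      · rw [MonoidHom.comp_apply, h2, map_mul, map_inv, b1, f1', ax, b2, hx,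
          MonoidHom.id_apply, inv_mul_cancel_left]
    intro y y' hy
    have h4 := congrArg B hy
    have h5 := DFunLike.congr_fun h3 y
    have h6 := DFunLike.congr_fun h3 y'
    rw [MonoidHom.comp_apply, MonoidHom.id_apply] at h5 h6
    rw [← h5, ← h6, h4]

end amg

/-- Module EX. -/
theorem stEX : StEX := by
  intro G _ D a hF
  exact ⟨Gam D, inferInstance, gj D, gz D, gam_ext D, AA hF (gam_ext D), inferInstance,
    iG hF (gam_ext D), (iR hF (gam_ext D)).range, ax hF (gam_ext D), amg hF (gam_ext D)⟩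

end Pool.Agent.Lib.MP_551055_al.N5K.EX
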