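import Mathlib
import Pool.Agent.Lib.MP_551055_al.Trim.LS.Stmts
import Pool.Agent.Lib.MP_551055_al.Trim.N4.O_17
import Pool.Agent.Lib.MP_551055_al.Trim.N4.Rules_17
import Pool.Agent.Lib.MP_551055_al.Trim.N5.BasicK_38
import Pool.Agent.Lib.MP_551055_al.Trim.N5.StmtsK28
import Pool.Agent.Lib.MP_551055_al.Trim.X.MP_e6f638_al.Stmts

/-!
# Module GP: the group `Γ` is in the class
-/

set_option autoImplicit false

namespace Pool.Agent.Lib.MP_551055_al
end Pool.Agent.Lib.MP_551055_al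

namespace Pool.Agent.Lib.MP_e6f638_al
end Pool.Agent.Lib.MP_e6f638_al

namespace Pool.Agent.Lib.MP_551055_al.LS
end Pool.Agent.Lib.MP_551055_al.LS

namespace Pool.Agent.Lib.MP_551055_al.RI
end Pool.Agent.Lib.MP_551055_al.RI

namespace Pool.Agent.Lib.MP_551055_al.N4
end Pool.Agent.Lib.MP_551055_al.N4

namespace Pool.Agent.Lib.MP_551055_al.N5K

open Pool.Agent.Lib.MP_551055_al

open Pool.Agent.Lib.MP_e6f638_al (Dat)

open Pool.Agent.Lib.MP_551055_al.LS (TreeAct)

open Pool.Agent.Lib.MP_551055_al.RI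

open Pool.Agent.Lib.MP_551055_al.N4

theorem stGP : StGP := by
  intro P hP G _ D hfin Γ _ j z hZ hG
  obtain ⟨G₁, _, j₁, z₁, h1, h2, h3⟩ := hP.many hG D.ι (fun i => {D.t i})
  obtain ⟨F, hF, hFz⟩ := hZ.lift G₁ j₁ z₁ (fun i => h2 i _ rfl)
  obtain ⟨F', hF', hFz'⟩ := h3 Γ j z (by
    rintro i x rfl
    exact hZ.comm i)
  have h4 : F'.comp F = MonoidHom.id Γ := by
    refine hZ.hom_ext (fun g => ?_) (fun i => ?_)
    · rw [MonoidHom.comp_apply, MonoidHom.id_apply]
      have e1 : F (j g) = j₁ g := DFunLike.congr_fun hF g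
      have e2 : F' (j₁ g) = j g := DFunLike.congr_fun hF' g
      rw [e1, e2]
    · rw [MonoidHom.comp_apply, MonoidHom.id_apply, hFz, hFz']
  refine hP.lift G₁ Γ F (lift_of_injective _ ?_) h1
  exact Function.LeftInverse.injective (g := F') (fun y => DFunLike.congr_fun h4 y)

end Pool.Agent.Lib.MP_551055_al.N5K
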