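import Mathlib
import Pool.Agent.Lib.MP_551055_al.Trim.LD.NG
import Pool.Agent.Lib.MP_551055_al.Trim.LS.Ray
import Pool.Agent.Lib.MP_551055_al.Trim.LS.Stmts
import Pool.Agent.Lib.MP_551055_al.Trim.MT.Defs
import Pool.Agent.Lib.MP_551055_al.Trim.MT.Flow2
import Pool.Agent.Lib.MP_551055_al.Trim.MT.K1
import Pool.Agent.Lib.MP_551055_al.Trim.MT.RCU
import Pool.Agent.Lib.MP_551055_al.Trim.N5.AW_95
import Pool.Agent.Lib.MP_551055_al.Trim.N5.Stmts
import Pool.Agent.Lib.MP_551055_al.Trim.N5.StmtsK28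
import Pool.Agent.Lib.MP_551055_al.Trim.RI.Stmts
import Pool.Agent.Lib.MP_551055_al.Trim.T4.Perf
import Pool.Agent.Lib.MP_551055_al.Trim.T6.GenF
import Pool.Agent.Lib.MP_551055_al.Trim.W17.Main
import Pool.Agent.Lib.MP_551055_al.Trim.X.MP_e6f638_al.I1
import Pool.Agent.Lib.MP_551055_al.Trim.X.MP_e6f638_al.Stmts

/-!
# Module H0: the heights lemma in the amalgam
-/

set_option autoImplicit false

namespace Pool.Agent.Lib.MP_551055_al
end Pool.Agent.Lib.MP_551055_al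

namespace Pool.Agent.Lib.MP_e6f638_al
end Pool.Agent.Lib.MP_e6f638_al

namespace Pool.Agent.Lib.MP_551055_al.N5
end Pool.Agent.Lib.MP_551055_al.N5

namespace Pool.Agent.Lib.MP_551055_al.N5K

open Pool.Agent.Lib.MP_551055_al

open Pool.Agent.Lib.MP_e6f638_al (Dat EA gen par rho del IsDatOf IsAxis)

open Pool.Agent.Lib.MP_551055_al.N5 (MM Mix)

open Multiplicative

namespace H0

variable {A : Type} [Group A]

/-- words in a subgroup and an element `p` -/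
def wd (p m₀ : A) (L : List (ℤˣ × A)) : A := m₀ * (L.map fun x => p ^ (x.1 : ℤ) * x.2).prod

/-- reduced words -/
def RedW (L : List (ℤˣ × A)) : Prop := L.IsChain (fun x y => x.2 = 1 → x.1 = y.1)

theorem wd_cons (p m₀ : A) (x : ℤˣ × A) (L : List (ℤˣ × A)) :
    wd p m₀ (x :: L) = m₀ * (p ^ (x.1 : ℤ) * wd p x.2 L) := by
  simp [wd, mul_assoc]

theorem wd_nil (p m₀ : A) : wd p m₀ [] = m₀ := by simp [wd]

theorem wd_mul (p m m₀ : A) (L : List (ℤˣ × A)) : m * wd p m₀ L = wd p (m * m₀) L := by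
  simp [wd, mul_assoc]

theorem exists_wd_p {N : Subgroup A} {p : A} (e : ℤˣ) (m₀ : A) (hm : m₀ ∈ N) (L : List (ℤˣ × A))
    (hL : ∀ x ∈ L, x.2 ∈ N) (hr : RedW L) : ∃ m₁ ∈ N, ∃ L', (∀ x ∈ L', x.2 ∈ N) ∧ RedW L' ∧
      p ^ (e : ℤ) * wd p m₀ L = wd p m₁ L' := by
  by_cases hc : m₀ = 1 ∧ ∃ y ∈ L.head?, y.1 = -e
  · obtain ⟨rfl, y, hy, he⟩ := hc
    rcases L with _ | ⟨z, L⟩
    · simp at hy
    · obtain rfl : z = y := by simpa using hy
      refine ⟨z.2, hL z List.mem_cons_self, L, fun x hx => hL x (List.mem_cons_of_mem _ hx),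
        (List.isChain_cons.1 hr).2, ?_⟩
      rw [wd_cons, he, one_mul, Units.val_neg, zpow_neg, ← mul_assoc, mul_inv_cancel, one_mul]
  · refine ⟨1, one_mem _, (e, m₀) :: L, fun x hx => ?_, List.isChain_cons.2 ⟨fun y hy h1 => ?_, hr⟩,
      by rw [wd_cons, one_mul]⟩
    · rcases List.mem_cons.1 hx with rfl | hx
      · exact hm
      · exact hL x hx
    · by_contra hne
      apply hc
      refine ⟨h1, y, hy, ?_⟩
      simp only at hne
      rcases Int.units_eq_one_or e with rfl | rfl <;> rcases Int.units_eq_one_or y.1 with h | h <;>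
        simp_all

/-- The normal form of the elements of the subgroup generated by `N` and `p`. -/
theorem exists_wd {N : Subgroup A} {p g : A}
    (hg : g ∈ Subgroup.closure ((N : Set A) ∪ {p})) :
    ∃ m₀ ∈ N, ∃ L, (∀ x ∈ L, x.2 ∈ N) ∧ RedW L ∧ g = wd p m₀ L := by
  induction hg using Subgroup.closure_induction_left with
  | one => exact ⟨1, one_mem _, [], by simp, List.isChain_nil, by rw [wd_nil]⟩
  | mul_left x hx y hy ih =>
    obtain ⟨m₀, hm, L, hL, hr, rfl⟩ := ih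
    rcases hx with hx | hx
    · exact ⟨x * m₀, mul_mem hx hm, L, hL, hr, wd_mul _ _ _ _⟩
    · rw [Set.mem_singleton_iff] at hx
      subst hx
      have := exists_wd_p (p := x) 1 m₀ hm L hL hr
      simpa using this
  | inv_mul_cancel x hx y hy ih =>
    obtain ⟨m₀, hm, L, hL, hr, rfl⟩ := ih
    rcases hx with hx | hx
    · exact ⟨x⁻¹ * m₀, mul_mem (inv_mem hx) hm, L, hL, hr, wd_mul _ _ _ _⟩
    · rw [Set.mem_singleton_iff] at hx
      subst hx
      have := exists_wd_p (p := x) (-1) m₀ hm L hL hr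
      simpa using this

/-- The situation of the lemma: an amalgam of `X true` and `X false` over `C`. -/
structure Sit (X : Bool → Subgroup A) (C N : Subgroup A) (t x : A) : Prop where
  am : Amal X C
  tX : t ∈ X true
  xX : x ∈ X false
  xC : x ∉ C
  NC : N ≤ C
  tmt : ∀ k l : ℤ, k + l ≠ 0 → ∀ m ∈ N, t ^ k * m * t ^ l ∉ C
  Nt : ∀ m ∈ N, m ≠ 1 → t * m * t⁻¹ ∉ C ∧ t⁻¹ * m * t ∉ C
  xN : ∀ m ∈ N, x * m * x⁻¹ ∈ C
  xNN : ∀ m ∈ N, x * m * x⁻¹ ∈ N → m = 1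
  xNt : ∀ m ∈ N, t⁻¹ * (x * m * x⁻¹) * t ∈ C → m = 1

namespace Sit

variable {X : Bool → Subgroup A} {C N : Subgroup A} {t x : A}

theorem x_pow (S : Sit X C N t x) (e : ℤˣ) : x ^ (-(e : ℤ)) ∈ X false ∧ x ^ (-(e : ℤ)) ∉ C := by
  refine ⟨zpow_mem S.xX _, fun h => ?_⟩
  rcases Int.units_eq_one_or e with rfl | rfl
  · simp only [Units.val_one, zpow_neg, zpow_one] at h
    exact S.xC (by simpa using inv_mem h)
  · simp only [Units.val_neg, Units.val_one, neg_neg, zpow_one] at h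
    exact S.xC h

theorem mt (S : Sit X C N t x) {m : A} (hm : m ∈ N) {k : ℤ} (hk : k ≠ 0) : m * t ^ k ∉ C := by
  have := S.tmt 0 k (by simpa using hk) m hm
  simpa using this

theorem N_conj (S : Sit X C N t x) {m : A} (hm : m ∈ N) (hm1 : m ≠ 1) (e : ℤˣ) :
    t ^ (e : ℤ) * m * t ^ (-(e : ℤ)) ∉ C := by
  intro h
  rcases Int.units_eq_one_or e with rfl | rfl
  · simp only [Units.val_one, zpow_one, zpow_neg] at h
    exact (S.Nt m hm hm1).1 h
  · simp only [Units.val_neg, Units.val_one, zpow_neg, zpow_one, neg_neg] at h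
    exact (S.Nt m hm hm1).2 h

theorem pe (e : ℤˣ) : (t * x⁻¹ * t) ^ (e : ℤ) = t ^ (e : ℤ) * x ^ (-(e : ℤ)) * t ^ (e : ℤ) := by
  rcases Int.units_eq_one_or e with rfl | rfl
  · simp only [Units.val_one, zpow_one, zpow_neg]
  · simp only [Units.val_neg, Units.val_one, zpow_neg, zpow_one, neg_neg]
    group

/-- The word is reduced. -/
theorem wd_Wd (S : Sit X C N t x) {q : A} (hq : q ∈ X true) {g : A} (hg : g ∈ X true)
    {L : List (ℤˣ × A)} (hL : ∀ y ∈ L, y.2 ∈ N) (hr : RedW L)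
    (h1 : ∀ y ∈ L.head?, g * t ^ (y.1 : ℤ) ∉ C)
    (h0 : L = [] → g * q ∉ C) (h2 : ∀ m ∈ N, ∀ e : ℤˣ, t ^ (e : ℤ) * m * q ∉ C) :
    Wd X C true true (wd (t * x⁻¹ * t) g L * q) := by
  induction L generalizing g with
  | nil =>
    rw [wd_nil]
    exact Wd.one true _ (mul_mem hg hq) (h0 rfl)
  | cons y L ih =>
    obtain ⟨e, m⟩ := y
    have hmN : m ∈ N := hL (e, m) List.mem_cons_self
    have htm : t ^ (e : ℤ) * m ∈ X true := mul_mem (zpow_mem S.tX _) (S.am.le true (S.NC hmN))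
    have h3 : Wd X C true true (wd (t * x⁻¹ * t) (t ^ (e : ℤ) * m) L * q) := by
      refine ih htm (fun z hz => hL z (List.mem_cons_of_mem _ hz)) (List.isChain_cons.1 hr).2 ?_
        (fun _ => h2 m hmN e)
      intro z hz
      by_cases hez : e = z.1
      · refine S.tmt e z.1 ?_ m hmN
        rw [← hez]
        rcases Int.units_eq_one_or e with rfl | rfl <;> simp
      · have hm1 : m ≠ 1 := fun hh => hez ((List.isChain_cons.1 hr).1 z hz hh)
        have hz' : z.1 = -e := by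
          rcases Int.units_eq_one_or e with rfl | rfl <;>
            rcases Int.units_eq_one_or z.1 with h | h <;> simp_all
        rw [hz', Units.val_neg]
        exact S.N_conj hmN hm1 e
    have h4 : wd (t * x⁻¹ * t) g ((e, m) :: L) * q =
        (g * t ^ (e : ℤ)) * (x ^ (-(e : ℤ)) * (wd (t * x⁻¹ * t) (t ^ (e : ℤ) * m) L * q)) := by
      rw [wd_cons, pe, ← wd_mul]
      simp only [mul_assoc]
    rw [h4]
    exact Wd.cons true true _ _ (mul_mem hg (zpow_mem S.tX _)) (h1 (e, m) (by simp))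
      (Wd.cons false true _ _ (S.x_pow e).1 (S.x_pow e).2 h3)

/-- The elements of the subgroup. -/
theorem cases (S : Sit X C N t x) {y : A}
    (hy : y ∈ Subgroup.closure ((N : Set A) ∪ {t * x⁻¹ * t})) : y ∈ N ∨ Wd X C true true y := by
  obtain ⟨m₀, hm, L, hL, hr, rfl⟩ := exists_wd hy
  by_cases hne : L = []
  · left
    rw [hne, wd_nil]
    exact hm
  · right
    have := S.wd_Wd (one_mem _) (S.am.le true (S.NC hm)) hL hr (fun y _ => S.mt hm (by
      rcases Int.units_eq_one_or y.1 with h | h <;> simp [h])) (fun h => absurd h hne)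
      (fun m hmN e => by
        rw [mul_one]
        have := S.tmt e 0 (by rcases Int.units_eq_one_or e with h | h <;> simp [h]) m hmN
        simpa using this)
    simpa using this

theorem tX' (S : Sit X C N t x) : t⁻¹ ∈ X true ∧ t⁻¹ ∉ C := by
  refine ⟨inv_mem S.tX, ?_⟩
  have := S.mt (one_mem N) (k := -1) (by decide)
  simpa using this

theorem x_inv (S : Sit X C N t x) : x⁻¹ ∈ X false ∧ x⁻¹ ∉ C := by
  have := S.x_pow 1
  simpa using this

/-- Multiplication by `(t⁻¹ x) ^ k` from the left. -/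
theorem front (S : Sit X C N t x) {g : A} (e : Bool) (h : Wd X C true e g) (k : ℕ) :
    Wd X C true e ((t⁻¹ * x) ^ k * g) := by
  induction k with
  | zero => simpa using h
  | succ k ih =>
    have h1 : (t⁻¹ * x) ^ (k + 1) * g = t⁻¹ * (x * ((t⁻¹ * x) ^ k * g)) := by
      rw [pow_succ']
      simp only [mul_assoc]
    rw [h1]
    exact Wd.cons true e _ _ S.tX'.1 S.tX'.2 (Wd.cons false e _ _ S.xX S.xC ih)

/-- Conjugation by `(t⁻¹ x) ^ k`. -/
theorem conj (S : Sit X C N t x) {g : A} (h : Wd X C true true g) (k : ℕ) :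
    Wd X C true true ((t⁻¹ * x) ^ k * g * ((t⁻¹ * x) ^ k)⁻¹) := by
  have h1 := AW.inv (S.front true h k)
  have h2 := AW.inv (S.front true h1 k)
  have h3 : ((t⁻¹ * x) ^ k * ((t⁻¹ * x) ^ k * g)⁻¹)⁻¹ =
      (t⁻¹ * x) ^ k * g * ((t⁻¹ * x) ^ k)⁻¹ := by
    rw [mul_inv_rev, inv_inv]
  rwa [h3] at h2

theorem p_mem : t * x⁻¹ * t ∈ Subgroup.closure ((N : Set A) ∪ {t * x⁻¹ * t}) :=
  Subgroup.subset_closure (Or.inr rfl)

/-- An element of the subgroup does not begin with an element of `X false`. -/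
theorem not_false (S : Sit X C N t x) {y : A} {e : Bool}
    (hy : y ∈ Subgroup.closure ((N : Set A) ∪ {t * x⁻¹ * t})) (h : Wd X C false e y) :
    False := by
  rcases S.cases hy with h1 | h1
  · exact S.am.nt _ _ _ h (S.NC h1)
  · exact absurd (AW.uniq S.am h h1).1 (by simp)

theorem pss (k : ℕ) : t * x⁻¹ * t * (t⁻¹ * x) ^ (k + 2) = x * (t⁻¹ * x) ^ k := by
  have h : (t⁻¹ * x) ^ (k + 2) = t⁻¹ * x * (t⁻¹ * x * (t⁻¹ * x) ^ k) := by
    rw [pow_succ', pow_succ']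
  rw [h]
  generalize (t⁻¹ * x) ^ k = w
  group

theorem same (S : Sit X C N t x) {n : ℕ} (hn : 2 ≤ n) {μ : A}
    (hμ : μ ∈ Subgroup.closure ((N : Set A) ∪ {t * x⁻¹ * t}))
    (hν : (t⁻¹ * x) ^ n * μ * ((t⁻¹ * x) ^ n)⁻¹ ∈
      Subgroup.closure ((N : Set A) ∪ {t * x⁻¹ * t})) : μ = 1 := by
  obtain ⟨k, rfl⟩ : ∃ k, n = k + 2 := ⟨n - 2, by omega⟩
  have h1 : t * x⁻¹ * t * ((t⁻¹ * x) ^ (k + 2) * μ * ((t⁻¹ * x) ^ (k + 2))⁻¹) *
      (t * x⁻¹ * t)⁻¹ ∈ Subgroup.closure ((N : Set A) ∪ {t * x⁻¹ * t}) :=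
    mul_mem (mul_mem p_mem hν) (inv_mem p_mem)
  have h2 : t * x⁻¹ * t * ((t⁻¹ * x) ^ (k + 2) * μ * ((t⁻¹ * x) ^ (k + 2))⁻¹) *
      (t * x⁻¹ * t)⁻¹ = x * (((t⁻¹ * x) ^ k * μ * ((t⁻¹ * x) ^ k)⁻¹) * x⁻¹) := by
    calc _ = (t * x⁻¹ * t * (t⁻¹ * x) ^ (k + 2)) * μ *
          (t * x⁻¹ * t * (t⁻¹ * x) ^ (k + 2))⁻¹ := by group
      _ = _ := by rw [pss]; group
  rw [h2] at h1
  -- a reduced word leads to a contradiction
  have key : ∀ g, Wd X C true true g → x * (g * x⁻¹) ∈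
      Subgroup.closure ((N : Set A) ∪ {t * x⁻¹ * t}) → False := by
    intro g hg hm
    refine S.not_false (e := false) hm (Wd.cons false false _ _ S.xX S.xC ?_)
    exact AW.mul' hg (Wd.one false _ S.x_inv.1 S.x_inv.2) rfl
  rcases S.cases hμ with h3 | h3
  · rcases k with _ | k
    · rw [pow_zero, one_mul, inv_one, mul_one, ← mul_assoc] at h1
      rcases S.cases h1 with h4 | h4
      · exact S.xNN μ h3 h4
      · exact absurd (S.xN μ h3) (S.am.nt _ _ _ h4)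
    · by_contra hne
      have h5 : t⁻¹ * (x * μ * x⁻¹) * t ∉ C := fun h => hne (S.xNt μ h3 h)
      have h6 : Wd X C true true (t⁻¹ * (x * μ * x⁻¹) * t) :=
        Wd.one true _ (mul_mem (mul_mem S.tX'.1 (S.am.le true (S.xN μ h3))) S.tX) h5
      refine key _ (S.conj h6 k) ?_
      have h7 : (t⁻¹ * x) ^ k * (t⁻¹ * (x * μ * x⁻¹) * t) * ((t⁻¹ * x) ^ k)⁻¹ =
          (t⁻¹ * x) ^ (k + 1) * μ * ((t⁻¹ * x) ^ (k + 1))⁻¹ := by
        rw [pow_succ]
        group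
      rw [h7]
      exact h1
  · exact (key _ (S.conj h3 k) h1).elim

theorem diff (S : Sit X C N t x) {n : ℕ} (hn : 2 ≤ n) {μ : A}
    (hμ : μ ∈ Subgroup.closure ((N : Set A) ∪ {t * x⁻¹ * t}))
    (hν : (t⁻¹ * x) ^ n * μ * (t ^ n)⁻¹ ∈ Subgroup.closure ((N : Set A) ∪ {t * x⁻¹ * t})) :
    False := by
  obtain ⟨m₀, hm, L, hL, hr, he⟩ := exists_wd hμ
  have hq : (t ^ n)⁻¹ = t ^ (-(n : ℤ)) := by rw [zpow_neg, zpow_natCast]
  have h1 : Wd X C true true (μ * (t ^ n)⁻¹) := by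
    rw [he, hq]
    refine S.wd_Wd (zpow_mem S.tX _) (S.am.le true (S.NC hm)) hL hr ?_ ?_ ?_
    · intro y _
      exact S.mt hm (by rcases Int.units_eq_one_or y.1 with h | h <;> simp [h])
    · intro _
      exact S.mt hm (by omega)
    · intro m hmN e
      refine S.tmt e _ ?_ m hmN
      rcases Int.units_eq_one_or e with h | h <;> simp [h] <;> omega
  obtain ⟨k, rfl⟩ : ∃ k, n = k + 2 := ⟨n - 2, by omega⟩
  refine S.not_false (e := true) (mul_mem p_mem hν) ?_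
  have h2 : t * x⁻¹ * t * ((t⁻¹ * x) ^ (k + 2) * μ * (t ^ (k + 2))⁻¹) =
      x * ((t⁻¹ * x) ^ k * (μ * (t ^ (k + 2))⁻¹)) := by
    calc _ = (t * x⁻¹ * t * (t⁻¹ * x) ^ (k + 2)) * μ * (t ^ (k + 2))⁻¹ := by
          simp only [mul_assoc]
      _ = _ := by rw [pss]; simp only [mul_assoc]
  rw [h2]
  exact Wd.cons false true _ _ S.xX S.xC (S.front true h1 k)

end Sit

variable {G : Type} [Group G] {D : Dat G} {a : D.ι} {Γ : Type} [Group Γ] {j : G →* Γ} {z : D.ι → Γ}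

theorem exists_kap (hZ : ZExt D Γ j z) : ∃ κ : Γ →* G, (∀ g, κ (j g) = g) ∧ ∀ i, κ (z i) = 1 := by
  obtain ⟨F, h1, h2⟩ := hZ.lift G (MonoidHom.id G) (fun _ => 1) (fun _ => Commute.one_left _)
  exact ⟨F, fun g => DFunLike.congr_fun h1 g, h2⟩

theorem dd_j (hZ : ZExt D Γ j z) {g : G} (h : j g ∈ DD D j z) : g ∈ MM D := by
  obtain ⟨κ, h1, h2⟩ := exists_kap hZ
  have h3 : DD D j z ≤ (MM D).comap κ := by
    rw [DD, Subgroup.closure_le]
    rintro _ (⟨m, hm, rfl⟩ | ⟨i, rfl⟩)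
    · rw [SetLike.mem_coe, Subgroup.mem_comap, h1]
      exact hm
    · rw [SetLike.mem_coe, Subgroup.mem_comap, h2]
      exact one_mem _
  have h4 := h3 h
  rwa [Subgroup.mem_comap, h1] at h4

theorem zz_j (hZ : ZExt D Γ j z) {g : G} (h : j g ∈ ZZ D z) : g = 1 := by
  obtain ⟨κ, h1, h2⟩ := exists_kap hZ
  have h3 : ZZ D z ≤ κ.ker := by
    rw [ZZ, Subgroup.closure_le]
    rintro _ ⟨i, rfl⟩
    exact h2 i
  have h4 := h3 h
  rwa [MonoidHom.mem_ker, h1] at h4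

theorem mm_one {m : G} (hm : m ∈ MM D) : D.h m = 1 := by
  have h1 : MM D ≤ D.h.ker := by
    rw [MM, Subgroup.closure_le]
    rintro x (hx | ⟨i, j, b, hi, hj, hb, rfl⟩)
    · exact D.h_B x hx
    · rw [SetLike.mem_coe, MonoidHom.mem_ker, map_mul, map_mul, map_inv, D.h_t, D.h_t, D.h_B b hb,
        mul_one, mul_inv_cancel]
  exact h1 hm

variable {A : Type} [Group A] {iΓ : Γ →* A} {R : Subgroup A} {x : A}

theorem cc_iff (hA : Amg D a j z iΓ R x) {γ : Γ} : iΓ γ ∈ CC D j z iΓ ↔ γ ∈ DD D j z := by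
  constructor
  · rintro ⟨δ, hδ, he⟩
    rwa [← hA.injΓ he]
  · exact fun h => ⟨γ, h, rfl⟩

/-- `(t a)⁻¹ x` commutes with the `z i`. -/
theorem u_comm (hZ : ZExt D Γ j z) (hA : Amg D a j z iΓ R x) {c : Γ} (hc : c ∈ ZZ D z) :
    Commute ((iΓ (j (D.t a)))⁻¹ * x) (iΓ c) := by
  have h1 : ZZ D z ≤ (Subgroup.centralizer {(iΓ (j (D.t a)))⁻¹ * x}).comap iΓ := by
    rw [ZZ, Subgroup.closure_le]
    rintro _ ⟨i, rfl⟩
    rw [SetLike.mem_coe, Subgroup.mem_comap, Subgroup.mem_centralizer_singleton_iff]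
    have h2 : iΓ (j (D.t i * (D.t a)⁻¹)) * x = iΓ (j (D.t i)) * ((iΓ (j (D.t a)))⁻¹ * x) := by
      simp only [map_mul, map_inv, mul_assoc]
    have h3 : Commute (iΓ (j (D.t i)) * ((iΓ (j (D.t a)))⁻¹ * x)) (iΓ (z i)) := by
      rw [← hA.sq i, h2]
      exact (Commute.refl _).pow_right 2
    have h4 : Commute (iΓ (j (D.t i))) (iΓ (z i)) := ((hZ.comm i).map iΓ).symm
    have h5 : Commute ((iΓ (j (D.t a)))⁻¹ * x) (iΓ (z i)) := by
      have := h4.inv_left.mul_left h3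
      rwa [inv_mul_cancel_left] at this
    exact h5.eq.symm
  have h2 := h1 hc
  rw [Subgroup.mem_comap, Subgroup.mem_centralizer_singleton_iff] at h2
  exact h2.symm

theorem sit (hT2 : StT2) (hF : Four D a) (hZ : ZExt D Γ j z) (hA : Amg D a j z iΓ R x) :
    Sit (XX iΓ R) (CC D j z iΓ) ((MM D).map (iΓ.comp j)) (iΓ (j (D.t a))) x where
  am := hA.amal
  tX := ⟨j (D.t a), rfl⟩
  xX := hA.xR
  xC := hA.xC
  NC := by
    rintro _ ⟨m, hm, rfl⟩
    exact ⟨j m, Subgroup.subset_closure (Or.inl ⟨m, hm, rfl⟩), rfl⟩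
  tmt := by
    rintro k l hkl _ ⟨m, hm, rfl⟩ h
    have h1 : iΓ (j (D.t a)) ^ k * (iΓ.comp j) m * iΓ (j (D.t a)) ^ l =
        iΓ (j (D.t a ^ k * m * D.t a ^ l)) := by simp
    rw [h1, cc_iff hA] at h
    have h2 := mm_one (dd_j hZ h)
    rw [map_mul, map_mul, map_zpow, map_zpow, D.h_t, mm_one hm, mul_one, ← zpow_add] at h2
    have h3 := congrArg toAdd h2
    simp only [toAdd_zpow, toAdd_ofAdd, toAdd_one, smul_eq_mul, mul_one] at h3
    exact hkl h3
  Nt := by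
    rintro _ ⟨m, hm, rfl⟩ hne
    have hm1 : m ≠ 1 := by
      rintro rfl
      exact hne (map_one _)
    refine ⟨fun h => ?_, fun h => ?_⟩
    · have h1 : iΓ (j (D.t a)) * (iΓ.comp j) m * (iΓ (j (D.t a)))⁻¹ =
          iΓ (j (D.t a * m * (D.t a)⁻¹)) := by simp
      rw [h1, cc_iff hA] at h
      exact hm1 (hF.mm m hm (dd_j hZ h))
    · have h1 : (iΓ (j (D.t a)))⁻¹ * (iΓ.comp j) m * iΓ (j (D.t a)) =
          iΓ (j ((D.t a)⁻¹ * m * D.t a)) := by simp
      rw [h1, cc_iff hA] at h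
      have h2 := hF.mm _ (dd_j hZ h) (by
        have : D.t a * ((D.t a)⁻¹ * m * D.t a) * (D.t a)⁻¹ = m := by group
        rwa [this])
      apply hm1
      have : m = D.t a * ((D.t a)⁻¹ * m * D.t a) * (D.t a)⁻¹ := by group
      rw [this, h2]
      group
  xN := by
    rintro _ ⟨m, hm, rfl⟩
    have := hA.norm x⁻¹ (inv_mem hA.xR) (iΓ (j m))
      ⟨j m, Subgroup.subset_closure (Or.inl ⟨m, hm, rfl⟩), rfl⟩
    rwa [inv_inv] at this
  xNN := by
    rintro _ ⟨m, hm, rfl⟩ ⟨m', hm', h⟩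
    have := hA.fix m hm m' h.symm
    rw [this, map_one]
  xNt := by
    rintro _ ⟨m, hm, rfl⟩ h
    have h0 := hA.norm x⁻¹ (inv_mem hA.xR) (iΓ (j m))
      ⟨j m, Subgroup.subset_closure (Or.inl ⟨m, hm, rfl⟩), rfl⟩
    rw [inv_inv] at h0
    obtain ⟨δ, hδ, he⟩ := h0
    have he' : x * (iΓ.comp j) m * x⁻¹ = iΓ δ := he.symm
    rw [he'] at h
    have h1 : (iΓ (j (D.t a)))⁻¹ * iΓ δ * iΓ (j (D.t a)) = iΓ ((j (D.t a))⁻¹ * δ * j (D.t a)) := by
      simp
    rw [h1, cc_iff hA] at h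
    have h2 := hT2 G D a hF Γ j z hZ _ h (by
      have : j (D.t a) * ((j (D.t a))⁻¹ * δ * j (D.t a)) * (j (D.t a))⁻¹ = δ := by group
      rwa [this])
    have h3 := (u_comm hZ hA h2).eq
    have h4 : iΓ (j m) = iΓ ((j (D.t a))⁻¹ * δ * j (D.t a)) := by
      have h5 : iΓ (j m) = x⁻¹ * iΓ δ * x := by
        rw [← he']
        simp only [MonoidHom.comp_apply]
        group
      rw [h5]
      have h6 : iΓ δ = iΓ (j (D.t a)) * iΓ ((j (D.t a))⁻¹ * δ * j (D.t a)) *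
          (iΓ (j (D.t a)))⁻¹ := by
        simp only [map_mul, map_inv]
        group
      have h7 : x⁻¹ * iΓ δ * x = ((iΓ (j (D.t a)))⁻¹ * x)⁻¹ *
          (iΓ ((j (D.t a))⁻¹ * δ * j (D.t a)) * ((iΓ (j (D.t a)))⁻¹ * x)) := by
        rw [h6]
        group
      rw [h7, ← h3]
      group
    rw [hA.injΓ h4.symm] at h2
    rw [zz_j hZ h2, map_one]

end H0

/-- Module H0, from module T2. -/
theorem h0_of (hT2 : StT2) : StH0 := by
  intro G _ D a hF Γ _ j z hZ A _ iΓ R x hA M' hM' n hn m hm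
  have S := H0.sit hT2 hF hZ hA
  have hN : ((fun g => iΓ (j g)) '' (MM D : Set G)) = (((MM D).map (iΓ.comp j) : Subgroup A) :
      Set A) := by
    ext y
    simp
  rw [hN] at hM'
  subst hM'
  exact ⟨fun h => S.same hn hm h, fun h => S.diff hn hm h⟩

end Pool.Agent.Lib.MP_551055_al.N5K
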