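import Mathlib
import Pool.Agent.Lib.MP_551055_al.Trim.MT.K1
import Pool.Agent.Lib.MP_551055_al.Trim.N5.Stmts
import Pool.Agent.Lib.MP_551055_al.Trim.N5.StmtsK28
import Pool.Agent.Lib.MP_551055_al.Trim.X.MP_e6f638_al.I1
import Pool.Agent.Lib.MP_551055_al.Trim.X.MP_e6f638_al.I2
import Pool.Agent.Lib.MP_551055_al.Trim.X.MP_e6f638_al.Stmts

/-!
# Module HH: the heights lemma for even Artin groups with all labels four
-/

set_option autoImplicit false

namespace Pool.Agent.Lib.MP_551055_al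
end Pool.Agent.Lib.MP_551055_al

namespace Pool.Agent.Lib.MP_e6f638_al
end Pool.Agent.Lib.MP_e6f638_al

namespace Pool.Agent.Lib.MP_551055_al.N4
end Pool.Agent.Lib.MP_551055_al.N4

namespace Pool.Agent.Lib.MP_551055_al.N5
end Pool.Agent.Lib.MP_551055_al.N5

namespace Pool.Agent.Lib.MP_551055_al.N5K

open Pool.Agent.Lib.MP_551055_al

open Pool.Agent.Lib.MP_e6f638_al (Dat EA gen par rho del IsDatOf IsAxis stI1 stI2)

open Pool.Agent.Lib.MP_551055_al.N4

open Pool.Agent.Lib.MP_551055_al.N5 (MM Mix)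

open Multiplicative

namespace HH

/-- The heights lemma for two generators. -/
theorem key (hEX : StEX) (hH0 : StH0) (hA4 : StA4) {S : Type} [Finite S] (l : S → S → ℕ)
    (hsymm : ∀ s t, l s t = l t s) (h2 : ∀ s t : S, s ≠ t → l s t = 2) (s a : S) (has : a ≠ s) :
    ∃ (A : Type) (_ : Group A) (F : EA l →* A) (M' : Subgroup A), Function.Injective F ∧
      (∀ c : S, F (gen l c) * (F (gen l a))⁻¹ ∈ M') ∧
      ∀ n : ℕ, 2 ≤ n → ∀ m ∈ M',
        (F (gen l s) ^ n * m * (F (gen l s) ^ n)⁻¹ ∈ M' → m = 1) ∧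
        F (gen l s) ^ n * m * (F (gen l a) ^ n)⁻¹ ∉ M' := by
  have hne : ∀ t : {x : S // x ≠ s}, l s t = 2 := fun t => h2 s t (Ne.symm t.2)
  obtain ⟨D, hD, i', hi', hinj', hext⟩ := stI2 S l hsymm s ⟨⟨a, has⟩, by rw [hne]; decide⟩
  obtain ⟨a', ha'⟩ := hD.surj ⟨a, has⟩ (by rw [hne])
  obtain ⟨Γ, _, j, z, hZ, A, _, iΓ, R, x, hA⟩ := hEX _ D a' ((hA4 S l hsymm h2 s D hD).2 a')
  obtain ⟨F, hFinj, hF1, hF2⟩ := hA.ext (EA l) i' (gen l s) hext
  have hFi : ∀ g, F (i' g) = iΓ (j g) := fun g => DFunLike.congr_fun hF1 g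
  have hFt : ∀ c : {x : S // x ≠ s}, F (gen l c) = iΓ (j (gen (del l s) c)) := by
    intro c
    rw [← hi', hFi]
  have hτ : F (gen l a) = iΓ (j (D.t a')) := by rw [hFt ⟨a, has⟩, ha']
  let M' : Subgroup A := Subgroup.closure ((fun g => iΓ (j g)) '' (MM D : Set (EA (del l s))) ∪
            {iΓ (j (D.t a')) * x⁻¹ * iΓ (j (D.t a'))})
  have h0 := hH0 _ D a' ((hA4 S l hsymm h2 s D hD).2 a') Γ j z hZ A iΓ R x hA M' rfl
  refine ⟨A, inferInstance, F, M', hFinj, ?_, ?_⟩
  · intro c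
    by_cases hc : c = s
    · subst hc
      have h1 : iΓ (j (D.t a')) * x⁻¹ * iΓ (j (D.t a')) ∈ M' :=
        Subgroup.subset_closure (Or.inr rfl)
      have h3 : F (gen l c) * (F (gen l a))⁻¹ =
          (iΓ (j (D.t a')) * x⁻¹ * iΓ (j (D.t a')))⁻¹ := by
        rw [hF2, hτ]
        group
      rw [h3]
      exact inv_mem h1
    · obtain ⟨k, hk⟩ := hD.surj ⟨c, hc⟩ (by rw [hne])
      have hl : ∀ k, D.l k = 2 := ((hA4 S l hsymm h2 s D hD).2 a').l
      have h1 : D.t k * 1 * (D.t a')⁻¹ ∈ MM D :=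
        Subgroup.subset_closure (Or.inr ⟨k, a', 1, hl k, hl a', one_mem _, rfl⟩)
      have h3 : F (gen l c) * (F (gen l a))⁻¹ = iΓ (j (D.t k * 1 * (D.t a')⁻¹)) := by
        rw [hτ, hFt ⟨c, hc⟩, ← hk]
        simp
      rw [h3]
      exact Subgroup.subset_closure (Or.inl ⟨_, h1, rfl⟩)
  · intro n hn m hm
    have h4 := h0 n hn m hm
    rw [hτ, hF2]
    exact h4

end HH

/-- Module HH. -/
theorem stHH (hEX : StEX) (hH0 : StH0) (hA4 : StA4) : StHH := by
  intro S _ l hsymm h2 u D hD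
  have hsymm' : ∀ s t, del l u s t = del l u t s := fun s t => hsymm s t
  have h2' : ∀ s t : {x : S // x ≠ u}, s ≠ t → del l u s t = 2 := fun s t hst =>
    h2 s t (fun h => hst (Subtype.ext h))
  choose s hs hls using hD.t
  have hB : ∀ b ∈ D.B, b = 1 := by
    intro b hb
    rw [hD.B] at hb
    have h3 : {c : {x : S // x ≠ u} | l u c = 1} = ∅ := by
      ext c
      simp only [Set.mem_ofPred_eq, Set.mem_empty_iff_false, iff_false]
      rw [h2 u c (Ne.symm c.2)]
      decide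
    rw [h3, par, Set.image_empty, Subgroup.closure_empty] at hb
    exact Subgroup.mem_bot.1 hb
  -- the images of the elements of `MM`
  have hMM : ∀ (A : Type) [Group A] (F : EA (del l u) →* A) (M' : Subgroup A)
      (a : {x : S // x ≠ u}), (∀ c, F (gen (del l u) c) * (F (gen (del l u) a))⁻¹ ∈ M') →
      ∀ m ∈ MM D, F m ∈ M' := by
    intro A _ F M' a hc m hm
    have h3 : MM D ≤ M'.comap F := by
      rw [MM, Subgroup.closure_le]
      rintro y (hy | ⟨i, j, b, hi, hj, hb, rfl⟩)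
      · rw [hB y hy]
        exact one_mem _
      · change F (D.t i * b * (D.t j)⁻¹) ∈ M'
        rw [hB b hb, mul_one, hs, hs, map_mul, map_inv]
        have h4 := mul_mem (hc (s i)) (inv_mem (hc (s j)))
        have h5 : F (gen (del l u) (s i)) * (F (gen (del l u) a))⁻¹ *
            (F (gen (del l u) (s j)) * (F (gen (del l u) a))⁻¹)⁻¹ =
            F (gen (del l u) (s i)) * (F (gen (del l u) (s j)))⁻¹ := by group
        rw [← h5]
        exact h4
    exact h3 hm
  -- positive exponents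
  have hpos : ∀ (i j : D.ι) (n : ℕ), 2 ≤ n → ∀ m ∈ MM D,
      D.t i ^ n * m * (D.t j ^ n)⁻¹ ∈ MM D → i = j ∧ m = 1 := by
    intro i j n hn m hm hm'
    by_cases hij : i = j
    · subst hij
      refine ⟨rfl, ?_⟩
      by_cases hex : ∃ a : {x : S // x ≠ u}, a ≠ s i
      · obtain ⟨a, ha⟩ := hex
        obtain ⟨A, _, F, M', hF, hc, hk⟩ :=
          HH.key hEX hH0 hA4 (del l u) hsymm' h2' (s i) a ha
        have h3 := hMM A F M' a hc _ hm'
        rw [map_mul, map_mul, map_inv, map_pow, hs] at h3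
        have h4 := (hk n hn (F m) (hMM A F M' a hc m hm)).1 h3
        exact hF (by rw [h4, map_one])
      · push Not at hex
        have h3 : MM D ≤ ⊥ := by
          rw [MM, Subgroup.closure_le]
          rintro y (hy | ⟨i', j', b, _, _, hb, rfl⟩)
          · exact Subgroup.mem_bot.2 (hB y hy)
          · rw [hB b hb, mul_one, hs, hs, hex (s i'), hex (s j'), mul_inv_cancel]
            exact one_mem _
        exact Subgroup.mem_bot.1 (h3 hm)
    · exfalso
      have hne : s j ≠ s i := by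
        intro h
        apply hij
        apply hD.inj
        rw [hs, hs, h]
      obtain ⟨A, _, F, M', hF, hc, hk⟩ :=
        HH.key hEX hH0 hA4 (del l u) hsymm' h2' (s i) (s j) hne
      have h3 := hMM A F M' (s j) hc _ hm'
      rw [map_mul, map_mul, map_inv, map_pow, map_pow, hs, hs] at h3
      exact (hk n hn (F m) (hMM A F M' (s j) hc m hm)).2 h3
  intro i j n hn m hm hm'
  rcases le_or_gt 0 n with h0 | h0
  · obtain ⟨k, rfl⟩ := Int.eq_ofNat_of_zero_le h0
    have hk : 2 ≤ k := by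
      rw [abs_of_nonneg h0] at hn
      exact_mod_cast hn
    rw [zpow_natCast, zpow_natCast] at hm'
    exact hpos i j k hk m hm hm'
  · obtain ⟨k, hk⟩ := Int.eq_ofNat_of_zero_le (show (0 : ℤ) ≤ -n by omega)
    have hnk : n = -(k : ℤ) := by omega
    have hk2 : 2 ≤ k := by
      rw [abs_of_neg h0] at hn
      omega
    subst hnk
    rw [zpow_neg, zpow_neg, zpow_natCast, zpow_natCast] at hm'
    have h3 : D.t i ^ k * ((D.t i ^ k)⁻¹ * m * ((D.t j ^ k)⁻¹)⁻¹) * (D.t j ^ k)⁻¹ = m := by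
      group
    obtain ⟨rfl, h5⟩ := hpos i j k hk2 _ hm' (by rw [h3]; exact hm)
    refine ⟨rfl, ?_⟩
    rw [← h3, h5, mul_one, mul_inv_cancel]

end Pool.Agent.Lib.MP_551055_al.N5K
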