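import Mathlib
import Pool.Agent.Lib.MP_551055_al.Trim.LD.NG
import Pool.Agent.Lib.MP_551055_al.Trim.LS.Pos
import Pool.Agent.Lib.MP_551055_al.Trim.LS.Ray
import Pool.Agent.Lib.MP_551055_al.Trim.LS.Stmts
import Pool.Agent.Lib.MP_551055_al.Trim.MT.Defs
import Pool.Agent.Lib.MP_551055_al.Trim.MT.Flow2
import Pool.Agent.Lib.MP_551055_al.Trim.MT.K1
import Pool.Agent.Lib.MP_551055_al.Trim.N4.O_17
import Pool.Agent.Lib.MP_551055_al.Trim.N4.Rules_17
import Pool.Agent.Lib.MP_551055_al.Trim.N4.Stmts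
import Pool.Agent.Lib.MP_551055_al.Trim.N5.Base_17
import Pool.Agent.Lib.MP_551055_al.Trim.N5.BasicK_38
import Pool.Agent.Lib.MP_551055_al.Trim.N5.Stmts
import Pool.Agent.Lib.MP_551055_al.Trim.N5.StmtsK28
import Pool.Agent.Lib.MP_551055_al.Trim.RI.Basic
import Pool.Agent.Lib.MP_551055_al.Trim.RI.HNN
import Pool.Agent.Lib.MP_551055_al.Trim.RI.HNN2
import Pool.Agent.Lib.MP_551055_al.Trim.RI.LiftNil
import Pool.Agent.Lib.MP_551055_al.Trim.RI.Stmts
import Pool.Agent.Lib.MP_551055_al.Trim.T4.Mods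
import Pool.Agent.Lib.MP_551055_al.Trim.W17.Main
import Pool.Agent.Lib.MP_551055_al.Trim.W17.StK
import Pool.Agent.Lib.MP_551055_al.Trim.X.MP_e6f638_al.Stmts

/-!
# Module MP: the amalgam is in the class
-/

set_option autoImplicit false

namespace Pool.Agent.Lib.MP_551055_al
end Pool.Agent.Lib.MP_551055_al

namespace Pool.Agent.Lib.MP_e6f638_al
end Pool.Agent.Lib.MP_e6f638_al

namespace Pool.Agent.Lib.MP_551055_al.RI
end Pool.Agent.Lib.MP_551055_al.RI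

namespace Pool.Agent.Lib.MP_551055_al.N4
end Pool.Agent.Lib.MP_551055_al.N4

namespace Pool.Agent.Lib.MP_551055_al.N5
end Pool.Agent.Lib.MP_551055_al.N5

namespace Pool.Agent.Lib.MP_551055_al.N5K

open Pool.Agent.Lib.MP_551055_al

open Pool.Agent.Lib.MP_e6f638_al (Dat)

open Pool.Agent.Lib.MP_551055_al.RI (BTree stabV LiftData LH lf lD lA lf_of mem_lA liftData_hnn)

open Pool.Agent.Lib.MP_551055_al.N4

open Pool.Agent.Lib.MP_551055_al.N5 (MM)

open Multiplicative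

section

variable {G : Type} [Group G] {D : Dat G} {a : D.ι} {Γ : Type} [Group Γ] {j : G →* Γ}
  {z : D.ι → Γ} (hZ : ZExt D Γ j z)

include hZ in
/-- The height of `Γ`. -/
theorem exists_hΓ : ∃ η : Γ →* Multiplicative ℤ, (∀ g, η (j g) = D.h g) ∧
    ∀ y ∈ DD D j z, η y = 1 := by
  obtain ⟨η, h1, h2⟩ := hZ.lift (Multiplicative ℤ) D.h (fun _ => 1)
    fun i => Commute.one_left _
  have h3 : ∀ g, η (j g) = D.h g := fun g => DFunLike.congr_fun h1 g
  refine ⟨η, h3, fun y hy => ?_⟩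
  have h4 : DD D j z ≤ η.ker := by
    rw [DD, Subgroup.closure_le]
    rintro _ (⟨m, hm, rfl⟩ | ⟨i, rfl⟩)
    · rw [SetLike.mem_coe, MonoidHom.mem_ker, h3]
      exact N5.mm_h hm
    · rw [SetLike.mem_coe, MonoidHom.mem_ker, h2]
  exact h4 hy

theorem jM_le {m : G} (hm : m ∈ MM D) : j m ∈ DD D j z :=
  Subgroup.subset_closure (Or.inl ⟨m, hm, rfl⟩)

theorem z_mem (i : D.ι) : z i ∈ DD D j z := Subgroup.subset_closure (Or.inr ⟨i, rfl⟩)

theorem ZZ_le : ZZ D z ≤ DD D j z := by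
  rw [ZZ, Subgroup.closure_le]
  rintro _ ⟨i, rfl⟩
  exact z_mem i

include hZ in
/-- `t a` conjugates `ZZ` into `DD`. -/
theorem conj_ZZ (hF : Four D a) {y : Γ} (hy : y ∈ ZZ D z) :
    j (D.t a) * y * (j (D.t a))⁻¹ ∈ DD D j z := by
  have h1 : ZZ D z ≤ (DD D j z).comap (MulAut.conj (j (D.t a))).toMonoidHom := by
    rw [ZZ, Subgroup.closure_le]
    rintro _ ⟨i, rfl⟩
    change j (D.t a) * z i * (j (D.t a))⁻¹ ∈ DD D j z
    have h2 : j (D.t a) * z i * (j (D.t a))⁻¹ =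
        j (D.t a * (D.t i)⁻¹) * z i * (j (D.t a * (D.t i)⁻¹))⁻¹ := by
      have h3 : z i = (j (D.t i))⁻¹ * z i * j (D.t i) := by
        rw [mul_assoc, (hZ.comm i).eq, inv_mul_cancel_left]
      calc j (D.t a) * z i * (j (D.t a))⁻¹
          = j (D.t a) * ((j (D.t i))⁻¹ * z i * j (D.t i)) * (j (D.t a))⁻¹ := by rw [← h3]
        _ = _ := by
          rw [map_mul, map_inv]
          group
    have h4 : j (D.t a * (D.t i)⁻¹) ∈ DD D j z := jM_le (N5.kk_mem (hF.l a) (hF.l i))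
    rw [h2]
    exact mul_mem (mul_mem h4 (z_mem i)) (inv_mem h4)
  exact h1 hy

end

section

variable {G : Type} [Group G] {D : Dat G} {a : D.ι} {Γ : Type} [Group Γ] {j : G →* Γ}
  {z : D.ι → Γ} {A : Type} [Group A] {iΓ : Γ →* A} {R : Subgroup A} {x : A}

/-- `u`. -/
def UU (j : G →* Γ) (iΓ : Γ →* A) (a : D.ι) (x : A) : A := (iΓ (j (D.t a)))⁻¹ * x

variable (hF : Four D a) (hZ : ZExt D Γ j z) (hA : Amg D a j z iΓ R x)

theorem x_eq : x = iΓ (j (D.t a)) * UU j iΓ a x := by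
  rw [UU, mul_inv_cancel_left]

include hZ hA in
theorem u_comm_z (i : D.ι) : Commute (UU j iΓ a x) (iΓ (z i)) := by
  have h1 := hA.sq i
  have h2 : iΓ (j (D.t i * (D.t a)⁻¹)) * x = iΓ (j (D.t i)) * UU j iΓ a x := by
    rw [UU, map_mul, map_mul, map_inv, map_inv, mul_assoc]
  rw [h2] at h1
  have h3 : Commute (iΓ (j (D.t i)) * UU j iΓ a x) (iΓ (z i)) := by
    rw [← h1]
    exact (Commute.refl _).pow_right 2
  have h4 : Commute (iΓ (j (D.t i))) (iΓ (z i)) := ((hZ.comm i).map iΓ).symm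
  have h5 : UU j iΓ a x = (iΓ (j (D.t i)))⁻¹ * (iΓ (j (D.t i)) * UU j iΓ a x) := by group
  rw [h5]
  exact h4.inv_left.mul_left h3

include hZ hA in
theorem u_comm {y : A} (hy : y ∈ (ZZ D z).map iΓ) : Commute (UU j iΓ a x) y := by
  obtain ⟨w, hw, rfl⟩ := hy
  have h1 : ZZ D z ≤ (Subgroup.centralizer {UU j iΓ a x}).comap iΓ := by
    rw [ZZ, Subgroup.closure_le]
    rintro _ ⟨i, rfl⟩
    rw [SetLike.mem_coe, Subgroup.mem_comap, Subgroup.mem_centralizer_singleton_iff]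
    exact (u_comm_z hZ hA i).eq.symm
  have h2 := h1 hw
  rw [Subgroup.mem_comap, Subgroup.mem_centralizer_singleton_iff] at h2
  exact h2.symm

include hZ hA in
theorem x_conj_Z {y : A} (hy : y ∈ (ZZ D z).map iΓ) :
    x * y * x⁻¹ = iΓ (j (D.t a)) * y * (iΓ (j (D.t a)))⁻¹ := by
  have h1 := (u_comm hZ hA hy).eq
  have h2 : x = iΓ (j (D.t a)) * UU j iΓ a x := x_eq
  have h3 : iΓ (j (D.t a)) * UU j iΓ a x * y * (iΓ (j (D.t a)) * UU j iΓ a x)⁻¹ =
      iΓ (j (D.t a)) * (UU j iΓ a x * y) * (UU j iΓ a x)⁻¹ * (iΓ (j (D.t a)))⁻¹ := by group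
  rw [← h2] at h3
  rw [h3, h1]
  group

theorem ZC_le : (ZZ D z).map iΓ ≤ CC D j z iΓ := Subgroup.map_mono ZZ_le

include hA in
theorem C_le_R : CC D j z iΓ ≤ R := hA.amal.le false

include hA in
theorem mem_CC {y : Γ} : iΓ y ∈ CC D j z iΓ ↔ y ∈ DD D j z := by
  constructor
  · rintro ⟨w, hw, h⟩
    rwa [← hA.injΓ h]
  · exact fun h => ⟨y, h, rfl⟩

include hZ hA in
theorem t_notC : (iΓ (j (D.t a)))⁻¹ ∉ CC D j z iΓ := by
  intro h
  rw [inv_mem_iff, mem_CC hA] at h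
  obtain ⟨η, h1, h2⟩ := exists_hΓ hZ
  have h3 := h2 _ h
  rw [h1, D.h_t] at h3
  exact absurd (congrArg toAdd h3) (by simp)

variable (hW : AmalW (XX iΓ R) (CC D j z iΓ))

include hZ hA hW in
/-- The positive powers of `u` are reduced. -/
theorem u_pow (n : ℕ) : Wd (XX iΓ R) (CC D j z iΓ) true false (UU j iΓ a x ^ (n + 1)) := by
  have h1 : Wd (XX iΓ R) (CC D j z iΓ) true false (UU j iΓ a x) :=
    Wd.cons true false _ _ (inv_mem ⟨_, rfl⟩) (t_notC hZ hA)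
      (Wd.one false x hA.xR hA.xC)
  induction n with
  | zero => rwa [zero_add, pow_one]
  | succ n ih =>
    rw [pow_succ']
    exact hW.mul true false false _ _ h1 ih

include hF hZ hA hW in
/-- The intersection of `C` and its conjugate by a positive power of `u`. -/
theorem U1 (h2 : StT2) (n : ℕ) {y : A} (hy : y ∈ CC D j z iΓ)
    (h : (UU j iΓ a x ^ (n + 1))⁻¹ * y * UU j iΓ a x ^ (n + 1) ∈ CC D j z iΓ) :
    y ∈ (ZZ D z).map iΓ := by
  have h3 : UU j iΓ a x ^ (n + 1) = (iΓ (j (D.t a)))⁻¹ * (x * UU j iΓ a x ^ n) := by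
    rw [pow_succ', UU, mul_assoc]
  have h4 : Wd (XX iΓ R) (CC D j z iΓ) false false (x * UU j iΓ a x ^ n) := by
    cases n with
    | zero => rw [pow_zero, mul_one]; exact Wd.one false x hA.xR hA.xC
    | succ n => exact Wd.cons false false _ _ hA.xR hA.xC (u_pow hZ hA hW n)
  rw [h3] at h
  have h5 := hW.pre true false (iΓ (j (D.t a)))⁻¹ _ (inv_mem ⟨_, rfl⟩) (t_notC hZ hA) h4 y hy h
  obtain ⟨d, hd, rfl⟩ := hy
  have h6 : (iΓ (j (D.t a)))⁻¹⁻¹ * iΓ d * (iΓ (j (D.t a)))⁻¹ =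
      iΓ (j (D.t a) * d * (j (D.t a))⁻¹) := by
    simp only [map_mul, map_inv, inv_inv]
  rw [h6, mem_CC hA] at h5
  exact ⟨d, h2 G D a hF Γ j z hZ d hd h5, rfl⟩

include hF hZ hA hW in
/-- The intersection of `C` and its conjugate by a power of `u`. -/
theorem U2 (h2 : StT2) (m : ℤ) (hm : m ≠ 0) {y : A} (hy : y ∈ CC D j z iΓ)
    (h : (UU j iΓ a x ^ m)⁻¹ * y * UU j iΓ a x ^ m ∈ CC D j z iΓ) :
    y ∈ (ZZ D z).map iΓ := by
  obtain ⟨n, rfl | rfl⟩ := m.eq_nat_or_neg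
  · obtain ⟨k, rfl⟩ : ∃ k, n = k + 1 := ⟨n - 1, by omega⟩
    rw [zpow_natCast] at h
    exact U1 hF hZ hA hW h2 k hy h
  · obtain ⟨k, rfl⟩ : ∃ k, n = k + 1 := ⟨n - 1, by omega⟩
    rw [zpow_neg, zpow_natCast, inv_inv] at h
    have h3 : (UU j iΓ a x ^ (k + 1))⁻¹ * (UU j iΓ a x ^ (k + 1) * y *
        (UU j iΓ a x ^ (k + 1))⁻¹) * UU j iΓ a x ^ (k + 1) = y := by group
    have h4 := U1 hF hZ hA hW h2 k h (by rw [h3]; exact hy)
    have h5 := (u_comm hZ hA h4).pow_left (k + 1)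
    rw [h5.inv_left.eq, mul_assoc, inv_mul_cancel, mul_one] at h3
    rwa [h3] at h4

variable (ret : A →* G) (r1 : (ret.comp iΓ).comp j = MonoidHom.id G)
  (r2 : ∀ i, ret (iΓ (z i)) = D.t i ^ 2)

include hF hZ hA r1 r2 in
/-- `ZZ` and its conjugates by elements of `R`. -/
theorem RZ (h1 : StT1) (h2 : StT2) (hN : HN D) {y : A} (hy : y ∈ (ZZ D z).map iΓ) (hy1 : y ≠ 1)
    (hry : ret y = 1) {r : A} (hr : r ∈ R) (h : r⁻¹ * y * r ∈ (ZZ D z).map iΓ) :
    r ∈ (ZZ D z).map iΓ := by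
  obtain ⟨ζ, hζ, rfl⟩ := hy
  obtain ⟨ζ', hζ', hh⟩ := h
  obtain ⟨η, e1, e2⟩ := exists_hΓ hZ
  have hne : ζ ≠ 1 := fun h => hy1 (by rw [h, map_one])
  -- the element for T1
  have key : ∀ k : Γ, k⁻¹ * (j (D.t a) * ζ * (j (D.t a))⁻¹) * k ∈ DD D j z →
      (η k ≠ ofAdd 1) → (η k ≠ ofAdd (-1)) → k ∈ DD D j z := by
    intro k hk k1 k2
    have n1 : j (D.t a) * ζ * (j (D.t a))⁻¹ ≠ 1 := by
      intro h3
      apply hne
      have h4 : ζ = (j (D.t a))⁻¹ * (j (D.t a) * ζ * (j (D.t a))⁻¹) * j (D.t a) := by group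
      rw [h4, h3, mul_one, inv_mul_cancel]
    have n2 : (ret.comp iΓ) (j (D.t a) * ζ * (j (D.t a))⁻¹) = 1 := by
      rw [map_mul, map_mul, MonoidHom.comp_apply ret iΓ ζ, hry, mul_one, ← map_mul,
        mul_inv_cancel, map_one]
    rcases h1 G D a hF hN Γ j z hZ (ret.comp iΓ) r1 r2 k (j (D.t a) * ζ * (j (D.t a))⁻¹)
      (conj_ZZ hZ hF hζ) n1 n2 hk with h3 | ⟨δ, hδ, δ', hδ', h3, _⟩ | ⟨δ, hδ, δ', hδ', h3, _⟩
    · exact h3
    · exfalso
      apply k2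
      rw [h3, map_mul, map_mul, e2 δ hδ, e2 δ' hδ', map_inv, e1, D.h_t, one_mul, mul_one]
      rfl
    · exfalso
      apply k1
      rw [h3, map_mul, map_mul, e2 δ hδ, e2 δ' hδ', e1, D.h_t, one_mul, mul_one]
  have hηt : η (j (D.t a)) = ofAdd 1 := by rw [e1, D.h_t]
  rcases hA.two r hr with ⟨δ, hδ, rfl⟩ | ⟨c, ⟨δ, hδ, rfl⟩, rfl⟩
  · -- even elements
    have h3 : δ⁻¹ * ζ * δ = ζ' := hA.injΓ (by rw [hh, map_mul, map_mul, map_inv])
    have h4 : j (D.t a) * δ * (j (D.t a))⁻¹ ∈ DD D j z := by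
      have h5 : η (j (D.t a) * δ * (j (D.t a))⁻¹) = 1 := by
        rw [map_mul, map_mul, map_inv, e2 δ hδ, mul_one, mul_inv_cancel]
      refine key _ ?_ ?_ ?_
      · have h6 : (j (D.t a) * δ * (j (D.t a))⁻¹)⁻¹ * (j (D.t a) * ζ * (j (D.t a))⁻¹) *
            (j (D.t a) * δ * (j (D.t a))⁻¹) = j (D.t a) * (δ⁻¹ * ζ * δ) * (j (D.t a))⁻¹ := by
          group
        rw [h6, h3]
        exact conj_ZZ hZ hF hζ'
      · rw [h5]
        exact fun h => absurd (congrArg toAdd h) (by simp)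
      · rw [h5]
        exact fun h => absurd (congrArg toAdd h) (by simp)
    exact ⟨δ, h2 G D a hF Γ j z hZ δ hδ h4, rfl⟩
  · -- odd elements
    exfalso
    have h3 : δ⁻¹ * ζ * δ = j (D.t a) * ζ' * (j (D.t a))⁻¹ := by
      apply hA.injΓ
      have h4 := x_conj_Z (x := x) hZ hA (y := iΓ ζ') ⟨ζ', hζ', rfl⟩
      simp only [map_mul, map_inv]
      rw [← h4, hh]
      group
    have h5 : η (j (D.t a) * δ * j (D.t a)) = ofAdd 2 := by
      rw [map_mul, map_mul, e2 δ hδ, mul_one, hηt]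
      rfl
    have h6 : j (D.t a) * δ * j (D.t a) ∈ DD D j z := by
      refine key _ ?_ ?_ ?_
      · have h6 : (j (D.t a) * δ * j (D.t a))⁻¹ * (j (D.t a) * ζ * (j (D.t a))⁻¹) *
            (j (D.t a) * δ * j (D.t a)) = (j (D.t a))⁻¹ * (δ⁻¹ * ζ * δ) * j (D.t a) := by
          group
        have h7 : (j (D.t a))⁻¹ * (j (D.t a) * ζ' * (j (D.t a))⁻¹) * j (D.t a) = ζ' := by group
        rw [h6, h3, h7]
        exact ZZ_le hζ'
      · rw [h5]
        exact fun h => absurd (congrArg toAdd h) (by simp)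
      · rw [h5]
        exact fun h => absurd (congrArg toAdd h) (by simp)
    have h7 := e2 _ h6
    rw [h5] at h7
    exact absurd (congrArg toAdd h7) (by simp)

include hF hZ hA r1 r2 in
/-- Elements of `Γ` with a special element. -/
theorem K1 (h1 : StT1) (hN : HN D) {y : A} (hy : y ∈ CC D j z iΓ) (hy1 : y ≠ 1)
    (hry : ret y = 1) {g : A} (hg : g ∈ iΓ.range) (hgC : g ∉ CC D j z iΓ)
    (h : g⁻¹ * y * g ∈ CC D j z iΓ) :
    ∃ ε : ℤ, ∃ σ ∈ R, ∃ ρ ∈ R, g = σ * UU j iΓ a x ^ ε * ρ ∧ σ⁻¹ * y * σ ∈ (ZZ D z).map iΓ := by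
  obtain ⟨k, rfl⟩ := hg
  obtain ⟨d, hd, rfl⟩ := hy
  have h3 : k⁻¹ * d * k ∈ DD D j z := by
    rw [← mem_CC hA]
    rwa [map_mul, map_mul, map_inv]
  rcases h1 G D a hF hN Γ j z hZ (ret.comp iΓ) r1 r2 k d hd (fun h => hy1 (by rw [h, map_one]))
    hry h3 with h4 | ⟨δ, hδ, δ', hδ', h4, h5⟩ | ⟨δ, hδ, δ', hδ', h4, h5⟩
  · exact absurd ⟨k, h4, rfl⟩ hgC
  · refine ⟨1, iΓ δ, C_le_R hA ⟨δ, hδ, rfl⟩, x⁻¹ * iΓ δ', mul_mem (inv_mem hA.xR)
      (C_le_R hA ⟨δ', hδ', rfl⟩), ?_, ⟨_, h5, by simp only [map_mul, map_inv]⟩⟩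
    rw [h4, zpow_one, UU]
    simp only [map_mul, map_inv]
    group
  · refine ⟨-1, iΓ δ * x, mul_mem (C_le_R hA ⟨δ, hδ, rfl⟩) hA.xR, iΓ δ',
      C_le_R hA ⟨δ', hδ', rfl⟩, ?_, ?_⟩
    · rw [h4, zpow_neg, zpow_one, UU]
      simp only [map_mul]
      group
    · have h6 := x_conj_Z (x := x) hZ hA (y := iΓ ((j (D.t a))⁻¹ * δ⁻¹ * d * δ * j (D.t a)))
        ⟨_, h5, rfl⟩
      have h7 : iΓ (j (D.t a)) * iΓ ((j (D.t a))⁻¹ * δ⁻¹ * d * δ * j (D.t a)) *
          (iΓ (j (D.t a)))⁻¹ = (iΓ δ)⁻¹ * iΓ d * iΓ δ := by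
        simp only [map_mul, map_inv]
        group
      rw [h7] at h6
      have h8 : (iΓ δ * x)⁻¹ * iΓ d * (iΓ δ * x) = x⁻¹ * ((iΓ δ)⁻¹ * iΓ d * iΓ δ) * x := by group
      refine ⟨_, h5, ?_⟩
      rw [h8, ← h6]
      group

include hF hZ hA hW r1 r2 in
/-- Elements with a special element. -/
theorem PC (h1 : StT1) (h2 : StT2) (hN : HN D) (s e : Bool) (g : A)
    (hg : Wd (XX iΓ R) (CC D j z iΓ) s e g) : ∀ y ∈ CC D j z iΓ, y ≠ 1 → ret y = 1 →
      g⁻¹ * y * g ∈ CC D j z iΓ → ∃ m : ℤ, ∃ r ∈ R, ∃ r' ∈ R, g = r * UU j iΓ a x ^ m * r' := by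
  induction hg with
  | one s g hgs hgC =>
    intro y hy hy1 hry h
    cases s with
    | false => exact ⟨0, g, hgs, 1, one_mem _, by rw [zpow_zero, mul_one, mul_one]⟩
    | true =>
      obtain ⟨ε, σ, hσ, ρ, hρ, h3, _⟩ := K1 hF hZ hA ret r1 r2 h1 hN hy hy1 hry hgs hgC h
      exact ⟨ε, σ, hσ, ρ, hρ, h3⟩
  | cons s e g g' hgs hgC hg' ih =>
    intro y hy hy1 hry h
    have h3 := hW.pre s e g g' hgs hgC hg' y hy h
    have h4 : g⁻¹ * y * g ≠ 1 := by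
      intro h4
      apply hy1
      have h5 : y = g * (g⁻¹ * y * g) * g⁻¹ := by group
      rw [h5, h4, mul_one, mul_inv_cancel]
    have h5 : ret (g⁻¹ * y * g) = 1 := by
      rw [map_mul, map_mul, hry, mul_one, ← map_mul, inv_mul_cancel, map_one]
    have h6 : g'⁻¹ * (g⁻¹ * y * g) * g' ∈ CC D j z iΓ := by
      have h6 : g'⁻¹ * (g⁻¹ * y * g) * g' = (g * g')⁻¹ * y * (g * g') := by group
      rw [h6]
      exact h
    obtain ⟨m, r, hr, r', hr', h7⟩ := ih _ h3 h4 h5 h6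
    cases s with
    | false =>
      exact ⟨m, g * r, mul_mem hgs hr, r', hr', by rw [h7]; group⟩
    | true =>
      obtain ⟨ε, σ, hσ, ρ, hρ, h8, h9⟩ := K1 hF hZ hA ret r1 r2 h1 hN hy hy1 hry hgs hgC h3
      rcases eq_or_ne m 0 with rfl | hm
      · refine ⟨ε, σ, hσ, ρ * r * r', mul_mem (mul_mem hρ hr) hr', ?_⟩
        rw [h8, h7, zpow_zero, mul_one]
        group
      · -- the conjugate of `y` by `g r`
        have h10 : r⁻¹ * (g⁻¹ * y * g) * r = (ρ * r)⁻¹ * (σ⁻¹ * y * σ) * (ρ * r) := by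
          have h11 := ((u_comm hZ hA h9).zpow_left ε).eq
          have h12 : g⁻¹ * y * g = ρ⁻¹ * ((UU j iΓ a x ^ ε)⁻¹ *
              ((σ⁻¹ * y * σ) * UU j iΓ a x ^ ε)) * ρ := by
            rw [h8]
            group
          rw [h12, ← h11, inv_mul_cancel_left]
          group
        have h13 : r⁻¹ * (g⁻¹ * y * g) * r ∈ (ZZ D z).map iΓ := by
          refine U2 hF hZ hA hW h2 m hm (hA.norm r hr _ h3) ?_
          have h14 := hA.norm r'⁻¹ (inv_mem hr') _ h6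
          have h15 : r'⁻¹⁻¹ * (g'⁻¹ * (g⁻¹ * y * g) * g') * r'⁻¹ = (UU j iΓ a x ^ m)⁻¹ *
              (r⁻¹ * (g⁻¹ * y * g) * r) * UU j iΓ a x ^ m := by
            rw [h7]
            group
          rwa [h15] at h14
        rw [h10] at h13
        have h16 : ρ * r ∈ (ZZ D z).map iΓ := by
          refine RZ hF hZ hA ret r1 r2 h1 h2 hN h9 ?_ ?_ (mul_mem hρ hr) h13
          · intro h16
            apply hy1
            have h17 : y = σ * (σ⁻¹ * y * σ) * σ⁻¹ := by group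
            rw [h17, h16, mul_one, mul_inv_cancel]
          · rw [map_mul, map_mul, hry, mul_one, ← map_mul, inv_mul_cancel, map_one]
        refine ⟨ε + m, σ * (ρ * r), mul_mem hσ (mul_mem hρ hr), r', hr', ?_⟩
        have h17 := ((u_comm hZ hA h16).zpow_left ε).eq
        calc g * g' = σ * (UU j iΓ a x ^ ε * (ρ * r)) * UU j iΓ a x ^ m * r' := by
              rw [h7, h8]
              group
          _ = _ := by
              rw [h17, zpow_add]
              group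

end

/-- Module MP. -/
theorem stMP (h1 : StT1) (h2 : StT2) (h3 : StAW) : StMP := by
  intro P hP G _ D a hF hN Γ _ j z hZ A _ iΓ R x hA hG hΓ
  have hW := h3 A _ _ hA.amal
  obtain ⟨ret, r1, r2, r3⟩ := hA.ret
  obtain ⟨ρ, hρ⟩ := hA.emb
  have hAh : P D.Ah := hP.cent G D.B hG
  have hR : P R := hP.lift _ _ ρ (lift_of_injective _ hρ) hAh
  have hΓ' : P iΓ.range := by
    refine hP.lift _ _ (MonoidHom.ofInjective hA.injΓ).symm.toMonoidHom (lift_of_injective _ ?_) hΓ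
    exact (MonoidHom.ofInjective hA.injΓ).symm.injective
  have hX : ∀ s, P (XX iΓ R s) := by
    intro s
    cases s
    · exact hR
    · exact hΓ'
  have hC : P (CC D j z iΓ) := by
    refine hP.lift _ _ (Subgroup.inclusion (C_le_R hA)) (lift_of_injective _ ?_) hR
    exact Subgroup.inclusion_injective _
  obtain ⟨t, t1, t2⟩ := hA.tree
  refine hP.edge A t (fun v => ?_) fun u v huv g => ?_
  · obtain ⟨s, k, hk⟩ := t1 v
    refine hP.lift _ _ (((MulAut.conj k⁻¹).toMonoidHom.comp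
      (MulAction.stabilizer A v).subtype).codRestrict (XX iΓ R s) fun y => ?_)
      (lift_of_injective _ ?_) (hX s)
    · have h4 := hk y y.2
      change k⁻¹ * (y : A) * k⁻¹⁻¹ ∈ _
      rwa [inv_inv]
    · intro y y' hyy
      have h5 : k⁻¹ * (y : A) * k⁻¹⁻¹ = k⁻¹ * (y' : A) * k⁻¹⁻¹ := congrArg Subtype.val hyy
      exact Subtype.ext (mul_left_cancel (mul_right_cancel h5))
  · obtain ⟨k, hk⟩ := t2 u v huv
    have hg : g = k * (k⁻¹ * g * k) * k⁻¹ := by group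
    by_cases hA1 : ∀ y ∈ CC D j z iΓ, (k⁻¹ * g * k)⁻¹ * y * (k⁻¹ * g * k) ∈ CC D j z iΓ →
        ret y = 1 → y = 1
    · refine ⟨LH (CC D j z iΓ) (k⁻¹ * g * k), inferInstance, _, _, HNNExtension.t,
        liftData_conj (D₀ := CC D j z iΓ) (liftData_hnn (CC D j z iΓ) (k⁻¹ * g * k)) k hk hg,
        ?_⟩
      refine hP.hnn _ _ _ _ G (ret.comp (lf (CC D j z iΓ) (k⁻¹ * g * k))) hC hG
        fun y hy h6 => ?_
      rw [MonoidHom.comp_apply, lf_of] at h6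
      rw [mem_lA] at hy
      have h7 := hA1 _ hy (by
        have h8 : (k⁻¹ * g * k)⁻¹ * (k⁻¹ * g * k * (y : A) * (k⁻¹ * g * k)⁻¹) *
          (k⁻¹ * g * k) = y := by group
        rw [h8]
        exact y.2) (by
        rw [map_mul, map_mul, h6, mul_one, ← map_mul, mul_inv_cancel, map_one])
      apply Subtype.ext
      have h8 : (y : A) = (k⁻¹ * g * k)⁻¹ *
          (k⁻¹ * g * k * (y : A) * (k⁻¹ * g * k)⁻¹) * (k⁻¹ * g * k) := by group
      rw [h8, h7, mul_one, inv_mul_cancel]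
      rfl
    · push Not at hA1
      obtain ⟨y, hy, hy1, hy2, hy3⟩ := hA1
      obtain ⟨m, r, hr, r', hr', h4⟩ : ∃ m : ℤ, ∃ r ∈ R, ∃ r' ∈ R,
          k⁻¹ * g * k = r * UU j iΓ a x ^ m * r' := by
        rcases hA.amal.cases (k⁻¹ * g * k) with h5 | ⟨s, e, h5⟩
        · exact ⟨0, _, C_le_R hA h5, 1, one_mem _, by rw [zpow_zero, mul_one, mul_one]⟩
        · exact PC hF hZ hA hW ret r1 r2 h1 h2 hN s e _ h5 y hy hy3 hy2 hy1
      obtain ⟨G₁, _, jR, w, hG₁, hw, huniv⟩ := hP.one hR {c : R | (c : A) ∈ (ZZ D z).map iΓ}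
      obtain ⟨F, hF1, hF2⟩ := huniv A R.subtype (UU j iΓ a x ^ m) fun c hc =>
        (u_comm hZ hA hc).zpow_left m
      have hFj : ∀ c : R, F (jR c) = c := fun c => DFunLike.congr_fun hF1 c
      have hsub : ∀ c : R, (c : A) ∈ CC D j z iΓ →
          jR c ∈ ((CC D j z iΓ).subgroupOf R).map jR := fun c hc => ⟨c, hc, rfl⟩
      refine ⟨G₁, inferInstance, _, ((CC D j z iΓ).subgroupOf R).map jR,
        jR ⟨r, hr⟩ * (if m = 0 then 1 else w) * jR ⟨r', hr'⟩,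
        liftData_conj (D₀ := CC D j z iΓ) (f := F) (g₀ := k⁻¹ * g * k) ?_ k hk hg, hG₁⟩
      refine ⟨?_, ?_, ?_, ?_, ?_⟩
      · rintro _ ⟨c, hc, rfl⟩
        rw [hFj]
        exact hc
      · intro c hc
        exact ⟨_, hsub ⟨c, C_le_R hA hc⟩ hc, hFj _⟩
      · rintro _ ⟨c, hc, rfl⟩ h6
        rw [hFj] at h6
        have h7 : c = 1 := Subtype.ext h6
        rw [h7, map_one]
      · rw [map_mul, map_mul, hFj, hFj, h4]
        split_ifs with h6
        · rw [h6, map_one, zpow_zero]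
        · rw [hF2]
      · rintro _ ⟨c, hc, rfl⟩ h6
        rw [hFj, h4] at h6
        have hc' : (c : A) ∈ CC D j z iΓ := hc
        split_ifs with h7
        · have h12 := hsub (⟨r', hr'⟩⁻¹ * (⟨r, hr⟩⁻¹ * c * ⟨r, hr⟩) * ⟨r', hr'⟩)
            (hA.norm r' hr' _ (hA.norm r hr _ hc'))
          convert h12 using 1
          simp only [map_mul, map_inv]
          group
        · have h8 : r⁻¹ * (c : A) * r ∈ (ZZ D z).map iΓ := by
            refine U2 hF hZ hA hW h2 m h7 (hA.norm r hr _ hc') ?_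
            have h9 := hA.norm r'⁻¹ (inv_mem hr') _ h6
            have h10 : r'⁻¹⁻¹ * ((r * UU j iΓ a x ^ m * r')⁻¹ * (c : A) *
                (r * UU j iΓ a x ^ m * r')) * r'⁻¹ = (UU j iΓ a x ^ m)⁻¹ * (r⁻¹ * (c : A) * r) *
                UU j iΓ a x ^ m := by group
            rwa [h10] at h9
          have h11 := (hw (⟨r, hr⟩⁻¹ * c * ⟨r, hr⟩) h8).eq
          have h12 := hsub (⟨r', hr'⟩⁻¹ * (⟨r, hr⟩⁻¹ * c * ⟨r, hr⟩) * ⟨r', hr'⟩)
            (hA.norm r' hr' _ (ZC_le h8))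
          convert h12 using 1
          calc (jR ⟨r, hr⟩ * w * jR ⟨r', hr'⟩)⁻¹ * jR c * (jR ⟨r, hr⟩ * w * jR ⟨r', hr'⟩)
              = (jR ⟨r', hr'⟩)⁻¹ * (w⁻¹ * (jR (⟨r, hr⟩⁻¹ * c * ⟨r, hr⟩) * w)) *
                  jR ⟨r', hr'⟩ := by
                simp only [map_mul, map_inv]
                group
            _ = _ := by
                rw [← h11, inv_mul_cancel_left]
                simp only [map_mul, map_inv]

end Pool.Agent.Lib.MP_551055_al.N5K
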