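import Mathlib
import Pool.Agent.Lib.MP_551055_al.Trim.N4.O_17
import Pool.Agent.Lib.MP_551055_al.Trim.N4.Rules_17
import Pool.Agent.Lib.MP_551055_al.Trim.N5.MP_28
import Pool.Agent.Lib.MP_551055_al.Trim.N5.Stmts
import Pool.Agent.Lib.MP_551055_al.Trim.N5.StmtsK28
import Pool.Agent.Lib.MP_551055_al.Trim.X.MP_e6f638_al.I1
import Pool.Agent.Lib.MP_551055_al.Trim.X.MP_e6f638_al.I2
import Pool.Agent.Lib.MP_551055_al.Trim.X.MP_e6f638_al.Stmts

/-!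
# All labels four
-/

set_option autoImplicit false

namespace Pool.Agent.Lib.MP_551055_al
end Pool.Agent.Lib.MP_551055_al

namespace Pool.Agent.Lib.MP_e6f638_al
end Pool.Agent.Lib.MP_e6f638_al

namespace Pool.Agent.Lib.MP_551055_al.RI
end Pool.Agent.Lib.MP_551055_al.RI

namespace Pool.Agent.Lib.MP_551055_al.N4
end Pool.Agent.Lib.MP_551055_al.N4

namespace Pool.Agent.Lib.MP_551055_al.N5
end Pool.Agent.Lib.MP_551055_al.N5

namespace Pool.Agent.Lib.MP_551055_al.N5K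

open Pool.Agent.Lib.MP_551055_al

open Pool.Agent.Lib.MP_e6f638_al (Dat EA gen par rho del IsDatOf IsAxis)

open Pool.Agent.Lib.MP_551055_al.RI

open Pool.Agent.Lib.MP_551055_al.N4

open Pool.Agent.Lib.MP_551055_al.N5 (MM Mix)

/-- All labels four. -/
theorem stK4 (hT1 : StT1) (hT2 : StT2) (hAW : StAW) (hEX : StEX) (hGP : StGP) (hHH : StHH)
    (hA4 : StA4) : StK4 := by
  intro P hP S _ l hl h4 u v huv hG
  obtain ⟨D, hD, i, hi1, hi2, hExt⟩ := Pool.Agent.Lib.MP_e6f638_al.stI2 S l hl u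
    ⟨⟨v, huv.symm⟩, by change l u v ≠ 1; rw [h4 u v huv]; omega⟩
  obtain ⟨hfin, hF⟩ := hA4 S l hl h4 u D hD
  obtain ⟨a, ha⟩ := hD.surj ⟨v, huv.symm⟩ (by change 2 ≤ l u v; rw [h4 u v huv])
  have hN := hHH S l hl h4 u D hD
  obtain ⟨Γ, _, j, z, hZ, A, _, iΓ, R, x, hA⟩ := hEX _ D a (hF a)
  have hΓ := hGP P hP _ D hfin Γ j z hZ hG
  have hPA := stMP hT1 hT2 hAW P hP _ D a (hF a) hN Γ j z hZ A iΓ R x hA hG hΓ
  obtain ⟨F, hFi, _, _⟩ := hA.ext (EA l) i (gen l u) hExt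
  exact hP.lift _ _ F (lift_of_injective F hFi) hPA

end Pool.Agent.Lib.MP_551055_al.N5K
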