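import Mathlib
import Pool.Agent.Lib.MP_551055_al.Trim.LS.BassProj
import Pool.Agent.Lib.MP_551055_al.Trim.LS.PStmts
import Pool.Agent.Lib.MP_551055_al.Trim.LS.Ray
import Pool.Agent.Lib.MP_551055_al.Trim.LS.Stmts
import Pool.Agent.Lib.MP_551055_al.Trim.LS.TreeB
import Pool.Agent.Lib.MP_551055_al.Trim.MT.Defs
import Pool.Agent.Lib.MP_551055_al.Trim.MT.Flow2
import Pool.Agent.Lib.MP_551055_al.Trim.MT.K1
import Pool.Agent.Lib.MP_551055_al.Trim.N4.Line_4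
import Pool.Agent.Lib.MP_551055_al.Trim.N4.Stmts
import Pool.Agent.Lib.MP_551055_al.Trim.N5.Base_17
import Pool.Agent.Lib.MP_551055_al.Trim.N5.Stmts
import Pool.Agent.Lib.MP_551055_al.Trim.N5.StmtsK28
import Pool.Agent.Lib.MP_551055_al.Trim.RI.LiftNil
import Pool.Agent.Lib.MP_551055_al.Trim.RI.Stmts
import Pool.Agent.Lib.MP_551055_al.Trim.X.MP_e6f638_al.B1
import Pool.Agent.Lib.MP_551055_al.Trim.X.MP_e6f638_al.GDefs
import Pool.Agent.Lib.MP_551055_al.Trim.X.MP_e6f638_al.I1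
import Pool.Agent.Lib.MP_551055_al.Trim.X.MP_e6f638_al.Stmts

/-!
# Module T1: two fixed edges at one vertex
-/

set_option autoImplicit false

namespace Pool.Agent.Lib.MP_551055_al
end Pool.Agent.Lib.MP_551055_al

namespace Pool.Agent.Lib.MP_e6f638_al
end Pool.Agent.Lib.MP_e6f638_al

namespace Pool.Agent.Lib.MP_551055_al.LS
end Pool.Agent.Lib.MP_551055_al.LS

namespace Pool.Agent.Lib.MP_551055_al.RI
end Pool.Agent.Lib.MP_551055_al.RI

namespace Pool.Agent.Lib.MP_551055_al.N4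
end Pool.Agent.Lib.MP_551055_al.N4

namespace Pool.Agent.Lib.MP_551055_al.N5
end Pool.Agent.Lib.MP_551055_al.N5

namespace Pool.Agent.Lib.MP_551055_al.N5K

open Pool.Agent.Lib.MP_551055_al

open Pool.Agent.Lib.MP_e6f638_al (Dat EA gen par rho del IsDatOf IsAxis)

open Pool.Agent.Lib.MP_551055_al.LS (TreeAct ZN)

open Pool.Agent.Lib.MP_551055_al.RI (BTree stabV LiftData)

open Pool.Agent.Lib.MP_551055_al.N4

open Pool.Agent.Lib.MP_551055_al.N5 (MM Mix mm_h)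

open Multiplicative

namespace T154

section

variable {G : Type} [Group G] {D : Dat G} {Γ : Type} [Group Γ] {j : G →* Γ} {z : D.ι → Γ}

theorem exists_kap (hE : ZExt D Γ j z) :
    ∃ κ : Γ →* G, (∀ g, κ (j g) = g) ∧ (∀ i, κ (z i) = 1) ∧ ∀ y ∈ DD D j z, κ y ∈ MM D := by
  obtain ⟨κ, h1, h2⟩ := hE.lift G (MonoidHom.id G) (fun _ => 1) (fun i => Commute.one_left _)
  have h1' : ∀ g, κ (j g) = g := fun g => DFunLike.congr_fun h1 g
  refine ⟨κ, h1', h2, fun y hy => ?_⟩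
  have h3 : DD D j z ≤ (MM D).comap κ := by
    rw [DD, Subgroup.closure_le]
    rintro _ (⟨m, hm, rfl⟩ | ⟨i, rfl⟩)
    · rw [SetLike.mem_coe, Subgroup.mem_comap, h1']
      exact hm
    · rw [SetLike.mem_coe, Subgroup.mem_comap, h2]
      exact one_mem _
  exact h3 hy

theorem mm_of (hE : ZExt D Γ j z) {g : G} (h : j g ∈ DD D j z) : g ∈ MM D := by
  obtain ⟨κ, h1, _, h3⟩ := exists_kap hE
  have h4 := h3 _ h
  rwa [h1] at h4

theorem exists_eta (hE : ZExt D Γ j z) :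
    ∃ η : Γ →* Multiplicative ℤ, (∀ g, η (j g) = D.h g) ∧ (∀ i, η (z i) = 1) ∧
      ∀ y ∈ DD D j z, η y = 1 := by
  obtain ⟨η, h1, h2⟩ := hE.lift (Multiplicative ℤ) D.h (fun _ => 1) (fun i => Commute.one_left _)
  have h1' : ∀ g, η (j g) = D.h g := fun g => DFunLike.congr_fun h1 g
  refine ⟨η, h1', h2, fun y hy => ?_⟩
  have h3 : DD D j z ≤ η.ker := by
    rw [DD, Subgroup.closure_le]
    rintro _ (⟨m, hm, rfl⟩ | ⟨i, rfl⟩)
    · rw [SetLike.mem_coe, MonoidHom.mem_ker, h1']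
      exact mm_h hm
    · rw [SetLike.mem_coe, MonoidHom.mem_ker, h2]
  exact h3 hy

theorem jM {m : G} (hm : m ∈ MM D) : j m ∈ DD D j z := Subgroup.subset_closure (Or.inl ⟨m, hm, rfl⟩)

theorem zmem (i : D.ι) : z i ∈ DD D j z := Subgroup.subset_closure (Or.inr ⟨i, rfl⟩)

theorem zzmem (i : D.ι) : z i ∈ ZZ D z := Subgroup.subset_closure ⟨i, rfl⟩

theorem tz (n : ℤ) (i : D.ι) : D.h (D.t i ^ n) = ofAdd n := by
  rw [map_zpow, D.h_t, ← ofAdd_zsmul, smul_eq_mul, mul_one]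

/-- Powers of `t i` of height zero are trivial. -/
theorem tpow_one {i : D.ι} {m : G} (h1 : D.h m = 1) (h2 : m ∈ Subgroup.zpowers (D.t i)) :
    m = 1 := by
  obtain ⟨n, rfl⟩ := h2
  change D.h (D.t i ^ n) = 1 at h1
  rw [tz, ← ofAdd_zero] at h1
  have h3 : n = 0 := ofAdd.injective h1
  change D.t i ^ n = 1
  rw [h3, zpow_zero]

theorem tpow_eq {i : D.ι} {m : G} {n : ℤ} (h1 : D.h m = ofAdd n)
    (h2 : m ∈ Subgroup.zpowers (D.t i)) : m = D.t i ^ n := by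
  obtain ⟨n', rfl⟩ := h2
  change D.h (D.t i ^ n') = _ at h1
  rw [tz] at h1
  have h3 : n' = n := ofAdd.injective h1
  change D.t i ^ n' = _
  rw [h3]

end

section

variable {G : Type} [Group G] {D : Dat G} {Γ : Type} [Group Γ] {j : G →* Γ} {z : D.ι → Γ}

variable {V : Type} [MulAction Γ V] {T : SimpleGraph V} {v₀ : V}

/-- The graph of the edges `d (v₀, z i v₀)`. -/
def HD (D : Dat G) (j : G →* Γ) (z : D.ι → Γ) (T : SimpleGraph V) (v₀ : V) : SimpleGraph V where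
  Adj v w := T.Adj v w ∧ ∃ d ∈ DD D j z, ∃ (i : D.ι) (ε : ℤˣ), v = d • v₀ ∧
    w = (d * z i ^ (ε : ℤ)) • v₀
  symm := ⟨by
    rintro v w ⟨h, d, hd, i, ε, rfl, rfl⟩
    refine ⟨h.symm, d * z i ^ (ε : ℤ), mul_mem hd (zpow_mem (zmem i) _), i, -ε, rfl, ?_⟩
    rw [Units.val_neg, zpow_neg, mul_inv_cancel_right]⟩
  loopless := ⟨fun v h => h.1.ne rfl⟩

theorem HD_le : HD D j z T v₀ ≤ T := fun _ _ h => h.1

theorem HD_smul (hT : TreeAct Γ V T) {g : Γ} (hg : g ∈ DD D j z) {v w : V}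
    (h : (HD D j z T v₀).Adj v w) : (HD D j z T v₀).Adj (g • v) (g • w) := by
  obtain ⟨h1, d, hd, i, ε, rfl, rfl⟩ := h
  exact ⟨hT.adj _ _ _ h1, g * d, mul_mem hg hd, i, ε, (mul_smul _ _ _).symm, by
    rw [← mul_smul, mul_assoc]⟩

theorem HD_smul_iff (hT : TreeAct Γ V T) {g : Γ} (hg : g ∈ DD D j z) (v w : V) :
    (HD D j z T v₀).Adj v w ↔ (HD D j z T v₀).Adj (g • v) (g • w) := by
  refine ⟨HD_smul hT hg, fun h => ?_⟩
  have h1 := HD_smul hT (inv_mem hg) h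
  rwa [inv_smul_smul, inv_smul_smul] at h1

theorem adj_z (hZ : ZTree D j z V T v₀) (i : D.ι) (ε : ℤˣ) : T.Adj v₀ (z i ^ (ε : ℤ) • v₀) := by
  rw [hZ.adj]
  exact ⟨1, i, ε, by rw [map_one, one_mul]⟩

theorem HD_reach (hZ : ZTree D j z V T v₀) {d : Γ} (hd : d ∈ DD D j z) :
    (HD D j z T v₀).Reachable v₀ (d • v₀) := by
  have hT := hZ.act
  have hmap : ∀ g ∈ DD D j z, ∀ v w, (HD D j z T v₀).Reachable v w →
      (HD D j z T v₀).Reachable (g • v) (g • w) := by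
    intro g hg v w h
    let f : HD D j z T v₀ →g HD D j z T v₀ := ⟨fun v => g • v, fun {v w} h => HD_smul hT hg h⟩
    exact h.map f
  have hd' := hd
  unfold DD at hd
  induction hd using Subgroup.closure_induction with
  | mem x hx =>
    rcases hx with ⟨m, hm, rfl⟩ | ⟨i, rfl⟩
    · rw [(hZ.stab (j m)).2 ⟨m, rfl⟩]
    · refine SimpleGraph.Adj.reachable ⟨?_, 1, one_mem _, i, 1, (one_smul _ _).symm, ?_⟩
      · have h1 := adj_z hZ i 1
        rwa [Units.val_one, zpow_one] at h1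
      · rw [Units.val_one, zpow_one, one_mul]
  | one => rw [one_smul]
  | mul x y hx hy ihx ihy =>
    rw [mul_smul]
    exact (ihx hx).trans (hmap x hx _ _ (ihy hy))
  | inv x hx ih =>
    have h1 := hmap x⁻¹ (inv_mem hx) _ _ (ih hx)
    rw [inv_smul_smul] at h1
    exact h1.symm

/-- The neighbours of `e v₀`. -/
theorem HD_nb (hE : ZExt D Γ j z) (hZ : ZTree D j z V T v₀) {e : Γ} (he : e ∈ DD D j z) {w : V}
    (h : (HD D j z T v₀).Adj (e • v₀) w) :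
    ∃ m ∈ MM D, ∃ (i : D.ι) (ε : ℤˣ), w = (e * (j m * z i ^ (ε : ℤ))) • v₀ := by
  obtain ⟨_, d, hd, i, ε, h2, rfl⟩ := h
  have h3 : (e⁻¹ * d) • v₀ = v₀ := by rw [mul_smul, ← h2, inv_smul_smul]
  obtain ⟨m, hm⟩ := (hZ.stab _).1 h3
  have h4 : m ∈ MM D := mm_of hE (by rw [hm]; exact mul_mem (inv_mem he) hd)
  refine ⟨m, h4, i, ε, ?_⟩
  rw [hm]
  congr 1
  group

/-- Equal translates of the neighbours. -/
theorem uniq' (hZ : ZTree D j z V T v₀) {e : Γ} {g g' : G} {i i' : D.ι} {ε ε' : ℤˣ}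
    (h : (e * (j g * z i ^ (ε : ℤ))) • v₀ = (e * (j g' * z i' ^ (ε' : ℤ))) • v₀) :
    i = i' ∧ ε = ε' ∧ g⁻¹ * g' ∈ Subgroup.zpowers (D.t i) := by
  refine hZ.uniq g g' i i' ε ε' ?_
  rw [mul_smul, mul_smul e] at h
  exact smul_left_cancel e h

/-- The conditions at a vertex of the axis. -/
structure Vx (D : Dat G) (j : G →* Γ) (z : D.ι → Γ) (v₀ : V) (C : Prop) (k : Γ) (n : ℤ)
    (w v w' : V) (e : Γ) (i : D.ι) (ε : ℤˣ) (i' : D.ι) (ε' : ℤˣ) : Prop where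
  mem : e ∈ DD D j z
  v : v = e • v₀
  w : w = (e * z i ^ (ε : ℤ)) • v₀
  w' : w' = (e * z i' ^ (ε' : ℤ)) • v₀
  c : C → i = i'
  k : ∃ δ ∈ DD D j z, k = e * j (D.t i' ^ n) * δ

/-- The vertex lemma. -/
theorem vertex (hE : ZExt D Γ j z) (hZ : ZTree D j z V T v₀) {a : D.ι} (hF : Four D a)
    (hN : HN D) {k : Γ} {n : ℤ} {η : Γ →* Multiplicative ℤ} (e1 : ∀ g, η (j g) = D.h g)
    (e3 : ∀ y ∈ DD D j z, η y = 1) (hk : η k = ofAdd n) (hn0 : n ≠ 0) (hn1 : n ≠ 1) {w v w' : V}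
    (h1 : (HD D j z T v₀).Adj v w) (h2 : (HD D j z T v₀).Adj v w')
    (h3 : (HD D j z T v₀).Adj (k⁻¹ • v) (k⁻¹ • w))
    (h4 : (HD D j z T v₀).Adj (k⁻¹ • v) (k⁻¹ • w')) :
    ∃ (e : Γ) (i : D.ι) (ε : ℤˣ) (i' : D.ι) (ε' : ℤˣ),
      Vx D j z v₀ (2 ≤ |n|) k n w v w' e i ε i' ε' := by
  obtain ⟨d, hd, hv⟩ : ∃ d ∈ DD D j z, v = d • v₀ := by
    obtain ⟨_, d, hd, _, _, hv, _⟩ := h1
    exact ⟨d, hd, hv⟩
  obtain ⟨d', hd', hv'⟩ : ∃ d ∈ DD D j z, k⁻¹ • v = d • v₀ := by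
    obtain ⟨_, d, hd, _, _, hv, _⟩ := h3
    exact ⟨d, hd, hv⟩
  subst hv
  have h5 : (d⁻¹ * k * d') • v₀ = v₀ := by
    rw [mul_smul, ← hv', mul_smul, smul_inv_smul, inv_smul_smul]
  obtain ⟨g, hg⟩ := (hZ.stab _).1 h5
  have hgk : k = d * j g * d'⁻¹ := by rw [hg]; group
  have hhg : D.h g = ofAdd n := by
    rw [← e1, hg, map_mul, map_mul, map_inv, e3 d hd, e3 d' hd', hk, inv_one, one_mul, mul_one]
  -- a common neighbour
  have key : ∀ w : V, (HD D j z T v₀).Adj (d • v₀) w → (HD D j z T v₀).Adj (k⁻¹ • d • v₀) (k⁻¹ • w) →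
      ∃ m ∈ MM D, ∃ m' ∈ MM D, ∃ (i : D.ι) (ε : ℤˣ), w = (d * (j m * z i ^ (ε : ℤ))) • v₀ ∧
        g = m * D.t i ^ n * m'⁻¹ := by
    intro w q1 q2
    obtain ⟨m, hm, i, ε, rfl⟩ := HD_nb hE hZ hd q1
    rw [hv'] at q2
    obtain ⟨m', hm', i', ε', q3⟩ := HD_nb hE hZ hd' q2
    have q4 : (d * (j m * z i ^ (ε : ℤ))) • v₀ = (d * (j (g * m') * z i' ^ (ε' : ℤ))) • v₀ := by
      rw [inv_smul_eq_iff] at q3
      rw [q3, ← mul_smul, hgk, map_mul]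
      congr 1
      group
    obtain ⟨rfl, rfl, q5⟩ := uniq' hZ q4
    refine ⟨m, hm, m', hm', i, ε, rfl, ?_⟩
    have q6 : m⁻¹ * (g * m') = D.t i ^ n := by
      refine tpow_eq ?_ q5
      rw [map_mul, map_mul, map_inv, mm_h hm, mm_h hm', hhg, inv_one, one_mul, mul_one]
    rw [← q6]
    group
  obtain ⟨m1, hm1, m1', hm1', i1, ε1, hw1, g1⟩ := key w h1 h3
  obtain ⟨m2, hm2, m2', hm2', i2, ε2, hw2, g2⟩ := key w' h2 h4
  have g3 : D.t i1 ^ n * (m1'⁻¹ * m2') * (D.t i2 ^ n)⁻¹ = m1⁻¹ * m2 := by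
    have g4 : m1 * D.t i1 ^ n * m1'⁻¹ = m2 * D.t i2 ^ n * m2'⁻¹ := g1.symm.trans g2
    have g5 : D.t i1 ^ n * m1'⁻¹ = m1⁻¹ * (m2 * D.t i2 ^ n * m2'⁻¹) := by
      rw [← g4]
      group
    rw [← mul_assoc, g5]
    group
  have hmm : m1 = m2 ∧ (2 ≤ |n| → i1 = i2) := by
    by_cases h2n : 2 ≤ |n|
    · obtain ⟨q1, q2⟩ := hN i1 i2 n h2n _ (mul_mem (inv_mem hm1') hm2')
        (by rw [g3]; exact mul_mem (inv_mem hm1) hm2)
      refine ⟨?_, fun _ => q1⟩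
      rw [q2, q1, mul_one, mul_inv_cancel] at g3
      have q3 := (inv_mul_eq_one.1 g3.symm)
      exact q3
    · refine ⟨?_, fun h => absurd h h2n⟩
      have hn2 : n = -1 := by
        push Not at h2n
        rw [abs_lt] at h2n
        omega
      subst hn2
      rw [zpow_neg_one, zpow_neg_one, inv_inv] at g3
      have q1 : D.t a * (m1⁻¹ * m2) * (D.t a)⁻¹ ∈ MM D := by
        have q2 : D.t a * (m1⁻¹ * m2) * (D.t a)⁻¹ =
            (D.t a * 1 * (D.t i1)⁻¹) * (m1'⁻¹ * m2') * (D.t i2 * 1 * (D.t a)⁻¹) := by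
          rw [← g3]
          group
        rw [q2]
        exact mul_mem (mul_mem (N5.tt_mem (hF.l a) (hF.l i1) (one_mem _))
          (mul_mem (inv_mem hm1') hm2')) (N5.tt_mem (hF.l i2) (hF.l a) (one_mem _))
      have q3 := hF.mm _ (mul_mem (inv_mem hm1) hm2) q1
      exact inv_mul_eq_one.1 q3
  obtain ⟨rfl, hi⟩ := hmm
  refine ⟨d * j m1, i1, ε1, i2, ε2, mul_mem hd (jM hm1), ?_, ?_, ?_, hi, ?_⟩
  · rw [mul_smul, (hZ.stab (j m1)).2 ⟨m1, rfl⟩]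
  · rw [hw1, mul_assoc]
  · rw [hw2, mul_assoc]
  · refine ⟨j m2'⁻¹ * d'⁻¹, mul_mem (jM (inv_mem hm2')) (inv_mem hd'), ?_⟩
    rw [hgk, g2]
    simp only [map_mul, mul_assoc]

/-- Directions along an axis. -/
theorem axis_step (hE : ZExt D Γ j z) (hZ : ZTree D j z V T v₀) {C : Prop} {k : Γ} {n : ℤ}
    {γ : ℤ → V} (hd : ∀ i i' : ℤ, (T.dist (γ i) (γ i') : ℤ) = |i - i'|)
    (hV : ∀ s : ℤ, ∃ (e : Γ) (i : D.ι) (ε : ℤˣ) (i' : D.ι) (ε' : ℤˣ),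
      Vx D j z v₀ C k n (γ (s - 1)) (γ s) (γ (s + 1)) e i ε i' ε')
    {e : Γ} (he : e ∈ DD D j z) {i₀ : D.ι} {ε₀ : ℤˣ} (h0 : γ 0 = e • v₀)
    (h1 : γ 1 = (e * z i₀ ^ (ε₀ : ℤ)) • v₀) (s : ℕ) :
    ∃ ζ ∈ ZZ D z, ∃ (i : D.ι) (ε : ℤˣ), γ s = (e * ζ) • v₀ ∧
      γ (s + 1) = (e * ζ * z i ^ (ε : ℤ)) • v₀ ∧
      (C → i = i₀ ∧ ε = ε₀ ∧ ζ = z i₀ ^ ((ε₀ : ℤ) * s)) := by
  have hZD : ∀ x ∈ ZZ D z, x ∈ DD D j z := fun x hx =>
    (Subgroup.closure_mono Set.subset_union_right) hx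
  induction s with
  | zero =>
    refine ⟨1, one_mem _, i₀, ε₀, ?_, ?_, fun _ => ⟨rfl, rfl, by simp⟩⟩
    · rw [mul_one]
      exact h0
    · rw [mul_one]
      exact h1
  | succ s ih =>
    obtain ⟨ζ, hζ, i, ε, g1, g2, g3⟩ := ih
    obtain ⟨e1, p, π, p', π', hx⟩ := hV (s + 1)
    have g4 := hx.v
    have g5 := hx.w
    have g6 := hx.w'
    rw [add_sub_cancel_right] at g5
    have hζ' : ζ * z i ^ (ε : ℤ) ∈ ZZ D z := mul_mem hζ (zpow_mem (zzmem i) _)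
    have he' : e * ζ * z i ^ (ε : ℤ) ∈ DD D j z := by
      rw [mul_assoc]
      exact mul_mem he (hZD _ hζ')
    have g7 : ((e * ζ * z i ^ (ε : ℤ))⁻¹ * e1) • v₀ = v₀ := by
      rw [mul_smul, ← g4, g2, inv_smul_smul]
    obtain ⟨m, hm⟩ := (hZ.stab _).1 g7
    have hmM : m ∈ MM D := mm_of hE (by rw [hm]; exact mul_mem (inv_mem he') hx.mem)
    have he1 : e1 = e * ζ * z i ^ (ε : ℤ) * j m := by rw [hm]; group
    have g8 : (e * ζ * z i ^ (ε : ℤ) * (j m * z p ^ (π : ℤ))) • v₀ =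
        (e * ζ * z i ^ (ε : ℤ) * (j 1 * z i ^ ((-ε : ℤˣ) : ℤ))) • v₀ := by
      have g9 : (e * ζ * z i ^ (ε : ℤ) * (j 1 * z i ^ ((-ε : ℤˣ) : ℤ))) = e * ζ := by
        rw [map_one, one_mul, Units.val_neg, zpow_neg, mul_inv_cancel_right]
      rw [g9, ← g1, g5, he1]
      congr 1
      group
    obtain ⟨rfl, rfl, g10⟩ := uniq' hZ g8
    have g11 : m = 1 := by
      have g12 : m⁻¹ * 1 = 1 := tpow_one (by rw [map_mul, map_inv, mm_h hmM]; simp) g10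
      rw [mul_one, inv_eq_one] at g12
      exact g12
    rw [g11, map_one, mul_one] at he1
    refine ⟨ζ * z p ^ (ε : ℤ), hζ', p', π', ?_, ?_, fun hC => ?_⟩
    · push_cast
      rw [g2, mul_assoc]
    · push_cast
      rw [g6, he1]
      congr 1
      simp only [mul_assoc]
    · obtain ⟨q1, q2, q3⟩ := g3 hC
      have q4 := hx.c hC
      have q5 : π' = ε := by
        by_contra hne
        have q6 : π' = -ε := by
          rcases Int.units_eq_one_or π' with h | h <;> rcases Int.units_eq_one_or ε with h' | h'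
          · exact absurd (h.trans h'.symm) hne
          · rw [h, h', neg_neg]
          · rw [h, h']
          · exact absurd (h.trans h'.symm) hne
        have q7 : γ (s + 1 + 1) = γ s := by
          rw [g6, g5, ← q4, q6]
        have q8 := hd (s + 1 + 1) s
        rw [q7, SimpleGraph.dist_self] at q8
        have q9 : ((s : ℤ) + 1 + 1 - s) = 2 := by ring
        rw [q9] at q8
        simp at q8
      refine ⟨q4.symm.trans q1, q5.trans q2, ?_⟩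
      rw [q3, q1, q2, ← zpow_add]
      congr 1
      push_cast
      ring

/-- The conclusion for an axis. -/
theorem axis_end (hE : ZExt D Γ j z) (hZ : ZTree D j z V T v₀) {C : Prop} {k : Γ} {n : ℤ}
    {γ : ℤ → V} {y : Γ} (hy : y ∈ DD D j z) {N : ℤ} (hγ : IsAxis T y γ N)
    (hV : ∀ s : ℤ, ∃ (e : Γ) (i : D.ι) (ε : ℤˣ) (i' : D.ι) (ε' : ℤˣ),
      Vx D j z v₀ C k n (γ (s - 1)) (γ s) (γ (s + 1)) e i ε i' ε') :
    ∃ e ∈ DD D j z, ∃ (i : D.ι) (ε : ℤˣ), (∃ δ ∈ DD D j z, k = e * j (D.t i ^ n) * δ) ∧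
      e⁻¹ * y * e ∈ ZZ D z ∧ (C → e⁻¹ * y * e = z i ^ ((ε : ℤ) * N)) := by
  obtain ⟨hN, hd, hyγ⟩ := hγ
  obtain ⟨e, i, ε, i', ε', hx⟩ := hV 0
  have g1 := hx.w'
  rw [zero_add] at g1
  have he := hx.mem
  obtain ⟨M, hM⟩ : ∃ M : ℕ, (M : ℤ) = N := ⟨N.toNat, Int.toNat_of_nonneg hN.le⟩
  obtain ⟨ζ, hζ, p, π, g2, g3, g4⟩ := axis_step hE hZ hd hV he hx.v g1 M
  have hZD : ζ ∈ DD D j z := (Subgroup.closure_mono Set.subset_union_right) hζ
  have g5 : ((e * ζ)⁻¹ * (y * e)) • v₀ = v₀ := by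
    have h := hyγ 0
    rw [zero_add, ← hM, g2, hx.v] at h
    rw [mul_smul, mul_smul, h, inv_smul_smul]
  obtain ⟨x, hxx⟩ := (hZ.stab _).1 g5
  have hxM : x ∈ MM D := mm_of hE (by
    rw [hxx]
    exact mul_mem (inv_mem (mul_mem he hZD)) (mul_mem hy he))
  have hye : y * e = e * ζ * j x := by rw [hxx]; group
  have g6 : (e * ζ * (j x * z i' ^ (ε' : ℤ))) • v₀ = (e * ζ * (j 1 * z p ^ (π : ℤ))) • v₀ := by
    have h := hyγ 1
    rw [add_comm, ← hM, g3, g1, ← mul_smul, ← mul_assoc, hye] at h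
    rw [map_one, one_mul, ← h]
    congr 1
    simp only [mul_assoc]
  obtain ⟨rfl, rfl, g7⟩ := uniq' hZ g6
  have g8 : x = 1 := by
    have g12 : x⁻¹ * 1 = 1 := tpow_one (by rw [map_mul, map_inv, mm_h hxM]; simp) g7
    rw [mul_one, inv_eq_one] at g12
    exact g12
  rw [g8, map_one, mul_one] at hye
  have g9 : e⁻¹ * y * e = ζ := by rw [mul_assoc, hye]; group
  refine ⟨e, he, i', ε', hx.k, by rw [g9]; exact hζ, fun hC => ?_⟩
  rw [g9, (g4 hC).2.2, hM]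

/-- The axis. -/
theorem axis (hZ : ZTree D j z V T v₀) {k y : Γ}
    (ret : Γ →* G) (r1 : ret.comp j = MonoidHom.id G)
    (hy : y ∈ DD D j z) (hy1 : y ≠ 1) (hr : ret y = 1) (hky : k⁻¹ * y * k ∈ DD D j z) :
    ∃ (γ : ℤ → V) (N : ℤ), IsAxis T y γ N ∧ (∀ i, (HD D j z T v₀).Adj (γ i) (γ (i + 1))) ∧
      ∀ i, (HD D j z T v₀).Adj (k⁻¹ • γ i) (k⁻¹ • γ (i + 1)) := by
  have hact := hZ.act
  obtain ⟨γ, N, hγ⟩ := Pool.Agent.Lib.MP_e6f638_al.stB1 Γ V T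
    ⟨hact.tree, hact.adj, hact.inv⟩ y (by
      intro v hv
      obtain ⟨g, rfl⟩ := hZ.surj v
      have h1 : (g⁻¹ * y * g) • v₀ = v₀ := by rw [mul_smul, mul_smul, hv, inv_smul_smul]
      obtain ⟨x, hx⟩ := (hZ.stab _).1 h1
      have h2 : x = 1 := by
        have h3 := congrArg ret hx
        have h4 : ret (j x) = x := DFunLike.congr_fun r1 x
        rw [h4, map_mul, map_mul, hr, mul_one, ← map_mul, inv_mul_cancel, map_one] at h3
        exact h3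
      rw [h2, map_one] at hx
      refine hy1 ?_
      have h5 : y = g * (g⁻¹ * y * g) * g⁻¹ := by group
      rw [h5, ← hx]
      group)
  have hline1 : ∀ i, (HD D j z T v₀).Adj (γ i) (γ (i + 1)) :=
    stLine Γ V T (HD D j z T v₀) hact HD_le y γ N hγ (HD_smul_iff hact hy) v₀ (HD_reach hZ hy)
  have hγ' : IsAxis T (k⁻¹ * y * k) (fun i => k⁻¹ • γ i) N := by
    obtain ⟨q1, q2, q3⟩ := hγ
    refine ⟨q1, fun i i' => ?_, fun i => ?_⟩
    · rw [← q2 i i']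
      congr 1
      exact LS.dist_smul_smul hact _ _ _
    · change (k⁻¹ * y * k) • k⁻¹ • γ i = k⁻¹ • γ (i + N)
      rw [← q3, ← mul_smul, ← mul_smul]
      congr 1
      group
  have hline2 : ∀ i, (HD D j z T v₀).Adj (k⁻¹ • γ i) (k⁻¹ • γ (i + 1)) :=
    stLine Γ V T (HD D j z T v₀) hact HD_le (k⁻¹ * y * k) _ N hγ' (HD_smul_iff hact hky) v₀
      (HD_reach hZ hky)
  exact ⟨γ, N, hγ, hline1, hline2⟩

/-- The case of height zero. -/
theorem zero (hE : ZExt D Γ j z) (hZ : ZTree D j z V T v₀) {k y : Γ}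
    {η : Γ →* Multiplicative ℤ} (e1 : ∀ g, η (j g) = D.h g)
    (e3 : ∀ y ∈ DD D j z, η y = 1) (hk : η k = 1)
    (ret : Γ →* G) (r1 : ret.comp j = MonoidHom.id G)
    (hy : y ∈ DD D j z) (hy1 : y ≠ 1) (hr : ret y = 1) (hky : k⁻¹ * y * k ∈ DD D j z) :
    k ∈ DD D j z := by
  obtain ⟨γ, N, _, hline1, hline2⟩ := axis hZ ret r1 hy hy1 hr hky
  obtain ⟨_, d, hd, _, _, hv, _⟩ := hline1 0
  obtain ⟨_, d', hd', _, _, hv', _⟩ := hline2 0
  have h1 := hline1 0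
  have h3 := hline2 0
  generalize γ (0 + 1) = w at h1 h3
  generalize γ 0 = v at hv hv' h1 h3
  subst hv
  have h5 : (d⁻¹ * k * d') • v₀ = v₀ := by
    rw [mul_smul, ← hv', mul_smul, smul_inv_smul, inv_smul_smul]
  obtain ⟨g, hg⟩ := (hZ.stab _).1 h5
  have hgk : k = d * j g * d'⁻¹ := by rw [hg]; group
  have hhg : D.h g = 1 := by
    rw [← e1, hg, map_mul, map_mul, map_inv, e3 d hd, e3 d' hd', hk, inv_one, one_mul, mul_one]
  obtain ⟨m, hm, i, ε, rfl⟩ := HD_nb hE hZ hd h1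
  rw [hv'] at h3
  obtain ⟨m', hm', i', ε', q3⟩ := HD_nb hE hZ hd' h3
  have q4 : (d * (j m * z i ^ (ε : ℤ))) • v₀ = (d * (j (g * m') * z i' ^ (ε' : ℤ))) • v₀ := by
    rw [inv_smul_eq_iff] at q3
    rw [q3, ← mul_smul, hgk, map_mul]
    congr 1
    group
  obtain ⟨rfl, rfl, q5⟩ := uniq' hZ q4
  have q6 : m⁻¹ * (g * m') = 1 := by
    refine tpow_one ?_ q5
    rw [map_mul, map_mul, map_inv, mm_h hm, mm_h hm', hhg, inv_one, one_mul, mul_one]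
  have q7 : g = m * m'⁻¹ := by
    have q8 : g = m * (m⁻¹ * (g * m')) * m'⁻¹ := by group
    rw [q8, q6, mul_one]
  rw [hgk, q7]
  exact mul_mem (mul_mem hd (jM (mul_mem hm (inv_mem hm')))) (inv_mem hd')

/-- The case of height different from zero and one. -/
theorem main (hE : ZExt D Γ j z) (hZ : ZTree D j z V T v₀) {a : D.ι} (hF : Four D a)
    (hN : HN D) {k y : Γ} {n : ℤ} {η : Γ →* Multiplicative ℤ} (e1 : ∀ g, η (j g) = D.h g)
    (e3 : ∀ y ∈ DD D j z, η y = 1) (hk : η k = ofAdd n) (hn0 : n ≠ 0) (hn1 : n ≠ 1)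
    (ret : Γ →* G) (r1 : ret.comp j = MonoidHom.id G) (r2 : ∀ i, ret (z i) = D.t i ^ 2)
    (hy : y ∈ DD D j z) (hy1 : y ≠ 1) (hr : ret y = 1) (hky : k⁻¹ * y * k ∈ DD D j z) :
    n = -1 ∧ ∃ e ∈ DD D j z, ∃ δ ∈ DD D j z, k = e * (j (D.t a))⁻¹ * δ ∧
      e⁻¹ * y * e ∈ ZZ D z := by
  obtain ⟨γ, N, hγ, hline1, hline2⟩ := axis hZ ret r1 hy hy1 hr hky
  have hV : ∀ s : ℤ, ∃ (e : Γ) (i : D.ι) (ε : ℤˣ) (i' : D.ι) (ε' : ℤˣ),
      Vx D j z v₀ (2 ≤ |n|) k n (γ (s - 1)) (γ s) (γ (s + 1)) e i ε i' ε' := by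
    intro s
    have h1 := hline1 (s - 1)
    have h2 := hline2 (s - 1)
    rw [sub_add_cancel] at h1 h2
    exact vertex hE hZ hF hN e1 e3 hk hn0 hn1 h1.symm (hline1 s) h2.symm (hline2 s)
  obtain ⟨e, he, i, ε, ⟨δ, hδ, hkδ⟩, g1, g2⟩ := axis_end hE hZ hy hγ hV
  have hnn : ¬ 2 ≤ |n| := by
    intro hC
    have g3 := congrArg ret (g2 hC)
    rw [map_mul, map_mul, hr, mul_one, ← map_mul, inv_mul_cancel, map_one, map_zpow, r2] at g3
    have g4 := congrArg D.h g3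
    rw [map_one, ← zpow_natCast, ← zpow_mul, tz, ← ofAdd_zero] at g4
    have g5 : ((2 : ℕ) : ℤ) * ((ε : ℤ) * N) = 0 := (ofAdd.injective g4).symm
    have g6 := hγ.1
    rcases Int.units_eq_one_or ε with h | h <;> subst h <;> simp at g5 <;> omega
  have hn2 : n = -1 := by
    push Not at hnn
    rw [abs_lt] at hnn
    omega
  refine ⟨hn2, e, he, j (D.t a * 1 * (D.t i)⁻¹) * δ,
    mul_mem (jM (N5.tt_mem (hF.l a) (hF.l i) (one_mem _))) hδ, ?_, g1⟩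
  rw [hkδ, hn2, zpow_neg_one]
  simp only [map_mul, map_inv, mul_assoc, mul_one, inv_mul_cancel_left]

end

end T154

/-- Module T1, from the tree. -/
theorem t1_of (hZT : StZT) : StT1 := by
  intro G _ D a hF hN Γ _ j z hE ret r1 r2 k y hy hy1 hr hky
  obtain ⟨V, _, T, v₀, hZ⟩ := hZT G D Γ j z hE
  obtain ⟨η, e1, e2, e3⟩ := T154.exists_eta hE
  obtain ⟨n, hk⟩ : ∃ n : ℤ, η k = ofAdd n := ⟨toAdd (η k), rfl⟩
  by_cases hn0 : n = 0
  · left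
    exact T154.zero hE hZ e1 e3 (by rw [hk, hn0]; rfl) ret r1 hy hy1 hr hky
  by_cases hn1 : n = 1
  · right; right
    obtain ⟨_, e, he, δ, hδ, g1, g2⟩ := T154.main hE hZ hF hN (k := k⁻¹) (y := k⁻¹ * y * k)
      (n := -1) e1 e3 (by rw [map_inv, hk, hn1]; rfl) (by decide) (by decide) ret r1 r2 hky
      (fun h => hy1 (by
        have h1 : y = k * (k⁻¹ * y * k) * k⁻¹ := by group
        rw [h1, h]
        group))
      (by rw [map_mul, map_mul, hr, mul_one, ← map_mul, inv_mul_cancel, map_one])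
      (by
        have h1 : k⁻¹⁻¹ * (k⁻¹ * y * k) * k⁻¹ = y := by group
        rw [h1]
        exact hy)
    have hk' : k = δ⁻¹ * j (D.t a) * e⁻¹ := by
      rw [← inv_inv k, g1]
      group
    refine ⟨δ⁻¹, inv_mem hδ, e⁻¹, inv_mem he, hk', ?_⟩
    have h2 : (j (D.t a))⁻¹ * δ⁻¹⁻¹ * y * δ⁻¹ * j (D.t a) = e⁻¹ * (k⁻¹ * y * k) * e := by
      rw [hk']
      group
    rw [h2]
    exact g2
  · right; left
    obtain ⟨_, e, he, δ, hδ, g1, g2⟩ := T154.main hE hZ hF hN e1 e3 hk hn0 hn1 ret r1 r2 hy hy1 hr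
      hky
    exact ⟨e, he, δ, hδ, g1, g2⟩

end Pool.Agent.Lib.MP_551055_al.N5K
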