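import Mathlib
import Pool.Agent.Lib.MP_551055_al.Trim.LS.Stmts
import Pool.Agent.Lib.MP_551055_al.Trim.LS.TreeB
import Pool.Agent.Lib.MP_551055_al.Trim.MT.Flow2
import Pool.Agent.Lib.MP_551055_al.Trim.MT.K1
import Pool.Agent.Lib.MP_551055_al.Trim.N4.Loc_17
import Pool.Agent.Lib.MP_551055_al.Trim.N5.Base_17
import Pool.Agent.Lib.MP_551055_al.Trim.N5.BasicK_38
import Pool.Agent.Lib.MP_551055_al.Trim.N5.MP_28
import Pool.Agent.Lib.MP_551055_al.Trim.N5.Stmts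
import Pool.Agent.Lib.MP_551055_al.Trim.N5.StmtsK28
import Pool.Agent.Lib.MP_551055_al.Trim.X.MP_e6f638_al.Stmts

/-!
# Module T2: the intersection of `DD` and its conjugate by `t a`
-/

set_option autoImplicit false

namespace Pool.Agent.Lib.MP_551055_al
end Pool.Agent.Lib.MP_551055_al

namespace Pool.Agent.Lib.MP_e6f638_al
end Pool.Agent.Lib.MP_e6f638_al

namespace Pool.Agent.Lib.MP_551055_al.LS
end Pool.Agent.Lib.MP_551055_al.LS

namespace Pool.Agent.Lib.MP_551055_al.N4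
end Pool.Agent.Lib.MP_551055_al.N4

namespace Pool.Agent.Lib.MP_551055_al.N5
end Pool.Agent.Lib.MP_551055_al.N5

namespace Pool.Agent.Lib.MP_551055_al.N5K

open Pool.Agent.Lib.MP_551055_al

open Pool.Agent.Lib.MP_e6f638_al (Dat)

open Pool.Agent.Lib.MP_551055_al.LS (TreeAct)

open Pool.Agent.Lib.MP_551055_al.N4

open Pool.Agent.Lib.MP_551055_al.N5 (MM tt_mem mm_h)

open Multiplicative

theorem stT2_of (hZT : StZT) : StT2 := by
  intro G _ D a hF Γ _ j z hZ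
  obtain ⟨V, _, T, v₀, hT⟩ := hZT G D Γ j z hZ
  set τ : Γ := j (D.t a) with hτ
  suffices key : ∀ (n : ℕ) (y : Γ), T.dist v₀ (y • v₀) = n → y ∈ DD D j z →
      τ * y * τ⁻¹ ∈ DD D j z → y ∈ ZZ D z by
    intro y hy hy'
    exact key _ y rfl hy hy'
  intro n
  induction n with
  | zero =>
    intro y hn hy hy'
    have h1 : v₀ = y • v₀ := by
      have hc := hT.act.tree.connected
      exact (hc.dist_eq_zero_iff).1 hn
    obtain ⟨g, rfl⟩ := (hT.stab y).1 h1.symm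
    have h2 := hZ.DD_j.1 hy
    rw [hτ, ← map_inv, ← map_mul, ← map_mul, hZ.DD_j] at hy'
    rw [hF.mm g h2 hy', map_one]
    exact one_mem _
  | succ n ih =>
    intro y hn hy hy'
    have hne : v₀ ≠ y • v₀ := by
      intro h
      rw [← h, SimpleGraph.dist_self] at hn
      omega
    obtain ⟨w, hw, hd⟩ := hT.next hne
    -- the two subgraphs
    obtain ⟨h1, _⟩ := step_mem hT.act.tree hT.HD_le (hT.HD_reach hy) hw hd
    have hτv : τ • v₀ = v₀ := hT.j_v _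
    have hτv' : τ⁻¹ • v₀ = v₀ := by
      rw [inv_smul_eq_iff, hτv]
    have hr := hT.HD_reach hy'
    have hyv : (τ * y * τ⁻¹) • v₀ = τ • (y • v₀) := by
      rw [mul_smul, hτv', mul_smul]
    rw [hyv] at hr
    have hw' : T.Adj v₀ (τ • w) := by
      have := hT.act.adj τ _ _ hw
      rwa [hτv] at this
    have hd' : T.dist v₀ (τ • (y • v₀)) = T.dist (τ • w) (τ • (y • v₀)) + 1 := by
      have e1 := LS.dist_smul_smul hT.act τ v₀ (y • v₀)
      have e2 := LS.dist_smul_smul hT.act τ w (y • v₀)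
      rw [hτv] at e1
      rw [e1, e2, hd]
    obtain ⟨h2, _⟩ := step_mem hT.act.tree hT.HD_le hr hw' hd'
    obtain ⟨m, hm, i, ε, e1⟩ := hT.HD_nbr hZ h1
    obtain ⟨m', hm', i', ε', e2⟩ := hT.HD_nbr hZ h2
    have e3 : (j m * z i ^ (ε : ℤ)) • v₀ = (j ((D.t a)⁻¹ * m') * z i' ^ (ε' : ℤ)) • v₀ := by
      rw [← e1]
      have e4 : w = τ⁻¹ • (τ • w) := (inv_smul_smul τ w).symm
      rw [e4, e2, ← mul_smul, hτ, map_mul, map_inv, mul_assoc]
    obtain ⟨rfl, rfl, hzp⟩ := hT.uniq _ _ _ _ _ _ e3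
    have h4 : m⁻¹ * ((D.t a)⁻¹ * m') = D.t i ^ (-1 : ℤ) := by
      refine zpow_h hzp ?_
      rw [map_mul, map_mul, map_inv, map_inv, mm_h hm, mm_h hm', D.h_t, inv_one, one_mul, mul_one,
        ofAdd_neg]
    have h5 : m = 1 := by
      refine hF.mmt a i hm ?_
      have h6 : m' = D.t a * m * (D.t i)⁻¹ := by
        rw [zpow_neg_one] at h4
        have : m' = D.t a * (m * (m⁻¹ * ((D.t a)⁻¹ * m'))) := by group
        rw [this, h4, mul_assoc]
      rw [← h6]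
      exact hm'
    rw [h5, map_one, one_mul] at e1
    have hzZ : z i ^ (ε : ℤ) ∈ ZZ D z := Subgroup.zpow_mem _ (ZZ_z i) _
    have h7 : (z i ^ (ε : ℤ))⁻¹ * y ∈ ZZ D z := by
      refine ih _ ?_ (mul_mem (inv_mem (ZZ_le hzZ)) hy) ?_
      · have e5 := LS.dist_smul_smul hT.act (z i ^ (ε : ℤ)) v₀ (((z i ^ (ε : ℤ))⁻¹ * y) • v₀)
        rw [← mul_smul, mul_inv_cancel_left, ← e1] at e5
        rw [← e5]
        omega
      · have e6 : τ * ((z i ^ (ε : ℤ))⁻¹ * y) * τ⁻¹ =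
            (τ * (z i ^ (ε : ℤ))⁻¹ * τ⁻¹) * (τ * y * τ⁻¹) := by group
        rw [e6]
        exact mul_mem (hZ.conj_ZZ hF.l a (inv_mem hzZ)) hy'
    have h8 : y = z i ^ (ε : ℤ) * ((z i ^ (ε : ℤ))⁻¹ * y) := by group
    rw [h8]
    exact mul_mem hzZ h7

end Pool.Agent.Lib.MP_551055_al.N5K
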