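import Mathlib
import Pool.Agent.Lib.MP_551055_al.Trim.AT70.Tree
import Pool.Agent.Lib.MP_551055_al.Trim.LS.Ray
import Pool.Agent.Lib.MP_551055_al.Trim.LS.Stmts
import Pool.Agent.Lib.MP_551055_al.Trim.MT.Defs
import Pool.Agent.Lib.MP_551055_al.Trim.MT.K1
import Pool.Agent.Lib.MP_551055_al.Trim.N5.StmtsK28
import Pool.Agent.Lib.MP_551055_al.Trim.T4.GlDim
import Pool.Agent.Lib.MP_551055_al.Trim.X.MP_e6f638_al.Stmts

/-!
# The Bass-Serre tree of the group generated by `G` and letters commuting with the `t i`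

The vertices are the reduced lists of letters `(κ, i, ε)`, `κ` an element of `G` of height zero.
-/

set_option autoImplicit false

namespace Pool.Agent.Lib.MP_551055_al
end Pool.Agent.Lib.MP_551055_al

namespace Pool.Agent.Lib.MP_e6f638_al
end Pool.Agent.Lib.MP_e6f638_al

namespace Pool.Agent.Lib.MP_551055_al.LS
end Pool.Agent.Lib.MP_551055_al.LS

namespace Pool.Agent.Lib.MP_551055_al.N5K.ZT
end Pool.Agent.Lib.MP_551055_al.N5K.ZT

namespace Pool.Agent.Lib.MP_551055_al.N5K

open Pool.Agent.Lib.MP_551055_al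

open Pool.Agent.Lib.MP_e6f638_al (Dat)

open Pool.Agent.Lib.MP_551055_al.LS (TreeAct)

open Multiplicative

namespace ZT

section

variable {G : Type} [Group G] (D : Dat G)

/-- The letters. -/
abbrev Lt : Type := G × D.ι × ℤˣ

/-- The power of `t i` with the height of `g`. -/
def tp (i : D.ι) (g : G) : G := D.t i ^ toAdd (D.h g)

theorem h_tp (i : D.ι) (g : G) : D.h (tp D i g) = D.h g := by
  rw [tp, map_zpow, D.h_t, ← ofAdd_zsmul]
  simp

theorem tp_mul (i : D.ι) (g g' : G) : tp D i (g * g') = tp D i g * tp D i g' := by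
  rw [tp, tp, tp, map_mul, toAdd_mul, zpow_add]

theorem tp_one (i : D.ι) : tp D i 1 = 1 := by
  rw [tp, map_one, toAdd_one, zpow_zero]

theorem tp_of_h {i : D.ι} {g : G} (h : D.h g = 1) : tp D i g = 1 := by
  rw [tp, h, toAdd_one, zpow_zero]

theorem tp_tp (i k : D.ι) (g : G) : tp D i (tp D k g) = tp D i g := by
  rw [tp, h_tp, tp]

theorem tp_t (i k : D.ι) : tp D i (D.t k) = D.t i := by
  rw [tp, D.h_t, toAdd_ofAdd, zpow_one]

/-- Reduced lists. -/
def Ok : List (Lt D) → Prop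
  | [] => True
  | [a] => D.h a.1 = 1
  | a :: b :: w => D.h a.1 = 1 ∧ ¬ (b.1 = 1 ∧ a.2.1 = b.2.1 ∧ a.2.2 = -b.2.2) ∧ Ok (b :: w)

/-- The action of `G`. -/
def ga : G → List (Lt D) → List (Lt D)
  | _, [] => []
  | g, a :: w => (g * a.1 * (tp D a.2.1 g)⁻¹, a.2.1, a.2.2) :: ga (tp D a.2.1 g) w

open Classical in
/-- The action of the letters. -/
noncomputable def za (i : D.ι) (ε : ℤˣ) : List (Lt D) → List (Lt D)
  | [] => [(1, i, ε)]
  | a :: w => if a = (1, i, -ε) then w else (1, i, ε) :: a :: w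

variable {D}

theorem Ok.head {a : Lt D} {w : List (Lt D)} (h : Ok D (a :: w)) : D.h a.1 = 1 := by
  cases w with
  | nil => exact h
  | cons b w => exact h.1

theorem Ok.tail {a : Lt D} {w : List (Lt D)} (h : Ok D (a :: w)) : Ok D w := by
  cases w with
  | nil => trivial
  | cons b w => exact h.2.2

theorem Ok.append {w v : List (Lt D)} (h : Ok D (w ++ v)) : Ok D w := by
  induction w with
  | nil => trivial
  | cons a w ih =>
    cases w with
    | nil => exact h.head
    | cons b w => exact ⟨h.1, h.2.1, ih h.2.2⟩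

theorem ga_mul (w : List (Lt D)) : ∀ g g' : G, ga D (g * g') w = ga D g (ga D g' w) := by
  induction w with
  | nil => intro g g'; rfl
  | cons a w ih =>
    intro g g'
    simp only [ga]
    rw [tp_mul, ih]
    congr 2
    group

theorem ga_one (w : List (Lt D)) : ga D 1 w = w := by
  induction w with
  | nil => rfl
  | cons a w ih =>
    simp only [ga]
    rw [tp_one, ih]
    simp

theorem ga_ok (w : List (Lt D)) : ∀ g : G, Ok D w → Ok D (ga D g w) := by
  induction w with
  | nil => intro g _; trivial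
  | cons a w ih =>
    intro g h
    have h1 : D.h (g * a.1 * (tp D a.2.1 g)⁻¹) = 1 := by
      rw [map_mul, map_mul, map_inv, h_tp, h.head, mul_one, mul_inv_cancel]
    cases w with
    | nil => exact h1
    | cons b w =>
      refine ⟨h1, ?_, ih _ h.2.2⟩
      rintro ⟨h2, h3, h4⟩
      refine h.2.1 ⟨?_, h3, h4⟩
      have h3' : a.2.1 = b.2.1 := h3
      have h2' : tp D a.2.1 g * b.1 * (tp D b.2.1 (tp D a.2.1 g))⁻¹ = 1 := h2
      rw [tp_tp, h3', mul_inv_eq_one] at h2'
      exact mul_eq_left.1 h2'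

theorem ga_append (w : List (Lt D)) : ∀ (g : G) (a : Lt D),
    ∃ a' : Lt D, a'.2.2 = a.2.2 ∧ ga D g (w ++ [a]) = ga D g w ++ [a'] := by
  induction w with
  | nil => intro g a; exact ⟨(g * a.1 * (tp D a.2.1 g)⁻¹, a.2.1, a.2.2), rfl, rfl⟩
  | cons b w ih =>
    intro g a
    obtain ⟨a', h1, h2⟩ := ih (tp D b.2.1 g) a
    refine ⟨a', h1, ?_⟩
    simp only [List.cons_append, ga]
    rw [h2]

theorem za_nil (i : D.ι) (ε : ℤˣ) : za D i ε [] = [(1, i, ε)] := rfl

theorem za_pos {i : D.ι} {ε : ℤˣ} {a : Lt D} (h : a = (1, i, -ε)) (w : List (Lt D)) :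
    za D i ε (a :: w) = w := if_pos h

theorem za_neg {i : D.ι} {ε : ℤˣ} {a : Lt D} (h : a ≠ (1, i, -ε)) (w : List (Lt D)) :
    za D i ε (a :: w) = (1, i, ε) :: a :: w := if_neg h

theorem za_ok (i : D.ι) (ε : ℤˣ) (w : List (Lt D)) (h : Ok D w) : Ok D (za D i ε w) := by
  cases w with
  | nil => exact map_one D.h
  | cons a w =>
    by_cases h1 : a = (1, i, -ε)
    · rw [za_pos h1]
      exact h.tail
    · rw [za_neg h1]
      refine ⟨map_one D.h, ?_, h⟩
      rintro ⟨h2, h3, h4⟩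
      apply h1
      have h3' : i = a.2.1 := h3
      have h4' : ε = -a.2.2 := h4
      refine Prod.ext h2 (Prod.ext h3'.symm ?_)
      change a.2.2 = -ε
      rw [h4', neg_neg]

theorem za_za (i : D.ι) (ε : ℤˣ) (w : List (Lt D)) (h : Ok D w) :
    za D i (-ε) (za D i ε w) = w := by
  cases w with
  | nil => rw [za_nil, za_pos (by rw [neg_neg])]
  | cons a w =>
    by_cases h1 : a = (1, i, -ε)
    · rw [za_pos h1]
      subst h1
      cases w with
      | nil => rfl
      | cons b w =>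
        rw [za_neg]
        rintro rfl
        exact h.2.1 ⟨rfl, rfl, by simp⟩
    · rw [za_neg h1, za_pos (by rw [neg_neg])]

theorem Ok.one {a : Lt D} {w : List (Lt D)} (h : Ok D (a :: w)) :
    Ok D ((1, a.2.1, a.2.2) :: w) := by
  cases w with
  | nil => exact map_one D.h
  | cons b w => exact ⟨map_one D.h, h.2.1, h.2.2⟩

theorem za_of_ok {a : Lt D} {w : List (Lt D)} (h : Ok D (a :: w)) :
    za D a.2.1 a.2.2 w = (1, a.2.1, a.2.2) :: w := by
  cases w with
  | nil => rfl
  | cons b w =>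
    rw [za_neg]
    rintro rfl
    exact h.2.1 ⟨rfl, rfl, by simp⟩

theorem za_append (i : D.ι) (ε : ℤˣ) (w : List (Lt D)) (a : Lt D) :
    za D i ε (w ++ [a]) = za D i ε w ++ [a] ∨
      (a.2.2 = -ε ∧ za D i ε (w ++ [a]) = [] ∧ za D i ε w = [(1, i, ε)]) := by
  cases w with
  | nil =>
    rw [List.nil_append]
    by_cases h1 : a = (1, i, -ε)
    · right
      exact ⟨by rw [h1], za_pos h1 _, rfl⟩
    · left
      rw [za_neg h1]
      rfl
  | cons b w =>
    left
    rw [List.cons_append]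
    by_cases h1 : b = (1, i, -ε)
    · rw [za_pos h1, za_pos h1]
    · rw [za_neg h1, za_neg h1]
      rfl

theorem za_ga (i : D.ι) (ε : ℤˣ) (w : List (Lt D)) :
    za D i ε (ga D (D.t i) w) = ga D (D.t i) (za D i ε w) := by
  have h0 : ∀ v : List (Lt D), ga D (D.t i) ((1, i, ε) :: v) = (1, i, ε) :: ga D (D.t i) v := by
    intro v
    simp only [ga]
    rw [tp_t, mul_one, mul_inv_cancel]
  cases w with
  | nil => exact (h0 []).symm
  | cons a w =>
    by_cases h1 : a = (1, i, -ε)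
    · subst h1
      simp only [ga]
      rw [tp_t, mul_one, mul_inv_cancel, za_pos rfl, za_pos rfl]
    · rw [za_neg h1, h0]
      simp only [ga]
      rw [za_neg]
      intro h3
      apply h1
      have h4 : a.2.1 = i := congrArg (fun x : Lt D => x.2.1) h3
      have h5 : a.2.2 = -ε := congrArg (fun x : Lt D => x.2.2) h3
      have h6 : D.t i * a.1 * (tp D a.2.1 (D.t i))⁻¹ = 1 := congrArg (fun x : Lt D => x.1) h3
      rw [h4, tp_t, mul_inv_eq_one, mul_eq_left] at h6
      exact Prod.ext h6 (Prod.ext h4 h5)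

variable (D)

/-- The vertices. -/
abbrev VV : Type := {w : List (Lt D) // Ok D w}

/-- The base vertex. -/
def v0 : VV D := ⟨[], trivial⟩

/-- Oriented edges. -/
def Dr (x y : VV D) : Prop :=
  (∃ a : Lt D, a.2.2 = 1 ∧ y.1 = x.1 ++ [a]) ∨ ∃ a : Lt D, a.2.2 = -1 ∧ x.1 = y.1 ++ [a]

variable {D}

theorem Dr.asymm {x y : VV D} (h : Dr D x y) (h' : Dr D y x) : False := by
  rcases h with ⟨a, ha, h⟩ | ⟨a, ha, h⟩ <;> rcases h' with ⟨b, hb, h'⟩ | ⟨b, hb, h'⟩
  · have h1 := congrArg List.length h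
    have h2 := congrArg List.length h'
    simp only [List.length_append, List.length_cons, List.length_nil] at h1 h2
    omega
  · rw [h] at h'
    have h1 : a = b := by simpa using h'
    rw [h1, hb] at ha
    exact absurd ha (by decide)
  · rw [h] at h'
    have h1 : a = b := by simpa using h'
    rw [h1, hb] at ha
    exact absurd ha (by decide)
  · have h1 := congrArg List.length h
    have h2 := congrArg List.length h'
    simp only [List.length_append, List.length_cons, List.length_nil] at h1 h2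
    omega

theorem Dr.irrefl {x : VV D} (h : Dr D x x) : False := h.asymm h

variable (D)

/-- The tree. -/
def TT : SimpleGraph (VV D) where
  Adj x y := Dr D x y ∨ Dr D y x
  symm := ⟨fun _ _ h => Or.symm h⟩
  loopless := ⟨fun _ h => h.elim Dr.irrefl Dr.irrefl⟩

theorem tt_isTree : (TT D).IsTree := by
  refine AT70.isTree_of_lists (TT D) (fun x => x.1.reverse) ?_ (v0 D) rfl ?_ ?_
  · intro x y h
    exact Subtype.ext (List.reverse_injective h)
  · intro y a l h
    have h1 : y.1 = l.reverse ++ [a] := by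
      rw [← List.reverse_reverse y.1, h, List.reverse_cons]
    exact ⟨⟨l.reverse, (h1 ▸ y.2 : Ok D (l.reverse ++ [a])).append⟩, List.reverse_reverse l⟩
  · intro x y
    have h1 : ∀ (u v : List (Lt D)) (a : Lt D), u.reverse = a :: v.reverse ↔ u = v ++ [a] := by
      intro u v a
      constructor
      · intro h
        rw [← List.reverse_reverse u, h, List.reverse_cons, List.reverse_reverse]
      · rintro rfl
        simp
    constructor
    · rintro ((⟨a, _, h⟩ | ⟨a, _, h⟩) | (⟨a, _, h⟩ | ⟨a, _, h⟩))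
      · exact Or.inr ⟨a, (h1 _ _ _).2 h⟩
      · exact Or.inl ⟨a, (h1 _ _ _).2 h⟩
      · exact Or.inl ⟨a, (h1 _ _ _).2 h⟩
      · exact Or.inr ⟨a, (h1 _ _ _).2 h⟩
    · rintro (⟨a, h⟩ | ⟨a, h⟩)
      · rcases Int.units_eq_one_or a.2.2 with ha | ha
        · exact Or.inr (Or.inl ⟨a, ha, (h1 _ _ _).1 h⟩)
        · exact Or.inl (Or.inr ⟨a, ha, (h1 _ _ _).1 h⟩)
      · rcases Int.units_eq_one_or a.2.2 with ha | ha
        · exact Or.inl (Or.inl ⟨a, ha, (h1 _ _ _).1 h⟩)
        · exact Or.inr (Or.inr ⟨a, ha, (h1 _ _ _).1 h⟩)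

/-- The permutation given by `g`. -/
def gP (g : G) : Equiv.Perm (VV D) where
  toFun x := ⟨ga D g x.1, ga_ok _ g x.2⟩
  invFun x := ⟨ga D g⁻¹ x.1, ga_ok _ g⁻¹ x.2⟩
  left_inv x := Subtype.ext (by
    change ga D g⁻¹ (ga D g x.1) = x.1
    rw [← ga_mul, inv_mul_cancel, ga_one])
  right_inv x := Subtype.ext (by
    change ga D g (ga D g⁻¹ x.1) = x.1
    rw [← ga_mul, mul_inv_cancel, ga_one])

/-- The action of `G` on the vertices. -/
def gH : G →* Equiv.Perm (VV D) :=
  MonoidHom.mk' (gP D) fun g g' => Equiv.ext fun x => Subtype.ext (ga_mul x.1 g g')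

/-- The permutation given by a letter. -/
noncomputable def zP (i : D.ι) (ε : ℤˣ) : Equiv.Perm (VV D) where
  toFun x := ⟨za D i ε x.1, za_ok i ε _ x.2⟩
  invFun x := ⟨za D i (-ε) x.1, za_ok i (-ε) _ x.2⟩
  left_inv x := Subtype.ext (za_za i ε x.1 x.2)
  right_inv x := Subtype.ext (by
    have h1 := za_za i (-ε) x.1 x.2
    rw [neg_neg] at h1
    exact h1)

theorem zP_zpow (i : D.ι) (ε : ℤˣ) : zP D i 1 ^ (ε : ℤ) = zP D i ε := by
  rcases Int.units_eq_one_or ε with rfl | rfl
  · simp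
  · rw [Units.val_neg, Units.val_one, zpow_neg, zpow_one]
    rfl

theorem zP_comm (i : D.ι) : Commute (zP D i 1) (gH D (D.t i)) :=
  Equiv.ext fun x => Subtype.ext (za_ga i 1 x.1)

theorem gH_dr (g : G) {x y : VV D} (h : Dr D x y) : Dr D (gH D g x) (gH D g y) := by
  rcases h with ⟨a, ha, h⟩ | ⟨a, ha, h⟩
  · obtain ⟨a', h1, h2⟩ := ga_append x.1 g a
    refine Or.inl ⟨a', h1.trans ha, ?_⟩
    change ga D g y.1 = _
    rw [h]
    exact h2
  · obtain ⟨a', h1, h2⟩ := ga_append y.1 g a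
    refine Or.inr ⟨a', h1.trans ha, ?_⟩
    change ga D g x.1 = _
    rw [h]
    exact h2

theorem zP_dr (i : D.ι) (ε : ℤˣ) {x y : VV D} (h : Dr D x y) : Dr D (zP D i ε x) (zP D i ε y) := by
  rcases h with ⟨a, ha, h⟩ | ⟨a, ha, h⟩
  · rcases za_append i ε x.1 a with h1 | ⟨h1, h2, h3⟩
    · refine Or.inl ⟨a, ha, ?_⟩
      change za D i ε y.1 = _
      rw [h]
      exact h1
    · refine Or.inr ⟨(1, i, ε), ?_, ?_⟩
      · rw [ha] at h1
        change ε = -1
        rw [h1, neg_neg]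
      · change za D i ε x.1 = za D i ε y.1 ++ _
        rw [h, h2, h3]
        rfl
  · rcases za_append i ε y.1 a with h1 | ⟨h1, h2, h3⟩
    · refine Or.inr ⟨a, ha, ?_⟩
      change za D i ε x.1 = _
      rw [h]
      exact h1
    · refine Or.inl ⟨(1, i, ε), ?_, ?_⟩
      · rw [ha] at h1
        change ε = 1
        exact (neg_injective h1).symm
      · change za D i ε y.1 = za D i ε x.1 ++ _
        rw [h, h2, h3]
        rfl

end

section

variable {G : Type} [Group G] {D : Dat G} {Γ : Type} [Group Γ] {j : G →* Γ} {z : D.ι → Γ}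

/-- Induction on the elements of `Γ`. -/
theorem ind (hZ : ZExt D Γ j z) (p : Γ → Prop) (h1 : p 1) (hj : ∀ g, p (j g)) (hz : ∀ i, p (z i))
    (hm : ∀ x y, p x → p y → p (x * y)) (hi : ∀ x, p x → p x⁻¹) (γ : Γ) : p γ := by
  have h2 : γ ∈ Subgroup.closure (Set.range j ∪ Set.range z) := hZ.gen ▸ Subgroup.mem_top γ
  induction h2 using Subgroup.closure_induction with
  | mem x hx =>
    rcases hx with ⟨g, rfl⟩ | ⟨i, rfl⟩
    · exact hj g
    · exact hz i
  | one => exact h1
  | mul x y _ _ hx hy => exact hm x y hx hy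
  | inv x _ hx => exact hi x hx

variable (j z) in
/-- The element of a list. -/
def W : List (Lt D) → Γ
  | [] => 1
  | a :: w => j a.1 * z a.2.1 ^ (a.2.2 : ℤ) * W w

theorem W_ga (hZ : ZExt D Γ j z) (w : List (Lt D)) :
    ∀ g : G, ∃ g' : G, j g * W j z w = W j z (ga D g w) * j g' := by
  induction w with
  | nil =>
    intro g
    exact ⟨g, by simp [W, ga]⟩
  | cons a w ih =>
    intro g
    obtain ⟨g', hg'⟩ := ih (tp D a.2.1 g)
    refine ⟨g', ?_⟩
    simp only [W, ga]
    have h1 : Commute (j (tp D a.2.1 g)) (z a.2.1 ^ (a.2.2 : ℤ)) := by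
      rw [tp, map_zpow]
      exact ((hZ.comm a.2.1).symm.zpow_zpow _ _)
    calc j g * (j a.1 * z a.2.1 ^ (a.2.2 : ℤ) * W j z w)
        = j (g * a.1 * (tp D a.2.1 g)⁻¹) * (j (tp D a.2.1 g) * z a.2.1 ^ (a.2.2 : ℤ)) *
            W j z w := by
          rw [map_mul, map_mul, map_inv]
          group
      _ = j (g * a.1 * (tp D a.2.1 g)⁻¹) * (z a.2.1 ^ (a.2.2 : ℤ) * j (tp D a.2.1 g)) *
            W j z w := by rw [h1.eq]
      _ = j (g * a.1 * (tp D a.2.1 g)⁻¹) * z a.2.1 ^ (a.2.2 : ℤ) *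
            (j (tp D a.2.1 g) * W j z w) := by group
      _ = _ := by rw [hg']; group

theorem W_za (i : D.ι) (w : List (Lt D)) : z i * W j z w = W j z (za D i 1 w) := by
  cases w with
  | nil => simp [W, za_nil]
  | cons a w =>
    by_cases h1 : a = (1, i, -1)
    · rw [za_pos h1, h1]
      simp [W]
    · rw [za_neg h1]
      simp [W]

end

end ZT

open ZT in
theorem stZT : StZT := by
  intro G _ D Γ _ j z hZ
  obtain ⟨F, hF, hz⟩ := hZ.lift (Equiv.Perm (VV D)) (gH D) (fun i => zP D i 1) (zP_comm D)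
  have hj : ∀ g, F (j g) = gH D g := fun g => congrArg (fun f : G →* Equiv.Perm (VV D) => f g) hF
  let _ : MulAction Γ (VV D) := MulAction.compHom (VV D) F
  have hs : ∀ (γ : Γ) (v : VV D), γ • v = F γ v := fun γ v => rfl
  have hdr : ∀ γ : Γ, ∀ x y : VV D, Dr D x y → Dr D (γ • x) (γ • y) := by
    have key : ∀ γ : Γ, (∀ x y : VV D, Dr D x y → Dr D (γ • x) (γ • y)) ∧
        ∀ x y : VV D, Dr D x y → Dr D (γ⁻¹ • x) (γ⁻¹ • y) := by
      refine ind hZ _ ?_ ?_ ?_ ?_ ?_
      · simp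
      · intro g
        refine ⟨fun x y h => ?_, fun x y h => ?_⟩
        · rw [hs, hs, hj]
          exact gH_dr D g h
        · rw [← map_inv, hs, hs, hj]
          exact gH_dr D g⁻¹ h
      · intro i
        refine ⟨fun x y h => ?_, fun x y h => ?_⟩
        · rw [hs, hs, hz]
          exact zP_dr D i 1 h
        · rw [hs, hs, map_inv, hz]
          exact zP_dr D i (-1) h
      · rintro a b ⟨h1, h1'⟩ ⟨h2, h2'⟩
        refine ⟨fun x y h => ?_, fun x y h => ?_⟩
        · rw [mul_smul, mul_smul]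
          exact h1 _ _ (h2 _ _ h)
        · rw [mul_inv_rev, mul_smul, mul_smul]
          exact h2' _ _ (h1' _ _ h)
      · rintro a ⟨h1, h1'⟩
        exact ⟨h1', by rw [inv_inv]; exact h1⟩
    exact fun γ => (key γ).1
  have hW : ∀ γ : Γ, ∀ v : VV D, ∃ g' : G, γ * W j z v.1 = W j z (γ • v).1 * j g' := by
    refine ind hZ _ ?_ ?_ ?_ ?_ ?_
    · intro v
      exact ⟨1, by rw [one_mul, one_smul, map_one, mul_one]⟩
    · intro g v
      rw [hs, hj]
      exact W_ga hZ v.1 g
    · intro i v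
      refine ⟨1, ?_⟩
      rw [hs, hz, map_one, mul_one]
      exact W_za i v.1
    · intro a b ha hb v
      obtain ⟨g₁, h1⟩ := hb v
      obtain ⟨g₂, h2⟩ := ha (b • v)
      refine ⟨g₂ * g₁, ?_⟩
      rw [mul_assoc, h1, ← mul_assoc, h2, mul_smul, map_mul, mul_assoc]
    · intro a ha v
      obtain ⟨g', h1⟩ := ha (a⁻¹ • v)
      rw [smul_inv_smul] at h1
      refine ⟨g'⁻¹, ?_⟩
      rw [map_inv, eq_mul_inv_iff_mul_eq, mul_assoc, ← h1, inv_mul_cancel_left]
  have hsurj : ∀ w (h : Ok D w), W j z w • v0 D = ⟨w, h⟩ := by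
    intro w
    induction w with
    | nil =>
      intro h
      change (1 : Γ) • v0 D = _
      rw [one_smul]
      rfl
    | cons a w ih =>
      intro h
      change (j a.1 * z a.2.1 ^ (a.2.2 : ℤ) * W j z w) • v0 D = _
      rw [mul_smul, ih h.tail, mul_smul, hs, hs, hj, map_zpow, hz, zP_zpow]
      have h1 : zP D a.2.1 a.2.2 ⟨w, h.tail⟩ = ⟨(1, a.2.1, a.2.2) :: w, h.one⟩ :=
        Subtype.ext (za_of_ok h)
      rw [h1]
      refine Subtype.ext ?_
      change ga D a.1 ((1, a.2.1, a.2.2) :: w) = a :: w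
      simp only [ga]
      rw [tp_of_h D h.head, ga_one, mul_one, inv_one, mul_one]
  have hone : ∀ (g : G) (i : D.ι) (ε : ℤˣ),
      ((j g * z i ^ (ε : ℤ)) • v0 D : VV D).1 = [(g * (tp D i g)⁻¹, i, ε)] := by
    intro g i ε
    rw [mul_smul, hs, hs, hj, map_zpow, hz, zP_zpow]
    change ga D g (za D i ε []) = _
    simp only [za_nil, ga]
    rw [mul_one]
  refine ⟨VV D, inferInstance, TT D, v0 D, ⟨tt_isTree D, ?_, ?_⟩, ?_, ?_, ?_, ?_⟩
  · rintro γ u v (h | h)
    · exact Or.inl (hdr γ _ _ h)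
    · exact Or.inr (hdr γ _ _ h)
  · rintro γ u v (h | h) h1 h2
    · have h3 := hdr γ _ _ h
      rw [h1, h2] at h3
      exact h.asymm h3
    · have h3 := hdr γ _ _ h
      rw [h1, h2] at h3
      exact h.asymm h3
  · intro g
    constructor
    · intro h
      obtain ⟨g', h1⟩ := hW g (v0 D)
      rw [h] at h1
      have h2 : W j z (v0 D).1 = 1 := rfl
      rw [h2, one_mul, mul_one] at h1
      exact ⟨g', h1.symm⟩
    · rintro ⟨g', rfl⟩
      rw [hs, hj]
      rfl
  · intro v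
    exact ⟨W j z v.1, (hsurj v.1 v.2).symm⟩
  · intro w
    constructor
    · intro h
      have h1 : ∃ a, w.1 = [a] := by
        rcases h with (⟨a, _, h⟩ | ⟨a, _, h⟩) | (⟨a, _, h⟩ | ⟨a, _, h⟩)
        · exact ⟨a, h⟩
        · exact absurd h (by simp [v0])
        · exact absurd h (by simp [v0])
        · exact ⟨a, h⟩
      obtain ⟨a, ha⟩ := h1
      have h2 : D.h a.1 = 1 := by
        have h3 := w.2
        rw [ha] at h3
        exact h3
      refine ⟨a.1, a.2.1, a.2.2, Subtype.ext ?_⟩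
      rw [hone, ha, tp_of_h D h2, inv_one, mul_one]
    · rintro ⟨g, i, ε, rfl⟩
      rcases Int.units_eq_one_or ε with rfl | rfl
      · exact Or.inl (Or.inl ⟨_, rfl, hone g i 1⟩)
      · exact Or.inr (Or.inr ⟨_, rfl, hone g i (-1)⟩)
  · intro g g' i i' ε ε' h
    have h1 := congrArg Subtype.val h
    rw [hone, hone] at h1
    have h2 := (List.cons.inj h1).1
    have h3 : i = i' := congrArg (fun x : Lt D => x.2.1) h2
    have h4 : ε = ε' := congrArg (fun x : Lt D => x.2.2) h2
    have h5 : g * (tp D i g)⁻¹ = g' * (tp D i' g')⁻¹ := congrArg (fun x : Lt D => x.1) h2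
    subst h3
    refine ⟨rfl, h4, ?_⟩
    have h6 : g⁻¹ * g' = (tp D i g)⁻¹ * tp D i g' := by
      rw [inv_mul_eq_iff_eq_mul, ← mul_assoc, h5, inv_mul_cancel_right]
    rw [h6]
    exact Subgroup.mul_mem _ (Subgroup.inv_mem _ (Subgroup.zpow_mem_zpowers _ _))
      (Subgroup.zpow_mem_zpowers _ _)

end Pool.Agent.Lib.MP_551055_al.N5K
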