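import Mathlib
import Pool.Agent.Lib.MP_551055_al.Trim.N4.Art_4
import Pool.Agent.Lib.MP_551055_al.Trim.N4.Asm_17
import Pool.Agent.Lib.MP_551055_al.Trim.N4.Rules_17
import Pool.Agent.Lib.MP_551055_al.Trim.N4.W_95
import Pool.Agent.Lib.MP_551055_al.Trim.N5.A4_54
import Pool.Agent.Lib.MP_551055_al.Trim.N5.AW_95
import Pool.Agent.Lib.MP_551055_al.Trim.N5.Asm_54
import Pool.Agent.Lib.MP_551055_al.Trim.N5.GP_38
import Pool.Agent.Lib.MP_551055_al.Trim.N5.K4_28
import Pool.Agent.Lib.MP_551055_al.Trim.N5.StmtsK28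
import Pool.Agent.Lib.MP_551055_al.Trim.N5.T1_54
import Pool.Agent.Lib.MP_551055_al.Trim.N5.T2_38
import Pool.Agent.Lib.MP_551055_al.Trim.N5.ZT_4
import Pool.Agent.Lib.MP_551055_al.Trim.X.MP_e6f638_al.I1
import Pool.Agent.Lib.MP_551055_al.Trim.X.MP_e6f638_al.Stmts

/-!
# All labels four
-/

set_option autoImplicit false

namespace Pool.Agent.Lib.MP_551055_al
end Pool.Agent.Lib.MP_551055_al

namespace Pool.Agent.Lib.MP_e6f638_al
end Pool.Agent.Lib.MP_e6f638_al

namespace Pool.Agent.Lib.MP_551055_al.RI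
end Pool.Agent.Lib.MP_551055_al.RI

namespace Pool.Agent.Lib.MP_551055_al.N4
end Pool.Agent.Lib.MP_551055_al.N4

namespace Pool.Agent.Lib.MP_551055_al.N5

open Pool.Agent.Lib.MP_551055_al

open Pool.Agent.Lib.MP_e6f638_al (Dat EA gen par rho del IsDatOf)

open Pool.Agent.Lib.MP_551055_al.RI

open Pool.Agent.Lib.MP_551055_al.N4

/-- All labels are four. -/
theorem stKm_of (h : N5K.StK4) : StKm := by
  intro P hP S _ l hl h2 u hG
  by_cases hv : ∃ v, u ≠ v
  · obtain ⟨v, hv⟩ := hv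
    exact h P hP S l hl h2 u v hv hG
  · push Not at hv
    exact hP.step stWd stArt S l hl u (fun s hs => absurd (hv s).symm hs)
      (fun t c ht _ _ _ _ => absurd (hv t).symm ht) hG

/-- All labels are four. -/
theorem stKm (hEX : N5K.StEX) (hHH : N5K.StHH) : StKm :=
  stKm_of (N5K.stK4 (N5K.t1_of N5K.stZT) (N5K.stT2_of N5K.stZT) N5K.stAW hEX N5K.stGP hHH
    N5K.stA4)

end Pool.Agent.Lib.MP_551055_al.N5
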