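import Mathlib
import Pool.Agent.Lib.MP_551055_al.Trim.N5.A4_54
import Pool.Agent.Lib.MP_551055_al.Trim.N5.Asm_54
import Pool.Agent.Lib.MP_551055_al.Trim.N5.EX_70
import Pool.Agent.Lib.MP_551055_al.Trim.N5.H0_95
import Pool.Agent.Lib.MP_551055_al.Trim.N5.HH_29
import Pool.Agent.Lib.MP_551055_al.Trim.N5.Km_54
import Pool.Agent.Lib.MP_551055_al.Trim.N5.StmtsK28
import Pool.Agent.Lib.MP_551055_al.Trim.N5.T2_38
import Pool.Agent.Lib.MP_551055_al.Trim.N5.ZT_4

/-!
# All labels four, without hypotheses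
-/

set_option autoImplicit false

namespace Pool.Agent.Lib.MP_551055_al.N5

/-- Module HH. -/
theorem stHHf : N5K.StHH :=
  N5K.stHH N5K.EX.stEX (N5K.h0_of (N5K.stT2_of N5K.stZT)) N5K.stA4

/-- All labels are four. -/
theorem stKmf : StKm := stKm N5K.EX.stEX stHHf

end Pool.Agent.Lib.MP_551055_al.N5
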