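import Mathlib
import Pool.Agent.Lib.MP_551055_al.Trim.LS.BassProj
import Pool.Agent.Lib.MP_551055_al.Trim.LS.Ind
import Pool.Agent.Lib.MP_551055_al.Trim.LS.Ray
import Pool.Agent.Lib.MP_551055_al.Trim.LS.Stmts
import Pool.Agent.Lib.MP_551055_al.Trim.MT.Defs
import Pool.Agent.Lib.MP_551055_al.Trim.MT.FNa
import Pool.Agent.Lib.MP_551055_al.Trim.N4.O_17
import Pool.Agent.Lib.MP_551055_al.Trim.N4.Rules_17
import Pool.Agent.Lib.MP_551055_al.Trim.N4.Stmts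
import Pool.Agent.Lib.MP_551055_al.Trim.N5.Stmts
import Pool.Agent.Lib.MP_551055_al.Trim.RI.Basic
import Pool.Agent.Lib.MP_551055_al.Trim.RI.K
import Pool.Agent.Lib.MP_551055_al.Trim.RI.Stmts
import Pool.Agent.Lib.MP_551055_al.Trim.T4.Perf
import Pool.Agent.Lib.MP_551055_al.Trim.T6.Lps
import Pool.Agent.Lib.MP_551055_al.Trim.W17.DefK
import Pool.Agent.Lib.MP_551055_al.Trim.W17.Defs
import Pool.Agent.Lib.MP_551055_al.Trim.W17.KGam
import Pool.Agent.Lib.MP_551055_al.Trim.W17.KSep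
import Pool.Agent.Lib.MP_551055_al.Trim.W17.KT
import Pool.Agent.Lib.MP_551055_al.Trim.W17.Main
import Pool.Agent.Lib.MP_551055_al.Trim.X.MP_e6f638_al.F
import Pool.Agent.Lib.MP_551055_al.Trim.X.MP_e6f638_al.GDefs
import Pool.Agent.Lib.MP_551055_al.Trim.X.MP_e6f638_al.I1
import Pool.Agent.Lib.MP_551055_al.Trim.X.MP_e6f638_al.Stmts

/-!
# Module LG5: the lift in the mixed case
-/

set_option autoImplicit false

namespace Pool.Agent.Lib.MP_551055_al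
end Pool.Agent.Lib.MP_551055_al

namespace Pool.Agent.Lib.MP_e6f638_al
end Pool.Agent.Lib.MP_e6f638_al

namespace Pool.Agent.Lib.MP_551055_al.N4
end Pool.Agent.Lib.MP_551055_al.N4

namespace Pool.Agent.Lib.MP_551055_al.N5

open Pool.Agent.Lib.MP_551055_al

open Pool.Agent.Lib.MP_e6f638_al (Dat EA gen par rho del IsDatOf IsAxis)

open Pool.Agent.Lib.MP_551055_al.N4

open Multiplicative

namespace LG5

section ident

variable {G K : Type} [Group G] [Group K] (D : Dat G) (f : G →* K) (w : K)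

theorem id1 {b : G} (hb : Commute w (f b)) :
    (f D.t₀ * w) * f b * (f D.t₀ * w)⁻¹ = f (D.t₀ * b * D.t₀⁻¹) := by
  have h := hb.eq
  calc (f D.t₀ * w) * f b * (f D.t₀ * w)⁻¹
      = f D.t₀ * (w * f b) * w⁻¹ * (f D.t₀)⁻¹ := by group
    _ = _ := by rw [h]; simp only [map_mul, map_inv]; group

theorem id2 {i j : D.ι} {b : G} (hb : Commute w (f b)) :
    (f D.t₀ * w) * f (D.t i * b * (D.t j)⁻¹) * (f D.t₀ * w)⁻¹ =
      f (D.t₀ * (D.t i)⁻¹) * (f (D.t i) * w) ^ 2 * f b * ((f (D.t j) * w) ^ 2)⁻¹ *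
        (f (D.t₀ * (D.t j)⁻¹))⁻¹ := by
  have h : f b = w * f b * w⁻¹ := by rw [hb.eq]; group
  have h1 : f (D.t i * b * (D.t j)⁻¹) = (f (D.t i) * w) * f b * (f (D.t j) * w)⁻¹ := by
    simp only [map_mul, map_inv]
    rw [h]
    have h2 : f (D.t i) * w * (w * f b * w⁻¹) * (f (D.t j) * w)⁻¹ =
        f (D.t i) * (w * (w * f b * w⁻¹) * w⁻¹) * (f (D.t j))⁻¹ := by group
    rw [h2, ← h, ← h]
  rw [h1]
  simp only [map_mul, map_inv, pow_two]
  group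

theorem id3 {i : D.ι} {Z : K} (hZ : Commute Z (f (D.t i) * w)) :
    (f D.t₀ * w) * Z * (f D.t₀ * w)⁻¹ =
      f (D.t₀ * (D.t i)⁻¹) * Z * (f (D.t₀ * (D.t i)⁻¹))⁻¹ := by
  have h1 : (f (D.t i) * w) * Z * (f (D.t i) * w)⁻¹ = Z := by
    rw [← hZ.eq, mul_inv_cancel_right]
  have h2 : (f D.t₀ * w) * Z * (f D.t₀ * w)⁻¹ =
      f (D.t₀ * (D.t i)⁻¹) * ((f (D.t i) * w) * Z * (f (D.t i) * w)⁻¹) *
        (f (D.t₀ * (D.t i)⁻¹))⁻¹ := by
    simp only [map_mul, map_inv]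
    group
  rw [h2, h1]

theorem id4 {i a : D.ι} {Z : K} (hZ : Commute Z (f (D.t i) * w)) :
    (f D.t₀ * w) * (f (kk D a i) * Z * (f (kk D a i))⁻¹) * (f D.t₀ * w)⁻¹ =
      f (D.t₀ * (D.t a)⁻¹) * ((f (D.t a) * w) ^ 2 * Z * ((f (D.t a) * w) ^ 2)⁻¹) *
        (f (D.t₀ * (D.t a)⁻¹))⁻¹ := by
  have h1 : (f (D.t i) * w)⁻¹ * Z * (f (D.t i) * w) = Z := by
    rw [mul_assoc, hZ.eq, inv_mul_cancel_left]
  have h2 : (f D.t₀ * w) * (f (kk D a i) * Z * (f (kk D a i))⁻¹) * (f D.t₀ * w)⁻¹ =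
      f (D.t₀ * (D.t a)⁻¹) * ((f (D.t a) * w) ^ 2 * ((f (D.t i) * w)⁻¹ * Z * (f (D.t i) * w)) *
        ((f (D.t a) * w) ^ 2)⁻¹) * (f (D.t₀ * (D.t a)⁻¹))⁻¹ := by
    simp only [kk, map_mul, map_inv, pow_two]
    group
  rw [h2, h1]

end ident

section

variable {G : Type} [Group G] (D : Dat G) {L : Type} [Group L] (th : D.E →* L) (X : L)

/-- The elements for which conjugation by `x` lifts. -/
noncomputable def NX : Subgroup D.Ah where
  carrier := {y | ∃ f f' : D.E, D.phi f = y ∧ D.phi f' = D.x * y * D.x⁻¹ ∧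
    X * th f * X⁻¹ = th f'}
  one_mem' := ⟨1, 1, map_one _, by rw [map_one]; group, by rw [map_one]; group⟩
  mul_mem' := by
    rintro _ _ ⟨f, f', rfl, h2, h3⟩ ⟨g, g', rfl, k2, k3⟩
    refine ⟨f * g, f' * g', map_mul _ _ _, ?_, ?_⟩
    · rw [map_mul, h2, k2]
      group
    · rw [map_mul, map_mul, ← h3, ← k3]
      group
  inv_mem' := by
    rintro _ ⟨f, f', rfl, h2, h3⟩
    refine ⟨f⁻¹, f'⁻¹, map_inv _ _, ?_, ?_⟩
    · rw [map_inv, h2]
      group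
    · rw [map_inv, map_inv, ← h3]
      group

variable (hφ : D.IsPhi D.phi) (j : G →* L) (z : D.ι → L) (w : L)
  (t1 : ∀ e : D.h.ker, th (D.inE e) = j e) (t2 : ∀ i, th (D.z i) = z i)
  (w1 : ∀ b ∈ D.B, Commute w (j b)) (z1 : ∀ i, Commute (z i) (j (D.t i) * w))
  (z2 : ∀ i, D.l i = 2 → z i = (j (D.t i) * w) ^ 2)

theorem ker0 (i : D.ι) : D.t₀ * (D.t i)⁻¹ ∈ D.h.ker := by
  rw [MonoidHom.mem_ker, map_mul, map_inv, D.h_t₀, D.h_t, mul_inv_cancel]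

theorem kerk (a i : D.ι) : kk D a i ∈ D.h.ker := by
  rw [MonoidHom.mem_ker, kk, map_mul, map_inv, D.h_t, D.h_t, mul_inv_cancel]

theorem u_comm {b : G} (hb : b ∈ D.B) : Commute D.u (D.ofG b) :=
  HNNExtension.t_mul_of (φ := MulEquiv.refl D.B) ⟨b, hb⟩

theorem xi_comm (i : D.ι) : Commute (xi D i ^ D.l i) (D.ofG (D.t i) * D.u) :=
  (Commute.refl _).pow_left _

include hφ t1 t2 w1 z1 z2

theorem NX_B {b : G} (hb : b ∈ D.B) : D.ofG b ∈ NX D th (j D.t₀ * w) := by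
  have hb1 : b ∈ D.h.ker := D.h_B b hb
  have hb2 : D.t₀ * b * D.t₀⁻¹ ∈ D.h.ker := D.h.normal_ker.conj_mem _ hb1 _
  refine ⟨D.inE ⟨b, hb1⟩, D.inE ⟨_, hb2⟩, hφ.1 _, ?_, ?_⟩
  · rw [hφ.1]
    exact (id1 D D.ofG D.u (u_comm D hb)).symm
  · rw [t1, t1]
    exact id1 D j w (w1 b hb)

theorem NX_t {i k : D.ι} (hi : D.l i = 2) (hk : D.l k = 2) {b : G} (hb : b ∈ D.B) :
    D.ofG (D.t i * b * (D.t k)⁻¹) ∈ NX D th (j D.t₀ * w) := by
  have hb1 : b ∈ D.h.ker := D.h_B b hb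
  have h1 : D.t i * b * (D.t k)⁻¹ ∈ D.h.ker := by
    rw [MonoidHom.mem_ker, map_mul, map_mul, map_inv, D.h_t, D.h_t, D.h_B b hb, mul_one,
      mul_inv_cancel]
  refine ⟨D.inE ⟨_, h1⟩, D.inE ⟨_, ker0 D i⟩ * D.z i * D.inE ⟨b, hb1⟩ * (D.z k)⁻¹ *
    (D.inE ⟨_, ker0 D k⟩)⁻¹, hφ.1 _, ?_, ?_⟩
  · simp only [map_mul, map_inv, hφ.1, hφ.2, hi, hk]
    have h2 := id2 D D.ofG D.u (i := i) (j := k) (u_comm D hb)
    simp only [map_mul, map_inv] at h2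
    exact h2.symm
  · simp only [map_mul, map_inv, t1, t2, z2 i hi, z2 k hk]
    have h2 := id2 D j w (i := i) (j := k) (w1 b hb)
    simp only [map_mul, map_inv] at h2
    exact h2

theorem NX_MM {m : G} (hm : m ∈ MM D) : D.ofG m ∈ NX D th (j D.t₀ * w) := by
  have h1 : MM D ≤ (NX D th (j D.t₀ * w)).comap D.ofG := by
    rw [MM, Subgroup.closure_le]
    rintro x (hx | ⟨i, k, b, hi, hk, hb, rfl⟩)
    · exact NX_B D th hφ j z w t1 t2 w1 z1 z2 hx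
    · exact NX_t D th hφ j z w t1 t2 w1 z1 z2 hi hk hb
  exact h1 hm

theorem NX_z (i : D.ι) : xi D i ^ D.l i ∈ NX D th (j D.t₀ * w) := by
  refine ⟨D.z i, D.inE ⟨_, ker0 D i⟩ * D.z i * (D.inE ⟨_, ker0 D i⟩)⁻¹, hφ.2 i, ?_, ?_⟩
  · rw [map_mul, map_mul, map_inv, hφ.1, hφ.2]
    exact (id3 D D.ofG D.u (xi_comm D i)).symm
  · rw [map_mul, map_mul, map_inv, t1, t2]
    exact id3 D j w (z1 i)

theorem NX_k {a : D.ι} (ha : D.l a = 2) (i : D.ι) :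
    D.ofG (kk D a i) * xi D i ^ D.l i * (D.ofG (kk D a i))⁻¹ ∈ NX D th (j D.t₀ * w) := by
  refine ⟨D.inE ⟨_, kerk D a i⟩ * D.z i * (D.inE ⟨_, kerk D a i⟩)⁻¹,
    D.inE ⟨_, ker0 D a⟩ * (D.z a * D.z i * (D.z a)⁻¹) * (D.inE ⟨_, ker0 D a⟩)⁻¹, ?_, ?_, ?_⟩
  · rw [map_mul, map_mul, map_inv, hφ.1, hφ.2]
    rfl
  · rw [map_mul, map_mul, map_mul, map_mul, map_inv, map_inv, hφ.1, hφ.2, hφ.2, ha]
    exact (id4 D D.ofG D.u (a := a) (xi_comm D i)).symm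
  · rw [map_mul, map_mul, map_inv, map_mul, map_mul, map_mul, map_mul, map_inv, map_inv, t1, t1,
      t2, t2, z2 a ha]
    exact id4 D j w (z1 i)

theorem RRM_le {a : D.ι} (ha : D.l a = 2) : RRM D a ≤ NX D th (j D.t₀ * w) := by
  rw [RRM, Subgroup.closure_le]
  rintro x (⟨m, hm, rfl⟩ | ⟨i, rfl⟩ | ⟨i, rfl⟩)
  · exact NX_MM D th hφ j z w t1 t2 w1 z1 z2 hm
  · exact NX_z D th hφ j z w t1 t2 w1 z1 z2 i
  · exact NX_k D th hφ j z w t1 t2 w1 z1 z2 ha i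

end

end LG5

/-- Module LG5. -/
theorem stLG5 : StLG5 := by
  classical
  intro P hP G _ D a hfin hM hW hS1 L _ j₀ w₀ hPL hE hφ hinj
  have hfin' : Finite {k : D.ι // 4 ≤ D.l k} := Finite.of_injective _ Subtype.val_injective
  obtain ⟨L', iL', j₁, z₁, hPL', m2, m3⟩ := hP.many hPL {k : D.ι // 4 ≤ D.l k}
    fun k => {j₀ (D.t k)} ∪ (j₀ '' {b | b ∈ D.B ∧ Commute b (D.t k)} ∪ {w₀})
  have hpow := D.psi_pow hφ hinj
  have hc1 : ∀ i, Commute (D.oQ hφ hinj (D.phiQ hφ (D.z i))) (D.psiG hφ hinj (D.t i)) := by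
    intro i
    have h5 := D.psi_rel hφ hinj i
    rw [hpow] at h5
    exact h5
  -- the map to `Omega`
  obtain ⟨π₀, q1, q2⟩ := hE.lift (D.Om hφ hinj) (D.psiG hφ hinj) (D.psiv hφ hinj)
    (fun b hb => (D.psi_comm hφ hinj b hb).symm) (fun i hi => by
      have h5 := D.psi_rel hφ hinj i
      rw [hi] at h5
      exact h5)
  have q1' : ∀ g, π₀ (j₀ g) = D.psiG hφ hinj g := fun g => DFunLike.congr_fun q1 g
  obtain ⟨π, p0, pz⟩ := m3 (D.Om hφ hinj) π₀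
    (fun k => D.oQ hφ hinj (D.phiQ hφ (D.z k))) (by
      rintro k x (rfl | ⟨b, ⟨hb, hc⟩, rfl⟩ | rfl)
      · rw [q1']
        exact hc1 k
      · have hb1 := D.h_B b hb
        rw [q1', D.psiG_of_one hφ hinj hb1]
        change D.oQ hφ hinj (D.phiQ hφ (D.z k)) *
          D.oQ hφ hinj (D.phiQ hφ (D.inE ⟨b, hb1⟩)) = _
        rw [← map_mul, ← map_mul, D.z_comm k ⟨b, hb1⟩ hb hc, map_mul, map_mul]
        rfl
      · rw [q2]
        have h5 := hc1 k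
        have h6 : Commute (D.psiG hφ hinj (D.t k) * D.psiv hφ hinj)
            (D.oQ hφ hinj (D.phiQ hφ (D.z k))) := by
          rw [← hpow]
          exact (Commute.refl _).pow_right _
        have h7 : D.psiv hφ hinj = (D.psiG hφ hinj (D.t k))⁻¹ *
            (D.psiG hφ hinj (D.t k) * D.psiv hφ hinj) := by group
        rw [h7]
        exact (h5.inv_right).mul_right h6.symm)
  have p0' : ∀ g, π (j₁ g) = π₀ g := fun g => DFunLike.congr_fun p0 g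
  -- the elements `z`
  let jj : G →* L' := j₁.comp j₀
  let w : L' := j₁ w₀
  let z : D.ι → L' := fun i => if h : 4 ≤ D.l i then z₁ ⟨i, h⟩ else (jj (D.t i) * w) ^ 2
  have zpos : ∀ (i : D.ι) (h : 4 ≤ D.l i), z i = z₁ ⟨i, h⟩ := fun i h => dif_pos h
  have z2 : ∀ i, D.l i = 2 → z i = (jj (D.t i) * w) ^ 2 := by
    intro i hi
    exact dif_neg (by omega)
  have w1 : ∀ b ∈ D.B, Commute w (jj b) := fun b hb => (hE.comm b hb).map j₁
  have h1 : ∀ i, Commute (z i) (jj (D.t i)) := by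
    intro i
    rcases hM.four i with hi | hi
    · rw [z2 i hi]
      have h5 := (hE.rel i hi).map j₁
      rw [map_pow, map_mul] at h5
      exact h5
    · rw [zpos i hi]
      exact m2 ⟨i, hi⟩ _ (Or.inl rfl)
  have h2 : ∀ i, ∀ b ∈ D.B, Commute b (D.t i) → Commute (z i) (jj b) := by
    intro i b hb hc
    rcases hM.four i with hi | hi
    · rw [z2 i hi]
      exact ((hc.symm.map jj).mul_left (w1 b hb)).pow_left 2
    · rw [zpos i hi]
      exact m2 ⟨i, hi⟩ _ (Or.inr (Or.inl ⟨b, ⟨hb, hc⟩, rfl⟩))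
  have z1 : ∀ i, Commute (z i) (jj (D.t i) * w) := by
    intro i
    rcases hM.four i with hi | hi
    · rw [z2 i hi]
      exact (Commute.refl _).pow_left 2
    · refine (h1 i).mul_right ?_
      rw [zpos i hi]
      exact m2 ⟨i, hi⟩ _ (Or.inr (Or.inr rfl))
  have p1 : π.comp jj = D.psiG hφ hinj := by
    ext g
    change π (j₁ (j₀ g)) = _
    rw [p0', q1']
  have p3 : π w = D.psiv hφ hinj := by
    change π (j₁ w₀) = _
    rw [p0', q2]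
  have p2 : ∀ i, π (z i) = D.oQ hφ hinj (D.phiQ hφ (D.z i)) := by
    intro i
    rcases hM.four i with hi | hi
    · have h5 := hpow i
      rw [hi] at h5
      rw [z2 i hi, map_pow, map_mul, p3, ← h5]
      have h6 := DFunLike.congr_fun p1 (D.t i)
      rw [MonoidHom.comp_apply] at h6
      rw [h6]
    · rw [zpos i hi, pz]
  have pt : π (jj D.t₀) = D.T hφ hinj := by
    have h6 := DFunLike.congr_fun p1 D.t₀
    rw [MonoidHom.comp_apply, D.psiG_t₀] at h6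
    exact h6
  refine ⟨L', iL', th D jj z h2, jj D.t₀, jj D.t₀ * w, π, hPL', ?_⟩
  refine ⟨fun e => pi_th D hφ hinj jj z h2 π p1 p2 e, pt, pi_xhat D hφ hinj jj w π p1 p3,
    fun e => th_tau D jj z h1 h2 e, fun e e' he => ?_⟩
  have h5 : D.phi e ∈ RRM D a := hS1 _ ⟨e, rfl⟩ (by rw [he]; exact ⟨e', rfl⟩)
  obtain ⟨f, f', k1, k2, k3⟩ := LG5.RRM_le D (th D jj z h2) hφ jj z w (th_inE D jj z h2)
    (th_z D jj z h2) w1 z1 z2 hM.la h5
  rw [← hinj k1, k3]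
  congr 1
  exact hinj (by rw [k2, he])

end Pool.Agent.Lib.MP_551055_al.N5
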