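import Mathlib
import Pool.Agent.Lib.MP_551055_al.Trim.LS.Stmts
import Pool.Agent.Lib.MP_551055_al.Trim.N5.Stmts
import Pool.Agent.Lib.MP_551055_al.Trim.N5.StmtsK28
import Pool.Agent.Lib.MP_551055_al.Trim.X.MP_e6f638_al.F
import Pool.Agent.Lib.MP_551055_al.Trim.X.MP_e6f638_al.GDefs
import Pool.Agent.Lib.MP_551055_al.Trim.X.MP_e6f638_al.I1
import Pool.Agent.Lib.MP_551055_al.Trim.X.MP_e6f638_al.Stmts

/-!
# The theorem on conjugates of a generator: statements of the modules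

In `A = ⟨G, u⟩`: if `u g₁ u⁻¹ = b (u g₂ u⁻¹) b'` and `g₁` is not in `B` then `b` is in `B`. The
blueprint is `V28_blueprint.md` in the store.
-/

set_option autoImplicit false

namespace Pool.Agent.Lib.MP_551055_al
end Pool.Agent.Lib.MP_551055_al

namespace Pool.Agent.Lib.MP_e6f638_al
end Pool.Agent.Lib.MP_e6f638_al

namespace Pool.Agent.Lib.MP_551055_al.N4
end Pool.Agent.Lib.MP_551055_al.N4

namespace Pool.Agent.Lib.MP_551055_al.N5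
end Pool.Agent.Lib.MP_551055_al.N5

namespace Pool.Agent.Lib.MP_551055_al.N5K
end Pool.Agent.Lib.MP_551055_al.N5K

namespace Pool.Agent.Lib.MP_551055_al.N5V

open Pool.Agent.Lib.MP_551055_al

open Pool.Agent.Lib.MP_e6f638_al (Dat EA gen par rho del IsDatOf IsAxis)

open Pool.Agent.Lib.MP_551055_al.N4

open Pool.Agent.Lib.MP_551055_al.N5 (MM Mix)

open Pool.Agent.Lib.MP_551055_al.N5K (Wd Amal AmalW)

open Multiplicative

section

variable {G : Type} [Group G] (D : Dat G)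

/-- The conditions. -/
structure VC : Prop where
  w : D.W
  wt : ∀ k, ∃ w : G →* Multiplicative ℤ, w (D.t k) = ofAdd 1 ∧ (∀ i, i ≠ k → w (D.t i) = 1) ∧
    ∀ b ∈ D.B, w b = 1
  pw : ∀ i, D.l i = 2 → ∀ b ∈ D.B, ∀ n : ℤ, n ≠ 0 → D.t i ^ n * b * (D.t i ^ n)⁻¹ ∈ D.B →
    Commute b (D.t i)

/-- The powers of `tau`. -/
noncomputable def tp (p : ℤ) : D.E ≃* D.E := (D.tauEq ^ p : MulAut D.E)

end

/-- The factors of an HNN extension with equal associated subgroups. -/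
def XA {K : Type} [Group K] (A : Subgroup K) (φ : A ≃* A) :
    Bool → Subgroup (HNNExtension K A A φ) := fun s =>
  if s then Subgroup.closure (HNNExtension.of '' (A : Set K) ∪ {HNNExtension.t})
  else (HNNExtension.of : K →* HNNExtension K A A φ).range

/-- Module VA. HNN extensions with equal associated subgroups are amalgams. -/
def StVA : Prop :=
  ∀ (K : Type) [Group K] (A : Subgroup K) (φ : A ≃* A),
    Amal (XA A φ) (A.map (HNNExtension.of : K →* HNNExtension K A A φ))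

/-- Module VB. Words of length four. -/
def StVB : Prop :=
  ∀ (A : Type) [Group A] (X : Bool → Subgroup A) (C : Subgroup A), Amal X C →
    ∀ (s : Bool), ∀ x ∈ X s, x ∉ C → ∀ g₁ ∈ X (!s), ∀ b' ∈ X (!s), ∀ g₂ ∈ X (!s), ∀ b ∈ X (!s),
      x * g₁ * x⁻¹ * b' * (x * g₂ * x⁻¹) * b = 1 →
      (g₁ ∉ C → b ∈ C ∧ b' ∈ C ∧ x⁻¹ * b * x ∈ C ∧ x⁻¹ * b' * x ∈ C) ∧
      (g₁ ∈ C → x * g₁ * x⁻¹ ∉ C → g₂ ∈ C ∧ b ∈ C ∧ b' ∈ C) ∧
      (g₁ ∈ C → x * g₁ * x⁻¹ ∈ C → g₂ ∈ C ∧ x * g₂ * x⁻¹ ∈ C)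

/-- Module VL. The length of the conjugates under powers of `tau`. -/
def StVL : Prop :=
  ∀ (G : Type) [Group G] (D : Dat G), VC D → ∀ (e : D.E) (p : ℤ), p ≠ 0 →
    (∀ g : G, g ∉ D.B → D.phi e = D.x * D.ofG g * D.x⁻¹ → ∀ g₁ g₂ g₃ : G,
      D.phi (tp D p e) ≠ D.ofG g₁ * D.u * D.ofG g₂ * (D.u)⁻¹ * D.ofG g₃) ∧
    (∀ g : G, g ∉ D.B → D.phi e = (D.u)⁻¹ * D.ofG g * D.u → ∀ g₁ g₂ g₃ : G,
      D.phi (tp D p e) ≠ D.ofG g₁ * (D.u)⁻¹ * D.ofG g₂ * D.u * D.ofG g₃)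

/-- Module VM. The theorem for the extension. -/
def StVM : Prop :=
  ∀ (G : Type) [Group G] (D : Dat G), VC D → ∀ (A : Type) [Group A] (i : G →* A) (v : A),
    D.IsExt A i v → ∀ g₁ g₂ b b' : G, v * i g₁ * v⁻¹ = i b * (v * i g₂ * v⁻¹) * i b' →
      g₁ ∉ D.B → b ∈ D.B

/-- Module PW. Powers of a generator. -/
def StPW : Prop :=
  ∀ (S : Type) [Finite S] (l : S → S → ℕ), (∀ s t, l s t = l t s) → ∀ (s : S) (Y : Set S),
    s ∉ Y → (∀ y ∈ Y, l s y ≠ 2) → ∀ b ∈ par l Y, ∀ n : ℤ, n ≠ 0 →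
      gen l s ^ n * b * (gen l s ^ n)⁻¹ ∈ par l Y → Commute b (gen l s)

/-- Module VP. The conditions for even Artin groups. -/
def StVP : Prop :=
  ∀ (S : Type) [Finite S] (l : S → S → ℕ), (∀ s t, l s t = l t s) →
    (∀ s t v : S, s ≠ t → s ≠ v → t ≠ v → ¬ (l s t = 2 ∧ l s v = 2 ∧ l t v = 1)) →
    ∀ (u : S) (D : Dat (EA (del l u))), IsDatOf l u D → VC D

/-- The theorem. -/
def StVS : Prop :=
  ∀ (S : Type) [Finite S] (l : S → S → ℕ), (∀ s t, l s t = l t s) →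
    (∀ s t v : S, s ≠ t → s ≠ v → t ≠ v → ¬ (l s t = 2 ∧ l s v = 2 ∧ l t v = 1)) →
    ∀ (u : S) (ε : ℤˣ), ∀ g₁ ∈ par l {u}ᶜ, ∀ g₂ ∈ par l {u}ᶜ, ∀ b ∈ par l {u}ᶜ,
      ∀ b' ∈ par l {u}ᶜ,
      gen l u ^ (ε : ℤ) * g₁ * (gen l u ^ (ε : ℤ))⁻¹ =
        b * (gen l u ^ (ε : ℤ) * g₂ * (gen l u ^ (ε : ℤ))⁻¹) * b' →
      g₁ ∉ par l {y | y ≠ u ∧ l u y = 1} → b ∈ par l {y | y ≠ u ∧ l u y = 1}

end Pool.Agent.Lib.MP_551055_al.N5V
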