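import Mathlib
import Pool.Agent.Lib.MP_551055_al.Trim.EA.LocW
import Pool.Agent.Lib.MP_551055_al.Trim.LD.NG
import Pool.Agent.Lib.MP_551055_al.Trim.LS.Stmts
import Pool.Agent.Lib.MP_551055_al.Trim.MT.RCU
import Pool.Agent.Lib.MP_551055_al.Trim.N4.Stmts
import Pool.Agent.Lib.MP_551055_al.Trim.N4.W_95
import Pool.Agent.Lib.MP_551055_al.Trim.N5.Stmts
import Pool.Agent.Lib.MP_551055_al.Trim.N5.StmtsK28
import Pool.Agent.Lib.MP_551055_al.Trim.N5.StmtsV28
import Pool.Agent.Lib.MP_551055_al.Trim.N5.W6_95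
import Pool.Agent.Lib.MP_551055_al.Trim.T4.Perf
import Pool.Agent.Lib.MP_551055_al.Trim.T6.GenF
import Pool.Agent.Lib.MP_551055_al.Trim.X.MP_e6f638_al.F
import Pool.Agent.Lib.MP_551055_al.Trim.X.MP_e6f638_al.G2
import Pool.Agent.Lib.MP_551055_al.Trim.X.MP_e6f638_al.I1
import Pool.Agent.Lib.MP_551055_al.Trim.X.MP_e6f638_al.I2
import Pool.Agent.Lib.MP_551055_al.Trim.X.MP_e6f638_al.Stmts

/-!
# Module PW: powers of a generator
-/

set_option autoImplicit false

namespace Pool.Agent.Lib.MP_551055_al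
end Pool.Agent.Lib.MP_551055_al

namespace Pool.Agent.Lib.MP_e6f638_al
end Pool.Agent.Lib.MP_e6f638_al

namespace Pool.Agent.Lib.MP_551055_al.N4
end Pool.Agent.Lib.MP_551055_al.N4

namespace Pool.Agent.Lib.MP_551055_al.N5
end Pool.Agent.Lib.MP_551055_al.N5

namespace Pool.Agent.Lib.MP_551055_al.N5K
end Pool.Agent.Lib.MP_551055_al.N5K

namespace Pool.Agent.Lib.MP_551055_al.N5V

open Pool.Agent.Lib.MP_551055_al

open Pool.Agent.Lib.MP_e6f638_al (Dat EA gen par rho del IsDatOf IsAxis retr incl stG2 stF stI2 rho_par incl_gen retr_mem retr_incl incl_injective par_mono gen_rel)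

open Pool.Agent.Lib.MP_551055_al.N4

open Pool.Agent.Lib.MP_551055_al.N5 (MM Mix)

open Pool.Agent.Lib.MP_551055_al.N5K (Wd Amal AmalW)

open Multiplicative

namespace PW54

section

variable {G : Type} [Group G] (D : Dat G)

theorem hred_nil : D.HRed [] := List.isChain_nil

/-- A conjugate of an element of `G` by the stable letter. -/
theorem c0 {b g : G} (h : D.u * D.ofG b * (D.u)⁻¹ = D.ofG g) : b ∈ D.B := by
  by_contra hb
  have h1 : D.HRed [(1, b), (-1, 1)] := by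
    refine List.isChain_cons_cons.2 ⟨fun h2 => absurd h2 hb, by simp⟩
  have h2 := (W95.uniq D h1 (hred_nil D) (g := 1) (g' := g) (by
    simp only [Dat.hprod, List.map_cons, List.map_nil, List.prod_cons, List.prod_nil, map_one,
      mul_one, one_mul, Units.val_one, zpow_one, Units.val_neg, zpow_neg]
    exact h)).1
  simp at h2

/-- The stable letter is not in `G`. -/
theorem u_notMem (g : G) : D.u ≠ D.ofG g := by
  intro h
  have h1 : D.HRed [(1, 1)] := by simp [Dat.HRed]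
  have h2 := (W95.uniq D h1 (hred_nil D) (g := 1) (g' := g) (by
    simp only [Dat.hprod, List.map_cons, List.map_nil, List.prod_cons, List.prod_nil, map_one,
      mul_one, one_mul, Units.val_one, zpow_one]
    exact h)).1
  simp at h2

/-- The group `E` if there are no labels. -/
theorem RE_empty (he : IsEmpty D.ι) {y : D.Ah} (hy : y ∈ RE D) : ∃ g : G, y = D.ofG g := by
  obtain ⟨e, rfl⟩ := hy
  obtain ⟨k, L, _, rfl⟩ := D.hasRed e
  rcases L with _ | ⟨p, L⟩
  · refine ⟨k, ?_⟩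
    rw [map_mul, D.isPhi_phi.1]
    simp [Dat.eprod]
  · exact (he.false p.1).elim

theorem mm_B (h3 : ∀ k, D.l k ≠ 2) {g : G} (hg : g ∈ MM D) : g ∈ D.B := by
  have h1 : MM D ≤ D.B := by
    rw [MM, Subgroup.closure_le]
    rintro x (hx | ⟨i, _, _, hi, _⟩)
    · exact hx
    · exact absurd hi (h3 i)
  exact h1 hg

/-- Conjugates under `x`. -/
theorem xgx (hW : D.W) (h3 : ∀ k, D.l k ≠ 2) {g : G} (h : D.x * D.ofG g * (D.x)⁻¹ ∈ RE D) :
    g ∈ D.B := by
  rcases isEmpty_or_nonempty D.ι with he | ⟨⟨i⟩⟩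
  · obtain ⟨g', hg'⟩ := RE_empty D he h
    refine c0 D (b := g) (g := (D.t₀)⁻¹ * g' * D.t₀) ?_
    rw [map_mul, map_mul, map_inv, ← hg', Dat.x]
    group
  · exact mm_B D h3 (Pool.Agent.Lib.MP_551055_al.N5.W6.cSx hW i g h)

/-- The element `x` is not in `E`. -/
theorem x_notMem (hW : D.W) : D.x ∉ RE D := by
  intro h
  rcases isEmpty_or_nonempty D.ι with he | ⟨⟨i⟩⟩
  · obtain ⟨g, hg⟩ := RE_empty D he h
    refine u_notMem D ((D.t₀)⁻¹ * g) ?_
    rw [map_mul, map_inv, ← hg, Dat.x]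
    group
  · have hk : D.h (D.t i * (D.t₀)⁻¹) = 1 := by
      rw [map_mul, map_inv, D.h_t, D.h_t₀, mul_inv_cancel]
    have h1 : D.ofG (D.t i * (D.t₀)⁻¹) ∈ RE D :=
      ⟨D.inE ⟨_, hk⟩, by rw [D.isPhi_phi.1]⟩
    refine Pool.Agent.Lib.MP_551055_al.N5.W6.c1 hW i 1 1 le_rfl
      (by have := D.two_le i; omega) (fun h2 => absurd h2 (by omega)) ?_
    have h2 : xi D i ^ 1 * D.ofG 1 = D.ofG (D.t i * (D.t₀)⁻¹) * D.x := by
      unfold xi Dat.x
      rw [map_one, mul_one, pow_one, ← mul_assoc, ← map_mul, inv_mul_cancel_right]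
    rw [h2]
    exact mul_mem h1 h

/-- Powers of the new generator. -/
theorem pow_mem (hW : D.W) (h3 : ∀ k, D.l k ≠ 2) {A : Type} [Group A] (i : G →* A) (v : A)
    (hE : D.IsExt A i v) (n : ℕ) (b : G) (hb : v ^ (n + 1) * i b * (v ^ (n + 1))⁻¹ ∈ i.range) :
    b ∈ D.B := by
  by_contra hn
  have ht : D.h D.t₀ ≠ 1 := by
    rw [D.h_t₀]
    exact fun h => absurd (congrArg toAdd h) (by simp)
  have ht' : D.h (D.t₀)⁻¹ ≠ 1 := by
    rw [map_inv]
    exact fun h => ht (inv_eq_one.1 h)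
  set L : List (ℤˣ × G) := List.replicate n (1, (D.t₀)⁻¹) ++ (1, b) ::
    List.replicate (n + 1) (-1, D.t₀) with hL
  have h1 : (L.map fun p => (i D.t₀ * v) ^ (p.1 : ℤ) * i p.2).prod =
      i D.t₀ * (v ^ (n + 1) * i b * (v ^ (n + 1))⁻¹) := by
    rw [hL]
    simp only [List.map_append, List.map_replicate, List.map_cons, List.prod_append,
      List.prod_replicate, List.prod_cons, Units.val_one, zpow_one, Units.val_neg, zpow_neg,
      map_inv]
    have e1 : i D.t₀ * v * (i D.t₀)⁻¹ = i D.t₀ * v * (i D.t₀)⁻¹ := rfl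
    have e2 : (i D.t₀ * v)⁻¹ * i D.t₀ = v⁻¹ := by group
    rw [e2, conj_pow, inv_pow, pow_succ' v n]
    group
  refine stG2 stF G D hW A i v hE D.phi D.isPhi_phi L (by simp [hL]) ?_
    (h1 ▸ mul_mem ⟨D.t₀, rfl⟩ hb)
  intro L₁ R₀ δ κ L₂ hdec hR
  have hmem : ∀ p ∈ L, D.h p.2 = 1 → p = (1, b) := by
    intro p hp hp1
    rw [hL, List.mem_append, List.mem_cons] at hp
    rcases hp with hp | hp | hp
    · rw [List.eq_of_mem_replicate hp] at hp1
      exact absurd hp1 ht'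
    · exact hp
    · rw [List.eq_of_mem_replicate hp] at hp1
      exact absurd hp1 ht
  rcases R₀ with _ | ⟨p, R₁⟩
  · intro h
    have h2 : D.x ^ (δ : ℤ) ∈ RE D := by
      have h9 : D.xw [] * D.x ^ (δ : ℤ) ∈ RE D := h
      rwa [Dat.xw, List.map_nil, List.prod_nil, one_mul] at h9
    rcases Int.units_eq_one_or δ with rfl | rfl
    · rw [Units.val_one, zpow_one] at h2
      exact x_notMem D hW h2
    · rw [Units.val_neg, Units.val_one, zpow_neg, zpow_one] at h2
      exact x_notMem D hW (inv_mem_iff.1 h2)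
  · have hp : p = (1, b) := hmem p (by rw [hdec]; simp) (hR p (by simp))
    have hb1 : D.h b = 1 := by
      have := hR p (by simp)
      rwa [hp] at this
    subst hp
    have hdec' : L₁ ++ (1, b) :: (R₁ ++ (δ, κ) :: L₂) =
        List.replicate n (1, (D.t₀)⁻¹) ++ (1, b) :: List.replicate (n + 1) (-1, D.t₀) := by
      rw [← hL, hdec]
      simp
    have h2 := (List.append_cons_inj_of_notMem (a₁ := ((1 : ℤˣ), b)) (a₂ := ((1 : ℤˣ), b))
      (fun h => ?_) (fun h => ?_)).1 hdec'.symm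
    · obtain ⟨_, _, h4⟩ := h2
      replace h4 := h4.symm
      have h5 : R₁ = [] := by
        rcases R₁ with _ | ⟨q, R₂⟩
        · rfl
        · exfalso
          have h6 : q ∈ List.replicate (n + 1) ((-1 : ℤˣ), D.t₀) := by
            rw [← h4]
            simp
          have h7 := hR q (by simp)
          rw [List.eq_of_mem_replicate h6] at h7
          exact ht h7
      subst h5
      have h6 : ((δ, κ) : ℤˣ × G) = (-1, D.t₀) := by
        refine List.eq_of_mem_replicate (n := n + 1) ?_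
        rw [← h4]
        simp
      have h7 : δ = -1 := congrArg Prod.fst h6
      subst h7
      intro h
      have h8 : D.x * D.ofG b * (D.x)⁻¹ ∈ RE D := by
        have h9 : D.xw [(1, b)] * D.x ^ ((-1 : ℤˣ) : ℤ) ∈ RE D := h
        rwa [Dat.xw, List.map_cons, List.map_nil, List.prod_cons, List.prod_nil, mul_one,
          Units.val_neg, Units.val_one, zpow_neg, zpow_one] at h9
      exact hn (xgx D hW h3 h8)
    · have h3 := List.eq_of_mem_replicate h
      have h4 : b = (D.t₀)⁻¹ := congrArg Prod.snd h3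
      rw [h4] at hb1
      exact ht' hb1
    · have h3 := List.eq_of_mem_replicate h
      have h4 : b = D.t₀ := congrArg Prod.snd h3
      rw [h4] at hb1
      exact ht hb1

end

/-- Elements commuting with a generator. -/
theorem comm_one {S : Type} (l : S → S → ℕ) (s : S) (Y : Set S) (h : ∀ y ∈ Y, l s y = 1)
    {b : EA l} (hb : b ∈ par l Y) : Commute b (gen l s) := by
  have h1 : par l Y ≤ Subgroup.centralizer {gen l s} := by
    rw [par, Subgroup.closure_le]
    rintro _ ⟨y, hy, rfl⟩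
    rw [SetLike.mem_coe, Subgroup.mem_centralizer_iff]
    rintro _ rfl
    have h2 := gen_rel l s y
    rw [h y hy, pow_one, pow_one] at h2
    exact h2
  exact ((Subgroup.mem_centralizer_iff.1 (h1 hb)) _ rfl).symm

/-- Positive powers. -/
theorem pos {S : Type} [Finite S] (l : S → S → ℕ) (hl : ∀ s t, l s t = l t s) (s : S) (Y : Set S)
    (hs : s ∉ Y) (h2 : ∀ y ∈ Y, l s y ≠ 2) {b : EA l} (hb : b ∈ par l Y) (n : ℕ)
    (hc : gen l s ^ (n + 1) * b * (gen l s ^ (n + 1))⁻¹ ∈ par l Y) : Commute b (gen l s) := by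
  classical
  by_cases hall : ∀ y ∈ Y, l s y = 1
  · exact comm_one l s Y hall hb
  push Not at hall
  obtain ⟨y₀, hy₀, hly⟩ := hall
  set Z : Set S := insert s Y with hZ
  have hYZ : Y ⊆ Z := Set.subset_insert s Y
  set lZ : Z → Z → ℕ := fun a b => l a b with hlZ
  let u : Z := ⟨s, Set.mem_insert s Y⟩
  have hne : ∀ y (hy : y ∈ Y), (⟨y, hYZ hy⟩ : Z) ≠ u := by
    intro y hy h
    have h3 : y = s := congrArg Subtype.val h
    exact hs (h3 ▸ hy)
  have hY : ∀ z : {x : Z // x ≠ u}, ((z : Z) : S) ∈ Y := by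
    intro z
    rcases (z : Z).2 with h | h
    · exact absurd (Subtype.ext h) z.2
    · exact h
  obtain ⟨D, hD, i, hi1, hi2, hExt⟩ := stI2 Z lZ (fun a b => hl a b) u
    ⟨⟨⟨y₀, hYZ hy₀⟩, hne y₀ hy₀⟩, hly⟩
  have hW : D.W := Pool.Agent.Lib.MP_551055_al.EA.w_of_loc lZ (fun a b => hl a b) u (Or.inl fun a c ha hc _ =>
    ⟨fun h => h2 a (hY ⟨a, ha⟩) h.1, fun h => h2 a (hY ⟨a, ha⟩) (by rw [hl]; exact h.1)⟩) D hD
  have h3 : ∀ k, D.l k ≠ 2 := by
    intro k hk
    obtain ⟨z, _, hz⟩ := hD.t k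
    exact h2 z (hY z) (hz.trans hk)
  have hr : ∀ c ∈ par l Y, ∃ c' : EA (del lZ u), i c' = retr l Z c := by
    intro c hc
    have h4 : par l Y ≤ i.range.comap (retr l Z) := by
      rw [par, Subgroup.closure_le]
      rintro _ ⟨y, hy, rfl⟩
      refine ⟨gen (del lZ u) ⟨⟨y, hYZ hy⟩, hne y hy⟩, ?_⟩
      rw [hi1, retr_mem l (hYZ hy)]
    exact h4 hc
  have hgs : retr l Z (gen l s) = gen lZ u := retr_mem l (Set.mem_insert s Y)
  obtain ⟨b', hb'⟩ := hr b hb
  obtain ⟨c', hc'⟩ := hr _ hc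
  have h4 : b' ∈ D.B := by
    refine pow_mem D hW h3 i (gen lZ u) hExt n b' ⟨c', ?_⟩
    rw [hc', hb', map_mul, map_mul, map_inv, map_pow, hgs]
  have h5 : Commute (i b') (gen lZ u) := hExt.comm b' h4
  have h6 := h5.map (incl l Z)
  rw [hb', incl_gen] at h6
  have h7 : incl l Z (retr l Z b) = b := rho_par l (par_mono l hYZ hb)
  rwa [h7] at h6

end PW54

/-- Module PW. Powers of a generator. -/
theorem stPW : StPW := by
  intro S _ l hl s Y hs h2 b hb n hn hc
  obtain ⟨m, rfl | rfl⟩ := n.eq_nat_or_neg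
  · obtain ⟨m, rfl⟩ := Nat.exists_eq_succ_of_ne_zero (by simpa using hn : m ≠ 0)
    exact PW54.pos l hl s Y hs h2 hb m (by rwa [zpow_natCast] at hc)
  · obtain ⟨m, rfl⟩ := Nat.exists_eq_succ_of_ne_zero (by simpa using hn : m ≠ 0)
    have h1 := PW54.pos l hl s Y hs h2 hc m (by
      rw [← zpow_natCast]
      have e : gen l s ^ ((m.succ : ℕ) : ℤ) * (gen l s ^ (-((m.succ : ℕ) : ℤ)) * b *
          (gen l s ^ (-((m.succ : ℕ) : ℤ)))⁻¹) * (gen l s ^ ((m.succ : ℕ) : ℤ))⁻¹ = b := by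
        group
      rw [← Nat.succ_eq_add_one, e]
      exact hb)
    have h3 : Commute (gen l s ^ (-((m.succ : ℕ) : ℤ)) * b *
        (gen l s ^ (-((m.succ : ℕ) : ℤ)))⁻¹) (gen l s ^ (-((m.succ : ℕ) : ℤ))) :=
      h1.zpow_right _
    have h4 : gen l s ^ (-((m.succ : ℕ) : ℤ)) * b * (gen l s ^ (-((m.succ : ℕ) : ℤ)))⁻¹ = b := by
      have h5 : (gen l s ^ (-((m.succ : ℕ) : ℤ)))⁻¹ * ((gen l s ^ (-((m.succ : ℕ) : ℤ)) * b *
          (gen l s ^ (-((m.succ : ℕ) : ℤ)))⁻¹) * gen l s ^ (-((m.succ : ℕ) : ℤ))) = b := by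
        group
      rwa [h3.eq, inv_mul_cancel_left] at h5
    rwa [h4] at h1

end Pool.Agent.Lib.MP_551055_al.N5V
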