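import Mathlib
import Pool.Agent.Lib.MP_551055_al.Trim.EA.Rec
import Pool.Agent.Lib.MP_551055_al.Trim.EA.Stmts
import Pool.Agent.Lib.MP_551055_al.Trim.LS.PStmts
import Pool.Agent.Lib.MP_551055_al.Trim.LS.Stmts
import Pool.Agent.Lib.MP_551055_al.Trim.MT.Flow2
import Pool.Agent.Lib.MP_551055_al.Trim.MT.K1
import Pool.Agent.Lib.MP_551055_al.Trim.N4.Asm_17
import Pool.Agent.Lib.MP_551055_al.Trim.N4.O_17
import Pool.Agent.Lib.MP_551055_al.Trim.N4.Rules_17
import Pool.Agent.Lib.MP_551055_al.Trim.N4.Uni_17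
import Pool.Agent.Lib.MP_551055_al.Trim.N5.Asm_54
import Pool.Agent.Lib.MP_551055_al.Trim.N5.S2M_17
import Pool.Agent.Lib.MP_551055_al.Trim.N5.W5_95
import Pool.Agent.Lib.MP_551055_al.Trim.RI.Stmts
import Pool.Agent.Lib.MP_551055_al.Trim.W17.Peel
import Pool.Agent.Lib.MP_551055_al.Trim.X.MP_e6f638_al.I1
import Pool.Agent.Lib.MP_551055_al.Trim.X.MP_e6f638_al.Stmts

/-!
# Good sets of generators: closure under unions, removal of generators, infinite labels
-/

set_option autoImplicit false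

namespace Pool.Agent.Lib.MP_551055_al
end Pool.Agent.Lib.MP_551055_al

namespace Pool.Agent.Lib.MP_e6f638_al
end Pool.Agent.Lib.MP_e6f638_al

namespace Pool.Agent.Lib.MP_551055_al.LS
end Pool.Agent.Lib.MP_551055_al.LS

namespace Pool.Agent.Lib.MP_551055_al.RI
end Pool.Agent.Lib.MP_551055_al.RI

namespace Pool.Agent.Lib.MP_551055_al.N4
end Pool.Agent.Lib.MP_551055_al.N4

namespace Pool.Agent.Lib.MP_551055_al.EA
end Pool.Agent.Lib.MP_551055_al.EA

namespace Pool.Agent.Lib.MP_551055_al.N5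

open Pool.Agent.Lib.MP_551055_al

open Pool.Agent.Lib.MP_e6f638_al (Dat EA gen par rho del IsDatOf IsAxis retr incl liftEA liftEA_gen hom_ext_EA gen_rel rho_mem rho_not_mem rho_par rho_mem_par gen_mem_par closure_gen incl_gen retr_mem retr_not_mem retr_incl incl_injective par_mono)

open Pool.Agent.Lib.MP_551055_al.LS (TreeAct ZN)

open Pool.Agent.Lib.MP_551055_al.RI

open Pool.Agent.Lib.MP_551055_al.N4

open Pool.Agent.Lib.MP_551055_al.EA (TD Ell td_embed map_rho_aux Spl rho_rho)

variable {S : Type}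

/-- Subsets. -/
theorem monoX {P : ∀ (G : Type) [Group G], Prop} (hP : Rules P) {l : S → S → ℕ} {X Y : Set S}
    (h : Y ⊆ X) (hX : P (EA (fun a b : X => l a b))) : P (EA (fun a b : Y => l a b)) := by
  refine hP.lift _ _ ((retr l X).comp (incl l Y)) (lift_of_injective _ ?_) hX
  rw [injective_iff_map_eq_one]
  intro y hy
  have h1 : incl l Y y = 1 := N4.retr_inj (par_mono l h (incl_mem_par Y y)) hy
  exact (injective_iff_map_eq_one _).1 (incl_injective l Y) y h1

/-- The labels on the diagonal do not matter. -/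
theorem offdiag {P : ∀ (G : Type) [Group G], Prop} (hP : Rules P) {T : Type} {l l' : T → T → ℕ}
    (h : ∀ s t, s ≠ t → l' s t = l s t) (hG : P (EA l)) : P (EA l') := by
  have h1 : ∀ s t, (gen l s * gen l t) ^ l' s t = (gen l t * gen l s) ^ l' s t := by
    intro s t
    by_cases hst : s = t
    · rw [hst]
    · rw [h s t hst]
      exact gen_rel l s t
  have h2 : ∀ s t, (gen l' s * gen l' t) ^ l s t = (gen l' t * gen l' s) ^ l s t := by
    intro s t
    by_cases hst : s = t
    · rw [hst]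
    · rw [← h s t hst]
      exact gen_rel l' s t
  refine hP.lift _ _ (liftEA l' (gen l) h1) (lift_of_injective _ ?_) hG
  refine Function.LeftInverse.injective (g := liftEA l (gen l') h2) fun y => ?_
  have h3 : (liftEA l (gen l') h2).comp (liftEA l' (gen l) h1) = MonoidHom.id _ :=
    hom_ext_EA _ fun s => by
      rw [MonoidHom.comp_apply, liftEA_gen, liftEA_gen, MonoidHom.id_apply]
  exact DFunLike.congr_fun h3 y

/-- The group with infinite labels instead of the labels at `u` which are at least six. -/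
theorem cutX {P : ∀ (G : Type) [Group G], Prop} (hP : Rules P) {l : S → S → ℕ}
    (hl : ∀ s t, l s t = l t s) (u : S) :
    ∀ (n : ℕ) (X : Set S), X.Finite → X.ncard = n → u ∈ X →
      P (EA (fun a b : ↥(X \ {u}) => l a b)) →
      P (EA (fun a b : ↥({s | s ∈ X ∧ (s = u ∨ l u s = 1 ∨ l u s = 2)} : Set S) => l a b)) →
      P (EA (fun a b : X => cutL l u a b)) := by
  intro n
  induction n with
  | zero =>
    intro X hX hn hu
    rw [Set.ncard_eq_zero hX] at hn
    rw [hn] at hu
    exact absurd hu (Set.notMem_empty u)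
  | succ n ih =>
    intro X hX hn hu hd hN
    by_cases h : ∃ k ∈ X, ¬ (k = u ∨ l u k = 1 ∨ l u k = 2)
    · obtain ⟨k, hk, hk2⟩ := h
      have hku : u ≠ k := fun h => hk2 (Or.inl h.symm)
      have h0 : cutL l u u k = 0 := by
        rw [cutL_u]
        split_ifs with h3
        · rfl
        · have h4 : l u k ≠ 1 := fun h => hk2 (Or.inr (Or.inl h))
          have h5 : l u k ≠ 2 := fun h => hk2 (Or.inr (Or.inr h))
          omega
      refine hP.infiniteX (cutL_symm l u hl) u k hu hk hku h0 ?_ ?_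
      · refine offdiag hP (l := fun a b : ↥(X \ {u}) => l a b) (fun s t _ => ?_) hd
        exact cutL_ne l u s.2.2 t.2.2
      · refine ih (X \ {k}) hX.sdiff ?_ ⟨hu, hku⟩
          (monoX hP (Y := (X \ {k}) \ {u}) (fun s (hs : s ∈ (X \ {k}) \ {u}) =>
            (⟨hs.1.1, hs.2⟩ : s ∈ X \ {u})) hd)
          (monoX hP (Y := {s | s ∈ X \ {k} ∧ (s = u ∨ l u s = 1 ∨ l u s = 2)})
            (fun s hs => (⟨hs.1.1, hs.2⟩ : s ∈ X ∧ (s = u ∨ l u s = 1 ∨ l u s = 2))) hN)
        have h1 := Set.ncard_sdiff_singleton_add_one hk hX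
        omega
    · push Not at h
      refine offdiag hP (l := fun a b : X => l a b) (fun s t hst => ?_)
        (monoX hP (fun s hs => (⟨hs, h s hs⟩ : s ∈ X ∧ (s = u ∨ l u s = 1 ∨ l u s = 2))) hN)
      have key : ∀ s ∈ X, s ≠ u → cutL l u u s = l u s := by
        intro s hs hsu
        rw [cutL_u, if_neg]
        rcases h s hs with h1 | h1 | h1
        · exact absurd h1 hsu
        · omega
        · omega
      change cutL l u s t = l s t
      by_cases hs : (s : S) = u
      · have ht : (t : S) ≠ u := fun h => hst (Subtype.ext (hs.trans h.symm))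
        rw [hs, key t t.2 ht]
      · by_cases ht : (t : S) = u
        · rw [ht, cutL_symm l u hl, key s s.2 hs, hl]
        · exact cutL_ne l u hs ht

/-- Removal of a vertex with a label four which is in no triple with labels `4, 4, 2`. -/
theorem mixedX {P : ∀ (G : Type) [Group G], Prop} (hP : Rules P) {l : S → S → ℕ}
    (hl : ∀ s t, l s t = l t s) {X : Set S} (hX : X.Finite) (u : S) (hu : u ∈ X)
    (hno : ∀ s ∈ X, ∀ t ∈ X, s ≠ u → t ≠ u → s ≠ t →
      ¬ (l u s = 2 ∧ l u t = 2 ∧ l s t = 1) ∧ ¬ (l s u = 2 ∧ l s t = 2 ∧ l u t = 1))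
    (h3 : ∀ s ∈ X, s ≠ u → l u s ≠ 3) (a : S) (ha : a ∈ X) (hau : a ≠ u) (hla : l u a = 2)
    (hd : P (EA (fun a b : ↥(X \ {u}) => l a b)))
    (hN : P (EA (fun a b : ↥({s | s ∈ X ∧ (s = u ∨ l u s = 1 ∨ l u s = 2)} : Set S) => l a b))) :
    P (EA (fun a b : X => l a b)) := by
  have : Finite X := hX
  refine mixedL hP X (fun a b : X => l a b) (fun a b => hl a b) ⟨u, hu⟩
    (fun s t hs ht hst => hno s s.2 t t.2 (fun h => hs (Subtype.ext h))
      (fun h => ht (Subtype.ext h)) fun h => hst (Subtype.ext h))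
    (fun s hs => h3 s s.2 fun h => hs (Subtype.ext h)) ⟨a, ha⟩
    (fun h => hau (congrArg Subtype.val h)) hla ?_ (fun a b : X => cutL l u a b)
    (fun s t hs ht => cutL_ne l u (fun h => hs (Subtype.ext h)) fun h => ht (Subtype.ext h))
    (fun s => cutL_u l u s) (fun s t => cutL_symm l u hl s t) (cutX hP hl u _ X hX rfl hu hd hN)
  exact hP.equiv _ _ (S' := {x : X // x ≠ ⟨u, hu⟩}) (S := ↥(X \ {u}))
    ⟨fun a => ⟨a.1.1, a.1.2, fun h => a.2 (Subtype.ext h)⟩,
      fun a => ⟨⟨a.1, a.2.1⟩, fun h => a.2.2 (congrArg Subtype.val h)⟩,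
      fun a => rfl, fun a => rfl⟩ (fun a b => rfl) hd

/-! ## Good sets -/

/-- Finite sets of generators whose products with good groups are good. -/
def U5 (l : S → S → ℕ) (X : Set S) : Prop :=
  X.Finite ∧ ∀ j, Uni j (EA (fun a b : X => l a b))

variable {l : S → S → ℕ}

theorem U5.mono {X Y : Set S} (h : U5 l X) (hY : Y ⊆ X) : U5 l Y :=
  ⟨h.1.subset hY, fun j => monoX (uni_rules j) hY (h.2 j)⟩

theorem U5.two (hl : ∀ s t, l s t = l t s) {X : Set S} (hX : X.Finite) (h : X.ncard ≤ 2) :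
    U5 l X := ⟨hX, fun _ => uni_two hl hX h⟩

/-- The empty set. -/
theorem u5_empty (hl : ∀ s t, l s t = l t s) : U5 l (∅ : Set S) :=
  U5.two hl Set.finite_empty (by rw [Set.ncard_empty]; omega)

end Pool.Agent.Lib.MP_551055_al.N5
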