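import Mathlib
import Pool.Agent.Lib.MP_551055_al.Trim.EA.Main
import Pool.Agent.Lib.MP_551055_al.Trim.EA.Rec
import Pool.Agent.Lib.MP_551055_al.Trim.EA.Stmts
import Pool.Agent.Lib.MP_551055_al.Trim.EA.TD
import Pool.Agent.Lib.MP_551055_al.Trim.LS.PStmts
import Pool.Agent.Lib.MP_551055_al.Trim.LS.Stmts
import Pool.Agent.Lib.MP_551055_al.Trim.MT.Flow2
import Pool.Agent.Lib.MP_551055_al.Trim.MT.K1
import Pool.Agent.Lib.MP_551055_al.Trim.N4.Art_4
import Pool.Agent.Lib.MP_551055_al.Trim.N4.Asm_17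
import Pool.Agent.Lib.MP_551055_al.Trim.N4.Her_17
import Pool.Agent.Lib.MP_551055_al.Trim.N4.Rel_17
import Pool.Agent.Lib.MP_551055_al.Trim.N4.Uni_17
import Pool.Agent.Lib.MP_551055_al.Trim.N4.W_95
import Pool.Agent.Lib.MP_551055_al.Trim.N5.S2M_17
import Pool.Agent.Lib.MP_551055_al.Trim.N5.U5_54
import Pool.Agent.Lib.MP_551055_al.Trim.N5.W5_95
import Pool.Agent.Lib.MP_551055_al.Trim.RI.Stmts
import Pool.Agent.Lib.MP_551055_al.Trim.VNDefs
import Pool.Agent.Lib.MP_551055_al.Trim.W17.Peel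
import Pool.Agent.Lib.MP_551055_al.Trim.W17.StF
import Pool.Agent.Lib.MP_551055_al.Trim.X.MP_e6f638_al.I1
import Pool.Agent.Lib.MP_551055_al.Trim.X.MP_e6f638_al.Stmts

/-!
# Relative depth: sets of generators relative to the sets in a class closed under products
-/

set_option autoImplicit false

namespace Pool.Agent.Lib.MP_551055_al
end Pool.Agent.Lib.MP_551055_al

namespace Pool.Agent.Lib.MP_e6f638_al
end Pool.Agent.Lib.MP_e6f638_al

namespace Pool.Agent.Lib.MP_551055_al.LS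
end Pool.Agent.Lib.MP_551055_al.LS

namespace Pool.Agent.Lib.MP_551055_al.RI
end Pool.Agent.Lib.MP_551055_al.RI

namespace Pool.Agent.Lib.MP_551055_al.N4
end Pool.Agent.Lib.MP_551055_al.N4

namespace Pool.Agent.Lib.MP_551055_al.W17
end Pool.Agent.Lib.MP_551055_al.W17

namespace Pool.Agent.Lib.MP_551055_al.EA
end Pool.Agent.Lib.MP_551055_al.EA

namespace Pool.Agent.Lib.MP_551055_al.N5

open Pool.Agent.Lib.MP_551055_al

open Pool.Agent.Lib.MP_e6f638_al (Dat EA gen par rho del IsDatOf IsAxis retr incl liftEA liftEA_gen hom_ext_EA gen_rel rho_mem rho_not_mem rho_par rho_mem_par gen_mem_par closure_gen incl_gen retr_mem retr_not_mem retr_incl incl_injective)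

open Pool.Agent.Lib.MP_551055_al.LS (TreeAct ZN)

open Pool.Agent.Lib.MP_551055_al.RI

open Pool.Agent.Lib.MP_551055_al.N4

open Pool.Agent.Lib.MP_551055_al.W17 (SF)

open Pool.Agent.Lib.MP_551055_al.EA (TD Ell td_embed map_rho_aux Spl rho_rho)

variable {S : Type}

/-- The depth of sets of generators, relative to the sets of depth zero. -/
inductive RD5 (l : S → S → ℕ) : ℕ → Set S → Prop
  | free (k : ℕ) (X : Set S) : U5 l X → RD5 l k X
  | union (k : ℕ) (X Y : Set S) : U5 l X → (∀ x ∈ X, ∀ y ∈ Y, l x y = 1) →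
      RD5 l k Y → RD5 l k (X ∪ Y)
  | step (k : ℕ) (X : Set S) (u : S) : u ∈ X → Spl l X u → RD5 l (k + 1) (X \ {u}) →
      RD5 l k {c | c ∈ X ∧ c ≠ u ∧ l u c = 1} → RD5 l (k + 1) X
  | infinite (k : ℕ) (X : Set S) (s t : S) : s ∈ X → t ∈ X → s ≠ t → l s t = 0 →
      RD5 l k (X \ {s}) → RD5 l k (X \ {t}) → RD5 l k X

/-- Sets of generators which have relative depth at most `k` after removal of generators without
label four. -/
inductive ER5 (l : S → S → ℕ) (k : ℕ) : Set S → Prop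
  | base (X : Set S) : RD5 l k X → ER5 l k X
  | remove (X : Set S) (u : S) : u ∈ X → (∀ s ∈ X, s ≠ u → l u s ≠ 2) →
      (∀ t ∈ X, ∀ c ∈ X, t ≠ u → c ≠ u → 3 ≤ l u t → l u c = 1 → l t c ≠ 2) →
      ER5 l k (X \ {u}) → ER5 l k X
  | mixed (X : Set S) (u a : S) : u ∈ X →
      (∀ s ∈ X, ∀ t ∈ X, s ≠ u → t ≠ u → s ≠ t →
        ¬ (l u s = 2 ∧ l u t = 2 ∧ l s t = 1) ∧ ¬ (l s u = 2 ∧ l s t = 2 ∧ l u t = 1)) →
      (∀ s ∈ X, s ≠ u → l u s ≠ 3) → a ∈ X → a ≠ u → l u a = 2 → ER5 l k (X \ {u}) →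
      ER5 l k {s | s ∈ X ∧ (s = u ∨ l u s = 1 ∨ l u s = 2)} → ER5 l k X
  | infinite (X : Set S) (s t : S) : s ∈ X → t ∈ X → s ≠ t → l s t = 0 →
      ER5 l k (X \ {s}) → ER5 l k (X \ {t}) → ER5 l k X

variable {l : S → S → ℕ}

/-- The recursion. -/
theorem rtd5 {F : Set S} {H : Subgroup (EA l)} (hE : Ell l F H)
    (hU : ∀ Y ⊆ F, U5 l Y → ∀ h ∈ H, rho l Y h = 1)
    {k : ℕ} {X : Set S} (hD : RD5 l k X) : X ⊆ F → TD k (H.map (rho l X)) := by
  induction hD with
  | free k X h0 =>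
    intro hX
    refine TD.trivial k _ ⟨fun a b => ?_⟩
    obtain ⟨a, x, hx, rfl⟩ := a
    obtain ⟨b, y, hy, rfl⟩ := b
    apply Subtype.ext
    change rho l X x = rho l X y
    rw [hU X hX h0 x hx, hU X hX h0 y hy]
  | union k X Y h0 hc _ ih =>
    intro hX
    refine td_embed (ih (Set.subset_union_right.trans hX)) (H.map (rho l (X ∪ Y))).subtype
      (fun q => map_rho_aux Set.subset_union_right q) fun q hq => ?_
    obtain ⟨_, a, ha, rfl⟩ := q
    have h1 : X ∪ Y = (X \ Y) ∪ Y := by rw [Set.sdiff_union_self]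
    have h3 : rho l (X ∪ Y) a = rho l (X \ Y) a * rho l Y a := by
      rw [h1]
      exact EA.rho_union Set.disjoint_sdiff_left (fun x hx y hy => hc x hx.1 y hy) a
    have h4 : rho l (X \ Y) a = 1 :=
      hU _ (Set.sdiff_subset.trans (Set.subset_union_left.trans hX)) (h0.mono Set.sdiff_subset) a ha
    have h5 : rho l Y a = 1 := by
      have h6 : rho l Y (rho l (X ∪ Y) a) = 1 := hq
      rwa [rho_rho Set.subset_union_right] at h6
    apply Subtype.ext
    change rho l (X ∪ Y) a = 1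
    rw [h3, h4, h5, mul_one]
  | step k X u hu hspl _ _ ih1 ih2 =>
    intro hX
    by_cases hs : ∃ s ∈ X, s ≠ u ∧ l u s ≠ 1
    · obtain ⟨V', _, T', hT', hv, he⟩ := hE.om X hX u hu hspl hs
      refine TD.tree k _ V' T' hT' (fun w => ?_) fun w w' hww => ?_
      · refine td_embed (ih1 (Set.sdiff_subset.trans hX)) ((H.map (rho l X)).subtype.comp
          (Subgroup.subtype _)) (fun q => map_rho_aux Set.sdiff_subset (q : H.map (rho l X)))
          fun q hq => ?_
        exact Subtype.ext (hv w q q.2 hq)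
      · refine td_embed (ih2 ((Set.sep_subset _ _).trans hX)) ((H.map (rho l X)).subtype.comp
          (Subgroup.subtype _)) (fun q => map_rho_aux (Set.sep_subset _ _) (q : H.map (rho l X)))
          fun q hq => ?_
        exact Subtype.ext (he w w' q hww (congrArg Prod.fst q.2) (congrArg Prod.snd q.2) hq)
    · push Not at hs
      have h1 : X = {u} ∪ (X \ {u}) := by
        rw [Set.union_sdiff_cancel (Set.singleton_subset_iff.2 hu)]
      rw [h1]
      refine hE.block (Set.singleton_subset_iff.2 (hX hu)) (Set.finite_singleton u) (by simp)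
        ?_ (ih1 (Set.sdiff_subset.trans hX))
      intro x hx y hy
      rw [Set.mem_singleton_iff.1 hx]
      exact hs y hy.1 fun h => hy.2 h
  | infinite k X s t hs ht hst h0 _ _ ih1 ih2 =>
    intro hX
    have key : ∀ Y : Set S, Y ⊆ X → TD k (H.map (rho l Y)) →
        (∃ x : EA l, ∀ h ∈ H, x⁻¹ * rho l X h * x ∈ par l Y) → TD k (H.map (rho l X)) := by
      rintro Y hYX hY ⟨x, hx⟩
      refine td_embed hY (H.map (rho l X)).subtype (fun q => map_rho_aux hYX q) fun q hq => ?_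
      obtain ⟨_, a, ha, rfl⟩ := q
      have h1 : rho l Y (rho l X a) = 1 := hq
      have h2 := rho_par l (hx a ha)
      rw [map_mul, map_mul, h1, mul_one, ← map_mul, inv_mul_cancel, map_one] at h2
      apply Subtype.ext
      change rho l X a = 1
      have h3 : x * (x⁻¹ * rho l X a * x) * x⁻¹ = rho l X a := by group
      rw [← h3, ← h2]
      group
    obtain ⟨x, hx | hx⟩ := hE.am X hX s t hs ht hst h0
    · exact key _ Set.sdiff_subset (ih1 (Set.sdiff_subset.trans hX)) ⟨x, hx⟩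
    · exact key _ Set.sdiff_subset (ih2 (Set.sdiff_subset.trans hX)) ⟨x, hx⟩

/-- Sets of small relative depth. -/
theorem herJ_rel5 (hl : ∀ s t, l s t = l t s) {j k : ℕ} (hjk : j + k ≤ 2) {X : Set S}
    (hX : X.Finite) (hD : RD5 l k X) : HerJ j (EA (fun a b : X => l a b)) := by
  intro H _ f hf
  have : Finite {Y : Set S // Y ⊆ X ∧ U5 l Y} :=
    (hX.finite_subsets.subset fun Y hY => hY.1 :
      {Y : Set S | Y ⊆ X ∧ U5 l Y}.Finite)
  have hP : HerJ 2 (∀ i : {Y : Set S // Y ⊆ X ∧ U5 l Y}, EA (fun a b : i.1 => l a b)) :=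
    (Uni.pi _ fun i => i.2.2.2 2).herJ le_rfl
  obtain ⟨τ', hτ'⟩ := exists_ell hl X hX H ((incl l X).comp f)
  obtain ⟨J, _, τ, hτ⟩ := hf
  have : Finite X := hX
  refine hP H (MonoidHom.pi fun i => (retr l i.1).comp ((incl l X).comp f))
    ⟨J ⊕ EA.Ix X, inferInstance, Sum.elim τ τ', fun v => ?_⟩
  set F : H →* ∀ i : {Y : Set S // Y ⊆ X ∧ U5 l Y}, EA (fun a b : i.1 => l a b) :=
    MonoidHom.pi fun i => (retr l i.1).comp ((incl l X).comp f) with hF
  obtain ⟨A, hA⟩ : ∃ A : Subgroup H, A = F.ker ⊓ stabV (Sum.elim τ τ') v := ⟨_, rfl⟩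
  rw [← hA]
  have hE : Ell l X (A.map ((incl l X).comp f)) := by
    refine hτ' (fun i => v (Sum.inr i)) A ?_
    rw [hA]
    exact fun _ hx i => hx.2 (Sum.inr i)
  have h1 : TD k ((A.map ((incl l X).comp f)).map (rho l X)) := by
    refine rtd5 hE (fun Y hY h0 h hh => ?_) hD (Set.Subset.refl X)
    obtain ⟨a, ha, rfl⟩ := hh
    rw [hA] at ha
    have h2 : F a = 1 := ha.1
    have h3 : retr l Y (incl l X (f a)) = 1 := congrFun h2 ⟨Y, hY, h0⟩
    rw [← EA.incl_retr]
    exact (congrArg (incl l Y) h3).trans (map_one _)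
  let f' : A →* (A.map ((incl l X).comp f)).map (rho l X) :=
    ((rho l X).comp (((incl l X).comp f).comp A.subtype)).codRestrict _
      fun g => ⟨incl l X (f g), ⟨g, g.2, rfl⟩, rfl⟩
  refine TD.mono hjk (TD.ext f' ?_ h1)
  refine (hτ fun i => v (Sum.inl i)).of_injective _
    ((A.subtype.comp (Subgroup.subtype _)).codRestrict
      (f.ker ⊓ stabV τ fun i => v (Sum.inl i)) fun g => ⟨?_, ?_⟩) ?_
  · have h2 : rho l X (incl l X (f (g : A))) = 1 := congrArg Subtype.val g.2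
    rw [rho_par l (incl_mem_par X _)] at h2
    have h3 : incl l X (f (g : A)) = incl l X 1 := by rw [h2, map_one]
    exact incl_injective l X h3
  · have h2 : ((g : A) : H) ∈ F.ker ⊓ stabV (Sum.elim τ τ') v := hA ▸ (g : A).2
    exact fun i => h2.2 (Sum.inl i)
  · intro x y hxy
    exact Subtype.ext (Subtype.ext (congrArg
      (fun z : (f.ker ⊓ stabV τ fun i => v (Sum.inl i) : Subgroup H) => (z : H)) hxy))

theorem herJ_er5 (hl : ∀ s t, l s t = l t s) {j k : ℕ} (hjk : j + k ≤ 2) {X : Set S}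
    (h : ER5 l k X) : X.Finite → HerJ j (EA (fun a b : X => l a b)) := by
  induction h with
  | base X hD => exact fun hX => herJ_rel5 hl hjk hX hD
  | remove X u hu h2 hc _ ih =>
    exact fun hX => (rules j).removeX stWd stArt hl hX u hu h2 hc (ih hX.sdiff)
  | mixed X u a hu hno h3 ha hau hla _ _ ih1 ih2 =>
    exact fun hX => mixedX (rules j) hl hX u hu hno h3 a ha hau hla (ih1 hX.sdiff)
      (ih2 (hX.subset (Set.sep_subset _ _)))
  | infinite X s t hs ht hst h0 _ _ ih1 ih2 =>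
    exact fun hX => (rules j).infiniteX hl s t hs ht hst h0 (ih1 hX.sdiff) (ih2 hX.sdiff)

theorem er5_all (hl : ∀ s t, l s t = l t s) {k : ℕ}
    (h : ∀ X : Set S, X.Finite → (∀ s ∈ X, ∀ t ∈ X, s ≠ t → l s t ≠ 0) → ER5 l k X) :
    ∀ X : Set S, X.Finite → ER5 l k X := by
  suffices H : ∀ (n : ℕ) (X : Set S), X.Finite → X.ncard ≤ n → ER5 l k X from
    fun X hX => H _ X hX le_rfl
  intro n
  induction n with
  | zero =>
    intro X hX h0
    rw [(Set.ncard_eq_zero hX).1 (Nat.le_zero.1 h0)]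
    exact ER5.base _ (RD5.free _ _ (u5_empty hl))
  | succ n ih =>
    intro X hX hn
    by_cases hc : ∀ s ∈ X, ∀ t ∈ X, s ≠ t → l s t ≠ 0
    · exact h X hX hc
    · push Not at hc
      obtain ⟨s, hs, t, ht, hst, h0⟩ := hc
      have h1 : (X \ {s}).ncard + 1 = X.ncard := Set.ncard_sdiff_singleton_add_one hs hX
      have h2 : (X \ {t}).ncard + 1 = X.ncard := Set.ncard_sdiff_singleton_add_one ht hX
      exact ER5.infinite X s t hs ht hst h0 (ih _ hX.sdiff (by omega))
        (ih _ hX.sdiff (by omega))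

/-- Even Artin groups. -/
theorem herJ_main5 (hl : ∀ s t, l s t = l t s) {j k : ℕ} (hjk : j + k ≤ 2)
    (h : ∀ X : Set S, X.Finite → (∀ s ∈ X, ∀ t ∈ X, s ≠ t → l s t ≠ 0) → ER5 l k X) :
    HerJ j (EA l) :=
  herJ_of_finite fun F hF => herJ_er5 hl hjk (er5_all hl h F hF) hF

/-- The main theorem with relative depth. -/
theorem main5 (S : Type) (l : S → S → ℕ) (hl : ∀ s t, l s t = l t s) (j k : ℕ) (hjk : j + k ≤ 2)
    (h : ∀ X : Set S, X.Finite → (∀ s ∈ X, ∀ t ∈ X, s ≠ t → l s t ≠ 0) → ER5 l k X)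
    (G : Type) [Group G] (f : G →* EA l) (I : Type) [Finite I] (W : I → Type)
    [∀ i, MulAction G (W i)] (T : ∀ i, SimpleGraph (W i)) (hT : ∀ i, TreeAct G (W i) (T i))
    (hf : ∀ v : ∀ i, W i, TD j (f.ker ⊓ MulAction.stabilizer G v : Subgroup G)) : SF G :=
  fun n => herJ_main5 hl hjk h G f
    ⟨I, inferInstance, fun i => ⟨W i, inferInstance, T i, hT i⟩, fun v =>
      td_map (hf v) (MonoidHom.id G) (fun _ hx => ⟨hx.1, funext fun i => hx.2 i⟩) fun _ _ h => h⟩ n

end Pool.Agent.Lib.MP_551055_al.N5
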