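import Mathlib
import Pool.Agent.Lib.MP_551055_al.Trim.LD.NG
import Pool.Agent.Lib.MP_551055_al.Trim.LS.Stmts
import Pool.Agent.Lib.MP_551055_al.Trim.MT.Flow2
import Pool.Agent.Lib.MP_551055_al.Trim.MT.RCU
import Pool.Agent.Lib.MP_551055_al.Trim.N5.AP_42
import Pool.Agent.Lib.MP_551055_al.Trim.N5.StmtsK28
import Pool.Agent.Lib.MP_551055_al.Trim.N5.StmtsV28
import Pool.Agent.Lib.MP_551055_al.Trim.RI.K
import Pool.Agent.Lib.MP_551055_al.Trim.T4.Perf
import Pool.Agent.Lib.MP_551055_al.Trim.T6.GenF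

/-!
# Module VA: HNN extensions with equal associated subgroups are amalgams
-/

set_option autoImplicit false

namespace Pool.Agent.Lib.MP_551055_al
end Pool.Agent.Lib.MP_551055_al

namespace Pool.Agent.Lib.MP_551055_al.N5K
end Pool.Agent.Lib.MP_551055_al.N5K

namespace Pool.Agent.Lib.MP_551055_al.N5V

namespace VA

open Pool.Agent.Lib.MP_551055_al

open Pool.Agent.Lib.MP_551055_al.N5K (Wd Amal AmalW)

open HNNExtension HNNExtension.NormalWord

variable {K : Type} [Group K] {A : Subgroup K} {φ : A ≃* A}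

theorem zpow_mul_of (n : ℤ) : ∀ a : A, ∃ a' : A,
    (t ^ n * of (a : K) : HNNExtension K A A φ) = of (a' : K) * t ^ n := by
  induction n using Int.induction_on with
  | zero => exact fun a => ⟨a, by simp⟩
  | succ n ih =>
    intro a
    obtain ⟨a', h⟩ := ih (φ a)
    refine ⟨a', ?_⟩
    rw [zpow_add_one, mul_assoc, t_mul_of, ← mul_assoc, h, mul_assoc]
  | pred n ih =>
    intro a
    obtain ⟨a', h⟩ := ih (φ.symm a)
    refine ⟨a', ?_⟩
    rw [zpow_sub_one, mul_assoc, inv_t_mul_of, ← mul_assoc, h, mul_assoc]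

/-- The elements of the second factor. -/
theorem mem_true {g : HNNExtension K A A φ} (hg : g ∈ XA A φ true) :
    ∃ (a : A) (n : ℤ), g = of (a : K) * t ^ n := by
  have h0 : XA A φ true = Subgroup.closure
      (HNNExtension.of '' (A : Set K) ∪ {HNNExtension.t}) := rfl
  rw [h0] at hg
  induction hg using Subgroup.closure_induction with
  | mem x hx =>
    rcases hx with ⟨a, ha, rfl⟩ | rfl
    · exact ⟨⟨a, ha⟩, 0, by simp⟩
    · exact ⟨1, 1, by simp⟩
  | one => exact ⟨1, 0, by simp⟩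
  | mul x y _ _ hx hy =>
    obtain ⟨a, n, rfl⟩ := hx
    obtain ⟨b, m, rfl⟩ := hy
    obtain ⟨b', h⟩ := zpow_mul_of (φ := φ) n b
    refine ⟨a * b', n + m, ?_⟩
    rw [zpow_add, Subgroup.coe_mul, map_mul, mul_assoc, mul_assoc, ← mul_assoc (t ^ n), h,
      mul_assoc]
  | inv x _ hx =>
    obtain ⟨a, n, rfl⟩ := hx
    obtain ⟨b', h⟩ := zpow_mul_of (φ := φ) (-n) a⁻¹
    refine ⟨b', -n, ?_⟩
    rw [← h, mul_inv_rev, zpow_neg, Subgroup.coe_inv, map_inv]

theorem map_le_true : A.map (of : K →* HNNExtension K A A φ) ≤ XA A φ true := by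
  rintro _ ⟨a, ha, rfl⟩
  exact Subgroup.subset_closure (Or.inl ⟨a, ha, rfl⟩)

theorem map_le_false : A.map (of : K →* HNNExtension K A A φ) ≤ XA A φ false := by
  rintro _ ⟨a, _, rfl⟩
  exact ⟨a, rfl⟩

theorem t_mem : (t : HNNExtension K A A φ) ∈ XA A φ true :=
  Subgroup.subset_closure (Or.inr rfl)

theorem map_le : ∀ s, A.map (of : K →* HNNExtension K A A φ) ≤ XA A φ s
  | true => map_le_true
  | false => map_le_false

theorem of_mem_map {a : K} : (of a : HNNExtension K A A φ) ∈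
    A.map (of : K →* HNNExtension K A A φ) ↔ a ∈ A :=
  ⟨fun ⟨b, hb, h⟩ => by rwa [← of_injective φ h], fun h => ⟨a, h, rfl⟩⟩

/-- The product of the letters. -/
def pl (φ : A ≃* A) (L : List (ℤˣ × K)) : HNNExtension K A A φ :=
  (L.map (fun x => t ^ (x.1 : ℤ) * of x.2)).prod

/-- Reduced words. -/
def Ch (A : Subgroup K) (L : List (ℤˣ × K)) : Prop :=
  L.IsChain (fun a b => a.2 ∈ A → a.1 = b.1)

theorem ch_iff (L : List (ℤˣ × K)) : Ch A L ↔
    L.IsChain (fun a b => a.2 ∈ toSubgroup A A a.1 → a.1 = b.1) := by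
  have h : ∀ u : ℤˣ, toSubgroup A A u = A := by
    intro u
    rcases Int.units_eq_one_or u with rfl | rfl
    · rfl
    · rfl
  unfold Ch
  simp only [h]

theorem nil_of_range {L : List (ℤˣ × K)} (hL : Ch A L) (k : K)
    (h : of k * pl φ L ∈ (of.range : Subgroup (HNNExtension K A A φ))) : L = [] :=
  ReducedWord.toList_eq_nil_of_mem_of_range φ
    (⟨k, L, (ch_iff L).1 hL⟩ : ReducedWord K A A) h

/-- A power of `t` in front of a reduced word. -/
theorem power (ε : ℤˣ) (x : K) (L : List (ℤˣ × K)) (hL : Ch A L)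
    (hx : ∀ y ∈ L.head?, x ∈ A → ε = y.1) (m : ℕ) :
    ∃ L' : List (ℤˣ × K), Ch A L' ∧ L' ≠ [] ∧ (∀ y ∈ L'.head?, y.1 = ε) ∧
      pl φ L' = (t ^ (ε : ℤ)) ^ (m + 1) * of x * pl φ L := by
  induction m with
  | zero =>
    refine ⟨(ε, x) :: L, List.isChain_cons.2 ⟨fun y hy => hx y hy, hL⟩, List.cons_ne_nil _ _,
      fun y hy => ?_, ?_⟩
    · rw [List.head?_cons, Option.mem_def, Option.some.injEq] at hy
      rw [← hy]
    · rw [pl, List.map_cons, List.prod_cons, zero_add, pow_one]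
      rfl
  | succ m ih =>
    obtain ⟨L', h1, h2, h3, h4⟩ := ih
    refine ⟨(ε, 1) :: L', List.isChain_cons.2 ⟨fun y hy _ => (h3 y hy).symm, h1⟩,
      List.cons_ne_nil _ _, fun y hy => ?_, ?_⟩
    · rw [List.head?_cons, Option.mem_def, Option.some.injEq] at hy
      rw [← hy]
    · have h5 : pl φ ((ε, 1) :: L') = t ^ (ε : ℤ) * of 1 * pl φ L' := by
        rw [pl, List.map_cons, List.prod_cons]
        rfl
      rw [h5, h4, map_one, mul_one, pow_succ' _ (m + 1)]
      simp only [mul_assoc]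

theorem zpow_eq (n : ℤ) (hn : n ≠ 0) : ∃ (ε : ℤˣ) (m : ℕ),
    (t ^ n : HNNExtension K A A φ) = (t ^ (ε : ℤ)) ^ (m + 1) := by
  rcases lt_or_gt_of_ne hn with h | h
  · refine ⟨-1, (-n).toNat - 1, ?_⟩
    rw [← zpow_natCast, ← zpow_mul]
    congr 1
    have h1 : ((-n).toNat - 1 + 1 : ℕ) = (-n).toNat := by omega
    rw [h1, Int.toNat_of_nonneg (by omega)]
    simp
  · refine ⟨1, n.toNat - 1, ?_⟩
    rw [← zpow_natCast, ← zpow_mul]
    congr 1
    have h1 : (n.toNat - 1 + 1 : ℕ) = n.toNat := by omega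
    rw [h1, Int.toNat_of_nonneg (by omega)]
    simp

/-- The reduced word of an alternating product. -/
theorem word {s e : Bool} {g : HNNExtension K A A φ}
    (h : Wd (XA A φ) (A.map (of : K →* HNNExtension K A A φ)) s e g) :
    ∃ (k : K) (L : List (ℤˣ × K)), Ch A L ∧ g = of k * pl φ L ∧
      (s = true → k ∈ A ∧ L ≠ []) ∧ (s = false → k ∉ A) := by
  induction h with
  | one s g h1 h2 =>
    cases s with
    | false =>
      obtain ⟨k, rfl⟩ := h1
      exact ⟨k, [], List.isChain_nil, by simp [pl], by simp, fun _ hk => h2 (of_mem_map.2 hk)⟩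
    | true =>
      obtain ⟨a, n, rfl⟩ := mem_true h1
      have hn : n ≠ 0 := by
        rintro rfl
        apply h2
        rw [zpow_zero, mul_one]
        exact of_mem_map.2 a.2
      obtain ⟨ε, m, h3⟩ := zpow_eq (A := A) (φ := φ) n hn
      obtain ⟨L', h4, h5, -, h6⟩ := power (φ := φ) ε 1 [] (A := A) List.isChain_nil (by simp) m
      refine ⟨a, L', h4, ?_, fun _ => ⟨a.2, h5⟩, by simp⟩
      rw [h6, h3]
      simp [pl]
  | cons s e g g' h1 h2 _ ih =>
    obtain ⟨k, L, hL, rfl, h3, h4⟩ := ih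
    cases s with
    | false =>
      obtain ⟨k', rfl⟩ := h1
      have hk' : k' ∉ A := fun hk => h2 (of_mem_map.2 hk)
      refine ⟨k' * k, L, hL, by rw [map_mul, mul_assoc], by simp, fun _ hk => hk' ?_⟩
      have := mul_mem hk (inv_mem (h3 rfl).1)
      rwa [mul_inv_cancel_right] at this
    | true =>
      obtain ⟨a, n, rfl⟩ := mem_true h1
      have hn : n ≠ 0 := by
        rintro rfl
        apply h2
        rw [zpow_zero, mul_one]
        exact of_mem_map.2 a.2
      obtain ⟨ε, m, h5⟩ := zpow_eq (A := A) (φ := φ) n hn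
      obtain ⟨L', h6, h7, -, h8⟩ := power (φ := φ) ε k L hL (fun _ _ hk => absurd hk (h4 rfl)) m
      refine ⟨a, L', h6, ?_, fun _ => ⟨a.2, h7⟩, by simp⟩
      rw [h8, h5]
      simp only [mul_assoc]

theorem ok_one (s : Bool) (g : HNNExtension K A A φ) (hg : g ∈ XA A φ s) :
    g ∈ A.map (of : K →* HNNExtension K A A φ) ∨
      ∃ s e, Wd (XA A φ) (A.map (of : K →* HNNExtension K A A φ)) s e g := by
  by_cases h : g ∈ A.map (of : K →* HNNExtension K A A φ)
  · exact Or.inl h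
  · exact Or.inr ⟨s, s, Wd.one _ _ hg h⟩

theorem ok_inv {s e : Bool} {g : HNNExtension K A A φ}
    (h : Wd (XA A φ) (A.map (of : K →* HNNExtension K A A φ)) s e g) :
    g⁻¹ ∈ A.map (of : K →* HNNExtension K A A φ) ∨
      ∃ s e, Wd (XA A φ) (A.map (of : K →* HNNExtension K A A φ)) s e g⁻¹ := by
  induction h with
  | one s g h1 _ => exact ok_one s _ (inv_mem h1)
  | cons s e g g' h1 _ _ ih =>
    rw [mul_inv_rev]
    exact N5K.AP.ok_mul map_le _ _ ih (ok_one s _ (inv_mem h1))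

end VA

theorem stVA : StVA := by
  intro K _ A φ
  refine ⟨VA.map_le, fun g => ?_, fun s e g h hg => ?_⟩
  · induction g using HNNExtension.induction_on with
    | of k => exact VA.ok_one false _ ⟨k, rfl⟩
    | t => exact VA.ok_one true _ VA.t_mem
    | mul x y hx hy => exact N5K.AP.ok_mul VA.map_le _ _ hx hy
    | inv x hx =>
      rcases hx with hx | ⟨s, e, hx⟩
      · exact Or.inl (inv_mem hx)
      · exact VA.ok_inv hx
  · obtain ⟨k, L, hL, rfl, h1, h2⟩ := VA.word h
    obtain ⟨a, ha, h3⟩ := hg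
    have h4 : L = [] := VA.nil_of_range hL k ⟨a, h3⟩
    subst h4
    cases s with
    | true => exact (h1 rfl).2 rfl
    | false =>
      apply h2 rfl
      have h5 : (HNNExtension.of k * VA.pl φ [] : HNNExtension K A A φ) = HNNExtension.of k := by
        simp [VA.pl]
      rw [h5] at h3
      rwa [← HNNExtension.of_injective φ h3]

end Pool.Agent.Lib.MP_551055_al.N5V
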