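import Mathlib
import Pool.Agent.Lib.MP_551055_al.Trim.N5.AW_95
import Pool.Agent.Lib.MP_551055_al.Trim.N5.StmtsK28
import Pool.Agent.Lib.MP_551055_al.Trim.N5.StmtsV28

/-!
# Module VB: words of length four
-/

set_option autoImplicit false

namespace Pool.Agent.Lib.MP_551055_al.N5K
end Pool.Agent.Lib.MP_551055_al.N5K

namespace Pool.Agent.Lib.MP_551055_al.N5V

open Pool.Agent.Lib.MP_551055_al.N5K (Wd Amal AmalW stAW)

namespace VB

variable {A : Type} [Group A] {X : Bool → Subgroup A} {C : Subgroup A}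

theorem inv_nC {g : A} (h : g ∉ C) : g⁻¹ ∉ C := fun hh => h (by simpa using inv_mem hh)

variable (hA : Amal X C)

include hA

theorem ne1 {s e : Bool} {g b : A} (h : Wd X C s e g) (hb : b ∈ X (!e)) : g * b ≠ 1 := by
  have W := stAW A X C hA
  intro h1
  by_cases hbC : b ∈ C
  · have h2 := (W.mulC s e g b hbC h).2
    rw [h1] at h2
    exact hA.nt _ _ _ h2 (one_mem C)
  · have h2 := W.mul s e (!e) g b h (Wd.one (!e) b hb hbC)
    rw [h1] at h2
    exact hA.nt _ _ _ h2 (one_mem C)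

theorem inter {s : Bool} {g : A} (h : g ∈ X s) (h' : g ∈ X (!s)) : g ∈ C := by
  have W := stAW A X C hA
  by_contra hC
  have h1 := (W.uniq _ _ _ _ g (Wd.one s g h hC) (Wd.one (!s) g h' hC)).1
  cases s <;> simp at h1

theorem nmem {s e : Bool} {g : A} (h : Wd X C s e g) (h' : g ∈ X (!s)) : False := by
  have W := stAW A X C hA
  have h1 := (W.mem (!s) s e g h' h).1
  cases s <;> simp at h1

theorem conj {s : Bool} {x g : A} (hx : x ∈ X s) (hxC : x ∉ C) (hg : g ∈ X (!s)) (hgC : g ∉ C) :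
    Wd X C s s (x * g * x⁻¹) := by
  have W := stAW A X C hA
  have h1 : Wd X C s (!s) (x * g) := W.mul s s (!s) x g (Wd.one s x hx hxC) (Wd.one (!s) g hg hgC)
  refine W.mul s (!s) s (x * g) x⁻¹ h1 ?_
  rw [Bool.not_not]
  exact Wd.one s x⁻¹ (inv_mem hx) (inv_nC hxC)

/-- a letter after a word which ends with the other factor -/
theorem app {s e : Bool} {g y : A} (h : Wd X C s (!e) g) (hy : y ∈ X e) (hyC : y ∉ C) :
    Wd X C s e (g * y) := by
  have W := stAW A X C hA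
  refine W.mul s (!e) e g y h ?_
  rw [Bool.not_not]
  exact Wd.one e y hy hyC

end VB

/-- Module VB. -/
theorem stVB : StVB := by
  intro A _ X C hA s x hx hxC g₁ hg₁ b' hb' g₂ hg₂ b hb heq
  have W := stAW A X C hA
  have hxi : x⁻¹ ∈ X s := inv_mem hx
  have hxiC : x⁻¹ ∉ C := VB.inv_nC hxC
  have hle := hA.le
  have wx : Wd X C s s x := Wd.one s x hx hxC
  refine ⟨fun h1 => ?_, fun h1 h2 => ?_, fun h1 h2 => ?_⟩
  · -- the first case
    have wP : Wd X C s s (x * g₁ * x⁻¹) := VB.conj hA hx hxC hg₁ h1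
    have wg : Wd X C s (!s) (x * g₁) := W.mul s s (!s) x g₁ wx (Wd.one (!s) g₁ hg₁ h1)
    have hb'C : b' ∈ C := by
      by_contra hC
      have w1 : Wd X C s (!s) (x * g₁ * x⁻¹ * b') := W.mul s s (!s) _ b' wP (Wd.one (!s) b' hb' hC)
      by_cases hg₂C : g₂ ∈ C
      · have hq : x * g₂ * x⁻¹ ∈ X s := mul_mem (mul_mem hx (hle s hg₂C)) hxi
        by_cases hqC : x * g₂ * x⁻¹ ∈ C
        · have h3 : b' * (x * g₂ * x⁻¹) * b ∈ X (!s) := mul_mem (mul_mem hb' (hle _ hqC)) hb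
          refine VB.ne1 hA wP h3 ?_
          rw [← heq]
          group
        · exact VB.ne1 hA (VB.app hA w1 hq hqC) hb heq
      · have w2 : Wd X C s s (x * g₁ * x⁻¹ * b' * (x * g₂ * x⁻¹)) := by
          refine W.mul s (!s) s _ _ w1 ?_
          rw [Bool.not_not]
          exact VB.conj hA hx hxC hg₂ hg₂C
        exact VB.ne1 hA w2 hb heq
    have hrX : x⁻¹ * b' * x ∈ X s := mul_mem (mul_mem hxi (hle s hb'C)) hx
    have heq2 : x * g₁ * (x⁻¹ * b' * x) * g₂ * x⁻¹ * b = 1 := by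
      rw [← heq]
      group
    have hrC : x⁻¹ * b' * x ∈ C := by
      by_contra hC
      by_cases hg₂C : g₂ ∈ C
      · have h3 : (x⁻¹ * b' * x) * g₂ * x⁻¹ ∈ X s := mul_mem (mul_mem hrX (hle s hg₂C)) hxi
        by_cases h4 : (x⁻¹ * b' * x) * g₂ * x⁻¹ ∈ C
        · have h5 : g₁ * ((x⁻¹ * b' * x) * g₂ * x⁻¹) * b ∈ X (!s) :=
            mul_mem (mul_mem hg₁ (hle _ h4)) hb
          refine VB.ne1 hA wx h5 ?_
          rw [← heq2]
          group
        · refine VB.ne1 hA (VB.app hA wg h3 h4) hb ?_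
          rw [← heq2]
          group
      · have w1 : Wd X C s s (x * g₁ * (x⁻¹ * b' * x)) := VB.app hA wg hrX hC
        have w2 : Wd X C s (!s) (x * g₁ * (x⁻¹ * b' * x) * g₂) :=
          W.mul s s (!s) _ _ w1 (Wd.one (!s) g₂ hg₂ hg₂C)
        exact VB.ne1 hA (VB.app hA w2 hxi hxiC) hb heq2
    have hm : g₁ * (x⁻¹ * b' * x) * g₂ ∈ X (!s) := mul_mem (mul_mem hg₁ (hle _ hrC)) hg₂
    have heq3 : x * (g₁ * (x⁻¹ * b' * x) * g₂) * x⁻¹ = b⁻¹ := by
      rw [eq_inv_iff_mul_eq_one, ← heq2]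
      group
    have hmC : g₁ * (x⁻¹ * b' * x) * g₂ ∈ C := by
      by_contra hC
      have w1 := VB.conj hA hx hxC hm hC
      rw [heq3] at w1
      exact VB.nmem hA w1 (inv_mem hb)
    have hbs : b⁻¹ ∈ X s := by
      rw [← heq3]
      exact mul_mem (mul_mem hx (hle s hmC)) hxi
    have hbC : b ∈ C := by
      have := VB.inter hA hbs (inv_mem hb)
      simpa using inv_mem this
    refine ⟨hbC, hb'C, ?_, hrC⟩
    have h6 : x⁻¹ * b * x = (g₁ * (x⁻¹ * b' * x) * g₂)⁻¹ := by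
      rw [eq_inv_iff_mul_eq_one]
      have h7 : b = (x * (g₁ * (x⁻¹ * b' * x) * g₂) * x⁻¹)⁻¹ := by rw [heq3, inv_inv]
      nth_rewrite 1 [h7]
      group
    rw [h6]
    exact inv_mem hmC
  · -- the second case
    have hq₁ : x * g₁ * x⁻¹ ∈ X s := mul_mem (mul_mem hx (hle s h1)) hxi
    have w0 : Wd X C s s (x * g₁ * x⁻¹) := Wd.one s _ hq₁ h2
    have hg₂C : g₂ ∈ C := by
      by_contra hC
      by_cases hb'C : b' ∈ C
      · have h3 : x * g₁ * x⁻¹ * b' * x ∈ X s := mul_mem (mul_mem hq₁ (hle s hb'C)) hx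
        by_cases h4 : x * g₁ * x⁻¹ * b' * x ∈ C
        · have h5 : x * g₁ * x⁻¹ * b' * x * g₂ ∈ X (!s) := mul_mem (hle _ h4) hg₂
          have h6 : x * g₁ * x⁻¹ * b' * x * g₂ ∉ C := fun hh => hC (by
            have := mul_mem (inv_mem h4) hh
            simpa [mul_assoc] using this)
          refine VB.ne1 hA (VB.app hA (Wd.one (!s) _ h5 h6) hxi hxiC) hb ?_
          rw [← heq]
          group
        · have w2 : Wd X C s (!s) (x * g₁ * x⁻¹ * b' * x * g₂) :=
            W.mul s s (!s) _ _ (Wd.one s _ h3 h4) (Wd.one (!s) g₂ hg₂ hC)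
          refine VB.ne1 hA (VB.app hA w2 hxi hxiC) hb ?_
          rw [← heq]
          group
      · have w1 : Wd X C s (!s) (x * g₁ * x⁻¹ * b') :=
          W.mul s s (!s) _ b' w0 (Wd.one (!s) b' hb' hb'C)
        have w2 : Wd X C s s (x * g₁ * x⁻¹ * b' * (x * g₂ * x⁻¹)) := by
          refine W.mul s (!s) s _ _ w1 ?_
          rw [Bool.not_not]
          exact VB.conj hA hx hxC hg₂ hC
        exact VB.ne1 hA w2 hb heq
    have hq₂ : x * g₂ * x⁻¹ ∈ X s := mul_mem (mul_mem hx (hle s hg₂C)) hxi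
    have hb'C : b' ∈ C := by
      by_contra hC
      have w1 : Wd X C s (!s) (x * g₁ * x⁻¹ * b') :=
          W.mul s s (!s) _ b' w0 (Wd.one (!s) b' hb' hC)
      by_cases hqC : x * g₂ * x⁻¹ ∈ C
      · have h3 : b' * (x * g₂ * x⁻¹) * b ∈ X (!s) := mul_mem (mul_mem hb' (hle _ hqC)) hb
        refine VB.ne1 hA w0 h3 ?_
        rw [← heq]
        group
      · exact VB.ne1 hA (VB.app hA w1 hq₂ hqC) hb heq
    refine ⟨hg₂C, ?_, hb'C⟩
    have h3 : x * g₁ * x⁻¹ * b' * (x * g₂ * x⁻¹) ∈ X s :=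
      mul_mem (mul_mem hq₁ (hle s hb'C)) hq₂
    have h4 : b ∈ X s := by
      rw [eq_inv_of_mul_eq_one_right heq]
      exact inv_mem h3
    exact VB.inter hA h4 hb
  · -- the third case
    have h3 : x * g₂ * x⁻¹ ∈ X (!s) := by
      have h4 : x * g₂ * x⁻¹ = (x * g₁ * x⁻¹ * b')⁻¹ * b⁻¹ := by
        rw [eq_mul_inv_iff_mul_eq]
        refine eq_inv_of_mul_eq_one_right ?_
        rw [← mul_assoc]
        exact heq
      rw [h4]
      exact mul_mem (inv_mem (mul_mem (hle _ h2) hb')) (inv_mem hb)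
    have hg₂C : g₂ ∈ C := by
      by_contra hC
      exact VB.nmem hA (VB.conj hA hx hxC hg₂ hC) h3
    exact ⟨hg₂C, VB.inter hA (mul_mem (mul_mem hx (hle s hg₂C)) hxi) h3⟩

end Pool.Agent.Lib.MP_551055_al.N5V
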