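import Mathlib
import Pool.Agent.Lib.MP_551055_al.Trim.LS.Ray
import Pool.Agent.Lib.MP_551055_al.Trim.LS.Stmts
import Pool.Agent.Lib.MP_551055_al.Trim.MT.Defs
import Pool.Agent.Lib.MP_551055_al.Trim.MT.K1
import Pool.Agent.Lib.MP_551055_al.Trim.N4.Stmts
import Pool.Agent.Lib.MP_551055_al.Trim.N4.W_95
import Pool.Agent.Lib.MP_551055_al.Trim.N5.Base_17
import Pool.Agent.Lib.MP_551055_al.Trim.N5.Stmts
import Pool.Agent.Lib.MP_551055_al.Trim.T4.GlDim
import Pool.Agent.Lib.MP_551055_al.Trim.X.MP_e6f638_al.F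
import Pool.Agent.Lib.MP_551055_al.Trim.X.MP_e6f638_al.Stmts

/-!
# Words, all labels
-/

set_option autoImplicit false

namespace Pool.Agent.Lib.MP_551055_al
end Pool.Agent.Lib.MP_551055_al

namespace Pool.Agent.Lib.MP_e6f638_al
end Pool.Agent.Lib.MP_e6f638_al

namespace Pool.Agent.Lib.MP_e6f638_al.Dat
end Pool.Agent.Lib.MP_e6f638_al.Dat

namespace Pool.Agent.Lib.MP_551055_al.N4
end Pool.Agent.Lib.MP_551055_al.N4

namespace Pool.Agent.Lib.MP_551055_al.N5

open Pool.Agent.Lib.MP_551055_al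

open Pool.Agent.Lib.MP_e6f638_al (Dat)

open Pool.Agent.Lib.MP_e6f638_al.Dat (hd tl)

open Pool.Agent.Lib.MP_551055_al.N4

open Multiplicative

namespace W6

variable {G : Type} [Group G] (D : Dat G) (a : D.ι)

/-- the element in front: `1` or `t a` -/
def pre (e : ℤˣ) : G := if e = 1 then 1 else D.t a

theorem pre_one : pre D a 1 = 1 := if_pos rfl

theorem pre_neg : pre D a (-1) = D.t a := if_neg (by decide)

/-- `N(e, s)`: `M`, `M t a`, `(t a)⁻¹ M t a`, `(t a)⁻¹ M` -/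
def NN (e s : ℤˣ) (κ : G) : Prop := pre D a e * κ * (pre D a s)⁻¹ ∈ MM D

theorem NN_pp {κ : G} : NN D a 1 1 κ ↔ κ ∈ MM D := by
  unfold NN
  rw [pre_one, inv_one, mul_one, one_mul]

theorem NN_pm {κ : G} : NN D a 1 (-1) κ ↔ κ * (D.t a)⁻¹ ∈ MM D := by
  unfold NN
  rw [pre_one, pre_neg, one_mul]

theorem NN_self (e : ℤˣ) : NN D a e e 1 := by
  unfold NN
  rw [mul_one, mul_inv_cancel]
  exact one_mem _

variable {D a}

/-- a block with label four in front -/
theorem NN_step (hla : D.l a = 2) {i : D.ι} (hi : D.l i = 2) {c κ : G} (hc : c ∈ D.B)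
    {e s : ℤˣ} (h : NN D a (-e) s κ) : NN D a e s (D.t i ^ (e : ℤ) * c * κ) := by
  unfold NN at *
  rcases Int.units_eq_one_or e with rfl | rfl
  · rw [pre_neg] at h
    rw [pre_one, one_mul]
    have h1 : D.t i ^ ((1 : ℤˣ) : ℤ) * c * κ * (pre D a s)⁻¹ =
        (D.t i * c * (D.t a)⁻¹) * (D.t a * κ * (pre D a s)⁻¹) := by
      rw [Units.val_one, zpow_one]
      group
    rw [h1]
    exact mul_mem (tt_mem hi hla hc) h
  · rw [neg_neg, pre_one, one_mul] at h
    rw [pre_neg]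
    have h1 : D.t a * (D.t i ^ (((-1 : ℤˣ)) : ℤ) * c * κ) * (pre D a s)⁻¹ =
        kk D a i * (c * (κ * (pre D a s)⁻¹)) := by
      rw [kk, Units.val_neg, Units.val_one, zpow_neg, zpow_one]
      group
    rw [h1]
    exact mul_mem (kk_mem hla hi) (mul_mem (B_le hc) h)

variable (D a)

theorem four (i : D.ι) : D.l i = 2 ∨ 3 ≤ D.l i := by
  have := D.two_le i
  omega

/-- the list of the word of an element of `E` outside `K` -/
def lst (κ : G) (j : D.ι) (e s : ℤˣ) (y' : G) (M' : List (ℤˣ × G)) : List (ℤˣ × G) :=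
  (e, κ * D.t j ^ (s : ℤ)) ::
    (List.replicate (D.l j - 3) (s, D.t j ^ (s : ℤ)) ++ (s, y') :: M')

/-- Elements with a word as above. -/
def GoodM (i : D.ι) (e : ℤˣ) (y : D.Ah) : Prop :=
  ∃ (κ : G) (j : D.ι) (s : ℤˣ) (y' : G) (M' : List (ℤˣ × G)), NN D a e s κ ∧
    D.HRed (lst D κ j e s y' M') ∧ y = D.ofG (hd e (D.t i)) * D.hprod (lst D κ j e s y' M') ∧
    D.Chain (fun _ => True) i e (κ * D.t j ^ (s : ℤ)) s ∧ (3 ≤ D.l j → M' ≠ []) ∧
    (3 ≤ D.l i → j = i ∧ κ = 1 ∧ s = e)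

variable {D a}

theorem goodM_block (i : D.ι) (ε : ℤˣ) (c : G) (M : List (ℤˣ × G))
    (h : D.HRed ((ε, tl ε (D.t i) * c) :: M)) :
    GoodM D a i ε (((D.ofG (D.t i) * D.u) ^ D.l i) ^ (ε : ℤ) * (D.ofG c * D.hprod M)) := by
  rcases four D i with hi | hi
  · -- label four
    refine ⟨1, i, ε, tl ε (D.t i) * c, M, NN_self D a ε, ?_, ?_, ?_, fun h4 => ?_, fun h4 => ?_⟩
    · unfold lst
      rw [hi, one_mul]
      exact List.isChain_cons_cons.2 ⟨fun _ => rfl, h⟩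
    · have h1 := D.hprod_replicate ε (D.t i ^ (ε : ℤ)) 1 ((ε, tl ε (D.t i) * c) :: M)
      unfold lst
      rw [hi, one_mul]
      simp only [Nat.reduceSub, List.replicate_zero, List.nil_append]
      rw [List.replicate_one, List.singleton_append] at h1
      rw [h1, show (2 : ℕ) = 1 + 1 from rfl, D.block_eq, D.hprod_cons, map_mul D.ofG (tl _ _)]
      simp only [mul_assoc]
    · rw [one_mul]; exact .base i ε trivial
    · omega
    · omega
  · obtain ⟨n, hn⟩ : ∃ n, D.l i = n + 3 := ⟨D.l i - 3, by omega⟩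
    refine ⟨1, i, ε, D.t i ^ (ε : ℤ), (ε, tl ε (D.t i) * c) :: M, NN_self D a ε, ?_, ?_, ?_,
      fun _ => by simp, fun _ => ⟨rfl, rfl, rfl⟩⟩
    · unfold lst
      rw [hn, one_mul, show n + 3 - 3 = n by omega]
      have h2 : D.HRed ((ε, D.t i ^ (ε : ℤ)) :: (ε, tl ε (D.t i) * c) :: M) :=
        List.isChain_cons_cons.2 ⟨fun _ => rfl, h⟩
      have h3 := D.hred_replicate ε (D.t i ^ (ε : ℤ)) (n + 1) _ _ h2
      rwa [List.replicate_succ, List.cons_append] at h3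
    · have h1 := D.hprod_replicate ε (D.t i ^ (ε : ℤ)) (n + 1)
        ((ε, D.t i ^ (ε : ℤ)) :: (ε, tl ε (D.t i) * c) :: M)
      unfold lst
      rw [hn, one_mul, show n + 3 - 3 = n by omega]
      rw [List.replicate_succ, List.cons_append] at h1
      rw [h1, show n + 3 = (n + 2) + 1 from rfl, D.block_eq, D.hprod_cons, D.hprod_cons,
        map_mul D.ofG (tl _ _), pow_succ _ (n + 1)]
      simp only [mul_assoc]
    · rw [one_mul]; exact .base i ε trivial

theorem goodM_cons (hW : D.W) (ha : ∀ i, D.l i = 2 → D.l a = 2) (i j : D.ι) (ε ε' : ℤˣ) (g : D.h.ker) (y : D.Ah)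
    (hy : GoodM D a j ε' y)
    (hr : i = j → ε = -ε' → ¬ ((g : G) ∈ D.B ∧ Commute (g : G) (D.t i))) :
    GoodM D a i ε (((D.ofG (D.t i) * D.u) ^ D.l i) ^ (ε : ℤ) * (D.ofG g * y)) := by
  obtain ⟨κ, k, σ, y', M', hκ, h1, rfl, h3, h4, -⟩ := hy
  set L : List (ℤˣ × G) := List.replicate (D.l k - 3) (σ, D.t k ^ (σ : ℤ)) ++ (σ, y') :: M'
    with hL
  have hLne : ∃ q L', L = (σ, q) :: L' := by
    rcases hk : D.l k - 3 with _ | m
    · exact ⟨y', M', by rw [hL, hk]; rfl⟩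
    · exact ⟨D.t k ^ (σ : ℤ), _, by rw [hL, hk, List.replicate_succ, List.cons_append]⟩
  obtain ⟨q, L', hLq⟩ := hLne
  have hlst : lst D κ k ε' σ y' M' = (ε', κ * D.t k ^ (σ : ℤ)) :: L := rfl
  rw [hlst] at h1
  rw [hlst]
  obtain ⟨r, hrdef⟩ : ∃ r : G, r = κ * D.t k ^ (σ : ℤ) := ⟨_, rfl⟩
  obtain ⟨c, hc⟩ : ∃ c : G, c = tl ε (D.t i) * (g * hd ε' (D.t j)) := ⟨_, rfl⟩
  rw [← hrdef] at h1 h3 ⊢
  by_cases hcan : ε = -ε' ∧ c ∈ D.B
  · obtain ⟨he, hcB⟩ := hcan
    obtain rfl : ε' = -ε := by rw [he, neg_neg]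
    obtain ⟨n, hn⟩ : ∃ n, D.l i = n + 2 := ⟨D.l i - 2, by have := D.two_le i; omega⟩
    have hnc : i = j → ¬ Commute c (D.t i) := by
      rintro rfl hcc
      refine hr rfl (by simp) ?_
      rcases Int.units_eq_one_or ε with rfl | rfl
      · have : c = g := by simp [hc, tl, hd]
        rw [← this]
        exact ⟨hcB, hcc⟩
      · have h5 : c = (D.t i)⁻¹ * (g * D.t i) := by simp [hc, tl, hd]
        have h6 : (g : G) = c := by
          have h7 : D.t i * c = g * D.t i := by rw [h5]; group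
          rw [← hcc.eq] at h7
          exact (mul_right_cancel h7).symm
        rw [h6]
        exact ⟨hcB, hcc⟩
    have hred1 : D.HRed ((ε, D.t i ^ (ε : ℤ) * c * r) :: L) := by
      rw [hLq] at h1 ⊢
      refine List.isChain_cons_cons.2 ⟨?_, (List.isChain_cons.1 h1).2⟩
      intro hmem
      by_contra hne
      have hσ : σ = -ε := MP_e6f638_al.eq_neg_of_ne' hne
      rw [hσ] at h3
      exact hW i j ε c r hcB hnc h3 hmem
    have hprod : ((D.ofG (D.t i) * D.u) ^ D.l i) ^ (ε : ℤ) *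
        (D.ofG g * (D.ofG (hd (-ε) (D.t j)) * D.hprod ((-ε, r) :: L))) =
        D.ofG (hd ε (D.t i)) * D.hprod (List.replicate n (ε, D.t i ^ (ε : ℤ)) ++
          (ε, D.t i ^ (ε : ℤ) * c * r) :: L) := by
      rw [hn, show n + 2 = (n + 1) + 1 from rfl, D.block_eq, D.hprod_replicate, D.hprod_cons,
        D.hprod_cons ε]
      have h5 : D.ofG (tl ε (D.t i)) * (D.ofG g * (D.ofG (hd (-ε) (D.t j)) *
          (D.u ^ ((-ε : ℤˣ) : ℤ) * D.ofG r * D.hprod L))) =
          D.ofG c * (D.u ^ ((-ε : ℤˣ) : ℤ) * (D.ofG r * D.hprod L)) := by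
        rw [hc, map_mul, map_mul]
        simp only [mul_assoc]
      have h6 : D.u ^ (ε : ℤ) * D.ofG c = D.ofG c * D.u ^ (ε : ℤ) :=
        ((D.commute_u hcB).zpow_right _).symm.eq
      rw [mul_assoc _ (D.ofG (tl ε (D.t i))), h5, pow_succ]
      have h7 : D.u ^ (ε : ℤ) * (D.ofG c * (D.u ^ ((-ε : ℤˣ) : ℤ) *
          (D.ofG r * D.hprod L))) =
          D.ofG c * (D.ofG r * D.hprod L) := by
        rw [← mul_assoc, h6, mul_assoc, D.zpow_neg_units_mul]
      simp only [mul_assoc] at h7 ⊢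
      rw [h7]
      simp only [map_mul, mul_assoc]
    rw [hprod]
    have hstep : D.l i = 2 → D.Chain (fun _ => True) i ε (D.t i ^ (ε : ℤ) * c * r) σ := fun h2 =>
      .step i j ε c r σ h2 hcB hnc h3
    have hassoc : D.t i ^ (ε : ℤ) * c * κ * D.t k ^ (σ : ℤ) = D.t i ^ (ε : ℤ) * c * r := by
      rw [hrdef]; simp only [mul_assoc]
    rcases four D i with hi | hi
    · obtain rfl : n = 0 := by omega
      rw [List.replicate_zero, List.nil_append]
      refine ⟨D.t i ^ (ε : ℤ) * c * κ, k, σ, y', M', NN_step (ha i hi) hi hcB hκ, ?_, ?_, ?_, h4,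
        fun h5 => by omega⟩
      · unfold lst; rw [hassoc]; exact hred1
      · unfold lst; rw [hassoc]
      · rw [hassoc]; exact hstep hi
    · obtain ⟨m, rfl⟩ : ∃ m, n = m + 1 := ⟨n - 1, by omega⟩
      refine ⟨1, i, ε, D.t i ^ (ε : ℤ) * c * r, L, NN_self D a ε, ?_, ?_, ?_, fun _ => ?_,
        fun _ => ⟨rfl, rfl, rfl⟩⟩
      · unfold lst
        rw [one_mul, hn, show m + 1 + 2 - 3 = m by omega]
        have h5 := D.hred_replicate ε (D.t i ^ (ε : ℤ)) (m + 1) _ _ hred1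
        rwa [List.replicate_succ, List.cons_append] at h5
      · unfold lst
        rw [one_mul, hn, show m + 1 + 2 - 3 = m by omega, List.replicate_succ (n := m),
          List.cons_append]
      · rw [one_mul]; exact .base i ε trivial
      · rw [hLq]; simp
  · have h5 : D.HRed ((ε, tl ε (D.t i) * (g * hd ε' (D.t j))) :: (ε', r) :: L) := by
      refine List.isChain_cons_cons.2 ⟨?_, h1⟩
      intro hmem
      by_contra hne
      refine hcan ⟨?_, by rw [hc]; exact hmem⟩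
      have hne' : ε' = -ε := MP_e6f638_al.eq_neg_of_ne' hne
      rw [hne', neg_neg]
    have := goodM_block (a := a) i ε (g * hd ε' (D.t j)) _ h5
    rw [map_mul] at this
    simpa only [mul_assoc] using this

theorem goodM_eprod (hW : D.W) (ha : ∀ i, D.l i = 2 → D.l a = 2) (L : List (D.ι × ℤˣ × D.h.ker)) (hL : D.ERed L) :
    ∀ p ∈ L.head?, GoodM D a p.1 p.2.1 (D.phi (D.eprod L)) := by
  induction L with
  | nil => simp
  | cons p L ih =>
    intro q hq
    obtain rfl : p = q := by simpa using hq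
    have h1 : D.phi (D.eprod (p :: L)) = ((D.ofG (D.t p.1) * D.u) ^ D.l p.1) ^ (p.2.1 : ℤ) *
        (D.ofG p.2.2 * D.phi (D.eprod L)) := by
      simp only [Dat.eprod, List.map_cons, List.prod_cons, map_mul, map_zpow, D.isPhi_phi.1,
        D.isPhi_phi.2, mul_assoc]
    rw [h1]
    rcases L with _ | ⟨q, L⟩
    · have h2 := goodM_block (a := a) p.1 p.2.1 (p.2.2 : G) [] (List.isChain_singleton _)
      simpa [Dat.eprod, Dat.hprod] using h2
    · have h3 := ih (List.isChain_cons.1 hL).2 q (by simp)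
      exact goodM_cons hW ha p.1 q.1 p.2.1 q.2.1 p.2.2 _ h3 (List.isChain_cons_cons.1 hL).1

/-- The elements of `E`. -/
theorem RE_cases (hW : D.W) (ha : ∀ i, D.l i = 2 → D.l a = 2) {y : D.Ah} (hy : y ∈ RE D) :
    (∃ g : D.h.ker, y = D.ofG g) ∨
      ∃ (g κ : G) (j : D.ι) (e s : ℤˣ) (y' : G) (M' : List (ℤˣ × G)), NN D a e s κ ∧
        D.HRed (lst D κ j e s y' M') ∧ y = D.ofG g * D.hprod (lst D κ j e s y' M') ∧
        (3 ≤ D.l j → M' ≠ []) := by
  obtain ⟨e, rfl⟩ := hy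
  obtain ⟨g, L, hL, rfl⟩ := D.hasRed e
  rcases L with _ | ⟨p, L⟩
  · left
    exact ⟨g, by simp [Dat.eprod, D.isPhi_phi.1]⟩
  · right
    obtain ⟨κ, j, s, y', M', h1, h2, h3, -, h5, -⟩ := goodM_eprod hW ha _ hL p (by simp)
    refine ⟨g * hd p.2.1 (D.t p.1), κ, j, p.2.1, s, y', M', h1, h2, ?_, h5⟩
    rw [map_mul, D.isPhi_phi.1, h3, map_mul, mul_assoc]

theorem lst_sgn (κ : G) (j : D.ι) (e s : ℤˣ) (y' : G) (M' : List (ℤˣ × G)) :
    (lst D κ j e s y' M').map Prod.fst =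
      e :: (List.replicate (D.l j - 3 + 1) s ++ M'.map Prod.fst) := by
  unfold lst
  rw [List.map_cons, List.map_append, List.map_replicate, List.map_cons, List.replicate_succ']
  simp

/-- Words starting with `x i ^ (n + 2)`. -/
theorem key (hW : D.W) (ha : ∀ i, D.l i = 2 → D.l a = 2) (i : D.ι) (hi : 3 ≤ D.l i)
    (hwt : ∃ w : G →* Multiplicative ℤ, w (D.t i) = ofAdd 1 ∧ (∀ k, k ≠ i → w (D.t k) = 1) ∧
      ∀ b ∈ D.B, w b = 1) (n : ℕ) (g : G) (L : List (ℤˣ × G))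
    (hred : D.HRed (List.replicate (n + 1) (1, D.t i) ++ (1, g) :: L))
    (hmem : D.ofG (D.t i) * D.hprod (List.replicate (n + 1) (1, D.t i) ++ (1, g) :: L) ∈ RE D) :
    ∃ S : List ℤˣ, S ≠ [] ∧
      List.replicate (n + 2) 1 ++ L.map Prod.fst = List.replicate (D.l i - 1) 1 ++ S := by
  have hsig : (List.replicate (n + 1) ((1 : ℤˣ), D.t i) ++ (1, g) :: L).map Prod.fst =
      List.replicate (n + 2) 1 ++ L.map Prod.fst := by
    rw [List.map_append, List.map_replicate, List.map_cons, List.replicate_succ' (n := n + 1)]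
    simp
  rcases RE_cases hW ha hmem with ⟨k, hk⟩ | ⟨g', κ, j, e, s, y', M', hκ, hN, he, hM'⟩
  · exfalso
    have h0 : D.HRed [] := List.isChain_nil
    have h1 := (W95.uniq D hred h0 (g' := (k : G)) (by rw [hk]; simp [Dat.hprod])).1
    simp at h1
  · obtain ⟨h1, h2⟩ := W95.uniq D hred hN he
    have h3 := h2 (by simp)
    rw [hsig, lst_sgn] at h1
    have he1 : e = 1 ∧ s = 1 := by
      rw [List.replicate_succ, List.replicate_succ, List.cons_append, List.cons_append,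
        List.replicate_succ, List.cons_append, List.cons.injEq, List.cons.injEq] at h1
      exact ⟨h1.1.symm, h1.2.1.symm⟩
    obtain ⟨rfl, rfl⟩ := he1
    rw [NN_pp] at hκ
    have hji : j = i := by
      rw [List.replicate_succ, List.cons_append] at he
      have hlst : lst D κ j 1 1 y' M' = (1, κ * D.t j ^ ((1 : ℤˣ) : ℤ)) ::
        (List.replicate (D.l j - 3) (1, D.t j ^ ((1 : ℤˣ) : ℤ)) ++ (1, y') :: M') := rfl
      rw [hlst] at he hN
      rw [List.replicate_succ, List.cons_append] at hred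
      have h4 := W95.peel D h3 he
      have h5 := (W95.uniq D (List.isChain_cons.1 hred).2 (List.isChain_cons.1 hN).2 h4).2
        (by simp)
      by_contra hne
      obtain ⟨w, w1, w2, w3⟩ := hwt
      have w4 : ∀ m ∈ MM D, w m = 1 := fun m hm =>
        mm_hom (f := w) (g := 1) (fun b hb => w3 b hb) (fun k hk => w2 k (by
          rintro rfl
          omega)) hm
      have h6 := w3 _ h5
      have h7 := w3 _ h3
      rw [Units.val_one, zpow_one, map_mul w (D.t i)⁻¹, map_mul w ((D.t i)⁻¹ * g'), h7,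
        map_mul w κ, map_inv, w1, w4 _ hκ, w2 j hne, one_mul, mul_one, mul_one] at h6
      exact absurd (congrArg toAdd h6) (by simp)
    subst hji
    refine ⟨M'.map Prod.fst, by simpa using hM' hi, ?_⟩
    rw [h1, show D.l j - 1 = (D.l j - 3 + 1) + 1 by omega, List.replicate_succ (n := D.l j - 3 + 1),
      List.cons_append]

theorem not_G (hW : D.W) (ha : ∀ i, D.l i = 2 → D.l a = 2) {g : G} {L : List (ℤˣ × G)} (hred : D.HRed L)
    (hmem : D.ofG g * D.hprod L ∈ RE D) (hL : L ≠ []) :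
    ∃ (g' κ : G) (j : D.ι) (e s : ℤˣ) (y' : G) (M' : List (ℤˣ × G)), NN D a e s κ ∧
        D.HRed (lst D κ j e s y' M') ∧ D.ofG g * D.hprod L = D.ofG g' * D.hprod (lst D κ j e s y' M') ∧
        (3 ≤ D.l j → M' ≠ []) ∧ L.map Prod.fst = (lst D κ j e s y' M').map Prod.fst ∧
        g⁻¹ * g' ∈ D.B := by
  rcases RE_cases hW ha hmem with ⟨k, hk⟩ | ⟨g', κ, j, e, s, y', M', hκ, hN, he, hM'⟩
  · exfalso
    have h0 : D.HRed [] := List.isChain_nil
    have h1 := (W95.uniq D hred h0 (g' := (k : G)) (by rw [hk]; simp [Dat.hprod])).1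
    rw [List.map_nil, List.map_eq_nil_iff] at h1
    exact hL h1
  · obtain ⟨h1, h2⟩ := W95.uniq D hred hN he
    exact ⟨g', κ, j, e, s, y', M', hκ, hN, he, hM', h1, h2 hL⟩

theorem c1 (hW : D.W) (i : D.ι) (r : ℕ) (g : G) (h1 : 1 ≤ r) (hr : r < D.l i)
    (hwt : 2 ≤ r → ∃ w : G →* Multiplicative ℤ, w (D.t i) = ofAdd 1 ∧
      (∀ k, k ≠ i → w (D.t k) = 1) ∧ ∀ b ∈ D.B, w b = 1) :
    xi D i ^ r * D.ofG g ∉ RE D := by
  obtain ⟨a, ha⟩ : ∃ a : D.ι, ∀ k, D.l k = 2 → D.l a = 2 := by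
    by_cases h : ∃ a, D.l a = 2
    · obtain ⟨a, h⟩ := h
      exact ⟨a, fun _ _ => h⟩
    · exact ⟨i, fun k hk => absurd ⟨k, hk⟩ h⟩
  intro h
  obtain ⟨n, rfl⟩ : ∃ k, r = k + 1 := ⟨r - 1, by omega⟩
  have h2 := W95.xpow_word D i n g []
  have h3 : D.hprod ([] : List (ℤˣ × G)) = 1 := by simp [Dat.hprod]
  rw [h3, mul_one] at h2
  rw [h2] at h
  have hred := W95.hred_one D i n g
  rcases n with _ | n
  · obtain ⟨g', κ, j, e, s, y', M', hκ, hN, he, hM', hsig, hg⟩ := not_G hW ha hred h (by simp)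
    have hlen := congrArg List.length hsig
    rw [lst_sgn] at hlen
    simp at hlen
  · have hi : 3 ≤ D.l i := by
      rcases four D i with h4 | h4 <;> omega
    obtain ⟨S, hS, hs⟩ := key hW ha i hi (hwt (by omega)) n g [] hred h
    have hlen := congrArg List.length hs
    have hS' : 1 ≤ S.length := List.length_pos_iff.2 hS
    simp only [List.map_nil, List.append_nil, List.length_replicate, List.length_append] at hlen
    omega

theorem cS_aux (hW : D.W) (ha : ∀ i, D.l i = 2 → D.l a = 2) (g : G) (h : xi D a * D.ofG g * (xi D a)⁻¹ ∈ RE D) : g ∈ MM D := by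
  by_cases hg : g ∈ D.B
  · exact B_le hg
  have hw : xi D a * D.ofG g * (xi D a)⁻¹ =
      D.ofG (D.t a) * D.hprod [(1, g), (-1, (D.t a)⁻¹)] := by
    unfold xi
    simp [Dat.hprod, mul_assoc]
  rw [hw] at h
  have hred : D.HRed [((1 : ℤˣ), g), (-1, (D.t a)⁻¹)] :=
    List.isChain_cons_cons.2 ⟨fun hh => absurd hh hg, List.isChain_singleton _⟩
  obtain ⟨g', κ, j, e, s, y', M', hκ, hN, he, hM', hsig, hg'⟩ := not_G hW ha hred h (by simp)
  rw [lst_sgn] at hsig
  have hlen := congrArg List.length hsig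
  simp only [List.map_cons, List.map_nil, List.length_cons, List.length_nil, List.length_append,
    List.length_replicate, List.length_map] at hlen
  have hM0 : M' = [] := List.length_eq_zero_iff.1 (by omega)
  have hlj : D.l j = 2 := by
    rcases four D j with h4 | h4
    · exact h4
    · exact absurd hM0 (hM' h4)
  subst hM0
  rw [hlj] at hsig
  simp only [List.map_cons, List.map_nil, Nat.reduceSub, zero_add, List.replicate_one,
    List.append_nil, List.cons.injEq, and_true] at hsig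
  obtain ⟨rfl, rfl⟩ : e = 1 ∧ s = -1 := ⟨hsig.1.symm, hsig.2.symm⟩
  rw [NN_pm] at hκ
  have hlst : lst D κ j 1 (-1) y' [] = (1, κ * D.t j ^ ((-1 : ℤˣ) : ℤ)) :: [(-1, y')] := by
    unfold lst
    rw [hlj]
    rfl
  rw [hlst] at he hN
  have h4 := W95.peel D hg' he
  have h5 := (W95.uniq D (List.isChain_cons.1 hred).2 (List.isChain_cons.1 hN).2 h4).2 (by simp)
  have h6 : g = ((D.t a)⁻¹ * g') * (κ * (D.t a)⁻¹) * (kk D a j) *
      (g⁻¹ * ((D.t a)⁻¹ * g' * (κ * D.t j ^ ((-1 : ℤˣ) : ℤ))))⁻¹ := by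
    rw [kk, Units.val_neg, Units.val_one, zpow_neg, zpow_one]
    group
  rw [h6]
  exact mul_mem (mul_mem (mul_mem (B_le hg') hκ) (kk_mem (ha j hlj) hlj)) (inv_mem (B_le h5))

theorem cS (hW : D.W) (i : D.ι) (g : G) (h : xi D i * D.ofG g * (xi D i)⁻¹ ∈ RE D) :
    g ∈ MM D := by
  obtain ⟨a, ha⟩ : ∃ a : D.ι, ∀ k, D.l k = 2 → D.l a = 2 := by
    by_cases h : ∃ a, D.l a = 2
    · obtain ⟨a, h⟩ := h
      exact ⟨a, fun _ _ => h⟩
    · exact ⟨i, fun k hk => absurd ⟨k, hk⟩ h⟩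
  refine cS_aux (a := a) hW ha g ?_
  have hk : D.h (kk D a i) = 1 := kk_h a i
  have h1 : D.ofG (kk D a i) ∈ RE D := ⟨D.inE ⟨kk D a i, hk⟩, by rw [D.isPhi_phi.1]⟩
  have h2 : xi D a = D.ofG (kk D a i) * xi D i := by
    unfold xi kk
    rw [← mul_assoc, ← map_mul, inv_mul_cancel_right]
  rw [h2]
  have h3 : D.ofG (kk D a i) * xi D i * D.ofG g * (D.ofG (kk D a i) * xi D i)⁻¹ =
      D.ofG (kk D a i) * (xi D i * D.ofG g * (xi D i)⁻¹) * (D.ofG (kk D a i))⁻¹ := by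
    rw [mul_inv_rev]
    simp only [mul_assoc]
  rw [h3]
  exact mul_mem (mul_mem h1 h) (inv_mem h1)

theorem not_range {g g' κ : G} {j : D.ι} {e s : ℤˣ} {y' : G} {M' : List (ℤˣ × G)}
    (hN : D.HRed (lst D κ j e s y' M')) :
    D.ofG g * D.hprod (lst D κ j e s y' M') ≠ D.ofG g' := by
  intro h
  have h0 : D.HRed [] := List.isChain_nil
  have h1 := (W95.uniq D hN h0 (g := g) (g' := g') (by rw [h]; simp [Dat.hprod])).1
  simp [lst] at h1

/-- The elements of `E` in `G`. -/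
theorem range (hW : D.W) (e : D.E) (h : D.phi e ∈ D.ofG.range) : ∃ x : D.h.ker, e = D.inE x := by
  obtain ⟨g, hg⟩ := h
  obtain ⟨k, L, hL, rfl⟩ := D.hasRed e
  rcases L with _ | ⟨p, L⟩
  · exact ⟨k, by simp [Dat.eprod]⟩
  · exfalso
    obtain ⟨a, ha⟩ : ∃ a : D.ι, ∀ k, D.l k = 2 → D.l a = 2 := by
      by_cases h : ∃ a, D.l a = 2
      · obtain ⟨a, h⟩ := h
        exact ⟨a, fun _ _ => h⟩
      · exact ⟨p.1, fun k hk => absurd ⟨k, hk⟩ h⟩
    obtain ⟨κ, j, s, y', M', -, h2, h3, -⟩ := goodM_eprod hW ha _ hL p (by simp)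
    rw [map_mul, D.isPhi_phi.1, h3, ← mul_assoc, ← map_mul] at hg
    exact not_range h2 hg.symm

theorem cSx (hW : D.W) (i : D.ι) (g : G) (h : D.x * D.ofG g * (D.x)⁻¹ ∈ RE D) : g ∈ MM D := by
  refine cS hW i g ?_
  have hk : D.h (D.t i * (D.t₀)⁻¹) = 1 := by
    rw [map_mul, map_inv, D.h_t, D.h_t₀, mul_inv_cancel]
  have h1 : D.ofG (D.t i * (D.t₀)⁻¹) ∈ RE D :=
    ⟨D.inE ⟨_, hk⟩, by rw [D.isPhi_phi.1]⟩
  have h2 : xi D i = D.ofG (D.t i * (D.t₀)⁻¹) * D.x := by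
    unfold xi Dat.x
    rw [← mul_assoc, ← map_mul, inv_mul_cancel_right]
  rw [h2]
  have h3 : D.ofG (D.t i * (D.t₀)⁻¹) * D.x * D.ofG g * (D.ofG (D.t i * (D.t₀)⁻¹) * D.x)⁻¹ =
      D.ofG (D.t i * (D.t₀)⁻¹) * (D.x * D.ofG g * (D.x)⁻¹) * (D.ofG (D.t i * (D.t₀)⁻¹))⁻¹ := by
    rw [mul_inv_rev]
    simp only [mul_assoc]
  rw [h3]
  exact mul_mem (mul_mem h1 h) (inv_mem h1)

end W6

end Pool.Agent.Lib.MP_551055_al.N5
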