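import Mathlib
import Pool.Agent.Lib.MP_551055_al.Trim.LD.NG
import Pool.Agent.Lib.MP_551055_al.Trim.LS.Stmts
import Pool.Agent.Lib.MP_551055_al.Trim.MT.Flow2
import Pool.Agent.Lib.MP_551055_al.Trim.MT.RCU
import Pool.Agent.Lib.MP_551055_al.Trim.N4.Stmts
import Pool.Agent.Lib.MP_551055_al.Trim.N4.W_95
import Pool.Agent.Lib.MP_551055_al.Trim.N5.Base_17
import Pool.Agent.Lib.MP_551055_al.Trim.N5.Stmts
import Pool.Agent.Lib.MP_551055_al.Trim.N5.StmtsV28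
import Pool.Agent.Lib.MP_551055_al.Trim.N5.W6_95
import Pool.Agent.Lib.MP_551055_al.Trim.T4.Perf
import Pool.Agent.Lib.MP_551055_al.Trim.T6.GenF
import Pool.Agent.Lib.MP_551055_al.Trim.X.MP_e6f638_al.F
import Pool.Agent.Lib.MP_551055_al.Trim.X.MP_e6f638_al.GDefs
import Pool.Agent.Lib.MP_551055_al.Trim.X.MP_e6f638_al.I1
import Pool.Agent.Lib.MP_551055_al.Trim.X.MP_e6f638_al.Stmts

/-!
# Module VL: the length of the conjugates under powers of `tau`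
-/

set_option autoImplicit false

namespace Pool.Agent.Lib.MP_551055_al
end Pool.Agent.Lib.MP_551055_al

namespace Pool.Agent.Lib.MP_e6f638_al
end Pool.Agent.Lib.MP_e6f638_al

namespace Pool.Agent.Lib.MP_551055_al.N4
end Pool.Agent.Lib.MP_551055_al.N4

namespace Pool.Agent.Lib.MP_551055_al.N5
end Pool.Agent.Lib.MP_551055_al.N5

namespace Pool.Agent.Lib.MP_551055_al.N5V

open Pool.Agent.Lib.MP_551055_al

open Pool.Agent.Lib.MP_e6f638_al (Dat EA gen par rho del IsDatOf IsAxis)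

open Pool.Agent.Lib.MP_551055_al.N4

open Pool.Agent.Lib.MP_551055_al.N5 (MM Mix B_le tt_mem kk kk_mem)

open Multiplicative

namespace VL

variable {G : Type} [Group G] {D : Dat G}

/-! ### Powers of `tau` -/

theorem tp_zero (e : D.E) : tp D 0 e = e := by
  simp [tp]

theorem tp_succ (p : ℤ) (e : D.E) : tp D (p + 1) e = D.tauE (tp D p e) := by
  unfold tp
  rw [add_comm, zpow_one_add, MulAut.mul_apply, D.tauEq_apply]

theorem tp_pred (p : ℤ) (e : D.E) : tp D (p - 1) e = D.tauE' (tp D p e) := by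
  have h := tp_succ (p - 1) e
  rw [sub_add_cancel] at h
  rw [h]
  exact (DFunLike.congr_fun D.tau'_tau (tp D (p - 1) e)).symm

theorem tp_inE (p : ℤ) (κ : D.h.ker) :
    tp D p (D.inE κ) = D.inE (D.cj (D.t₀ ^ p) κ) := by
  induction p using Int.induction_on with
  | zero =>
    rw [tp_zero]
    congr 1
    apply Subtype.ext
    rw [D.cj_coe]
    simp
  | succ n ih =>
    rw [tp_succ, ih, D.tauE_inE]
    congr 1
    apply Subtype.ext
    simp only [D.cj_coe]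
    rw [zpow_add_one]
    group
  | pred n ih =>
    rw [tp_pred, ih, D.tauE'_inE]
    congr 1
    apply Subtype.ext
    simp only [D.cj_coe]
    rw [zpow_sub_one]
    group

theorem az_mem (p : ℤ) (i : D.ι) : D.t i ^ p * (D.t₀ ^ p)⁻¹ ∈ D.h.ker := by
  rw [MonoidHom.mem_ker, map_mul, map_inv, map_zpow, map_zpow, D.h_t, D.h_t₀, mul_inv_cancel]

theorem tp_z (p : ℤ) (i : D.ι) : tp D p (D.z i) =
    (D.inE ⟨_, az_mem p i⟩)⁻¹ * D.z i * D.inE ⟨_, az_mem p i⟩ := by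
  induction p using Int.induction_on with
  | zero =>
    rw [tp_zero]
    have h1 : (⟨_, az_mem 0 i⟩ : D.h.ker) = 1 := Subtype.ext (by simp)
    rw [h1, map_one, inv_one, one_mul, mul_one]
  | succ n ih =>
    rw [tp_succ, ih, map_mul, map_mul, map_inv, D.tauE_inE, D.tauE_z]
    have h1 : (⟨_, az_mem ((n : ℤ) + 1) i⟩ : D.h.ker) = D.cc i * D.cj D.t₀ ⟨_, az_mem n i⟩ := by
      apply Subtype.ext
      rw [Subgroup.coe_mul, D.cj_coe]
      simp only [Dat.cc]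
      rw [zpow_add_one, zpow_add_one, (Commute.refl (D.t i)).zpow_left n |>.eq]
      group
    rw [h1, map_mul]
    group
  | pred n ih =>
    rw [tp_pred, ih, map_mul, map_mul, map_inv, D.tauE'_inE, D.tauE'_z]
    have h1 : (⟨_, az_mem (-(n : ℤ) - 1) i⟩ : D.h.ker) =
        (D.cd i)⁻¹ * D.cj D.t₀⁻¹ ⟨_, az_mem (-(n : ℤ)) i⟩ := by
      apply Subtype.ext
      rw [Subgroup.coe_mul, Subgroup.coe_inv, D.cj_coe]
      simp only [Dat.cd]
      rw [zpow_sub_one, zpow_sub_one,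
        ((Commute.refl (D.t i)).zpow_left (-(n : ℤ))).inv_right.eq]
      group
    rw [h1, map_mul, map_inv]
    group

/-- `u t u` -/
noncomputable def U (D : Dat G) (i : D.ι) : D.Ah := D.u * D.ofG (D.t i) * D.u

theorem phi_z {i : D.ι} (hi : D.l i = 2) : D.phi (D.z i) = D.ofG (D.t i) * U D i := by
  rw [D.isPhi_phi.2, hi, pow_two, U]
  simp only [mul_assoc]

theorem phi_tp_inE (p : ℤ) (κ : D.h.ker) :
    D.phi (tp D p (D.inE κ)) = D.ofG (D.t₀ ^ p * κ * (D.t₀ ^ p)⁻¹) := by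
  rw [tp_inE, D.isPhi_phi.1, D.cj_coe]

theorem phi_tp_z (p : ℤ) {i : D.ι} (hi : D.l i = 2) : D.phi (tp D p (D.z i)) =
    D.ofG (D.t₀ ^ p * (D.t i ^ p)⁻¹ * D.t i) * U D i * D.ofG (D.t i ^ p * (D.t₀ ^ p)⁻¹) := by
  rw [tp_z, map_mul, map_mul, map_inv, D.isPhi_phi.1, phi_z hi]
  simp only [map_mul, map_inv, mul_inv_rev, inv_inv, mul_assoc]

/-! ### Reduced words in the group generated by `B` and `t c t⁻¹` -/

/-- the generators -/
def gs (D : Dat G) (δ : ℤˣ) : Set G := {g | ∃ (i j : D.ι) (c : G), D.l i = 2 ∧ D.l j = 2 ∧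
  c ∈ D.B ∧ g = D.t i ^ (δ : ℤ) * c * (D.t j ^ (δ : ℤ))⁻¹}

/-- the group -/
def MS (D : Dat G) (δ : ℤˣ) : Subgroup G := Subgroup.closure ((D.B : Set G) ∪ gs D δ)

/-- conditions on the letters -/
def Ok (D : Dat G) (x : D.ι × G × D.ι × G) : Prop :=
  D.l x.1 = 2 ∧ D.l x.2.2.1 = 2 ∧ x.2.1 ∈ D.B ∧ x.2.2.2 ∈ D.B ∧
    (x.1 = x.2.2.1 → ¬ Commute x.2.1 (D.t x.1))

/-- reduced words -/
def Rd (D : Dat G) (L : List (D.ι × G × D.ι × G)) : Prop :=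
  (∀ x ∈ L, Ok D x) ∧ L.IsChain fun x y => x.2.2.1 = y.1 → ¬ Commute x.2.2.2 (D.t x.2.2.1)

/-- the element -/
def mw (D : Dat G) (δ : ℤˣ) (b : G) (L : List (D.ι × G × D.ι × G)) : G :=
  b * (L.map fun x => D.t x.1 ^ (δ : ℤ) * x.2.1 * (D.t x.2.2.1 ^ (δ : ℤ))⁻¹ * x.2.2.2).prod

theorem mw_nil (δ : ℤˣ) (b : G) : mw D δ b [] = b := by simp [mw]

theorem mw_cons (δ : ℤˣ) (b : G) (x : D.ι × G × D.ι × G) (L : List (D.ι × G × D.ι × G)) :
    mw D δ b (x :: L) =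
      b * (D.t x.1 ^ (δ : ℤ) * x.2.1 * (D.t x.2.2.1 ^ (δ : ℤ))⁻¹ * mw D δ x.2.2.2 L) := by
  simp [mw, mul_assoc]

theorem mw_mul (δ : ℤˣ) (b b' : G) (L : List (D.ι × G × D.ι × G)) :
    b * mw D δ b' L = mw D δ (b * b') L := by
  simp [mw, mul_assoc]

theorem Rd.tail {x : D.ι × G × D.ι × G} {L : List (D.ι × G × D.ι × G)} (h : Rd D (x :: L)) :
    Rd D L :=
  ⟨fun y hy => h.1 y (List.mem_cons_of_mem _ hy), (List.isChain_cons.1 h.2).2⟩

theorem Rd.cons {x : D.ι × G × D.ι × G} {L : List (D.ι × G × D.ι × G)} (h : Rd D L)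
    (hx : Ok D x) (hL : ∀ y ∈ L.head?, x.2.2.1 = y.1 → ¬ Commute x.2.2.2 (D.t x.2.2.1)) :
    Rd D (x :: L) :=
  ⟨fun y hy => by
    rcases List.mem_cons.1 hy with rfl | hy
    · exact hx
    · exact h.1 y hy, List.isChain_cons.2 ⟨hL, h.2⟩⟩

theorem conj_comm {δ : ℤˣ} {i : D.ι} {c : G} (h : Commute c (D.t i)) :
    D.t i ^ (δ : ℤ) * c * (D.t i ^ (δ : ℤ))⁻¹ = c := by
  have h1 : Commute c (D.t i ^ (δ : ℤ)) := h.zpow_right _
  rw [← h1.eq, mul_inv_cancel_right]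

/-- Multiplication by a generator. -/
theorem gen_mul (δ : ℤˣ) {i j : D.ι} {c : G} (hi : D.l i = 2) (hj : D.l j = 2) (hc : c ∈ D.B)
    {b : G} (hb : b ∈ D.B) {L : List (D.ι × G × D.ι × G)} (hL : Rd D L) :
    ∃ b' ∈ D.B, ∃ L', Rd D L' ∧
      D.t i ^ (δ : ℤ) * c * (D.t j ^ (δ : ℤ))⁻¹ * mw D δ b L = mw D δ b' L' := by
  by_cases h0 : i = j ∧ Commute c (D.t i)
  · obtain ⟨rfl, h0⟩ := h0
    exact ⟨c * b, mul_mem hc hb, L, hL, by rw [conj_comm h0, mw_mul]⟩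
  have h0' : i = j → ¬ Commute c (D.t i) := fun h1 h2 => h0 ⟨h1, h2⟩
  rcases L with _ | ⟨⟨i', c', j', b'⟩, L⟩
  · refine ⟨1, one_mem _, [(i, c, j, b)], ⟨?_, List.isChain_singleton _⟩, ?_⟩
    · intro x hx
      rw [List.mem_singleton] at hx
      subst hx
      exact ⟨hi, hj, hc, hb, h0'⟩
    · rw [mw_cons, one_mul, mw_nil]
  obtain ⟨hi', hj', hc', hb', h1⟩ := hL.1 (i', c', j', b') List.mem_cons_self
  simp only at hi' hj' hc' hb' h1
  by_cases h2 : j = i' ∧ Commute b (D.t j)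
  · obtain ⟨rfl, h2⟩ := h2
    have h3 : Commute b (D.t j ^ (δ : ℤ)) := h2.zpow_right _
    have h4 : D.t i ^ (δ : ℤ) * c * (D.t j ^ (δ : ℤ))⁻¹ * mw D δ b ((j, c', j', b') :: L) =
        D.t i ^ (δ : ℤ) * (c * b * c') * (D.t j' ^ (δ : ℤ))⁻¹ * mw D δ b' L := by
      rw [mw_cons]
      simp only
      calc _ = D.t i ^ (δ : ℤ) * c * (D.t j ^ (δ : ℤ))⁻¹ * (b * D.t j ^ (δ : ℤ)) * c' *
            (D.t j' ^ (δ : ℤ))⁻¹ * mw D δ b' L := by simp only [mul_assoc]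
        _ = _ := by rw [h3.eq]; group
    rw [h4]
    have h5 : c * b * c' ∈ D.B := mul_mem (mul_mem hc hb) hc'
    by_cases h6 : i = j' ∧ Commute (c * b * c') (D.t i)
    · obtain ⟨rfl, h6⟩ := h6
      exact ⟨c * b * c' * b', mul_mem h5 hb', L, hL.tail, by rw [conj_comm h6, mw_mul]⟩
    · refine ⟨1, one_mem _, (i, c * b * c', j', b') :: L, hL.tail.cons ⟨hi, hj', h5, hb',
        fun h7 h8 => h6 ⟨h7, h8⟩⟩ (fun y hy => (List.isChain_cons.1 hL.2).1 y hy), ?_⟩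
      rw [mw_cons, one_mul]
  · refine ⟨1, one_mem _, (i, c, j, b) :: (i', c', j', b') :: L, hL.cons ⟨hi, hj, hc, hb, h0'⟩
      ?_, ?_⟩
    · intro y hy h3 h4
      simp only [List.head?_cons, Option.mem_def, Option.some.injEq] at hy
      subst hy
      exact h2 ⟨h3, h4⟩
    · rw [mw_cons _ 1, one_mul]

/-- The normal form. -/
theorem exists_mw {δ : ℤˣ} {g : G} (hg : g ∈ MS D δ) :
    ∃ b ∈ D.B, ∃ L, Rd D L ∧ g = mw D δ b L := by
  unfold MS at hg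
  induction hg using Subgroup.closure_induction_left with
  | one => exact ⟨1, one_mem _, [], ⟨by simp, List.isChain_nil⟩, by rw [mw_nil]⟩
  | mul_left x hx y hy ih =>
    obtain ⟨b, hb, L, hL, rfl⟩ := ih
    rcases hx with hx | ⟨i, j, c, hi, hj, hc, rfl⟩
    · exact ⟨x * b, mul_mem hx hb, L, hL, mw_mul _ _ _ _⟩
    · exact gen_mul δ hi hj hc hb hL
  | inv_mul_cancel x hx y hy ih =>
    obtain ⟨b, hb, L, hL, rfl⟩ := ih
    rcases hx with hx | ⟨i, j, c, hi, hj, hc, rfl⟩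
    · exact ⟨x⁻¹ * b, mul_mem (inv_mem hx) hb, L, hL, mw_mul _ _ _ _⟩
    · have := gen_mul δ hj hi (inv_mem hc) hb hL
      have h1 : (D.t i ^ (δ : ℤ) * c * (D.t j ^ (δ : ℤ))⁻¹)⁻¹ =
          D.t j ^ (δ : ℤ) * c⁻¹ * (D.t i ^ (δ : ℤ))⁻¹ := by group
      rw [h1]
      exact this

/-! ### Words in `Ah` -/

/-- `t c t'⁻¹` with powers is not in `B`. -/
theorem not_B (hV : VC D) {p : ℤ} (hp : p ≠ 0) {i j : D.ι} (hi : D.l i = 2) {c : G}
    (hc : c ∈ D.B) (h : i = j → ¬ Commute c (D.t i)) :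
    D.t i ^ p * c * (D.t j ^ p)⁻¹ ∉ D.B := by
  intro hB
  by_cases hij : i = j
  · subst hij
    exact h rfl (hV.pw i hi c hc p hp hB)
  · obtain ⟨w, w1, w2, w3⟩ := hV.wt i
    have h1 := w3 _ hB
    rw [map_mul, map_mul, map_inv, map_zpow, map_zpow, w1, w3 c hc, w2 j (fun h => hij h.symm),
      one_zpow, inv_one, mul_one, mul_one] at h1
    have h2 := congrArg toAdd h1
    simp only [toAdd_zpow, toAdd_ofAdd, toAdd_one, smul_eq_mul, mul_one] at h2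
    exact hp h2

/-- the image of a word under the power of `tau` -/
noncomputable def ww (D : Dat G) (δ : ℤˣ) (p : ℤ) (b : G) (L : List (D.ι × G × D.ι × G)) : D.Ah :=
  D.ofG b * (L.map fun x => (D.ofG (D.t x.1 ^ p))⁻¹ * U D x.1 ^ (δ : ℤ) *
    D.ofG (D.t x.1 ^ p * x.2.1 * (D.t x.2.2.1 ^ p)⁻¹) * (U D x.2.2.1 ^ (δ : ℤ))⁻¹ *
    D.ofG (D.t x.2.2.1 ^ p) * D.ofG x.2.2.2).prod

theorem ww_nil (δ : ℤˣ) (p : ℤ) (b : G) : ww D δ p b [] = D.ofG b := by simp [ww]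

theorem ww_cons (δ : ℤˣ) (p : ℤ) (b : G) (x : D.ι × G × D.ι × G)
    (L : List (D.ι × G × D.ι × G)) : ww D δ p b (x :: L) =
      D.ofG b * ((D.ofG (D.t x.1 ^ p))⁻¹ * U D x.1 ^ (δ : ℤ) *
    D.ofG (D.t x.1 ^ p * x.2.1 * (D.t x.2.2.1 ^ p)⁻¹) * (U D x.2.2.1 ^ (δ : ℤ))⁻¹ *
    D.ofG (D.t x.2.2.1 ^ p)) * ww D δ p x.2.2.2 L := by
  simp [ww, mul_assoc]

theorem U_pow (δ : ℤˣ) (i : D.ι) : U D i ^ (δ : ℤ) =
    D.u ^ (δ : ℤ) * D.ofG (D.t i ^ (δ : ℤ)) * D.u ^ (δ : ℤ) := by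
  rcases Int.units_eq_one_or δ with rfl | rfl
  · simp only [Units.val_one, zpow_one, U]
  · simp only [Units.val_neg, Units.val_one, zpow_neg, zpow_one, U, mul_inv_rev, map_inv,
      mul_assoc]

theorem U_pow_inv (δ : ℤˣ) (i : D.ι) : (U D i ^ (δ : ℤ))⁻¹ =
    D.u ^ ((-δ : ℤˣ) : ℤ) * D.ofG (D.t i ^ ((-δ : ℤˣ) : ℤ)) * D.u ^ ((-δ : ℤˣ) : ℤ) := by
  rw [← U_pow, Units.val_neg, zpow_neg]

/-- The word. -/
theorem exists_word (hV : VC D) (δ : ℤˣ) {p : ℤ} (hp : p ≠ 0)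
    (L : List (D.ι × G × D.ι × G)) : ∀ (x : D.ι × G × D.ι × G), Rd D (x :: L) → ∀ b q : G,
    ∃ l : List (ℤˣ × G), D.HRed ((δ, D.t x.1 ^ (δ : ℤ)) :: l) ∧
      l.length + 1 = 4 * (L.length + 1) ∧
      ww D δ p b (x :: L) * D.ofG q =
        D.ofG (b * (D.t x.1 ^ p)⁻¹) * D.hprod ((δ, D.t x.1 ^ (δ : ℤ)) :: l) := by
  induction L with
  | nil =>
    rintro ⟨i, c, j, b'⟩ hx b q
    obtain ⟨hi, hj, hc, hb', h1⟩ := hx.1 _ List.mem_cons_self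
    simp only at hi hj hc hb' h1 ⊢
    refine ⟨[(δ, D.t i ^ p * c * (D.t j ^ p)⁻¹), (-δ, D.t j ^ ((-δ : ℤˣ) : ℤ)),
      (-δ, D.t j ^ p * b' * q)], ?_, rfl, ?_⟩
    · refine List.isChain_cons_cons.2 ⟨fun _ => rfl, List.isChain_cons_cons.2 ⟨fun h => ?_,
        List.isChain_cons_cons.2 ⟨fun _ => rfl, List.isChain_singleton _⟩⟩⟩
      exact absurd h (not_B hV hp hi hc h1)
    · rw [ww_cons, ww_nil]
      simp only [D.hprod_cons, U_pow_inv]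
      simp only [U_pow]
      simp only [Dat.hprod, List.map_nil, List.prod_nil, mul_one, map_mul, map_inv, mul_assoc]
  | cons y L ih =>
    rintro ⟨i, c, j, b'⟩ hx b q
    obtain ⟨hi, hj, hc, hb', h1⟩ := hx.1 _ List.mem_cons_self
    obtain ⟨l, hl1, hl2, hl3⟩ := ih y hx.tail b' q
    have hjy : j = y.1 → ¬ Commute b' (D.t j) := (List.isChain_cons_cons.1 hx.2).1
    simp only at hi hj hc hb' h1 ⊢
    refine ⟨(δ, D.t i ^ p * c * (D.t j ^ p)⁻¹) :: (-δ, D.t j ^ ((-δ : ℤˣ) : ℤ)) ::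
      (-δ, D.t j ^ p * b' * (D.t y.1 ^ p)⁻¹) :: (δ, D.t y.1 ^ (δ : ℤ)) :: l, ?_, ?_, ?_⟩
    · refine List.isChain_cons_cons.2 ⟨fun _ => rfl, List.isChain_cons_cons.2 ⟨fun h => ?_,
        List.isChain_cons_cons.2 ⟨fun _ => rfl, List.isChain_cons_cons.2 ⟨fun h => ?_, hl1⟩⟩⟩⟩
      · exact absurd h (not_B hV hp hi hc h1)
      · exact absurd h (not_B hV hp hj hb' hjy)
    · simp only [List.length_cons] at hl2 ⊢
      omega
    · rw [ww_cons, mul_assoc, hl3]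
      simp only [D.hprod_cons, U_pow_inv]
      simp only [U_pow]
      simp only [map_mul, map_inv, mul_assoc]

/-! ### The elements of `E` -/

/-- The conjugates by `X` and their images under the power of `tau`. -/
structure Base (D : Dat G) (δ : ℤˣ) (p : ℤ) (X : D.Ah) (P : ℤ) : Prop where
  b : ∀ b ∈ D.B, ∃ e : D.E, D.phi e = X * D.ofG b * X⁻¹ ∧
    D.phi (tp D p e) = D.ofG (D.t₀ ^ P) * D.ofG b * (D.ofG (D.t₀ ^ P))⁻¹
  g : ∀ (i j : D.ι) (c : G), D.l i = 2 → D.l j = 2 → c ∈ D.B → ∃ e : D.E,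
    D.phi e = X * D.ofG (D.t i ^ (δ : ℤ) * c * (D.t j ^ (δ : ℤ))⁻¹) * X⁻¹ ∧
    D.phi (tp D p e) = D.ofG (D.t₀ ^ P) * ((D.ofG (D.t i ^ p))⁻¹ * U D i ^ (δ : ℤ) *
      D.ofG (D.t i ^ p * c * (D.t j ^ p)⁻¹) * (U D j ^ (δ : ℤ))⁻¹ * D.ofG (D.t j ^ p)) *
      (D.ofG (D.t₀ ^ P))⁻¹

theorem Base.word {δ : ℤˣ} {p : ℤ} {X : D.Ah} {P : ℤ} (h : Base D δ p X P)
    (L : List (D.ι × G × D.ι × G)) : Rd D L → ∀ b ∈ D.B, ∃ e : D.E,
      D.phi e = X * D.ofG (mw D δ b L) * X⁻¹ ∧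
      D.phi (tp D p e) = D.ofG (D.t₀ ^ P) * ww D δ p b L * (D.ofG (D.t₀ ^ P))⁻¹ := by
  induction L with
  | nil =>
    intro _ b hb
    rw [mw_nil, ww_nil]
    exact h.b b hb
  | cons x L ih =>
    intro hx b hb
    obtain ⟨hi, hj, hc, hb', -⟩ := hx.1 _ List.mem_cons_self
    obtain ⟨e₁, h1, h2⟩ := h.b b hb
    obtain ⟨e₂, h3, h4⟩ := h.g x.1 x.2.2.1 x.2.1 hi hj hc
    obtain ⟨e₃, h5, h6⟩ := ih hx.tail x.2.2.2 hb'
    refine ⟨e₁ * (e₂ * e₃), ?_, ?_⟩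
    · rw [map_mul, map_mul, h1, h3, h5, mw_cons]
      simp only [map_mul]
      group
    · rw [map_mul, map_mul, map_mul, map_mul, h2, h4, h6, ww_cons]
      group

theorem base_neg (p : ℤ) : Base D (-1) p (D.u)⁻¹ p where
  b := by
    intro b hb
    refine ⟨D.inE ⟨b, D.h_B b hb⟩, ?_, ?_⟩
    · rw [D.isPhi_phi.1, inv_inv]
      change D.ofG b = (D.u)⁻¹ * D.ofG b * D.u
      rw [mul_assoc, (D.commute_u hb).eq, inv_mul_cancel_left]
    · rw [phi_tp_inE, map_mul, map_mul, map_inv]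
  g := by
    intro i j c hi hj hc
    have hm : D.t i * c * (D.t j)⁻¹ ∈ D.h.ker := by
      rw [MonoidHom.mem_ker, map_mul, map_mul, map_inv, D.h_t, D.h_t, D.h_B c hc, mul_one,
        mul_inv_cancel]
    refine ⟨(D.z i)⁻¹ * D.inE ⟨_, hm⟩ * D.z j, ?_, ?_⟩
    · rw [map_mul, map_mul, map_inv, phi_z hi, phi_z hj, D.isPhi_phi.1]
      simp only [U, Units.val_neg, Units.val_one, zpow_neg, zpow_one, map_mul, map_inv, inv_inv]
      have h1 : (D.u)⁻¹ * D.ofG c * D.u = D.ofG c := by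
        rw [mul_assoc, (D.commute_u hc).eq, inv_mul_cancel_left]
      have h2 : D.u * D.ofG c * (D.u)⁻¹ = D.ofG c := by
        rw [← (D.commute_u hc).eq, mul_inv_cancel_right]
      calc (D.ofG (D.t i) * (D.u * D.ofG (D.t i) * D.u))⁻¹ *
            (D.ofG (D.t i) * D.ofG c * (D.ofG (D.t j))⁻¹) *
            (D.ofG (D.t j) * (D.u * D.ofG (D.t j) * D.u))
          = (D.u)⁻¹ * (D.ofG (D.t i))⁻¹ * ((D.u)⁻¹ * D.ofG c * D.u) * D.ofG (D.t j) * D.u := by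
            group
        _ = _ := by rw [h1]; group
    · have h0 : D.phi (tp D p ((D.z i)⁻¹ * D.inE ⟨_, hm⟩ * D.z j)) = (D.phi (tp D p (D.z i)))⁻¹ *
          D.phi (tp D p (D.inE ⟨_, hm⟩)) * D.phi (tp D p (D.z j)) := by
        simp only [map_mul, map_inv]
      rw [h0, phi_tp_z p hi, phi_tp_z p hj, phi_tp_inE]
      simp only [Units.val_neg, Units.val_one, zpow_neg, zpow_one, map_mul, map_inv, inv_inv,
        mul_inv_rev]
      have h1 : D.t i ^ p * D.t i = D.t i * D.t i ^ p := (Commute.refl _).zpow_left p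
      have h2 : D.t j ^ p * D.t j = D.t j * D.t j ^ p := (Commute.refl _).zpow_left p
      have h3 : D.ofG (D.t i ^ p) * D.ofG (D.t i) = D.ofG (D.t i) * D.ofG (D.t i ^ p) := by
        rw [← map_mul, h1, map_mul]
      have h4 : D.ofG (D.t j ^ p) * D.ofG (D.t j) = D.ofG (D.t j) * D.ofG (D.t j ^ p) := by
        rw [← map_mul, h2, map_mul]
      have h5 : (D.ofG (D.t j))⁻¹ * (D.ofG (D.t j ^ p))⁻¹ * D.ofG (D.t j) =
          (D.ofG (D.t j ^ p))⁻¹ := by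
        rw [← mul_inv_rev, h4, mul_inv_rev, inv_mul_cancel_right]
      calc _ = D.ofG (D.t₀ ^ p) * (D.ofG (D.t i ^ p))⁻¹ * (U D i)⁻¹ * (D.ofG (D.t i))⁻¹ *
            (D.ofG (D.t i ^ p) * D.ofG (D.t i)) * D.ofG c *
            ((D.ofG (D.t j))⁻¹ * (D.ofG (D.t j ^ p))⁻¹ * D.ofG (D.t j)) * U D j *
            D.ofG (D.t j ^ p) * (D.ofG (D.t₀ ^ p))⁻¹ := by group
        _ = _ := by rw [h3, h5]; group

theorem base_pos (p : ℤ) : Base D 1 p D.x (p + 1) where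
  b := by
    intro b hb
    have hm : D.t₀ * b * (D.t₀)⁻¹ ∈ D.h.ker := by
      rw [MonoidHom.mem_ker, map_mul, map_mul, map_inv, D.h_B b hb, mul_one, mul_inv_cancel]
    refine ⟨D.inE ⟨_, hm⟩, ?_, ?_⟩
    · rw [D.isPhi_phi.1, Dat.x]
      change D.ofG (D.t₀ * b * (D.t₀)⁻¹) = _
      have h2 : D.u * D.ofG b * (D.u)⁻¹ = D.ofG b := by
        rw [← (D.commute_u hb).eq, mul_inv_cancel_right]
      rw [map_mul, map_mul, map_inv]
      calc D.ofG D.t₀ * D.ofG b * (D.ofG D.t₀)⁻¹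
          = D.ofG D.t₀ * (D.u * D.ofG b * (D.u)⁻¹) * (D.ofG D.t₀)⁻¹ := by rw [h2]
        _ = _ := by group
    · rw [phi_tp_inE, zpow_add_one]
      simp only [map_mul, map_inv, mul_inv_rev]
      group
  g := by
    intro i j c hi hj hc
    have hm1 : D.t₀ * (D.t i)⁻¹ ∈ D.h.ker := by
      rw [MonoidHom.mem_ker, map_mul, map_inv, D.h_t, D.h_t₀, mul_inv_cancel]
    have hm2 : D.t j * (D.t₀)⁻¹ ∈ D.h.ker := by
      rw [MonoidHom.mem_ker, map_mul, map_inv, D.h_t, D.h_t₀, mul_inv_cancel]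
    refine ⟨D.inE ⟨_, hm1⟩ * D.z i * D.inE ⟨c, D.h_B c hc⟩ * (D.z j)⁻¹ * D.inE ⟨_, hm2⟩, ?_, ?_⟩
    · rw [map_mul, map_mul, map_mul, map_mul, map_inv, phi_z hi, phi_z hj, D.isPhi_phi.1,
        D.isPhi_phi.1, D.isPhi_phi.1, Dat.x]
      simp only [U, Units.val_one, zpow_one, map_mul, map_inv]
      have h2 : D.u * D.ofG c * (D.u)⁻¹ = D.ofG c := by
        rw [← (D.commute_u hc).eq, mul_inv_cancel_right]
      calc _ = D.ofG D.t₀ * D.u * D.ofG (D.t i) * (D.u * D.ofG c * (D.u)⁻¹) *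
            (D.ofG (D.t j))⁻¹ * (D.u)⁻¹ * (D.ofG D.t₀)⁻¹ := by group
        _ = _ := by rw [h2]; group
    · have h0 : D.phi (tp D p (D.inE ⟨_, hm1⟩ * D.z i * D.inE ⟨c, D.h_B c hc⟩ * (D.z j)⁻¹ *
          D.inE ⟨_, hm2⟩)) = D.phi (tp D p (D.inE ⟨_, hm1⟩)) * D.phi (tp D p (D.z i)) *
          D.phi (tp D p (D.inE ⟨c, D.h_B c hc⟩)) * (D.phi (tp D p (D.z j)))⁻¹ *
          D.phi (tp D p (D.inE ⟨_, hm2⟩)) := by
        simp only [map_mul, map_inv]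
      rw [h0, phi_tp_z p hi, phi_tp_z p hj, phi_tp_inE, phi_tp_inE, phi_tp_inE]
      simp only [Units.val_one, zpow_one, map_mul, map_inv, mul_inv_rev, inv_inv]
      have h1 : D.t i ^ p * D.t i = D.t i * D.t i ^ p := (Commute.refl _).zpow_left p
      have h2 : D.t j ^ p * D.t j = D.t j * D.t j ^ p := (Commute.refl _).zpow_left p
      have h3 : D.ofG (D.t i ^ p) * D.ofG (D.t i) = D.ofG (D.t i) * D.ofG (D.t i ^ p) := by
        rw [← map_mul, h1, map_mul]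
      have h4 : D.ofG (D.t j ^ p) * D.ofG (D.t j) = D.ofG (D.t j) * D.ofG (D.t j ^ p) := by
        rw [← map_mul, h2, map_mul]
      have h5 : (D.ofG (D.t i))⁻¹ * (D.ofG (D.t i ^ p))⁻¹ * D.ofG (D.t i) =
          (D.ofG (D.t i ^ p))⁻¹ := by
        rw [← mul_inv_rev, h3, mul_inv_rev, inv_mul_cancel_right]
      have h6 : (D.ofG (D.t j))⁻¹ * D.ofG (D.t j ^ p) * D.ofG (D.t j) = D.ofG (D.t j ^ p) := by
        rw [mul_assoc, h4, inv_mul_cancel_left]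
      have h7 : D.ofG (D.t₀ ^ (p + 1)) = D.ofG (D.t₀ ^ p) * D.ofG D.t₀ := by
        rw [zpow_add_one, map_mul]
      rw [h7]
      calc _ = D.ofG (D.t₀ ^ p) * D.ofG D.t₀ *
            ((D.ofG (D.t i))⁻¹ * (D.ofG (D.t i ^ p))⁻¹ * D.ofG (D.t i)) * U D i *
            D.ofG (D.t i ^ p) * D.ofG c * (D.ofG (D.t j ^ p))⁻¹ * (U D j)⁻¹ *
            ((D.ofG (D.t j))⁻¹ * D.ofG (D.t j ^ p) * D.ofG (D.t j)) *
            (D.ofG D.t₀)⁻¹ * (D.ofG (D.t₀ ^ p))⁻¹ := by group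
        _ = _ := by rw [h5, h6]; group

/-- The conclusion. -/
theorem main (hV : VC D) {δ : ℤˣ} {p : ℤ} (hp : p ≠ 0) {X : D.Ah} {P : ℤ} (h : Base D δ p X P)
    {g : G} (hg : g ∈ MS D δ) (hgB : g ∉ D.B) {e : D.E} (he : D.phi e = X * D.ofG g * X⁻¹)
    (ε : ℤˣ) (g₁ g₂ g₃ : G) :
    D.phi (tp D p e) ≠ D.ofG g₁ * D.u ^ (ε : ℤ) * D.ofG g₂ * D.u ^ ((-ε : ℤˣ) : ℤ) *
      D.ofG g₃ := by
  intro heq
  obtain ⟨b, hb, L, hL, rfl⟩ := exists_mw hg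
  rcases L with _ | ⟨x, L⟩
  · rw [mw_nil] at hgB
    exact hgB hb
  obtain ⟨φ', hφ', hinj', -, -⟩ := Pool.Agent.Lib.MP_e6f638_al.stF G D hV.w
  obtain rfl := D.isPhi_phi.unique hφ'
  obtain ⟨e', h1, h2⟩ := h.word (x :: L) hL b hb
  have hee : e = e' := hinj' (by rw [he, h1])
  subst hee
  obtain ⟨l, hl1, hl2, hl3⟩ := exists_word hV δ hp L x hL b (D.t₀ ^ P)⁻¹
  rw [h2, mul_assoc, ← map_inv, hl3, ← mul_assoc, ← map_mul] at heq
  by_cases hg2 : g₂ ∈ D.B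
  · have h3 : D.ofG g₁ * D.u ^ (ε : ℤ) * D.ofG g₂ * D.u ^ ((-ε : ℤˣ) : ℤ) * D.ofG g₃ =
        D.ofG (g₁ * g₂ * g₃) * D.hprod [] := by
      have h4 : D.u ^ (ε : ℤ) * D.ofG g₂ = D.ofG g₂ * D.u ^ (ε : ℤ) :=
        ((D.commute_u hg2).zpow_right _).symm.eq
      have h5 : D.hprod ([] : List (ℤˣ × G)) = 1 := by simp [Dat.hprod]
      rw [h5, mul_one, Units.val_neg, zpow_neg, mul_assoc (D.ofG g₁), h4]
      simp only [map_mul]
      group
    rw [h3] at heq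
    have h0 : D.HRed [] := List.isChain_nil
    have h6 := (W95.uniq D hl1 h0 heq).1
    simp at h6
  · have h3 : D.ofG g₁ * D.u ^ (ε : ℤ) * D.ofG g₂ * D.u ^ ((-ε : ℤˣ) : ℤ) * D.ofG g₃ =
        D.ofG g₁ * D.hprod [(ε, g₂), (-ε, g₃)] := by
      rw [D.hprod_cons, D.hprod_cons]
      simp only [Dat.hprod, List.map_nil, List.prod_nil, mul_one, mul_assoc]
    rw [h3] at heq
    have h0 : D.HRed [(ε, g₂), (-ε, g₃)] :=
      List.isChain_cons_cons.2 ⟨fun hh => absurd hh hg2, List.isChain_singleton _⟩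
    have h6 := congrArg List.length (W95.uniq D hl1 h0 heq).1
    simp only [List.length_map, List.length_cons, List.length_nil] at h6
    omega

theorem MM_le : MM D ≤ MS D 1 := by
  rw [MM, Subgroup.closure_le]
  rintro x (hx | ⟨i, j, b, hi, hj, hb, rfl⟩)
  · exact Subgroup.subset_closure (Or.inl hx)
  · refine Subgroup.subset_closure (Or.inr ⟨i, j, b, hi, hj, hb, ?_⟩)
    simp

/-- Conjugates of elements of `MM`. -/
theorem conj_MM {a : D.ι} (ha : D.l a = 2) {m : G} (hm : m ∈ MM D) :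
    (D.t a)⁻¹ * m * D.t a ∈ MS D (-1) := by
  have h1 : MM D ≤ (MS D (-1)).comap (MulAut.conj (D.t a)⁻¹).toMonoidHom := by
    rw [MM, Subgroup.closure_le]
    have hg : ∀ (i j : D.ι) (c : G), D.l i = 2 → D.l j = 2 → c ∈ D.B →
        (D.t i)⁻¹ * c * D.t j ∈ MS D (-1) := fun i j c hi hj hc =>
      Subgroup.subset_closure (Or.inr ⟨i, j, c, hi, hj, hc, by simp⟩)
    rintro x (hx | ⟨i, j, b, hi, hj, hb, rfl⟩)
    · change (D.t a)⁻¹ * x * (D.t a)⁻¹⁻¹ ∈ MS D (-1)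
      rw [inv_inv]
      exact hg a a x ha ha hx
    · change (D.t a)⁻¹ * (D.t i * b * (D.t j)⁻¹) * (D.t a)⁻¹⁻¹ ∈ MS D (-1)
      rw [inv_inv]
      have h2 : (D.t a)⁻¹ * (D.t i * b * (D.t j)⁻¹) * D.t a =
          ((D.t a)⁻¹ * 1 * D.t i) * b * ((D.t j)⁻¹ * 1 * D.t a) := by group
      rw [h2]
      exact mul_mem (mul_mem (hg a i 1 ha hi (one_mem _))
        (Subgroup.subset_closure (Or.inl hb))) (hg j a 1 hj ha (one_mem _))
  have h2 := h1 hm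
  change (D.t a)⁻¹ * m * (D.t a)⁻¹⁻¹ ∈ MS D (-1) at h2
  rwa [inv_inv] at h2

theorem two_red {g : G} (hg : g ∉ D.B) (ε : ℤˣ) (q : G) : D.HRed [(ε, g), (-ε, q)] :=
  List.isChain_cons_cons.2 ⟨fun hh => absurd hh hg, List.isChain_singleton _⟩

theorem exists_idx {y : D.Ah} (hy : y ∈ RE D) (hn : y ∉ D.ofG.range) :
    ∃ a : D.ι, ∀ k, D.l k = 2 → D.l a = 2 := by
  obtain ⟨e, rfl⟩ := hy
  obtain ⟨k, L, hL, rfl⟩ := D.hasRed e
  rcases L with _ | ⟨p, L⟩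
  · exact absurd ⟨(k : G), by simp [Dat.eprod, D.isPhi_phi.1]⟩ hn
  · by_cases h : ∃ a, D.l a = 2
    · obtain ⟨a, h⟩ := h
      exact ⟨a, fun _ _ => h⟩
    · exact ⟨p.1, fun k hk => absurd ⟨k, hk⟩ h⟩

theorem not_range {g : G} (hg : g ∉ D.B) (ε : ℤˣ) (g₁ q : G) :
    D.ofG g₁ * D.hprod [(ε, g), (-ε, q)] ∉ D.ofG.range := by
  rintro ⟨k, hk⟩
  have h0 : D.HRed [] := List.isChain_nil
  have h1 := (W95.uniq D (two_red hg ε q) h0 (g := g₁) (g' := k)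
    (by rw [← hk]; simp [Dat.hprod])).1
  simp at h1

theorem neg_MS (hW : D.W) {g : G} (hg : g ∉ D.B) (h : (D.u)⁻¹ * D.ofG g * D.u ∈ RE D) :
    g ∈ MS D (-1) := by
  have hw : (D.u)⁻¹ * D.ofG g * D.u = D.ofG 1 * D.hprod [(-1, g), (1, 1)] := by
    simp [Dat.hprod, mul_assoc]
  have hred : D.HRed [((-1 : ℤˣ), g), (1, 1)] := two_red hg (-1) 1
  obtain ⟨a, ha⟩ := exists_idx h (by rw [hw]; exact not_range hg (-1) 1 1)
  rw [hw] at h
  obtain ⟨g', κ, j, e, s, y', M', hκ, hN, he, hM', hsig, hg'⟩ :=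
    N5.W6.not_G hW ha hred h (by simp)
  rw [N5.W6.lst_sgn] at hsig
  have hlen := congrArg List.length hsig
  simp only [List.map_cons, List.map_nil, List.length_cons, List.length_nil, List.length_append,
    List.length_replicate, List.length_map] at hlen
  have hM0 : M' = [] := List.length_eq_zero_iff.1 (by omega)
  have hlj : D.l j = 2 := by
    rcases N5.W6.four D j with h4 | h4
    · exact h4
    · exact absurd hM0 (hM' h4)
  subst hM0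
  rw [hlj] at hsig
  simp only [List.map_cons, List.map_nil, Nat.reduceSub, zero_add, List.replicate_one,
    List.append_nil, List.cons.injEq, and_true] at hsig
  obtain ⟨rfl, rfl⟩ : e = -1 ∧ s = 1 := ⟨hsig.1.symm, hsig.2.symm⟩
  have hlst : N5.W6.lst D κ j (-1) 1 y' [] =
      ((-1 : ℤˣ), κ * D.t j ^ ((1 : ℤˣ) : ℤ)) :: [((1 : ℤˣ), y')] := by
    unfold N5.W6.lst
    rw [hlj]
    rfl
  rw [hlst] at he hN
  have h4 := W95.peel D hg' he
  have h5 := (W95.uniq D (List.isChain_cons.1 hred).2 (List.isChain_cons.1 hN).2 h4).2 (by simp)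
  have hta : D.l a = 2 := ha j hlj
  have h6 : D.t a * κ ∈ MM D := by
    unfold N5.W6.NN at hκ
    rw [N5.W6.pre_neg, N5.W6.pre_one, inv_one, mul_one] at hκ
    exact hκ
  have h7 := conj_MM hta h6
  have hB : D.B ≤ MS D (-1) := fun b hb => Subgroup.subset_closure (Or.inl hb)
  have h8 : (D.t a)⁻¹ * 1 * D.t j ∈ MS D (-1) :=
    Subgroup.subset_closure (Or.inr ⟨a, j, 1, hta, hlj, one_mem _, by simp⟩)
  have h9 : g = (1⁻¹ * g') * ((D.t a)⁻¹ * (D.t a * κ) * D.t a) * ((D.t a)⁻¹ * 1 * D.t j) *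
      (g⁻¹ * (1⁻¹ * g' * (κ * D.t j ^ ((1 : ℤˣ) : ℤ))))⁻¹ := by
    rw [Units.val_one, zpow_one]
    group
  rw [h9]
  exact mul_mem (mul_mem (mul_mem (hB hg') h7) h8) (inv_mem (hB h5))

end VL

/-- Module VL. -/
theorem stVL : StVL := by
  intro G _ D hV e p hp
  refine ⟨fun g hg he g₁ g₂ g₃ h => ?_, fun g hg he g₁ g₂ g₃ h => ?_⟩
  · have h1 : D.x * D.ofG g * (D.x)⁻¹ ∈ RE D := ⟨e, he⟩
    have hw : D.x * D.ofG g * (D.x)⁻¹ = D.ofG D.t₀ * D.hprod [(1, g), (-1, (D.t₀)⁻¹)] := by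
      unfold Dat.x
      simp [Dat.hprod, mul_assoc]
    obtain ⟨a, -⟩ := VL.exists_idx h1 (by rw [hw]; exact VL.not_range hg 1 _ _)
    have h2 : g ∈ VL.MS D 1 := VL.MM_le (N5.W6.cSx hV.w a g h1)
    refine VL.main hV hp (VL.base_pos p) h2 hg he 1 g₁ g₂ g₃ ?_
    rw [h]
    simp
  · have h1 : (D.u)⁻¹ * D.ofG g * D.u ∈ RE D := ⟨e, he⟩
    have h2 := VL.neg_MS hV.w hg h1
    refine VL.main hV hp (VL.base_neg p) h2 hg (by rw [he, inv_inv]) (-1) g₁ g₂ g₃ ?_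
    rw [h]
    simp

end Pool.Agent.Lib.MP_551055_al.N5V
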