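import Mathlib
import Pool.Agent.Lib.MP_551055_al.Trim.LS.Stmts
import Pool.Agent.Lib.MP_551055_al.Trim.MT.Flow2
import Pool.Agent.Lib.MP_551055_al.Trim.N4.O_17
import Pool.Agent.Lib.MP_551055_al.Trim.N4.Stmts
import Pool.Agent.Lib.MP_551055_al.Trim.N4.W_95
import Pool.Agent.Lib.MP_551055_al.Trim.N5.Base_17
import Pool.Agent.Lib.MP_551055_al.Trim.N5.Stmts
import Pool.Agent.Lib.MP_551055_al.Trim.N5.StmtsK28
import Pool.Agent.Lib.MP_551055_al.Trim.N5.StmtsV28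
import Pool.Agent.Lib.MP_551055_al.Trim.N5.W6_95
import Pool.Agent.Lib.MP_551055_al.Trim.W17.Defs
import Pool.Agent.Lib.MP_551055_al.Trim.X.MP_e6f638_al.F
import Pool.Agent.Lib.MP_551055_al.Trim.X.MP_e6f638_al.GDefs
import Pool.Agent.Lib.MP_551055_al.Trim.X.MP_e6f638_al.Stmts

/-!
# Module VM: conjugates of `G` in the extension
-/

set_option autoImplicit false

namespace Pool.Agent.Lib.MP_551055_al
end Pool.Agent.Lib.MP_551055_al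

namespace Pool.Agent.Lib.MP_e6f638_al
end Pool.Agent.Lib.MP_e6f638_al

namespace Pool.Agent.Lib.MP_551055_al.N4
end Pool.Agent.Lib.MP_551055_al.N4

namespace Pool.Agent.Lib.MP_551055_al.N5
end Pool.Agent.Lib.MP_551055_al.N5

namespace Pool.Agent.Lib.MP_551055_al.N5K
end Pool.Agent.Lib.MP_551055_al.N5K

namespace Pool.Agent.Lib.MP_551055_al.N5V

open Pool.Agent.Lib.MP_551055_al

open Pool.Agent.Lib.MP_e6f638_al (Dat)

open Pool.Agent.Lib.MP_551055_al.N4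

open Pool.Agent.Lib.MP_551055_al.N5 (MM x_xi)

open Pool.Agent.Lib.MP_551055_al.N5K (Wd Amal AmalW)

open Multiplicative

section

variable {G : Type} [Group G] {D : Dat G}

theorem phi_inj (hW : D.W) : Function.Injective D.phi := by
  rw [injective_iff_map_eq_one]
  intro e he
  obtain ⟨x, rfl⟩ := N5.W6.range hW e (by rw [he]; exact one_mem _)
  rw [D.isPhi_phi.1] at he
  have h1 : (x : G) = 1 := HNNExtension.of_injective (φ := MulEquiv.refl D.B)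
    (by rw [map_one]; exact he)
  rw [show x = 1 from Subtype.ext h1, map_one]

/-- The exponent sum of `u`. -/
noncomputable def eu (D : Dat G) : D.Ah →* Multiplicative ℤ :=
  HNNExtension.lift 1 (ofAdd 1) (fun a => by simp)

theorem eu_of (g : G) : eu D (D.ofG g) = 1 := by
  rw [eu, HNNExtension.lift_of]
  rfl

theorem eu_u : eu D D.u = ofAdd 1 := by
  rw [eu, HNNExtension.lift_t]

theorem u_not (g : G) : D.u ≠ D.ofG g := by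
  intro h
  have h1 := congrArg (eu D) h
  rw [eu_of, eu_u] at h1
  exact absurd (congrArg toAdd h1) (by simp)

theorem x_not (hW : D.W) : D.x ∉ RE D := by
  intro h
  by_cases hι : Nonempty D.ι
  · obtain ⟨i⟩ := hι
    refine N5.W6.c1 hW i 1 1 le_rfl (by have := D.two_le i; omega) (fun h => by omega) ?_
    have h1 : xi D i ^ 1 * D.ofG 1 = (D.ofG (D.t₀ * (D.t i)⁻¹))⁻¹ * D.x := by
      rw [x_xi i]
      simp only [pow_one, map_one, mul_one, map_mul, map_inv]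
      group
    rw [h1]
    exact mul_mem (inv_mem (N5.tt0_RE i)) h
  · obtain ⟨e, he⟩ := h
    obtain ⟨g, L, hL, rfl⟩ := D.hasRed e
    rcases L with _ | ⟨p, L⟩
    · have h1 : D.phi (D.inE g * D.eprod []) = D.ofG g := by
        simp [Dat.eprod, D.isPhi_phi.1]
      rw [h1] at he
      refine u_not (D := D) (D.t₀⁻¹ * (g : G)) ?_
      rw [map_mul, he, Dat.x, map_inv, inv_mul_cancel_left]
    · exact hι ⟨p.1⟩

theorem conj_ofG {g g' : G} (h : D.u * D.ofG g * (D.u)⁻¹ = D.ofG g') : g ∈ D.B := by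
  by_contra hg
  have h1 := N4.W95.uniq D (g := 1) (g' := g') (M := [(1, g), (-1, 1)]) (M' := [])
    (List.isChain_cons_cons.2 ⟨fun hh => absurd hh hg, List.isChain_singleton _⟩)
    List.isChain_nil (by simp [Dat.hprod, ← h, mul_assoc])
  simp at h1

theorem conj_ofG' {g g' : G} (h : (D.u)⁻¹ * D.ofG g * D.u = D.ofG g') : g ∈ D.B := by
  by_contra hg
  have h1 := N4.W95.uniq D (g := 1) (g' := g') (M := [(-1, g), (1, 1)]) (M' := [])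
    (List.isChain_cons_cons.2 ⟨fun hh => absurd hh hg, List.isChain_singleton _⟩)
    List.isChain_nil (by simp [Dat.hprod, ← h, mul_assoc])
  simp at h1

theorem x_conj_ofG {g g' : G} (h : D.x * D.ofG g * (D.x)⁻¹ = D.ofG g') : g ∈ D.B := by
  refine conj_ofG (g' := D.t₀⁻¹ * g' * D.t₀) ?_
  have h1 : D.u * D.ofG g * (D.u)⁻¹ = (D.ofG D.t₀)⁻¹ * (D.x * D.ofG g * (D.x)⁻¹) * D.ofG D.t₀ := by
    rw [Dat.x]
    group
  rw [h1, h]
  simp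

end

section

variable {G : Type} [Group G] {D : Dat G} (hφ : D.IsPhi D.phi) (hinj : Function.Injective D.phi)

/-- The height. -/
noncomputable def hO : D.Om hφ hinj →* Multiplicative ℤ :=
  HNNExtension.lift 1 (ofAdd 1) (fun a => by simp)

theorem hO_oQ (q : D.hh.ker) : hO hφ hinj (D.oQ hφ hinj q) = 1 := by
  rw [hO, HNNExtension.lift_of]
  rfl

theorem hO_T : hO hφ hinj (D.T hφ hinj) = ofAdd 1 := by
  rw [hO, HNNExtension.lift_t]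

theorem hO_psiG (g : G) : hO hφ hinj (D.psiG hφ hinj g) = D.h g := by
  rw [D.psiG_apply, map_mul, hO_oQ, one_mul, map_zpow, hO_T, ← ofAdd_zsmul]
  simp

/-- `C` in `Om`. -/
noncomputable abbrev CO : Subgroup (D.Om hφ hinj) := (D.phiQ hφ).range.map (D.oQ hφ hinj)

theorem mem_CO (q : D.hh.ker) : D.oQ hφ hinj q ∈ CO hφ hinj ↔ (q : D.Ah) ∈ RE D := by
  constructor
  · rintro ⟨_, ⟨e, rfl⟩, h⟩
    have h1 : D.phiQ hφ e = q := oQ_inj D hφ hinj h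
    exact ⟨e, congrArg Subtype.val h1⟩
  · rintro ⟨e, he⟩
    exact ⟨_, ⟨e, rfl⟩, congrArg (D.oQ hφ hinj) (Subtype.ext he)⟩

theorem psiG_CO (g : G) : D.psiG hφ hinj g ∈ CO hφ hinj ↔ D.h g = 1 := by
  constructor
  · rintro ⟨q, _, h⟩
    have h1 : hO hφ hinj (D.oQ hφ hinj q) = hO hφ hinj (D.psiG hφ hinj g) :=
      congrArg (hO hφ hinj) h
    rw [hO_psiG, hO_oQ] at h1
    exact h1.symm
  · intro h
    rw [D.psiG_of_one hφ hinj h]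
    exact ⟨_, ⟨_, rfl⟩, rfl⟩

theorem psiG_XA (g : G) :
    D.psiG hφ hinj g ∈ XA (D.phiQ hφ).range (D.tauQ hφ hinj) true := by
  have hX : XA (D.phiQ hφ).range (D.tauQ hφ hinj) true = Subgroup.closure
      ((HNNExtension.of : D.hh.ker →* D.Om hφ hinj) '' ((D.phiQ hφ).range : Set D.hh.ker) ∪
        {HNNExtension.t}) := if_pos rfl
  rw [D.psiG_apply, hX]
  refine mul_mem (Subgroup.subset_closure (Or.inl ⟨_, ⟨_, rfl⟩, rfl⟩)) (zpow_mem ?_ _)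
  exact Subgroup.subset_closure (Or.inr rfl)

theorem oQ_XA (q : D.hh.ker) :
    D.oQ hφ hinj q ∈ XA (D.phiQ hφ).range (D.tauQ hφ hinj) false := ⟨q, rfl⟩

theorem conj_T_tp (n : ℤ) (e : D.E) :
    (MulAut.conj (D.T hφ hinj) ^ n) (D.oQ hφ hinj (D.phiQ hφ e)) =
      D.oQ hφ hinj (D.phiQ hφ (tp D n e)) := by
  have h1 : ∀ e : D.E, MulAut.conj (D.T hφ hinj) (D.oQ hφ hinj (D.phiQ hφ e)) =
      D.oQ hφ hinj (D.phiQ hφ (D.tauEq e)) := by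
    intro e
    rw [MulAut.conj_apply, mul_inv_eq_iff_eq_mul, D.T_mul]
    rfl
  have h2 : ∀ e : D.E, (MulAut.conj (D.T hφ hinj))⁻¹ (D.oQ hφ hinj (D.phiQ hφ e)) =
      D.oQ hφ hinj (D.phiQ hφ ((D.tauEq : MulAut D.E)⁻¹ e)) := by
    intro e
    rw [MulAut.inv_apply, MulEquiv.symm_apply_eq, h1]
    change _ = D.oQ hφ hinj (D.phiQ hφ (D.tauEq (D.tauEq.symm e)))
    rw [MulEquiv.apply_symm_apply]
  induction n using Int.induction_on with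
  | zero => simp [tp]
  | succ n ih =>
    rw [add_comm, zpow_one_add, MulAut.mul_apply, ih, h1]
    congr 2
    rw [tp, tp, zpow_one_add, MulAut.mul_apply]
  | pred n ih =>
    rw [sub_eq_add_neg, add_comm, zpow_add, zpow_neg_one, MulAut.mul_apply, ih, h2]
    congr 2
    rw [tp, tp, zpow_add, zpow_neg_one, MulAut.mul_apply]

theorem T_zpow (n : ℤ) (e : D.E) : D.T hφ hinj ^ n * D.oQ hφ hinj (D.phiQ hφ e) =
    D.oQ hφ hinj (D.phiQ hφ (tp D n e)) * D.T hφ hinj ^ n := by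
  have h1 := conj_T_tp hφ hinj n e
  rw [← map_zpow, MulAut.conj_apply, mul_inv_eq_iff_eq_mul] at h1
  exact h1

include hφ hinj in
theorem tp_inE (n : ℤ) (a : D.h.ker) : ∃ a' : D.h.ker, tp D n (D.inE a) = D.inE a' := by
  refine ⟨MulAut.conjNormal (D.t₀ ^ n) a, D.phiQ_inj hφ hinj (oQ_inj D hφ hinj ?_)⟩
  have h1 := T_zpow hφ hinj n (D.inE a)
  have h2 := D.T_zpow_mul hφ hinj n a
  exact mul_right_cancel (h1.symm.trans h2)

theorem psiG_eq (g : G) : D.psiG hφ hinj g =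
    D.oQ hφ hinj (D.phiQ hφ (D.inE (D.kp g))) * D.T hφ hinj ^ toAdd (D.h g) := rfl

end

section

variable {G : Type} [Group G] {D : Dat G}

/-- The equation in `Ah`. -/
theorem ah_case (hVA : StVA) (hVB : StVB) {g₁ g₂ b b' : G}
    (h : D.u * D.ofG g₁ * (D.u)⁻¹ = D.ofG b * (D.u * D.ofG g₂ * (D.u)⁻¹) * D.ofG b')
    (hg : g₁ ∉ D.B) : b ∈ D.B := by
  have hof : ∀ g : G, D.ofG g ∈ D.B.map (HNNExtension.of : G →* D.Ah) ↔ g ∈ D.B := by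
    intro g
    constructor
    · rintro ⟨g', hg', h'⟩
      have h1 := HNNExtension.of_injective (φ := MulEquiv.refl D.B) h'
      rw [← h1]
      exact hg'
    · exact fun hb => ⟨g, hb, rfl⟩
  have hu : D.u ∉ D.B.map (HNNExtension.of : G →* D.Ah) := by
    rintro ⟨g', -, h'⟩
    exact u_not g' h'.symm
  obtain ⟨h1, -, -⟩ := hVB D.Ah (XA D.B (MulEquiv.refl D.B)) _ (hVA G D.B (MulEquiv.refl D.B))
    true D.u (Subgroup.subset_closure (Or.inr rfl)) hu (D.ofG g₁) ⟨g₁, rfl⟩ (D.ofG b'⁻¹)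
    ⟨b'⁻¹, rfl⟩ (D.ofG g₂⁻¹) ⟨g₂⁻¹, rfl⟩ (D.ofG b⁻¹) ⟨b⁻¹, rfl⟩ (by
      rw [h]
      simp only [map_inv]
      group)
  have h2 := (h1 (fun h => hg ((hof g₁).1 h))).1
  rw [hof] at h2
  exact inv_mem_iff.1 h2

/-- Case (1) of the equation in `Om`. -/
theorem case1 (hVL : StVL) (hVC : VC D) {g₁ g₂ b b' : G} (hφ : D.IsPhi D.phi)
    (hinj : Function.Injective D.phi) (hp : D.h g₁ ≠ 1) {e e' : D.E}
    (he : D.phi e = (D.u)⁻¹ * D.ofG b⁻¹ * D.u) (he' : D.phi e' = (D.u)⁻¹ * D.ofG b'⁻¹ * D.u)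
    (h : D.psiG hφ hinj g₁ * D.oQ hφ hinj (D.phiQ hφ e') * D.psiG hφ hinj g₂⁻¹ *
      D.oQ hφ hinj (D.phiQ hφ e) = 1) : b ∈ D.B := by
  have hh := congrArg (hO hφ hinj) h
  simp only [map_mul, hO_psiG, hO_oQ, mul_one, map_one, map_inv] at hh
  set n := toAdd (D.h g₁) with hn
  have hm : toAdd (D.h g₂⁻¹) = -n := by
    have h1 := congrArg toAdd hh
    rw [toAdd_mul, toAdd_one, toAdd_inv] at h1
    rw [map_inv, toAdd_inv]
    omega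
  obtain ⟨a, ha⟩ := tp_inE hφ hinj n (D.kp g₂⁻¹)
  have h1 : D.inE (D.kp g₁) * tp D n e' * D.inE a * e = 1 := by
    refine D.phiQ_inj hφ hinj (oQ_inj D hφ hinj ?_)
    rw [← ha, map_one, map_one, ← h, psiG_eq, psiG_eq, hm, ← hn]
    simp only [map_mul]
    have h2 := T_zpow hφ hinj n e'
    have h3 := T_zpow hφ hinj n (D.inE (D.kp g₂⁻¹))
    calc D.oQ hφ hinj (D.phiQ hφ (D.inE (D.kp g₁))) * D.oQ hφ hinj (D.phiQ hφ (tp D n e')) *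
          D.oQ hφ hinj (D.phiQ hφ (tp D n (D.inE (D.kp g₂⁻¹)))) * D.oQ hφ hinj (D.phiQ hφ e)
        = D.oQ hφ hinj (D.phiQ hφ (D.inE (D.kp g₁))) * D.oQ hφ hinj (D.phiQ hφ (tp D n e')) *
          (D.oQ hφ hinj (D.phiQ hφ (tp D n (D.inE (D.kp g₂⁻¹)))) * D.T hφ hinj ^ n) *
          D.T hφ hinj ^ (-n) * D.oQ hφ hinj (D.phiQ hφ e) := by group
      _ = D.oQ hφ hinj (D.phiQ hφ (D.inE (D.kp g₁))) *
          (D.oQ hφ hinj (D.phiQ hφ (tp D n e')) * D.T hφ hinj ^ n) *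
          D.oQ hφ hinj (D.phiQ hφ (D.inE (D.kp g₂⁻¹))) *
          D.T hφ hinj ^ (-n) * D.oQ hφ hinj (D.phiQ hφ e) := by rw [← h3]; group
      _ = _ := by rw [← h2]; group
  have h2 : D.phi (tp D n e') = D.ofG (((D.kp g₁ : G))⁻¹) * (D.u)⁻¹ * D.ofG b * D.u *
      D.ofG ((a : G)⁻¹) := by
    have h3 := congrArg D.phi h1
    rw [map_mul, map_mul, map_mul, map_one, hφ.1, hφ.1, he] at h3
    have h4 : D.phi (tp D n e') = (D.ofG (D.kp g₁ : G))⁻¹ * 1 *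
        ((D.u)⁻¹ * D.ofG b⁻¹ * D.u)⁻¹ * (D.ofG (a : G))⁻¹ := by
      rw [← h3]
      group
    rw [h4]
    simp only [map_inv]
    group
  have hb' : b' ∈ D.B := by
    by_contra hb'
    exact (hVL G D hVC e' n (fun h => hp (toAdd_eq_zero.1 h))).2 b'⁻¹
      (fun h => hb' (inv_mem_iff.1 h)) he' _ _ _ h2
  have hub : D.u * D.ofG b' = D.ofG b' * D.u :=
    HNNExtension.t_mul_of (φ := MulEquiv.refl D.B) ⟨b', hb'⟩
  have h3 : e' = D.inE ⟨b'⁻¹, inv_mem (D.h_B b' hb')⟩ := by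
    apply hinj
    rw [he', hφ.1]
    change _ = D.ofG b'⁻¹
    rw [map_inv, mul_assoc, inv_mul_eq_iff_eq_mul, inv_mul_eq_iff_eq_mul, ← mul_assoc, ← hub]
    group
  obtain ⟨a', ha'⟩ := tp_inE hφ hinj n ⟨b'⁻¹, inv_mem (D.h_B b' hb')⟩
  rw [h3, ha', hφ.1] at h2
  refine conj_ofG' (D := D) (g' := (D.kp g₁ : G) * a' * a) ?_
  simp only [map_mul]
  rw [h2]
  simp only [map_inv]
  group

/-- Case (3) of the equation in `Om`. -/
theorem case3 (hVL : StVL) (hVC : VC D) {g₁ g₂ c c' : G} (hφ : D.IsPhi D.phi)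
    (hinj : Function.Injective D.phi) (hp : D.h c' ≠ 1) {e e' : D.E}
    (he : D.phi e = D.x * D.ofG g₁ * (D.x)⁻¹) (he' : D.phi e' = D.x * D.ofG g₂ * (D.x)⁻¹)
    (h : D.oQ hφ hinj (D.phiQ hφ e) * D.psiG hφ hinj c' * D.oQ hφ hinj (D.phiQ hφ e') *
      D.psiG hφ hinj c = 1) : g₁ ∈ D.B := by
  have hh := congrArg (hO hφ hinj) h
  simp only [map_mul, hO_psiG, hO_oQ, mul_one, map_one, one_mul] at hh
  set n := toAdd (D.h c') with hn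
  have hm : toAdd (D.h c) = -n := by
    have h1 := congrArg toAdd hh
    rw [toAdd_mul, toAdd_one] at h1
    omega
  obtain ⟨a, ha⟩ := tp_inE hφ hinj n (D.kp c)
  have h1 : e * D.inE (D.kp c') * tp D n e' * D.inE a = 1 := by
    refine D.phiQ_inj hφ hinj (oQ_inj D hφ hinj ?_)
    rw [← ha, map_one, map_one, ← h, psiG_eq, psiG_eq, hm, ← hn]
    simp only [map_mul]
    have h2 := T_zpow hφ hinj n e'
    have h3 := T_zpow hφ hinj n (D.inE (D.kp c))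
    calc D.oQ hφ hinj (D.phiQ hφ e) * D.oQ hφ hinj (D.phiQ hφ (D.inE (D.kp c'))) *
          D.oQ hφ hinj (D.phiQ hφ (tp D n e')) *
          D.oQ hφ hinj (D.phiQ hφ (tp D n (D.inE (D.kp c))))
        = D.oQ hφ hinj (D.phiQ hφ e) * D.oQ hφ hinj (D.phiQ hφ (D.inE (D.kp c'))) *
          D.oQ hφ hinj (D.phiQ hφ (tp D n e')) *
          (D.oQ hφ hinj (D.phiQ hφ (tp D n (D.inE (D.kp c)))) * D.T hφ hinj ^ n) *
          D.T hφ hinj ^ (-n) := by group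
      _ = D.oQ hφ hinj (D.phiQ hφ e) * D.oQ hφ hinj (D.phiQ hφ (D.inE (D.kp c'))) *
          (D.oQ hφ hinj (D.phiQ hφ (tp D n e')) * D.T hφ hinj ^ n) *
          D.oQ hφ hinj (D.phiQ hφ (D.inE (D.kp c))) *
          D.T hφ hinj ^ (-n) := by rw [← h3]; group
      _ = _ := by rw [← h2]; group
  have h2 : D.phi (tp D n e') = D.ofG ((D.kp c' : G)⁻¹ * D.t₀) * D.u * D.ofG g₁⁻¹ * (D.u)⁻¹ *
      D.ofG (D.t₀⁻¹ * (a : G)⁻¹) := by
    have h3 := congrArg D.phi h1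
    rw [map_mul, map_mul, map_mul, map_one, hφ.1, hφ.1, he] at h3
    have h4 : D.phi (tp D n e') = (D.ofG (D.kp c' : G))⁻¹ *
        (D.x * D.ofG g₁ * (D.x)⁻¹)⁻¹ * 1 * (D.ofG (a : G))⁻¹ := by
      rw [← h3]
      group
    rw [h4]
    simp only [map_inv, map_mul, Dat.x]
    group
  have hb' : g₂ ∈ D.B := by
    by_contra hb'
    exact (hVL G D hVC e' n (fun h => hp (toAdd_eq_zero.1 h))).1 g₂ hb' he' _ _ _ h2
  have hub : D.u * D.ofG g₂ = D.ofG g₂ * D.u :=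
    HNNExtension.t_mul_of (φ := MulEquiv.refl D.B) ⟨g₂, hb'⟩
  have hk : D.h (D.t₀ * g₂ * D.t₀⁻¹) = 1 := by
    rw [map_mul, map_mul, D.h_B g₂ hb', mul_one, ← map_mul, mul_inv_cancel, map_one]
  have h3 : e' = D.inE ⟨D.t₀ * g₂ * D.t₀⁻¹, hk⟩ := by
    apply hinj
    rw [he', hφ.1]
    change _ = D.ofG (D.t₀ * g₂ * D.t₀⁻¹)
    simp only [Dat.x, map_mul, map_inv]
    calc D.ofG D.t₀ * D.u * D.ofG g₂ * (D.ofG D.t₀ * D.u)⁻¹
        = D.ofG D.t₀ * (D.u * D.ofG g₂) * (D.u)⁻¹ * (D.ofG D.t₀)⁻¹ := by group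
      _ = _ := by rw [hub]; group
  obtain ⟨a', ha'⟩ := tp_inE hφ hinj n ⟨D.t₀ * g₂ * D.t₀⁻¹, hk⟩
  have h4 := congrArg D.phi h1
  rw [h3, ha', map_mul, map_mul, map_mul, map_one, hφ.1, hφ.1, hφ.1, he] at h4
  refine x_conj_ofG (D := D) (g' := ((D.kp c' : G) * a' * a)⁻¹) ?_
  rw [map_inv, eq_inv_iff_mul_eq_one, ← h4]
  simp only [map_mul]
  group

theorem conj1 (hφ : D.IsPhi D.phi) (hinj : Function.Injective D.phi) {b : G}
    (hb : D.h b = 1) (hx : (D.oQ hφ hinj D.xQ)⁻¹ * D.psiG hφ hinj (D.t₀ * b * D.t₀⁻¹) *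
      D.oQ hφ hinj D.xQ ∈ CO hφ hinj) :
    ∃ e, D.phi e = (D.u)⁻¹ * D.ofG b * D.u ∧ D.oQ hφ hinj (D.phiQ hφ e) =
      (D.oQ hφ hinj D.xQ)⁻¹ * D.psiG hφ hinj (D.t₀ * b * D.t₀⁻¹) * D.oQ hφ hinj D.xQ := by
  obtain ⟨_, ⟨e, rfl⟩, h⟩ := hx
  have hk : D.h (D.t₀ * b * D.t₀⁻¹) = 1 := by
    rw [map_mul, map_mul, hb, mul_one, ← map_mul, mul_inv_cancel, map_one]
  refine ⟨e, ?_, h⟩
  rw [D.psiG_of_one hφ hinj hk, ← map_inv, ← map_mul, ← map_mul] at h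
  have h1 := congrArg Subtype.val (oQ_inj D hφ hinj h)
  rw [D.phiQ_coe] at h1
  rw [h1]
  change (D.x)⁻¹ * D.phi (D.inE ⟨D.t₀ * b * D.t₀⁻¹, hk⟩) * D.x = _
  rw [hφ.1]
  simp only [Dat.x, map_mul, map_inv]
  group

theorem conj3 (hφ : D.IsPhi D.phi) (hinj : Function.Injective D.phi) {g : G}
    (hg : D.h g = 1) (hx : D.oQ hφ hinj D.xQ * D.psiG hφ hinj g *
      (D.oQ hφ hinj D.xQ)⁻¹ ∈ CO hφ hinj) :
    ∃ e, D.phi e = D.x * D.ofG g * (D.x)⁻¹ ∧ D.oQ hφ hinj (D.phiQ hφ e) =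
      D.oQ hφ hinj D.xQ * D.psiG hφ hinj g * (D.oQ hφ hinj D.xQ)⁻¹ := by
  obtain ⟨_, ⟨e, rfl⟩, h⟩ := hx
  refine ⟨e, ?_, h⟩
  rw [D.psiG_of_one hφ hinj hg, ← map_inv, ← map_mul, ← map_mul] at h
  have h1 := congrArg Subtype.val (oQ_inj D hφ hinj h)
  rw [D.phiQ_coe] at h1
  rw [h1]
  change D.x * D.phi (D.inE ⟨g, hg⟩) * (D.x)⁻¹ = _
  rw [hφ.1]

theorem all_one (hVA : StVA) (hVB : StVB) (hφ : D.IsPhi D.phi)
    (hinj : Function.Injective D.phi) {g₁ g₂ b b' : G} (h₁ : D.h g₁ = 1) (h₂ : D.h g₂ = 1)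
    (hb : D.h b = 1) (hb' : D.h b' = 1)
    (H : D.oQ hφ hinj D.xQ * D.psiG hφ hinj g₁ * (D.oQ hφ hinj D.xQ)⁻¹ *
      D.psiG hφ hinj (D.t₀ * b'⁻¹ * D.t₀⁻¹) *
      (D.oQ hφ hinj D.xQ * D.psiG hφ hinj g₂⁻¹ * (D.oQ hφ hinj D.xQ)⁻¹) *
      D.psiG hφ hinj (D.t₀ * b⁻¹ * D.t₀⁻¹) = 1) (hg : g₁ ∉ D.B) : b ∈ D.B := by
  have hk : ∀ b : G, D.h b = 1 → D.h (D.t₀ * b⁻¹ * D.t₀⁻¹) = 1 := by
    intro b hb
    rw [map_mul, map_mul, map_inv, hb, inv_one, mul_one, ← map_mul, mul_inv_cancel, map_one]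
  have h₂' : D.h g₂⁻¹ = 1 := by rw [map_inv, h₂, inv_one]
  rw [D.psiG_of_one hφ hinj h₁, D.psiG_of_one hφ hinj h₂', D.psiG_of_one hφ hinj (hk b hb),
    D.psiG_of_one hφ hinj (hk b' hb')] at H
  simp only [← map_inv, ← map_mul] at H
  rw [← map_one (D.oQ hφ hinj)] at H
  have h1 := congrArg Subtype.val (oQ_inj D hφ hinj H)
  refine ah_case hVA hVB (g₂ := g₂) (b' := b') ?_ hg
  have h2 : D.x * D.phi (D.inE ⟨g₁, h₁⟩) * (D.x)⁻¹ *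
      D.phi (D.inE ⟨D.t₀ * b'⁻¹ * D.t₀⁻¹, hk b' hb'⟩) *
      (D.x * D.phi (D.inE ⟨g₂⁻¹, h₂'⟩) * (D.x)⁻¹) *
      D.phi (D.inE ⟨D.t₀ * b⁻¹ * D.t₀⁻¹, hk b hb⟩) = 1 := h1
  simp only [hφ.1, Dat.x, map_mul, map_inv] at h2
  have h3 : D.u * D.ofG g₁ * (D.u)⁻¹ = (D.ofG D.t₀)⁻¹ * (D.ofG D.t₀ * D.u * D.ofG g₁ *
      (D.ofG D.t₀ * D.u)⁻¹ * (D.ofG D.t₀ * (D.ofG b')⁻¹ * (D.ofG D.t₀)⁻¹) *
      (D.ofG D.t₀ * D.u * (D.ofG g₂)⁻¹ * (D.ofG D.t₀ * D.u)⁻¹) *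
      (D.ofG D.t₀ * (D.ofG b)⁻¹ * (D.ofG D.t₀)⁻¹)) * D.ofG D.t₀ * D.ofG b *
      (D.u * D.ofG g₂ * (D.u)⁻¹) * D.ofG b' := by group
  rw [h3, h2]
  group

/-- The theorem for the extension. -/
theorem stVM (hVA : StVA) (hVB : StVB) (hVL : StVL) : StVM := by
  intro G _ D hVC A _ i v hExt g₁ g₂ b b' h hg
  have hφ := D.isPhi_phi
  have hinj : Function.Injective D.phi := phi_inj hVC.w
  obtain ⟨ψ, hψ1, hψ2, hψ⟩ := D.exists_psi hφ hinj hExt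
  have hψi : ∀ g, ψ (i g) = D.psiG hφ hinj g := fun g => DFunLike.congr_fun hψ1 g
  have hT := D.psiG_t₀ hφ hinj
  have H : D.oQ hφ hinj D.xQ * D.psiG hφ hinj g₁ * (D.oQ hφ hinj D.xQ)⁻¹ *
      D.psiG hφ hinj (D.t₀ * b'⁻¹ * D.t₀⁻¹) *
      (D.oQ hφ hinj D.xQ * D.psiG hφ hinj g₂⁻¹ * (D.oQ hφ hinj D.xQ)⁻¹) *
      D.psiG hφ hinj (D.t₀ * b⁻¹ * D.t₀⁻¹) = 1 := by
    have h1 := congrArg ψ h
    simp only [map_mul, map_inv, hψi, hψ2, Dat.psiv] at h1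
    simp only [map_mul, map_inv, hT]
    calc _ = D.T hφ hinj * ((D.T hφ hinj)⁻¹ * D.oQ hφ hinj D.xQ * D.psiG hφ hinj g₁ *
          ((D.T hφ hinj)⁻¹ * D.oQ hφ hinj D.xQ)⁻¹) * (D.psiG hφ hinj b')⁻¹ *
          ((D.T hφ hinj)⁻¹ * D.oQ hφ hinj D.xQ * (D.psiG hφ hinj g₂)⁻¹ *
          ((D.T hφ hinj)⁻¹ * D.oQ hφ hinj D.xQ)⁻¹) * (D.psiG hφ hinj b)⁻¹ *
          (D.T hφ hinj)⁻¹ := by group
      _ = 1 := by rw [h1]; group
  have hcj : ∀ b : G, D.h (D.t₀ * b⁻¹ * D.t₀⁻¹) = 1 ↔ D.h b = 1 := by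
    intro b
    have h1 : D.h (D.t₀ * b⁻¹ * D.t₀⁻¹) = (D.h b)⁻¹ := by
      rw [map_mul, map_mul, map_inv, map_inv, mul_comm (D.h D.t₀), mul_inv_cancel_right]
    rw [h1, inv_eq_one]
  have hX : D.oQ hφ hinj D.xQ ∉ CO hφ hinj := by
    rw [mem_CO]
    exact x_not hVC.w
  obtain ⟨c1, c2, c3⟩ := hVB (D.Om hφ hinj) (XA (D.phiQ hφ).range (D.tauQ hφ hinj)) _
    (hVA _ _ _) false _ (oQ_XA hφ hinj D.xQ) hX _ (psiG_XA hφ hinj g₁) _
    (psiG_XA hφ hinj (D.t₀ * b'⁻¹ * D.t₀⁻¹)) _ (psiG_XA hφ hinj g₂⁻¹) _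
    (psiG_XA hφ hinj (D.t₀ * b⁻¹ * D.t₀⁻¹)) H
  have hh := congrArg (hO hφ hinj) H
  simp only [map_mul, hO_psiG, hO_oQ, mul_one, one_mul, map_one, map_inv, inv_one] at hh
  by_cases k1 : D.h g₁ = 1
  · by_cases k2 : D.oQ hφ hinj D.xQ * D.psiG hφ hinj g₁ * (D.oQ hφ hinj D.xQ)⁻¹ ∈ CO hφ hinj
    · obtain ⟨k3, k4⟩ := c3 ((psiG_CO hφ hinj g₁).2 k1) k2
      have k3' := (psiG_CO hφ hinj _).1 k3
      have k3'' : D.h g₂ = 1 := by rwa [map_inv, inv_eq_one] at k3'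
      by_cases k5 : D.h b' = 1
      · refine all_one hVA hVB hφ hinj k1 k3'' ?_ k5 H hg
        rw [k1, k3'', k5] at hh
        simpa using hh
      · exfalso
        obtain ⟨e, he, he2⟩ := conj3 hφ hinj k1 k2
        obtain ⟨e', he', he2'⟩ := conj3 hφ hinj k3' k4
        refine hg (case3 (c := D.t₀ * b⁻¹ * D.t₀⁻¹) hVL hVC hφ hinj
          (fun h => k5 ((hcj b').1 h)) he he' ?_)
        rw [he2, he2']
        exact H
    · obtain ⟨k3, k4, k5⟩ := c2 ((psiG_CO hφ hinj g₁).2 k1) k2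
      have k3' := (psiG_CO hφ hinj _).1 k3
      have k3'' : D.h g₂ = 1 := by rwa [map_inv, inv_eq_one] at k3'
      exact all_one hVA hVB hφ hinj k1 k3'' ((hcj b).1 ((psiG_CO hφ hinj _).1 k4))
        ((hcj b').1 ((psiG_CO hφ hinj _).1 k5)) H hg
  · obtain ⟨k3, k4, k5, k6⟩ := c1 (fun h => k1 ((psiG_CO hφ hinj _).1 h))
    have k3' := (hcj b).1 ((psiG_CO hφ hinj _).1 k3)
    have k4' := (hcj b').1 ((psiG_CO hφ hinj _).1 k4)
    obtain ⟨e, he, he2⟩ := conj1 hφ hinj (b := b⁻¹) (by rw [map_inv, k3', inv_one]) k5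
    obtain ⟨e', he', he2'⟩ := conj1 hφ hinj (b := b'⁻¹) (by rw [map_inv, k4', inv_one]) k6
    refine case1 (g₂ := g₂) hVL hVC hφ hinj k1 he he' ?_
    rw [he2, he2']
    calc _ = (D.oQ hφ hinj D.xQ)⁻¹ * (D.oQ hφ hinj D.xQ * D.psiG hφ hinj g₁ *
          (D.oQ hφ hinj D.xQ)⁻¹ * D.psiG hφ hinj (D.t₀ * b'⁻¹ * D.t₀⁻¹) *
          (D.oQ hφ hinj D.xQ * D.psiG hφ hinj g₂⁻¹ * (D.oQ hφ hinj D.xQ)⁻¹) *
          D.psiG hφ hinj (D.t₀ * b⁻¹ * D.t₀⁻¹)) * D.oQ hφ hinj D.xQ := by group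
      _ = 1 := by rw [H]; group

end

end Pool.Agent.Lib.MP_551055_al.N5V
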