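import Mathlib
import Pool.Agent.Lib.MP_551055_al.Trim.N4.ArtThree_4
import Pool.Agent.Lib.MP_551055_al.Trim.N5.PW_54
import Pool.Agent.Lib.MP_551055_al.Trim.N5.StmtsV28
import Pool.Agent.Lib.MP_551055_al.Trim.X.MP_e6f638_al.I1
import Pool.Agent.Lib.MP_551055_al.Trim.X.MP_e6f638_al.I3
import Pool.Agent.Lib.MP_551055_al.Trim.X.MP_e6f638_al.Main
import Pool.Agent.Lib.MP_551055_al.Trim.X.MP_e6f638_al.Stmts

/-!
# Module VP: the conditions for even Artin groups
-/

set_option autoImplicit false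

namespace Pool.Agent.Lib.MP_551055_al
end Pool.Agent.Lib.MP_551055_al

namespace Pool.Agent.Lib.MP_e6f638_al
end Pool.Agent.Lib.MP_e6f638_al

namespace Pool.Agent.Lib.MP_551055_al.N4
end Pool.Agent.Lib.MP_551055_al.N4

namespace Pool.Agent.Lib.MP_551055_al.N5V

open Pool.Agent.Lib.MP_551055_al

open Pool.Agent.Lib.MP_e6f638_al (Dat EA gen par rho del IsDatOf stI1 stI3 stH_all)

open Pool.Agent.Lib.MP_551055_al.N4

open Multiplicative

/-- Module VP. The conditions for even Artin groups. -/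
theorem stVP : StVP := by
  intro S _ l hl hno u D hD
  refine ⟨stI3 stI1 stH_all S l hl hno u D hD, Art4.wt hl hD, ?_⟩
  intro i hi b hb n hn hc
  obtain ⟨s, hs, hls⟩ := hD.t i
  rw [hs] at hc ⊢
  rw [hD.B] at hb hc
  have hus : l u s = 2 := hls.trans hi
  refine stPW _ (del l u) (fun a c => hl a c) s {c | l u c = 1} ?_ ?_ b hb n hn hc
  · intro h
    have h1 : l u s = 1 := h
    omega
  · intro y hy h2
    have hy1 : l u y = 1 := hy
    refine hno s u y s.2 ?_ y.2.symm ⟨by rw [hl]; exact hus, h2, hy1⟩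
    rintro h
    have h3 : s = y := Subtype.ext h
    rw [← h3] at hy1
    omega

end Pool.Agent.Lib.MP_551055_al.N5V
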