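import Mathlib
import Pool.Agent.Lib.MP_551055_al.Trim.N5.StmtsK28
import Pool.Agent.Lib.MP_551055_al.Trim.N5.StmtsV28
import Pool.Agent.Lib.MP_551055_al.Trim.RI.Stmts
import Pool.Agent.Lib.MP_551055_al.Trim.W17.Peel
import Pool.Agent.Lib.MP_551055_al.Trim.X.MP_e6f638_al.I1
import Pool.Agent.Lib.MP_551055_al.Trim.X.MP_e6f638_al.I2
import Pool.Agent.Lib.MP_551055_al.Trim.X.MP_e6f638_al.Stmts

/-!
# Module VS: conjugates of standard subgroups by a generator
-/

set_option autoImplicit false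

namespace Pool.Agent.Lib.MP_551055_al
end Pool.Agent.Lib.MP_551055_al

namespace Pool.Agent.Lib.MP_e6f638_al
end Pool.Agent.Lib.MP_e6f638_al

namespace Pool.Agent.Lib.MP_551055_al.N5V

open Pool.Agent.Lib.MP_551055_al

open Pool.Agent.Lib.MP_e6f638_al (Dat EA gen par rho del IsDatOf stI2 liftEA liftEA_gen gen_rel closure_gen hom_ext_EA)

section

variable {S : Type} {l : S → S → ℕ}

/-- The endomorphism which inverts all generators. -/
noncomputable def invEA (l : S → S → ℕ) : EA l →* EA l :=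
  liftEA l (fun s => (gen l s)⁻¹) (fun s t => by
    rw [← mul_inv_rev, ← mul_inv_rev, inv_pow, inv_pow, gen_rel])

theorem invEA_gen (s : S) : invEA l (gen l s) = (gen l s)⁻¹ := liftEA_gen _ _ _ _

theorem invEA_invEA (g : EA l) : invEA l (invEA l g) = g := by
  have h : (invEA l).comp (invEA l) = MonoidHom.id _ := hom_ext_EA l (fun s => by
    rw [MonoidHom.comp_apply, invEA_gen, map_inv, invEA_gen, inv_inv, MonoidHom.id_apply])
  exact DFunLike.congr_fun h g

theorem invEA_mem {X : Set S} {g : EA l} (h : g ∈ par l X) : invEA l g ∈ par l X := by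
  unfold par at h ⊢
  induction h using Subgroup.closure_induction with
  | mem x hx =>
    obtain ⟨s, hs, rfl⟩ := hx
    rw [invEA_gen]
    exact inv_mem (Subgroup.subset_closure ⟨s, hs, rfl⟩)
  | one => rw [map_one]; exact one_mem _
  | mul x y _ _ hx hy => rw [map_mul]; exact mul_mem hx hy
  | inv x _ hx => rw [map_inv]; exact inv_mem hx

theorem invEA_mem_iff {X : Set S} {g : EA l} : invEA l g ∈ par l X ↔ g ∈ par l X :=
  ⟨fun h => by simpa only [invEA_invEA] using invEA_mem h, invEA_mem⟩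

theorem par_map {u : S} {i : EA (del l u) →* EA l} (hi : ∀ s, i (gen (del l u) s) = gen l s)
    (X : Set {x : S // x ≠ u}) : (par (del l u) X).map i = par l (Subtype.val '' X) := by
  unfold par
  rw [MonoidHom.map_closure, Set.image_image, Set.image_image]
  congr 1
  ext y
  constructor
  · rintro ⟨s, hs, rfl⟩
    exact ⟨s, hs, (hi s).symm⟩
  · rintro ⟨s, hs, rfl⟩
    exact ⟨s, hs, hi s⟩

theorem posVS (hVM : StVM) (hVP : StVP) [Finite S] (hl : ∀ s t, l s t = l t s)
    (hno : ∀ s t v : S, s ≠ t → s ≠ v → t ≠ v → ¬ (l s t = 2 ∧ l s v = 2 ∧ l t v = 1))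
    (u : S) {g₁ g₂ b b' : EA l} (h₁ : g₁ ∈ par l {u}ᶜ) (h₂ : g₂ ∈ par l {u}ᶜ)
    (hb : b ∈ par l {u}ᶜ) (hb' : b' ∈ par l {u}ᶜ)
    (he : gen l u * g₁ * (gen l u)⁻¹ = b * (gen l u * g₂ * (gen l u)⁻¹) * b')
    (hn : g₁ ∉ par l {y | y ≠ u ∧ l u y = 1}) : b ∈ par l {y | y ≠ u ∧ l u y = 1} := by
  by_cases hs : ∃ s : {x : S // x ≠ u}, l u s ≠ 1
  · obtain ⟨D, hD, i, hi, hinj, hext⟩ := stI2 S l hl u hs
    have hall : (⊤ : Subgroup (EA (del l u))).map i = par l {u}ᶜ := by
      have h1 := par_map hi (Set.univ : Set {x : S // x ≠ u})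
      have h2 : par (del l u) Set.univ = ⊤ := by
        unfold par
        rw [Set.image_univ]
        exact closure_gen _
      rw [h2] at h1
      rw [h1]
      congr 1
      ext y
      simp
    have hBB : D.B.map i = par l {y | y ≠ u ∧ l u y = 1} := by
      rw [hD.B, par_map hi]
      congr 1
      ext y
      constructor
      · rintro ⟨s, hs, rfl⟩
        exact ⟨s.2, hs⟩
      · rintro ⟨h1, h2⟩
        exact ⟨⟨y, h1⟩, h2, rfl⟩
    rw [← hall] at h₁ h₂ hb hb'
    obtain ⟨x₁, -, rfl⟩ := h₁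
    obtain ⟨x₂, -, rfl⟩ := h₂
    obtain ⟨y, -, rfl⟩ := hb
    obtain ⟨y', -, rfl⟩ := hb'
    rw [← hBB] at hn ⊢
    have h3 : x₁ ∉ D.B := fun h => hn ⟨x₁, h, rfl⟩
    exact ⟨y, hVM _ D (hVP S l hl hno u D hD) (EA l) i (gen l u) hext x₁ x₂ y y' he h3, rfl⟩
  · have hs' : {y | y ≠ u ∧ l u y = 1} = {u}ᶜ := by
      ext y
      constructor
      · rintro ⟨h1, -⟩
        exact h1
      · intro h1
        refine ⟨h1, ?_⟩
        by_contra h2
        exact hs ⟨⟨y, h1⟩, h2⟩
    rw [hs']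
    exact hb

end

/-- Module VS. -/
theorem stVS (hVM : StVM) (hVP : StVP) : StVS := by
  intro S _ l hl hno u ε g₁ h₁ g₂ h₂ b hb b' hb' he hn
  rcases Int.units_eq_one_or ε with rfl | rfl
  · refine posVS hVM hVP hl hno u h₁ h₂ hb hb' ?_ hn
    simpa only [Units.val_one, zpow_one] using he
  · rw [← invEA_mem_iff]
    rw [← invEA_mem_iff] at hn
    refine posVS hVM hVP hl hno u (invEA_mem h₁) (invEA_mem h₂) (invEA_mem hb) (invEA_mem hb') ?_ hn
    have h4 := congrArg (invEA l) he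
    simpa only [Units.val_neg, Units.val_one, zpow_neg, zpow_one, inv_inv, map_mul, map_inv,
      invEA_gen] using h4

end Pool.Agent.Lib.MP_551055_al.N5V
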