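import Mathlib
import Pool.Agent.Lib.MP_551055_al.Trim.N5.StmtsV28
import Pool.Agent.Lib.MP_551055_al.Trim.N5.VA_42
import Pool.Agent.Lib.MP_551055_al.Trim.N5.VB_38
import Pool.Agent.Lib.MP_551055_al.Trim.N5.VL_95
import Pool.Agent.Lib.MP_551055_al.Trim.N5.VM_28
import Pool.Agent.Lib.MP_551055_al.Trim.N5.VP_54
import Pool.Agent.Lib.MP_551055_al.Trim.N5.VS_29

/-!
# Conjugates of standard subgroups by a generator, without hypotheses
-/

set_option autoImplicit false

namespace Pool.Agent.Lib.MP_551055_al.N5V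

/-- The theorem on conjugates by a generator. -/
theorem stVSf : StVS := stVS (stVM stVA stVB stVL) stVP

end Pool.Agent.Lib.MP_551055_al.N5V
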